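import Pool.Agent.T2h61.CG.Tw

/-!
# B8
-/

set_option autoImplicit false

open NumberField IsDedekindDomain Matrix Polynomial

noncomputable section

namespace Pool.Agent.T2h61.CG.TBIG

section

variable {F : Type} [Field F] [NumberField F] {n : ℕ}

/-- vectors near `e_i` -/
def Cl (i : Fin n) (N : ℕ) (u : Fin n → 𝓞 F) : Prop :=
  ∀ k, (N : 𝓞 F) ∣ u k - (Pi.single i 1 : Fin n → 𝓞 F) k

theorem Cl.mono {i : Fin n} {N N' : ℕ} (h : N ∣ N') {u : Fin n → 𝓞 F} (hu : Cl i N' u) :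
    Cl i N u := fun k => (by exact_mod_cast Nat.cast_dvd_cast h : (N : 𝓞 F) ∣ N').trans (hu k)

/-- null families -/
def Nu (i : Fin n) (γ : (Fin n → 𝓞 F) → GL (Fin n) F) : Prop :=
  (∀ N1 : ℕ, N1 ≠ 0 → ∃ N : ℕ, N ≠ 0 ∧ ∀ u, Cl i N u → Cg N1 (γ u)) ∧
  ∀ (W : Type) [AddCommGroup W] (c : GL (Fin n) F → W), Adl c →
    ∃ N : ℕ, N ≠ 0 ∧ ∀ u, Cl i N u → c (γ u) = 0

variable {i : Fin n}

theorem Nu.one : Nu i (fun _ => (1 : GL (Fin n) F)) := by
  refine ⟨fun N1 _ => ⟨1, one_ne_zero, fun u _ => cg_one N1⟩, fun W _ c hc => ?_⟩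
  obtain ⟨N, -, h⟩ := hc
  exact ⟨1, one_ne_zero, fun u _ => adl_one h⟩

theorem Nu.mul {γ δ : (Fin n → 𝓞 F) → GL (Fin n) F} (h : Nu i γ) (h' : Nu i δ) :
    Nu i (fun u => γ u * δ u) := by
  refine ⟨fun N1 h1 => ?_, fun W _ c hc => ?_⟩
  · obtain ⟨N, hN, a⟩ := h.1 N1 h1
    obtain ⟨N', hN', b⟩ := h'.1 N1 h1
    exact ⟨N * N', mul_ne_zero hN hN', fun u hu =>
      cg_mul (a u (hu.mono (dvd_mul_right _ _))) (b u (hu.mono (dvd_mul_left _ _)))⟩
  · obtain ⟨N0, h0, hadd⟩ := id hc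
    obtain ⟨N, hN, a⟩ := h.1 N0 h0
    obtain ⟨N', hN', b⟩ := h'.1 N0 h0
    obtain ⟨M, hM, a'⟩ := h.2 W c hc
    obtain ⟨M', hM', b'⟩ := h'.2 W c hc
    refine ⟨N * N' * (M * M'), mul_ne_zero (mul_ne_zero hN hN') (mul_ne_zero hM hM'), fun u hu => ?_⟩
    have u1 : Cl i (N * N') u := hu.mono (dvd_mul_right _ _)
    have u2 : Cl i (M * M') u := hu.mono (dvd_mul_left _ _)
    rw [hadd _ _ (a u (u1.mono (dvd_mul_right _ _))) (b u (u1.mono (dvd_mul_left _ _))),
      a' u (u2.mono (dvd_mul_right _ _)), b' u (u2.mono (dvd_mul_left _ _)), add_zero]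

theorem Nu.inv {γ : (Fin n → 𝓞 F) → GL (Fin n) F} (h : Nu i γ) : Nu i (fun u => (γ u)⁻¹) := by
  refine ⟨fun N1 h1 => ?_, fun W _ c hc => ?_⟩
  · obtain ⟨N, hN, a⟩ := h.1 N1 h1
    exact ⟨N, hN, fun u hu => cg_inv (a u hu)⟩
  · obtain ⟨N0, h0, hadd⟩ := id hc
    obtain ⟨N, hN, a⟩ := h.1 N0 h0
    obtain ⟨M, hM, a'⟩ := h.2 W c hc
    refine ⟨N * M, mul_ne_zero hN hM, fun u hu => ?_⟩
    rw [adl_inv hadd (a u (hu.mono (dvd_mul_right _ _))), a' u (hu.mono (dvd_mul_left _ _)),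
      neg_zero]

theorem Nu.conj {γ : (Fin n → 𝓞 F) → GL (Fin n) F} (h : Nu i γ) (g : GL (Fin n) F) :
    Nu i (fun u => g * γ u * g⁻¹) := by
  refine ⟨fun N1 h1 => ?_, fun W _ c hc => ?_⟩
  · obtain ⟨N', hN', b⟩ := cg_conj g h1
    obtain ⟨N, hN, a⟩ := h.1 N' hN'
    exact ⟨N, hN, fun u hu => b _ (a u hu)⟩
  · exact h.2 W _ (adl_conj hc g)

/-- the family is `g` up to a null family -/
def Rl (i : Fin n) (γ : (Fin n → 𝓞 F) → GL (Fin n) F) (g : GL (Fin n) F) : Prop :=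
  Nu i (fun u => γ u * g⁻¹)

theorem Rl.mul {γ δ : (Fin n → 𝓞 F) → GL (Fin n) F} {g h : GL (Fin n) F} (h1 : Rl i γ g)
    (h2 : Rl i δ h) : Rl i (fun u => γ u * δ u) (g * h) := by
  have := Nu.mul h1 (Nu.conj h2 g)
  unfold Rl
  convert this using 1
  funext u
  group

theorem Rl.inv {γ : (Fin n → 𝓞 F) → GL (Fin n) F} {g : GL (Fin n) F} (h1 : Rl i γ g) :
    Rl i (fun u => (γ u)⁻¹) g⁻¹ := by
  have := Nu.conj (Nu.inv h1) g⁻¹
  unfold Rl
  convert this using 1
  funext u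
  group

/-- small functions -/
def Sm (i : Fin n) (f : (Fin n → 𝓞 F) → F) : Prop :=
  ∀ N1 : ℕ, N1 ≠ 0 → ∃ N : ℕ, N ≠ 0 ∧ ∀ u, Cl i N u → ∃ y : 𝓞 F, f u = (N1 : F) * y

theorem Sm.nu (hKU : KU F n) {f : (Fin n → 𝓞 F) → F} (hf : Sm i f) (a b : Fin n) (hab : a ≠ b) :
    Nu i (fun u => tv a b hab (f u)) := by
  refine ⟨fun N1 h1 => ?_, fun W _ c hc => ?_⟩
  · obtain ⟨N, hN, h⟩ := hf N1 h1
    refine ⟨N, hN, fun u hu => ?_⟩
    obtain ⟨y, hy⟩ := h u hu
    show Cg N1 (tv a b hab (f u))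
    rw [hy]
    exact cg_tv a b hab y
  · obtain ⟨N1, h1, h2⟩ := hKU W c hc
    obtain ⟨N, hN, h⟩ := hf N1 h1
    refine ⟨N, hN, fun u hu => ?_⟩
    obtain ⟨y, hy⟩ := h u hu
    show c (tv a b hab (f u)) = 0
    rw [hy]
    exact h2 a b hab y

theorem exists_den (x : F) : ∃ d : ℕ, d ≠ 0 ∧ ∃ y : 𝓞 F, (d : F) * x = y := by
  obtain ⟨⟨a, b⟩, hab⟩ := IsLocalization.surj (nonZeroDivisors (𝓞 F)) x
  have hb : (b : 𝓞 F) ≠ 0 := nonZeroDivisors.coe_ne_zero b
  have h1 : Ideal.absNorm (Ideal.span {(b : 𝓞 F)}) ≠ 0 := by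
    rw [Ne, Ideal.absNorm_eq_zero_iff, Ideal.span_singleton_eq_bot]; exact hb
  have h2 : ((Ideal.absNorm (Ideal.span {(b : 𝓞 F)}) : ℕ) : 𝓞 F) ∈ Ideal.span {(b : 𝓞 F)} :=
    Ideal.absNorm_mem _
  obtain ⟨c, hc⟩ := Ideal.mem_span_singleton.1 h2
  refine ⟨_, h1, c * a, ?_⟩
  have h3 : ((Ideal.absNorm (Ideal.span {(b : 𝓞 F)}) : ℕ) : F) = (b : 𝓞 F) * (c : F) := by
    have := congrArg (algebraMap (𝓞 F) F) hc
    simpa using this
  rw [h3]
  have h4 : x * algebraMap (𝓞 F) F (b : 𝓞 F) = algebraMap (𝓞 F) F a := hab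
  have h5 : ((c * a : 𝓞 F) : F) = (c : F) * (a : F) := by
    exact map_mul (algebraMap (𝓞 F) F) c a
  rw [h5]
  change _ = (c : F) * algebraMap (𝓞 F) F a
  rw [← h4]
  change (algebraMap (𝓞 F) F b) * (c : F) * x = (c : F) * (x * algebraMap (𝓞 F) F b)
  ring

theorem coe_mul' (x y : 𝓞 F) : ((x * y : 𝓞 F) : F) = (x : F) * (y : F) :=
  map_mul (algebraMap (𝓞 F) F) x y

theorem coe_sub' (x y : 𝓞 F) : ((x - y : 𝓞 F) : F) = (x : F) - (y : F) :=
  map_sub (algebraMap (𝓞 F) F) x y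

theorem coe_nat' (N : ℕ) : ((N : 𝓞 F) : F) = (N : F) := map_natCast (algebraMap (𝓞 F) F) N

theorem sm_base (t : F) (k : Fin n) :
    Sm i (fun u => t * ((u k : F) - (Pi.single i 1 : Fin n → F) k)) := by
  intro N1 h1
  obtain ⟨d, hd, y, hy⟩ := exists_den t
  refine ⟨N1 * d, mul_ne_zero h1 hd, fun u hu => ?_⟩
  obtain ⟨z, hz⟩ := hu k
  refine ⟨y * z, ?_⟩
  have h2 := congrArg (algebraMap (𝓞 F) F) hz
  have h3 : ((u k - (Pi.single i 1 : Fin n → 𝓞 F) k : 𝓞 F) : F) =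
      (u k : F) - (Pi.single i 1 : Fin n → F) k := by
    rw [coe_sub']
    congr 1
    by_cases h : k = i
    · subst h; rw [Pi.single_eq_same, Pi.single_eq_same]; exact map_one _
    · rw [Pi.single_eq_of_ne h, Pi.single_eq_of_ne h]; exact map_zero _
  simp only
  rw [← h3]
  have h4 : ((u k - (Pi.single i 1 : Fin n → 𝓞 F) k : 𝓞 F) : F) = (N1 : F) * d * (z : F) := by
    rw [hz, coe_mul', coe_nat']
    push_cast
    rfl
  rw [h4, coe_mul', ← hy]
  ring

theorem Sm.mul_int {f : (Fin n → 𝓞 F) → F} (hf : Sm i f) (g : (Fin n → 𝓞 F) → 𝓞 F) :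
    Sm i (fun u => f u * (g u : F)) := by
  intro N1 h1
  obtain ⟨N, hN, h⟩ := hf N1 h1
  refine ⟨N, hN, fun u hu => ?_⟩
  obtain ⟨y, hy⟩ := h u hu
  refine ⟨y * g u, ?_⟩
  simp only
  rw [hy, coe_mul', mul_assoc]

theorem Sm.congr {f g : (Fin n → 𝓞 F) → F} (hf : Sm i f) (h : ∀ u, f u = g u) : Sm i g := by
  have : f = g := funext h
  rwa [← this]

theorem tv_eq2 (a b : Fin n) (hab : a ≠ b) (x y : F)
    (h : (Pi.single b y : Fin n → F) ⬝ᵥ Pi.single a x = 0) :
    tw (Pi.single a x) (Pi.single b y) h = tv a b hab (x * y) := by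
  rw [tv_eq]
  apply Units.ext
  rw [tw_val, tw_val]
  congr 1
  ext p q
  rw [Matrix.vecMulVec_apply, Matrix.vecMulVec_apply]
  by_cases hp : p = a
  · subst hp
    rw [Pi.single_eq_same, Pi.single_eq_same]
    by_cases hq : q = b
    · subst hq
      rw [Pi.single_eq_same, Pi.single_eq_same, mul_one]
    · rw [Pi.single_eq_of_ne hq, Pi.single_eq_of_ne hq, mul_zero, mul_zero]
  · rw [Pi.single_eq_of_ne hp, Pi.single_eq_of_ne hp, zero_mul, zero_mul]

theorem al_eq (k l : Fin n) (x : Fin n → F) :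
    al k l x = Pi.single k (x l) - Pi.single l (x k) := by
  funext a
  unfold al
  rw [Pi.sub_apply]
  congr 1
  · by_cases h : a = k
    · subst h; rw [if_pos rfl, Pi.single_eq_same]
    · rw [if_neg h, Pi.single_eq_of_ne h]
  · by_cases h : a = l
    · subst h; rw [if_pos rfl, Pi.single_eq_same]
    · rw [if_neg h, Pi.single_eq_of_ne h]

theorem al_dot_single {k l a : Fin n} (hk : a ≠ k) (hl : a ≠ l) (x : Fin n → F) (t : F) :
    al k l x ⬝ᵥ Pi.single a t = 0 := by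
  rw [dotProduct_single, al_eq, Pi.sub_apply, Pi.single_eq_of_ne hk, Pi.single_eq_of_ne hl, sub_zero,
    zero_mul]

end

theorem t_BIG (hKU : S_KU3) : S_BIG := by
  intro F _ _ n hn W _ c hc i j hij t
  have hKU' := hKU F n hn
  obtain ⟨m, hm⟩ : ∃ m, m ∉ ({i, j} : Finset (Fin n)) := by
    by_contra h
    push Not at h
    have h1 : (Finset.univ : Finset (Fin n)) ⊆ {i, j} := fun a _ => h a
    have h2 := Finset.card_le_card h1
    rw [Finset.card_univ, Fintype.card_fin] at h2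
    have := Finset.card_le_two (a := i) (b := j)
    omega
  rw [Finset.mem_insert, Finset.mem_singleton, not_or] at hm
  have hmi : m ≠ i := hm.1
  have hmj : m ≠ j := hm.2
  obtain ⟨U, hU⟩ : ∃ U : (Fin n → 𝓞 F) → Fin n → F, U = fun u k => (u k : F) := ⟨_, rfl⟩
  have hUa : ∀ u k, U u k = (u k : F) := fun u k => by rw [hU]
  obtain ⟨U2, hU2⟩ : ∃ U2 : (Fin n → 𝓞 F) → Fin n → F,
    U2 = fun u => Pi.single i (u i : F) + Pi.single j (u j : F) := ⟨_, rfl⟩
  have hU2i : ∀ u, U2 u i = (u i : F) := fun u => by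
    rw [hU2]; simp only [Pi.add_apply]; rw [Pi.single_eq_same, Pi.single_eq_of_ne hij, add_zero]
  have hU2j : ∀ u, U2 u j = (u j : F) := fun u => by
    rw [hU2]; simp only [Pi.add_apply]; rw [Pi.single_eq_same, Pi.single_eq_of_ne hij.symm, zero_add]
  have hU2m : ∀ u a, a ≠ i → a ≠ j → U2 u a = 0 := fun u a h1 h2 => by
    rw [hU2]; simp only [Pi.add_apply]; rw [Pi.single_eq_of_ne h1, Pi.single_eq_of_ne h2, zero_add]
  have hrho : ∀ u, al j i (U u) = Pi.single j (u i : F) - Pi.single i (u j : F) := fun u => by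
    rw [al_eq, hUa, hUa]
  have d1 : ∀ u, (Pi.single m 1 : Fin n → F) ⬝ᵥ (t • U2 u) = 0 := fun u => by
    rw [single_dotProduct, Pi.smul_apply, hU2m u m hmi hmj, smul_zero, mul_zero]
  have d2 : ∀ u, al j i (U u) ⬝ᵥ (Pi.single m 1 : Fin n → F) = 0 := fun u =>
    al_dot_single hmj hmi _ _
  have d3 : (Pi.single m 1 : Fin n → F) ⬝ᵥ (Pi.single m 1) = 1 := by
    rw [single_dotProduct, Pi.single_eq_same, mul_one]
  have d4 : ∀ u, al j i (U u) ⬝ᵥ (t • U2 u) = 0 := fun u => by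
    rw [hrho, sub_dotProduct, single_dotProduct, single_dotProduct, Pi.smul_apply, Pi.smul_apply,
      hU2i, hU2j, smul_eq_mul, smul_eq_mul]
    ring
  have key1 : Rl i (fun u => tw (t • U2 u) (Pi.single m 1) (d1 u)) (tv i m hmi.symm t) := by
    have e1 : ∀ u, tw (t • U2 u) (Pi.single m 1) (d1 u) * (tv i m hmi.symm t)⁻¹ =
        tv i m hmi.symm (t * ((u i : F) - (Pi.single i 1 : Fin n → F) i)) *
          tv j m hmj.symm (t * ((u j : F) - (Pi.single i 1 : Fin n → F) j)) := by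
      intro u
      rw [tv_inv, tv_eq, tw_mul_left, tv_eq, tv_eq, tw_mul_left]
      refine tw_congr ?_ rfl
      rw [Pi.single_eq_same, Pi.single_eq_of_ne hij.symm, sub_zero]
      funext a
      rw [Pi.add_apply, Pi.add_apply, Pi.smul_apply, smul_eq_mul]
      by_cases h1 : a = i
      · subst h1
        rw [hU2i, Pi.single_eq_same, Pi.single_eq_same, Pi.single_eq_of_ne hij]
        ring
      · by_cases h2 : a = j
        · subst h2
          rw [hU2j, Pi.single_eq_same, Pi.single_eq_of_ne h1, Pi.single_eq_of_ne h1]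
          ring
        · rw [hU2m u a h1 h2, Pi.single_eq_of_ne h1, Pi.single_eq_of_ne h2, Pi.single_eq_of_ne h1]
          ring
    unfold Rl
    simp only [e1]
    exact Nu.mul ((sm_base t i).nu hKU' _ _ _) ((sm_base t j).nu hKU' _ _ _)
  have key2 : Rl i (fun u => tw (Pi.single m 1) (al j i (U u)) (d2 u)) (tv m j hmj 1) := by
    have e1 : ∀ u, tw (Pi.single m 1) (al j i (U u)) (d2 u) * (tv m j hmj 1)⁻¹ =
        tv m j hmj (1 * ((u i : F) - (Pi.single i 1 : Fin n → F) i)) *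
          tv m i hmi (-1 * ((u j : F) - (Pi.single i 1 : Fin n → F) j)) := by
      intro u
      have a1 : (Pi.single j (-1) : Fin n → F) ⬝ᵥ Pi.single m 1 = 0 := by
        rw [single_dotProduct, Pi.single_eq_of_ne hmj.symm, mul_zero]
      have a2 : (Pi.single j ((u i : F) - 1) : Fin n → F) ⬝ᵥ Pi.single m 1 = 0 := by
        rw [single_dotProduct, Pi.single_eq_of_ne hmj.symm, mul_zero]
      have a3 : (Pi.single i (-(u j : F)) : Fin n → F) ⬝ᵥ Pi.single m 1 = 0 := by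
        rw [single_dotProduct, Pi.single_eq_of_ne hmi.symm, mul_zero]
      rw [Pi.single_eq_same, Pi.single_eq_of_ne hij.symm, sub_zero, neg_one_mul, tv_inv]
      rw [show (-1 : F) = 1 * (-1) by ring, ← tv_eq2 m j hmj 1 (-1) a1, ← tv_eq2 m j hmj 1 _ a2,
        show (-(u j : F)) = 1 * (-(u j : F)) by ring, ← tv_eq2 m i hmi 1 _ a3, tw_mul_right,
        tw_mul_right]
      refine tw_congr rfl ?_
      rw [hrho]
      funext a
      rw [Pi.add_apply, Pi.add_apply, Pi.sub_apply]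
      by_cases h1 : a = i
      · subst h1
        rw [Pi.single_eq_same, Pi.single_eq_same, Pi.single_eq_of_ne hij, Pi.single_eq_of_ne hij,
          Pi.single_eq_of_ne hij]
        ring
      · by_cases h2 : a = j
        · subst h2
          rw [Pi.single_eq_same, Pi.single_eq_same, Pi.single_eq_same, Pi.single_eq_of_ne h1,
            Pi.single_eq_of_ne h1]
          ring
        · rw [Pi.single_eq_of_ne h1, Pi.single_eq_of_ne h2, Pi.single_eq_of_ne h2,
            Pi.single_eq_of_ne h2, Pi.single_eq_of_ne h1]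
          ring
    unfold Rl
    simp only [e1]
    exact Nu.mul ((sm_base 1 i).nu hKU' _ _ _) ((sm_base (-1) j).nu hKU' _ _ _)
  have key3 : Rl i (fun u => tw (t • U2 u) (al j i (U u)) (d4 u)) (tv i j hij t) := by
    have h1 := ((key1.mul key2).mul key1.inv).mul key2.inv
    have e1 : ∀ u, tw (t • U2 u) (Pi.single m 1) (d1 u) *
        tw (Pi.single m 1) (al j i (U u)) (d2 u) * (tw (t • U2 u) (Pi.single m 1) (d1 u))⁻¹ *
          (tw (Pi.single m 1) (al j i (U u)) (d2 u))⁻¹ = tw (t • U2 u) (al j i (U u)) (d4 u) :=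
      fun u => tw_comm (d1 u) (d2 u) d3 (d4 u)
    have e2 : tv i m hmi.symm t * tv m j hmj 1 * (tv i m hmi.symm t)⁻¹ * (tv m j hmj 1)⁻¹ =
        tv i j hij t := by
      rw [tv_eq, tv_eq, tv_eq]
      exact tw_comm _ _ d3 _
    rw [e2] at h1
    simp only [e1] at h1
    exact h1
  have key4 : ∀ s : Finset (Fin n), (∀ k ∈ s, k ≠ i ∧ k ≠ j) → ∃ hd : ∀ u,
      al j i (U u) ⬝ᵥ (∑ k ∈ s, Pi.single k (-t * (u k : F)) : Fin n → F) = 0,
      Nu i (fun u => tw (∑ k ∈ s, Pi.single k (-t * (u k : F)) : Fin n → F) (al j i (U u)) (hd u)) := by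
    intro s
    induction s using Finset.induction_on with
    | empty =>
      intro _
      refine ⟨fun u => by rw [Finset.sum_empty, dotProduct_zero], ?_⟩
      have e1 : ∀ u, ∀ h, tw (∑ k ∈ (∅ : Finset (Fin n)), Pi.single k (-t * (u k : F)) : Fin n → F)
          (al j i (U u)) h = 1 := by
        intro u h
        apply Units.ext
        rw [tw_val, Finset.sum_empty, Matrix.zero_vecMulVec, add_zero, Units.val_one]
      simp only [e1]
      exact Nu.one
    | insert k s hk ih =>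
      intro hs
      obtain ⟨hki, hkj⟩ := hs k (Finset.mem_insert_self _ _)
      obtain ⟨hd, h1⟩ := ih fun a ha => hs a (Finset.mem_insert_of_mem ha)
      have hdk : ∀ u, al j i (U u) ⬝ᵥ (Pi.single k (-t * (u k : F)) : Fin n → F) = 0 := fun u =>
        al_dot_single hkj hki _ _
      refine ⟨fun u => by rw [Finset.sum_insert hk, dotProduct_add, hdk, hd, add_zero], ?_⟩
      have h2 : Nu i (fun u => tw (Pi.single k (-t * (u k : F)) : Fin n → F) (al j i (U u))
          (hdk u)) := by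
        have e2 : ∀ u, tw (Pi.single k (-t * (u k : F)) : Fin n → F) (al j i (U u)) (hdk u) =
            tv k j hkj (-t * ((u k : F) - (Pi.single i 1 : Fin n → F) k) * (u i : F)) *
              tv k i hki (-t * ((u k : F) - (Pi.single i 1 : Fin n → F) k) * ((-u j : 𝓞 F) : F)) := by
          intro u
          have a1 : (Pi.single j (u i : F) : Fin n → F) ⬝ᵥ Pi.single k (-t * (u k : F)) = 0 := by
            rw [single_dotProduct, Pi.single_eq_of_ne hkj.symm, mul_zero]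
          have a2 : (Pi.single i ((-u j : 𝓞 F) : F) : Fin n → F) ⬝ᵥ
              Pi.single k (-t * (u k : F)) = 0 := by
            rw [single_dotProduct, Pi.single_eq_of_ne hki.symm, mul_zero]
          rw [Pi.single_eq_of_ne hki, sub_zero, ← tv_eq2 k j hkj _ _ a1, ← tv_eq2 k i hki _ _ a2,
            tw_mul_right]
          refine tw_congr rfl ?_
          rw [hrho, sub_eq_add_neg, ← Pi.single_neg]
          congr 2
        simp only [e2]
        exact Nu.mul (((sm_base (-t) k).mul_int fun u => u i).nu hKU' _ _ _)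
          (((sm_base (-t) k).mul_int fun u => -u j).nu hKU' _ _ _)
      have h3 := h2.mul h1
      convert h3 using 1
      funext u
      rw [tw_mul_left]
      exact tw_congr (Finset.sum_insert hk) rfl
  obtain ⟨hd, h5⟩ := key4 (Finset.univ.filter fun k => k ≠ i ∧ k ≠ j) fun k hk =>
    (Finset.mem_filter.1 hk).2
  have key6 : Nu i (fun u => tv i j hij t * tk j i (-t) (U u)) := by
    have h6 := (h5.conj (tv i j hij t)).mul (Nu.inv key3)
    convert h6 using 1
    funext u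
    have e1 : tk j i (-t) (U u) = tw (∑ k ∈ Finset.univ.filter fun k => k ≠ i ∧ k ≠ j,
        Pi.single k (-t * (u k : F)) : Fin n → F) (al j i (U u)) (hd u) *
          (tw (t • U2 u) (al j i (U u)) (d4 u))⁻¹ := by
      rw [tw_inv, tw_mul_left]
      unfold tk
      refine tw_congr ?_ rfl
      funext a
      rw [Pi.add_apply, Finset.sum_apply, Finset.sum_pi_single, Pi.smul_apply, Pi.neg_apply,
        Pi.smul_apply, smul_eq_mul, smul_eq_mul, hUa]
      by_cases h1 : a = i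
      · rw [if_neg (fun h => (Finset.mem_filter.1 h).2.1 h1), h1, hU2i]; ring
      · by_cases h2 : a = j
        · rw [if_neg (fun h => (Finset.mem_filter.1 h).2.2 h2), h2, hU2j]; ring
        · rw [if_pos (Finset.mem_filter.2 ⟨Finset.mem_univ _, h1, h2⟩), hU2m u a h1 h2]; ring
    rw [e1]
    group
  obtain ⟨N, hN, h⟩ := key6.2 W c hc
  refine ⟨N, hN, fun u hu => ?_⟩
  have := h u hu
  rw [hU] at this
  exact this

end Pool.Agent.T2h61.CG.TBIG
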