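import Pool.Agent.T2h61.CG.Bas2

/-!
# Calegari–Geraghty for `GL_n` over number fields: C9
-/

set_option autoImplicit false
set_option linter.unusedSectionVars false

open NumberField IsDedekindDomain Matrix

noncomputable section

namespace Pool.Agent.T2h61.CG.TCLS

open Pool.Agent.T2h61.CG nonZeroDivisors

variable {F : Type} [Field F] [NumberField F] {n : ℕ}

/-- a nonzero finitely generated submodule of `F` as an invertible fractional ideal -/
theorem exists_unit (I : Submodule (𝓞 F) F) (hI : I.FG) (h0 : I ≠ ⊥) :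
    ∃ J : (FractionalIdeal (𝓞 F)⁰ F)ˣ, ((J : FractionalIdeal (𝓞 F)⁰ F) : Submodule (𝓞 F) F) = I := by
  set J : FractionalIdeal (𝓞 F)⁰ F := ⟨I, FractionalIdeal.isFractional_of_fg hI⟩ with hJ
  have hJ0 : J ≠ 0 := by
    intro h
    apply h0
    have := congrArg (fun x : FractionalIdeal (𝓞 F)⁰ F => (x : Submodule (𝓞 F) F)) h
    simpa [hJ] using this
  exact ⟨Units.mk0 J hJ0, rfl⟩

/-- finitely many representatives of the nonzero finitely generated submodules of `F` -/
theorem exists_reps (F : Type) [Field F] [NumberField F] : ∃ 𝒥 : Set (Submodule (𝓞 F) F),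
    𝒥.Finite ∧ (∀ J ∈ 𝒥, J.FG ∧ J ≠ ⊥) ∧ ∀ I : Submodule (𝓞 F) F, I.FG → I ≠ ⊥ →
      ∃ J ∈ 𝒥, ∃ c : F, c ≠ 0 ∧ ∀ y, y ∈ I ↔ ∃ z ∈ J, y = c * z := by
  choose I0 hI0 using (ClassGroup.mk0_surjective (R := 𝓞 F))
  refine ⟨Set.range fun C => ((FractionalIdeal.mk0 F (I0 C) : FractionalIdeal (𝓞 F)⁰ F) :
    Submodule (𝓞 F) F), Set.finite_range _, ?_, ?_⟩
  · rintro _ ⟨C, rfl⟩
    refine ⟨FractionalIdeal.fg_unit _, ?_⟩
    intro h
    have h1 := (FractionalIdeal.mk0 F (I0 C)).ne_zero
    apply h1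
    apply Subtype.coe_injective
    exact h.trans FractionalIdeal.coe_zero.symm
  · intro I hI h0
    obtain ⟨J, hJ⟩ := exists_unit I hI h0
    set C := ClassGroup.mk F J with hC
    refine ⟨_, ⟨C, rfl⟩, ?_⟩
    set K := FractionalIdeal.mk0 F (I0 C) with hK
    have h1 : ClassGroup.mk F (J * K⁻¹) = 1 := by
      rw [map_mul, map_inv, hK, ClassGroup.mk_mk0, hI0, ← hC, mul_inv_cancel]
    rw [ClassGroup.mk_eq_one_iff] at h1
    obtain ⟨c, hc⟩ := h1.principal
    have h2 : ((J * K⁻¹ : (FractionalIdeal (𝓞 F)⁰ F)ˣ) : FractionalIdeal (𝓞 F)⁰ F) =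
        FractionalIdeal.spanSingleton (𝓞 F)⁰ c := by
      apply Subtype.coe_injective
      simp only [FractionalIdeal.val_eq_coe, FractionalIdeal.coe_spanSingleton]
      exact hc
    have h3 : (J : FractionalIdeal (𝓞 F)⁰ F) = FractionalIdeal.spanSingleton (𝓞 F)⁰ c * K := by
      rw [← h2, ← Units.val_mul, inv_mul_cancel_right]
    have hc0 : c ≠ 0 := by
      rintro rfl
      rw [FractionalIdeal.spanSingleton_zero, zero_mul] at h3
      exact J.ne_zero h3
    refine ⟨c, hc0, fun y => ?_⟩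
    rw [← hJ, h3]
    exact FractionalIdeal.mem_singleton_mul

/-- finitely generated submodules of `F` are projective -/
theorem exists_section {V : Type} [AddCommGroup V] [Module F V] [Module (𝓞 F) V]
    [IsScalarTower (𝓞 F) F V] (π : V →ₗ[F] F) (L : Submodule (𝓞 F) V) (I : Submodule (𝓞 F) F) (hI : I.FG) (h0 : I ≠ ⊥)
    (hπ : ∀ x ∈ I, ∃ v ∈ L, π v = x) : ∃ b : V, π b = 1 ∧ ∀ x ∈ I, x • b ∈ L := by
  obtain ⟨J, hJ⟩ := exists_unit I hI h0
  have key : ∀ r ∈ (J : FractionalIdeal (𝓞 F)⁰ F) * (J : FractionalIdeal (𝓞 F)⁰ F)⁻¹,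
      ∃ b : V, π b = r ∧ ∀ x ∈ I, x • b ∈ L := by
    intro r hr
    refine FractionalIdeal.mul_induction_on hr ?_ ?_
    · intro a ha b hb
      have ha' : a ∈ I := by rw [← hJ]; exact ha
      obtain ⟨v, hv, hv'⟩ := hπ a ha'
      rw [FractionalIdeal.mem_inv_iff J.ne_zero] at hb
      refine ⟨b • v, by rw [map_smul, hv', smul_eq_mul, mul_comm], fun x hx => ?_⟩
      have hx' : x ∈ (J : FractionalIdeal (𝓞 F)⁰ F) := by
        rw [← hJ] at hx; exact hx
      obtain ⟨y, hy⟩ := (FractionalIdeal.mem_one_iff _).1 (hb x hx')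
      have e : x • b • v = y • v := by
        rw [smul_smul, mul_comm, ← hy, algebraMap_smul]
      rw [e]
      exact L.smul_mem y hv
    · rintro x y ⟨b, hb, hb'⟩ ⟨d, hd, hd'⟩
      exact ⟨b + d, by rw [map_add, hb, hd], fun x hx => by
        rw [smul_add]; exact L.add_mem (hb' x hx) (hd' x hx)⟩
  refine key 1 ?_
  rw [mul_inv_cancel₀ J.ne_zero]
  exact FractionalIdeal.one_mem_one _

/-- multiples of vectors are in a lattice -/
theorem exists_mul_mem (L : Submodule (𝓞 F) (Fin n → F))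
    (hL : Submodule.span F (L : Set (Fin n → F)) = ⊤) (y : Fin n → F) :
    ∃ d : 𝓞 F, d ≠ 0 ∧ d • y ∈ L := by
  have hy : y ∈ Submodule.span F (L : Set (Fin n → F)) := by rw [hL]; trivial
  induction hy using Submodule.span_induction with
  | mem x hx => exact ⟨1, one_ne_zero, by rw [one_smul]; exact hx⟩
  | zero => exact ⟨1, one_ne_zero, by rw [smul_zero]; exact L.zero_mem⟩
  | add x y _ _ hx hy =>
    obtain ⟨a, ha, hax⟩ := hx
    obtain ⟨b, hb, hby⟩ := hy
    refine ⟨a * b, mul_ne_zero ha hb, ?_⟩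
    rw [smul_add]
    refine L.add_mem ?_ ?_
    · rw [mul_comm, mul_smul]; exact L.smul_mem _ hax
    · rw [mul_smul]; exact L.smul_mem _ hby
  | smul a x _ hx =>
    obtain ⟨b, hb, hbx⟩ := hx
    obtain ⟨⟨p, q⟩, hpq⟩ := IsLocalization.surj (nonZeroDivisors (𝓞 F)) a
    refine ⟨q * b, mul_ne_zero (nonZeroDivisors.coe_ne_zero q) hb, ?_⟩
    have e : ((q : 𝓞 F) * b) • a • x = p • (b • x) := by
      have h1 : a * algebraMap (𝓞 F) F (q : 𝓞 F) = algebraMap (𝓞 F) F p := hpq
      have h2 : ((q : 𝓞 F) * b) • a • x = (algebraMap (𝓞 F) F (q * b)) • a • x :=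
        (algebraMap_smul F _ _).symm
      have h3 : p • (b • x) = (algebraMap (𝓞 F) F p) • (algebraMap (𝓞 F) F b) • x := by
        rw [algebraMap_smul, algebraMap_smul]
      rw [h2, h3, smul_smul, smul_smul, ← h1, map_mul]
      congr 1
      ring
    rw [e]
    exact L.smul_mem _ hbx

/-- the embedding `z ↦ (0, z)` -/
def io (F : Type) [Field F] [NumberField F] (n : ℕ) : (Fin n → F) →ₗ[F] (Fin (n + 1) → F) where
  toFun z := Fin.cons 0 z
  map_add' x y := by
    funext i
    refine Fin.cases ?_ (fun j => ?_) i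
    · rw [Pi.add_apply, Fin.cons_zero, Fin.cons_zero, Fin.cons_zero, add_zero]
    · rw [Pi.add_apply, Fin.cons_succ, Fin.cons_succ, Fin.cons_succ, Pi.add_apply]
  map_smul' r x := by
    funext i
    refine Fin.cases ?_ (fun j => ?_) i
    · rw [RingHom.id_apply, Pi.smul_apply, Fin.cons_zero, Fin.cons_zero, smul_zero]
    · rw [RingHom.id_apply, Pi.smul_apply, Fin.cons_succ, Fin.cons_succ, Pi.smul_apply]

theorem io_zero (z : Fin n → F) : io F n z 0 = 0 := rfl

theorem io_succ (z : Fin n → F) (i : Fin n) : io F n z i.succ = z i := rfl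

theorem main (𝒥 : Set (Submodule (𝓞 F) F)) (h𝒥 : ∀ I : Submodule (𝓞 F) F, I.FG → I ≠ ⊥ →
      ∃ J ∈ 𝒥, ∃ c : F, c ≠ 0 ∧ ∀ y, y ∈ I ↔ ∃ z ∈ J, y = c * z) :
    ∀ (n : ℕ) (L : Submodule (𝓞 F) (Fin n → F)), IsLat L →
      ∃ J : Fin n → Submodule (𝓞 F) F, (∀ i, J i ∈ 𝒥) ∧ ∃ T : (Fin n → F) ≃ₗ[F] (Fin n → F),
        ∀ y, y ∈ L ↔ ∃ z, (∀ i, z i ∈ J i) ∧ T z = y := by
  intro n
  induction n with
  | zero =>
    intro L _
    refine ⟨fun i => i.elim0, fun i => i.elim0, LinearEquiv.refl F _, fun y => ?_⟩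
    constructor
    · intro _
      exact ⟨y, fun i => i.elim0, rfl⟩
    · intro _
      have : y = 0 := Subsingleton.elim _ _
      rw [this]
      exact L.zero_mem
  | succ n ih =>
    intro L hL
    -- the projection to the first coordinate
    set π : (Fin (n + 1) → F) →ₗ[F] F := LinearMap.proj 0 with hπ
    set I : Submodule (𝓞 F) F := L.map (π.restrictScalars (𝓞 F)) with hI
    have hIfg : I.FG := hL.1.map _
    have hIm : ∀ x, x ∈ I ↔ ∃ v ∈ L, v 0 = x := fun x => Submodule.mem_map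
    have hI0 : I ≠ ⊥ := by
      obtain ⟨d, hd, hd'⟩ := exists_mul_mem L hL.2 (Pi.single 0 1)
      intro h
      have h1 : (d • (Pi.single 0 1 : Fin (n + 1) → F)) 0 ∈ I := (hIm _).2 ⟨_, hd', rfl⟩
      rw [h, Submodule.mem_bot, Pi.smul_apply, Pi.single_eq_same] at h1
      apply hd
      apply RingOfIntegers.coe_injective (K := F)
      have h2 : d • (1 : F) = algebraMap (𝓞 F) F d := by rw [← algebraMap_smul F, smul_eq_mul, mul_one]
      rw [h2] at h1
      exact h1.trans (map_zero (algebraMap (𝓞 F) F)).symm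
    obtain ⟨b, hb, hbL⟩ := exists_section π L I hIfg hI0 fun x hx => (hIm x).1 hx
    obtain ⟨J₀, hJ₀, c, hc, hcJ⟩ := h𝒥 I hIfg hI0
    -- the kernel
    set L' : Submodule (𝓞 F) (Fin n → F) := L.comap ((io F n).restrictScalars (𝓞 F)) with hL'
    have hL'm : ∀ z, z ∈ L' ↔ io F n z ∈ L := fun z => Iff.rfl
    have hinj : Function.Injective ((io F n).restrictScalars (𝓞 F)) := by
      intro x y hxy
      funext i
      have := congrFun hxy i.succ
      exact this
    have hlat : IsLat L' := by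
      refine ⟨?_, ?_⟩
      · have hn : IsNoetherian (𝓞 F) L := isNoetherian_of_fg_of_noetherian L hL.1
        refine Submodule.fg_of_fg_map_injective _ hinj ?_
        refine isNoetherian_submodule.1 hn _ ?_
        rintro _ ⟨z, hz, rfl⟩
        exact hz
      · rw [eq_top_iff]
        intro z _
        obtain ⟨d, hd, hd'⟩ := exists_mul_mem L hL.2 (io F n z)
        have h1 : d • z ∈ L' := by
          rw [hL'm]
          have : io F n (d • z) = d • io F n z := ((io F n).restrictScalars (𝓞 F)).map_smul d z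
          rw [this]
          exact hd'
        have hd0 : (d : F) ≠ 0 := by
          intro h0
          exact hd (RingOfIntegers.coe_injective (h0.trans (map_zero (algebraMap (𝓞 F) F)).symm))
        have h4 : z = (d : F)⁻¹ • (d • z) := by
          rw [show d • z = (d : F) • z from rfl, smul_smul, inv_mul_cancel₀ hd0, one_smul]
        rw [h4]
        exact Submodule.smul_mem _ _ (Submodule.subset_span h1)
    obtain ⟨J', hJ', T', hT'⟩ := ih L' hlat
    -- the new map
    set T₀ : (Fin (n + 1) → F) →ₗ[F] (Fin (n + 1) → F) :=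
      (LinearMap.toSpanSingleton F _ (c • b)) ∘ₗ π +
        io F n ∘ₗ T'.toLinearMap ∘ₗ LinearMap.funLeft F F Fin.succ with hT₀
    have hT₀a : ∀ z, T₀ z = (z 0) • (c • b) + io F n (T' fun i => z i.succ) := fun z => rfl
    have hb0 : b 0 = 1 := hb
    have hT₀i : Function.Injective T₀ := by
      rw [← LinearMap.ker_eq_bot, LinearMap.ker_eq_bot']
      intro z hz
      rw [hT₀a] at hz
      have h0 : z 0 = 0 := by
        have := congrFun hz 0
        rw [Pi.add_apply, io_zero, add_zero, Pi.smul_apply, Pi.smul_apply, hb0, smul_eq_mul,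
          smul_eq_mul, mul_one, Pi.zero_apply] at this
        exact (mul_eq_zero.1 this).resolve_right hc
      rw [h0, zero_smul, zero_add] at hz
      have h1 : T' (fun i : Fin n => z i.succ) = 0 := by
        apply hinj
        exact hz.trans (map_zero _).symm
      have h2 : (fun i : Fin n => z i.succ) = 0 := by
        rw [← map_zero T'] at h1
        exact T'.injective h1
      funext i
      refine Fin.cases h0 (fun j => ?_) i
      exact congrFun h2 j
    refine ⟨Fin.cons J₀ J', fun i => ?_, LinearEquiv.ofInjectiveEndo T₀ hT₀i, fun y => ?_⟩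
    · refine Fin.cases ?_ (fun j => ?_) i
      · exact hJ₀
      · exact hJ' j
    constructor
    · intro hy
      have h1 : y 0 ∈ I := (hIm _).2 ⟨y, hy, rfl⟩
      obtain ⟨x, hx, hxy⟩ := (hcJ _).1 h1
      set w := y - (y 0) • b with hw
      have hwL : w ∈ L := L.sub_mem hy (hbL _ h1)
      have hw0 : w 0 = 0 := by
        rw [hw, Pi.sub_apply, Pi.smul_apply, hb0, smul_eq_mul, mul_one, sub_self]
      have hwio : w = io F n fun i : Fin n => w i.succ := by
        funext i
        refine Fin.cases ?_ (fun j => ?_) i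
        · rw [hw0, io_zero]
        · rw [io_succ]
      have h2 : (fun i : Fin n => w i.succ) ∈ L' := by
        rw [hL'm, ← hwio]; exact hwL
      obtain ⟨z', hz', hz'T⟩ := (hT' _).1 h2
      refine ⟨Fin.cons x z', fun i => ?_, ?_⟩
      · refine Fin.cases ?_ (fun j => ?_) i
        · exact hx
        · exact hz' j
      · show T₀ (Fin.cons x z') = y
        rw [hT₀a]
        have e1 : (Fin.cons x z' : Fin (n + 1) → F) 0 = x := rfl
        have e2 : (fun i : Fin n => (Fin.cons x z' : Fin (n + 1) → F) i.succ) = z' := rfl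
        rw [e1, e2, hz'T, ← hwio, smul_smul, mul_comm, ← hxy, hw]
        abel
    · rintro ⟨z, hz, rfl⟩
      show T₀ z ∈ L
      rw [hT₀a]
      refine L.add_mem ?_ ?_
      · rw [smul_smul, mul_comm]
        exact hbL _ ((hcJ _).2 ⟨z 0, hz 0, rfl⟩)
      · rw [← hL'm]
        exact (hT' _).2 ⟨_, fun i => hz i.succ, rfl⟩

theorem t_CLS : S_CLS := by
  intro F _ _ n
  obtain ⟨𝒥, hfin, h1, h2⟩ := exists_reps F
  have hfin' : Finite 𝒥 := hfin
  refine ⟨Set.range fun J : Fin n → 𝒥 => Submodule.pi Set.univ fun i => (J i : Submodule (𝓞 F) F),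
    Set.finite_range _, ?_, ?_⟩
  · rintro _ ⟨J, rfl⟩
    refine ⟨Submodule.fg_pi fun i => (h1 _ (J i).2).1, ?_⟩
    rw [eq_top_iff]
    intro y _
    have h3 : ∀ i, ∃ x ∈ (J i : Submodule (𝓞 F) F), x ≠ 0 := fun i =>
      Submodule.exists_mem_ne_zero_of_ne_bot (h1 _ (J i).2).2
    choose x hx hx0 using h3
    have e : y = ∑ i, (y i * (x i)⁻¹) • (Pi.single i (x i) : Fin n → F) := by
      funext j
      rw [Finset.sum_apply, Finset.sum_eq_single j]
      · rw [Pi.smul_apply, Pi.single_eq_same, smul_eq_mul, inv_mul_cancel_right₀ (hx0 j)]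
      · intro i _ hij
        rw [Pi.smul_apply, Pi.single_eq_of_ne (Ne.symm hij), smul_zero]
      · intro h; exact absurd (Finset.mem_univ j) h
    rw [e]
    refine Submodule.sum_mem _ fun i _ => Submodule.smul_mem _ _ (Submodule.subset_span ?_)
    rw [SetLike.mem_coe, Submodule.mem_pi]
    intro j _
    by_cases hij : j = i
    · subst hij; rw [Pi.single_eq_same]; exact hx j
    · rw [Pi.single_eq_of_ne hij]; exact Submodule.zero_mem _
  · intro L hL
    obtain ⟨J, hJ, T, hT⟩ := main 𝒥 h2 n L hL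
    refine ⟨_, ⟨fun i => ⟨J i, hJ i⟩, rfl⟩, ⟨LinearMap.toMatrix' T.toLinearMap,
      LinearMap.toMatrix' T.symm.toLinearMap, ?_, ?_⟩, ?_⟩
    · rw [← LinearMap.toMatrix'_comp, LinearEquiv.comp_symm, LinearMap.toMatrix'_id]
    · rw [← LinearMap.toMatrix'_comp, LinearEquiv.symm_comp, LinearMap.toMatrix'_id]
    · ext y
      rw [mem_gm, hT]
      constructor
      · rintro ⟨z, hz, rfl⟩
        refine ⟨z, ?_, ?_⟩
        · rw [Submodule.mem_pi]
          exact fun i _ => hz i
        · exact LinearMap.toMatrix'_mulVec _ _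
      · rintro ⟨z, hz, rfl⟩
        rw [Submodule.mem_pi] at hz
        refine ⟨z, fun i => hz i (Set.mem_univ i), ?_⟩
        exact (LinearMap.toMatrix'_mulVec _ _).symm

end Pool.Agent.T2h61.CG.TCLS
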