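import Pool.Agent.T2h61.CG.Stm

/-!
# C4: the number of subspaces modulo `p` when `#K` is `1` modulo `p`

A translation of `Pool/Agent/T2h62/CG/Cnt2.lean` to all finite fields.
-/

set_option autoImplicit false

open Matrix Module

noncomputable section

namespace Pool.Agent.T2h61.CG.TCNP

variable {n : ℕ}

/-- coordinate subspaces -/
def Eco (F : Type) [Field F] (I : Finset (Fin n)) : Submodule F (Fin n → F) where
  carrier := {v | ∀ i ∉ I, v i = 0}
  add_mem' := fun {a b} ha hb i hi => by rw [Pi.add_apply, ha i hi, hb i hi, add_zero]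
  zero_mem' := fun i _ => rfl
  smul_mem' := fun r a ha i hi => by rw [Pi.smul_apply, ha i hi, smul_zero]

theorem mem_Eco {F : Type} [Field F] {I : Finset (Fin n)} {v : Fin n → F} :
    v ∈ Eco F I ↔ ∀ i ∉ I, v i = 0 := Iff.rfl

theorem single_mem_Eco {F : Type} [Field F] {I : Finset (Fin n)} {i : Fin n} :
    (Pi.single i 1 : Fin n → F) ∈ Eco F I ↔ i ∈ I := by
  constructor
  · intro h
    by_contra hi
    have := h i hi
    rw [Pi.single_eq_same] at this
    exact one_ne_zero this
  · intro h k hk
    exact Pi.single_eq_of_ne (fun e => hk (by rw [e]; exact h)) 1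

theorem finrank_Eco (F : Type) [Field F] (I : Finset (Fin n)) : finrank F (Eco F I) = I.card := by
  classical
  let e : Eco F I ≃ₗ[F] (I → F) :=
    { toFun := fun v i => v.1 i.1
      map_add' := fun _ _ => rfl
      map_smul' := fun _ _ => rfl
      invFun := fun w => ⟨fun i => if h : i ∈ I then w ⟨i, h⟩ else 0, fun i hi => dif_neg hi⟩
      left_inv := fun v => by
        apply Subtype.ext
        funext i
        show (if h : i ∈ I then v.1 i else 0) = v.1 i
        split_ifs with h
        · rfl
        · exact (v.2 i h).symm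
      right_inv := fun w => by
        funext i
        show (if h : i.1 ∈ I then w ⟨i.1, h⟩ else 0) = w i
        rw [dif_pos i.2] }
  rw [e.finrank_eq, Module.finrank_fintype_fun_eq_card, Fintype.card_coe]

/-- the diagonal action of a family of units -/
def dg {F : Type} [Field F] (t : Fin n → Fˣ) : (Fin n → F) →ₗ[F] (Fin n → F) where
  toFun v i := (t i : F) * v i
  map_add' v w := by
    funext i
    rw [Pi.add_apply, Pi.add_apply, mul_add]
  map_smul' r v := by
    funext i
    rw [Pi.smul_apply, RingHom.id_apply, Pi.smul_apply, smul_eq_mul, smul_eq_mul]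
    ring

theorem dg_apply {F : Type} [Field F] (t : Fin n → Fˣ) (v : Fin n → F) (i : Fin n) :
    dg t v i = (t i : F) * v i := rfl

theorem dg_one {F : Type} [Field F] : dg (1 : Fin n → Fˣ) = LinearMap.id := by
  apply LinearMap.ext
  intro v
  funext i
  rw [dg_apply, Pi.one_apply, Units.val_one, one_mul, LinearMap.id_apply]

theorem dg_mul {F : Type} [Field F] (s t : Fin n → Fˣ) : dg (s * t) = (dg s).comp (dg t) := by
  apply LinearMap.ext
  intro v
  funext i
  rw [LinearMap.comp_apply, dg_apply, dg_apply, dg_apply, Pi.mul_apply, Units.val_mul, mul_assoc]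

theorem dg_inj {F : Type} [Field F] (t : Fin n → Fˣ) : Function.Injective (dg t) := by
  intro v w h
  funext i
  have := congrFun h i
  rw [dg_apply, dg_apply] at this
  exact mul_left_cancel₀ (t i).ne_zero this

theorem card_sub {F : Type} [Field F] [Finite F] {p : ℕ} [hp : Fact p.Prime]
    (h : p ∣ Nat.card F - 1) (d : ℕ) :
    Nat.card {U : Submodule F (Fin n → F) // finrank F U = d} ≡ n.choose d [MOD p] := by
  classical
  let T := {U : Submodule F (Fin n → F) // finrank F U = d}
  let P := Fin n → rootsOfUnity p F
  have hfin : Finite (Submodule F (Fin n → F)) :=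
    Finite.of_injective (fun U => (U : Set (Fin n → F))) SetLike.coe_injective
  let ac : MulAction P T :=
    { smul := fun t U => ⟨U.1.map (dg fun i => (t i : Fˣ)), by
        rw [← (Submodule.equivMapOfInjective _ (dg_inj fun i => (t i : Fˣ)) U.1).finrank_eq]
        exact U.2⟩
      one_smul := fun U => by
        apply Subtype.ext
        show U.1.map (dg (1 : Fin n → Fˣ)) = U.1
        rw [dg_one, Submodule.map_id]
      mul_smul := fun s t U => by
        apply Subtype.ext
        show U.1.map (dg ((fun i => (s i : Fˣ)) * fun i => (t i : Fˣ))) =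
          (U.1.map (dg fun i => (t i : Fˣ))).map (dg fun i => (s i : Fˣ))
        rw [dg_mul, Submodule.map_comp] }
  have hP : IsPGroup p P := by
    intro t
    refine ⟨1, ?_⟩
    rw [pow_one]
    funext i
    apply Subtype.ext
    exact (t i).2
  have h1 := hP.card_modEq_card_fixedPoints T
  refine h1.trans ?_
  -- an element of order `p`
  obtain ⟨ζ, hζ⟩ : ∃ ζ : Fˣ, orderOf ζ = p := by
    apply exists_prime_orderOf_dvd_card'
    rw [Nat.card_units]
    exact h
  have hζp : ζ ∈ rootsOfUnity p F := by
    rw [mem_rootsOfUnity, ← hζ, pow_orderOf_eq_one]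
  have hζ1 : (ζ : F) ≠ 1 := by
    intro h2
    have h3 : ζ = 1 := Units.ext h2
    rw [h3, orderOf_one] at hζ
    exact hp.out.one_lt.ne hζ
  have hfix : ∀ U : T, U ∈ MulAction.fixedPoints P T ↔ ∃ I : Finset (Fin n), U.1 = Eco F I := by
    intro U
    constructor
    · intro hU
      refine ⟨Finset.univ.filter fun i => (Pi.single i 1 : Fin n → F) ∈ U.1, ?_⟩
      apply le_antisymm
      · intro v hv
        rw [mem_Eco]
        intro i hi
        by_contra hvi
        apply hi
        rw [Finset.mem_filter]
        refine ⟨Finset.mem_univ _, ?_⟩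
        have h2 := hU (fun k => if k = i then ⟨ζ, hζp⟩ else 1)
        have h3 : U.1.map (dg fun k => ((if k = i then ⟨ζ, hζp⟩ else 1 : rootsOfUnity p F) : Fˣ)) =
          U.1 := congrArg Subtype.val h2
        have h4 : dg (fun k => ((if k = i then ⟨ζ, hζp⟩ else 1 : rootsOfUnity p F) : Fˣ)) v ∈
            U.1 := h3.le (Submodule.mem_map_of_mem hv)
        have h5 := U.1.smul_mem (((ζ : F) - 1) * v i)⁻¹ (U.1.sub_mem h4 hv)
        have h6 : (((ζ : F) - 1) * v i)⁻¹ •
            (dg (fun k => ((if k = i then ⟨ζ, hζp⟩ else 1 : rootsOfUnity p F) : Fˣ)) v - v) =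
            Pi.single i 1 := by
          funext k
          rw [Pi.smul_apply, Pi.sub_apply, dg_apply, smul_eq_mul]
          by_cases hk : k = i
          · subst hk
            rw [if_pos rfl, Pi.single_eq_same]
            show _ * ((ζ : F) * v k - v k) = 1
            have h7 : ((ζ : F) - 1) * v k ≠ 0 := mul_ne_zero (sub_ne_zero.2 hζ1) hvi
            rw [show (ζ : F) * v k - v k = ((ζ : F) - 1) * v k by ring, inv_mul_cancel₀ h7]
          · rw [if_neg hk, Pi.single_eq_of_ne hk]
            show _ * ((1 : F) * v k - v k) = 0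
            rw [one_mul, sub_self, mul_zero]
        rw [h6] at h5
        exact h5
      · intro v hv
        rw [mem_Eco] at hv
        have h2 : v = ∑ i, v i • (Pi.single i 1 : Fin n → F) := by
          funext k
          rw [Finset.sum_apply, Finset.sum_eq_single k]
          · rw [Pi.smul_apply, Pi.single_eq_same, smul_eq_mul, mul_one]
          · intro b _ hb
            rw [Pi.smul_apply, Pi.single_eq_of_ne hb.symm, smul_zero]
          · intro hk
            exact absurd (Finset.mem_univ k) hk
        rw [h2]
        refine U.1.sum_mem fun i _ => ?_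
        by_cases hi : (Pi.single i 1 : Fin n → F) ∈ U.1
        · exact U.1.smul_mem _ hi
        · rw [hv i (fun h3 => hi (Finset.mem_filter.1 h3).2), zero_smul]
          exact U.1.zero_mem
    · rintro ⟨I, hI⟩ t
      apply Subtype.ext
      show U.1.map (dg fun i => (t i : Fˣ)) = U.1
      rw [hI]
      ext v
      rw [Submodule.mem_map]
      constructor
      · rintro ⟨w, hw, rfl⟩ i hi
        rw [dg_apply, hw i hi, mul_zero]
      · intro hv
        refine ⟨dg (fun i => ((t i)⁻¹ : Fˣ)) v, fun i hi => ?_, ?_⟩
        · rw [dg_apply, hv i hi, mul_zero]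
        · funext i
          rw [dg_apply, dg_apply, ← mul_assoc]
          rw [← Units.val_mul, mul_inv_cancel, Units.val_one, one_mul]
  have h2 : Nat.card (MulAction.fixedPoints P T) =
      Nat.card {I : Finset (Fin n) // I.card = d} := by
    symm
    refine Nat.card_congr (Equiv.ofBijective (fun I => ⟨⟨Eco F I.1, by rw [finrank_Eco, I.2]⟩,
      (hfix _).2 ⟨I.1, rfl⟩⟩) ⟨?_, ?_⟩)
    · intro I I' hII
      have h3 : Eco F I.1 = Eco F I'.1 := congrArg (fun x => x.1.1) hII
      apply Subtype.ext
      ext i
      rw [← single_mem_Eco (F := F), h3, single_mem_Eco]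
    · rintro ⟨U, hU⟩
      obtain ⟨I, hI⟩ := (hfix U).1 hU
      refine ⟨⟨I, ?_⟩, ?_⟩
      · rw [← finrank_Eco F, ← hI]
        exact U.2
      · apply Subtype.ext
        apply Subtype.ext
        exact hI.symm
  rw [h2, Nat.card_eq_fintype_card, Fintype.card_finset_len, Fintype.card_fin]


theorem t_CNP : S_CNP := by
  intro K _ _ n p hp h d
  have : Fact p.Prime := ⟨hp⟩
  exact card_sub h d

end Pool.Agent.T2h61.CG.TCNP
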