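import Pool.Agent.T2h61.CG.T_VAN

/-!
# Cocycles with vanishing germs are coboundaries in a deeper level
-/

set_option autoImplicit false

open NumberField IsDedekindDomain Matrix Polynomial

noncomputable section

namespace Pool.Agent.T2h61.CG.TCOB

open Pool.Agent.T2h61.CG.TVAN (z_one z_conj)

variable {F : Type} [Field F] [NumberField F] {n : ℕ}

/-- the stabiliser of a point acts trivially modulo `𝔪` -/
theorem stab_smul {𝔪 : Ideal (𝓞 F)} {x : Pt F n} (hx : Ok 𝔪 x) {γ : GL (Fin n) F}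
    (h : Eqv 𝔪 (ga γ x) x) : ∀ w ∈ x.L, γ.1.mulVec w - w ∈ 𝔪 • x.L := by
  have hL : gm γ x.L = x.L := h.2.1
  let T : (Fin n → F) →ₗ[𝓞 F] (Fin n → F) :=
    (Matrix.mulVecLin γ.1).restrictScalars (𝓞 F) - LinearMap.id
  have hT : ∀ w, T w = γ.1.mulVec w - w := fun w => rfl
  have h1 : Submodule.span (𝓞 F) (Set.range x.e) ≤ (𝔪 • x.L).comap T := by
    rw [Submodule.span_le]
    rintro _ ⟨i, rfl⟩
    show T (x.e i) ∈ 𝔪 • x.L
    rw [hT]
    have h2 := h.2.2 i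
    have h3 : (ga γ x).L = x.L := hL
    rw [h3] at h2
    exact h2
  have h2 : 𝔪 • x.L ≤ (𝔪 • x.L).comap T := by
    intro w hw
    show T w ∈ 𝔪 • x.L
    rw [hT]
    refine Submodule.sub_mem _ ?_ hw
    have h3 : γ.1.mulVec w ∈ gm γ (𝔪 • x.L) := mulVec_mem_gm hw
    rwa [gm_smul, hL] at h3
  intro w hw
  exact (hx.2.2.trans (sup_le h1 h2)) hw

theorem conj_cg {N M : ℕ} {L₀ : Submodule (𝓞 F) (Fin n → F)}
    (hM : ∀ γ : GL (Fin n) F, gm γ L₀ = L₀ →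
      (∀ y ∈ L₀, γ.1.mulVec y - y ∈ Ideal.span {(M : 𝓞 F)} • L₀) →
      (∀ w, sg γ.1.det w = 1) → Cg N γ)
    {𝔪₁ : Ideal (𝓞 F)} (hm : 𝔪₁ ≤ Ideal.span {(M : 𝓞 F)}) {x : Pt F n} (hx : Ok 𝔪₁ x)
    {γ : GL (Fin n) F} (hγ : Eqv 𝔪₁ (ga γ x) x) {h : GL (Fin n) F} (hL : x.L = gm h L₀) :
    Cg N (h⁻¹ * γ * h) := by
  apply hM
  · rw [gm_mul, gm_mul, ← hL]
    have h1 : gm γ x.L = x.L := hγ.2.1
    rw [h1, hL, gm_inv_gm]
  · intro y hy
    have h1 : h.1.mulVec y ∈ x.L := by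
      rw [hL]; exact mulVec_mem_gm hy
    have h2 := stab_smul hx hγ _ h1
    have h3 : h⁻¹.1.mulVec (γ.1.mulVec (h.1.mulVec y) - h.1.mulVec y) ∈
        gm h⁻¹ (𝔪₁ • x.L) := mulVec_mem_gm h2
    rw [gm_smul, hL, gm_inv_gm, Matrix.mulVec_sub, inv_mulVec] at h3
    have h4 : (h⁻¹ * γ * h).1.mulVec y = h⁻¹.1.mulVec (γ.1.mulVec (h.1.mulVec y)) := by
      rw [Units.val_mul, Units.val_mul, ← Matrix.mulVec_mulVec, ← Matrix.mulVec_mulVec]
    rw [h4]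
    exact Submodule.smul_mono_left hm h3
  · intro w
    have h1 : sg γ.1.det w * x.s w = x.s w := congrFun hγ.1 w
    have h2 : sg γ.1.det w = 1 := by
      have := congrArg (· * x.s w) h1
      simpa [mul_assoc, Int.units_mul_self] using this
    rw [sg_det_mul, sg_det_mul, sg_det_inv, h2, mul_one]
    exact Int.units_mul_self _

theorem t_COB (hO : S_ORB) (hB : S_STB) : S_COB := by
  classical
  intro F _ _ n W _ 𝔪 h𝔪 z hl hz hg
  obtain ⟨X, hXf, hX1, hX2⟩ := hO F n 𝔪 h𝔪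
  -- a common `N`
  choose! Nx hNx hNx' using hg
  obtain ⟨N, hN, hNd⟩ : ∃ N : ℕ, N ≠ 0 ∧ ∀ x ∈ X, Nx x ∣ N := by
    refine ⟨∏ x ∈ hXf.toFinset, Nx x, ?_, fun x hx => ?_⟩
    · exact Finset.prod_ne_zero_iff.2 fun x hx => hNx x (hX1 x ((Set.Finite.mem_toFinset _).1 hx))
    · exact Finset.dvd_prod_of_mem _ ((Set.Finite.mem_toFinset _).2 hx)
  have hNz : ∀ x ∈ X, ∀ γ, Cg N γ → z γ x = 0 := fun x hx γ hγ =>
    hNx' x (hX1 x hx) γ (cg_mono (hNd x hx) hγ)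
  have hM : ∀ x ∈ X, ∃ M : ℕ, M ≠ 0 ∧ ∀ γ : GL (Fin n) F, gm γ x.L = x.L →
      (∀ y ∈ x.L, γ.1.mulVec y - y ∈ Ideal.span {(M : 𝓞 F)} • x.L) →
      (∀ w, sg γ.1.det w = 1) → Cg N γ := fun x hx => hB F n x.L (hX1 x hx).1 N hN
  choose! Mx hMx hMx' using hM
  obtain ⟨M, hM0, hMd⟩ : ∃ M : ℕ, M ≠ 0 ∧ ∀ x ∈ X, Mx x ∣ M := by
    refine ⟨∏ x ∈ hXf.toFinset, Mx x, ?_, fun x hx => ?_⟩
    · exact Finset.prod_ne_zero_iff.2 fun x hx => hMx x ((Set.Finite.mem_toFinset _).1 hx)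
    · exact Finset.dvd_prod_of_mem _ ((Set.Finite.mem_toFinset _).2 hx)
  set 𝔪₁ : Ideal (𝓞 F) := 𝔪 * Ideal.span {(M : 𝓞 F)} with h𝔪₁
  have hm1 : 𝔪₁ ≤ 𝔪 := Ideal.mul_le_left
  have hm2 : ∀ x ∈ X, 𝔪₁ ≤ Ideal.span {(Mx x : 𝓞 F)} := by
    intro x hx
    refine Ideal.mul_le_right.trans ?_
    rw [Ideal.span_singleton_le_span_singleton]
    exact_mod_cast Nat.cast_dvd_cast (hMd x hx)
  have hm0 : 𝔪₁ ≠ ⊥ := by
    rw [h𝔪₁]
    refine mul_ne_zero h𝔪 ?_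
    rw [Ideal.zero_eq_bot, Ne, Ideal.span_singleton_eq_bot]
    exact_mod_cast hM0
  -- the stabilisers
  have stab : ∀ (x : Pt F n) (γ : GL (Fin n) F), Ok 𝔪₁ x → Eqv 𝔪₁ (ga γ x) x → z γ x = 0 := by
    intro x γ hx hγ
    obtain ⟨x₀, hx₀, h, hxh⟩ := hX2 x (ok_mono hm1 hx)
    have h1 : Cg N (h⁻¹ * γ * h) := conj_cg (hMx' x₀ hx₀) (hm2 x₀ hx₀) hx hγ hxh.2.1
    have h2 : Eqv 𝔪 (ga (h⁻¹ * γ * h)⁻¹ x₀) x₀ := by
      have e1 : Eqv 𝔪 (ga γ (ga h x₀)) (ga h x₀) :=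
        eqv_trans (eqv_ga γ (eqv_symm hxh)) (eqv_trans (eqv_mono hm1 hγ) hxh)
      have e2 : Eqv 𝔪 (ga (h⁻¹ * γ * h) x₀) x₀ := by
        have := eqv_ga h⁻¹ e1
        rw [ga_inv_ga] at this
        rw [ga_mul, ga_mul]
        exact this
      have e3 := eqv_ga (h⁻¹ * γ * h)⁻¹ e2
      rw [ga_inv_ga] at e3
      exact eqv_symm e3
    have h3 := z_conj hl hz h (h⁻¹ * γ * h) h2
    rw [hNz x₀ hx₀ _ h1, show h * (h⁻¹ * γ * h) * h⁻¹ = γ by group] at h3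
    rw [(hl γ).eq hxh, h3]
  -- the orbits
  let st : Setoid (Pt F n) :=
    { r := fun x y => ∃ g : GL (Fin n) F, Eqv 𝔪₁ x (ga g y)
      iseqv :=
        { refl := fun x => ⟨1, by rw [ga_one]; exact eqv_refl x⟩
          symm := fun {x y} h => by
            obtain ⟨g, hg⟩ := h
            refine ⟨g⁻¹, ?_⟩
            have := eqv_ga g⁻¹ hg
            rw [ga_inv_ga] at this
            exact eqv_symm this
          trans := fun {x y w} h h' => by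
            obtain ⟨g, hg⟩ := h
            obtain ⟨g', hg'⟩ := h'
            refine ⟨g * g', ?_⟩
            rw [ga_mul]
            exact eqv_trans hg (eqv_ga g hg') } }
  let rep : Pt F n → Pt F n := fun x => (Quotient.mk st x).out
  have hrep : ∀ x, ∃ g : GL (Fin n) F, Eqv 𝔪₁ x (ga g (rep x)) := fun x =>
    st.symm (Quotient.mk_out x)
  have hrep' : ∀ x y : Pt F n, (∃ g : GL (Fin n) F, Eqv 𝔪₁ x (ga g y)) → rep x = rep y := by
    intro x y h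
    have : Quotient.mk st x = Quotient.mk st y := Quotient.sound h
    show (Quotient.mk st x).out = (Quotient.mk st y).out
    rw [this]
  choose gx hgx using hrep
  have wd : ∀ (x : Pt F n) (g : GL (Fin n) F), Ok 𝔪₁ x → Eqv 𝔪₁ x (ga g (rep x)) →
      z g x = z (gx x) x := by
    intro x g hx hg
    have hro : Ok 𝔪₁ (rep x) := by
      have := ok_eqv hx hg
      exact ok_ga_iff.1 this
    have h1 : Eqv 𝔪₁ (ga (g⁻¹ * gx x) (rep x)) (rep x) := by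
      have h2 := eqv_ga g⁻¹ (eqv_trans (eqv_symm (hgx x)) hg)
      rw [ga_inv_ga, ← ga_mul] at h2
      exact h2
    have h2 := stab _ _ hro h1
    have h3 : Eqv 𝔪 (ga g⁻¹ x) (rep x) := by
      have := eqv_ga g⁻¹ hg
      rw [ga_inv_ga] at this
      exact eqv_mono hm1 this
    have h4 : z (gx x) x = z g x + z (g⁻¹ * gx x) (ga g⁻¹ x) := by
      have := congrFun (hz g (g⁻¹ * gx x)) x
      rw [mul_inv_cancel_left] at this
      exact this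
    rw [h4, (hl _).eq h3, h2, add_zero]
  refine ⟨𝔪₁, hm1, hm0, fun x => if Ok 𝔪₁ x then - z (gx x) x else 0, ⟨?_, ?_⟩, ?_⟩
  · intro x hx
    exact if_neg hx
  · intro x y hx hy hxy
    show (ite _ _ _ : W) = (ite _ _ _ : W)
    rw [if_pos hx, if_pos hy]
    have h1 : rep x = rep y := hrep' x y ⟨1, by rw [ga_one]; exact hxy⟩
    have h2 : Eqv 𝔪₁ x (ga (gx y) (rep x)) := by
      rw [h1]
      exact eqv_trans hxy (hgx y)
    rw [← wd x (gx y) hx h2, (hl _).eq (eqv_mono hm1 hxy)]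
  · intro g x hx
    have hgx' : Ok 𝔪₁ (ga g⁻¹ x) := ok_ga hx
    show z g x = (ite _ _ _ : W) - (ite _ _ _ : W)
    rw [if_pos hx, if_pos hgx']
    have h1 : rep (ga g⁻¹ x) = rep x := hrep' _ _ ⟨g⁻¹, eqv_refl _⟩
    have h2 : Eqv 𝔪₁ (ga g⁻¹ x) (ga (g⁻¹ * gx x) (rep (ga g⁻¹ x))) := by
      rw [h1, ga_mul]
      exact eqv_ga g⁻¹ (hgx x)
    rw [← wd _ _ hgx' h2]
    have h4 : z (gx x) x = z g x + z (g⁻¹ * gx x) (ga g⁻¹ x) := by
      have := congrFun (hz g (g⁻¹ * gx x)) x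
      rw [mul_inv_cancel_left] at this
      exact this
    rw [h4]
    abel

end Pool.Agent.T2h61.CG.TCOB
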