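import Pool.Agent.T2h61.CG.Stm

/-!
# Prime elements in residue classes
-/

set_option autoImplicit false
set_option linter.all false

open NumberField IsDedekindDomain

namespace Pool.Agent.T2h61.CG.TDIR

theorem aux (h : S_RAY) (F : Type) [Field F] [NumberField F] (𝔪 : Ideal (𝓞 F)) (hb : 𝔪 ≠ ⊥)
    (ht : 𝔪 ≠ ⊤) (x : 𝓞 F) (hx : IsCoprime (Ideal.span {x}) 𝔪) (B : ℕ) :
    ∃ π : 𝓞 F, Prime π ∧ π - x ∈ 𝔪 ∧ B < Ideal.absNorm (Ideal.span {π}) := by
  obtain ⟨v, hv, a, b, ha, hb', ha1, hb1, hab⟩ := h F 𝔪 hb ht (Ideal.span {x}) hx B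
  have hx0 : x ≠ 0 := by
    rintro rfl
    rw [Ideal.span_singleton_zero, Ideal.isCoprime_iff_sup_eq, bot_sup_eq] at hx
    exact ht hx
  rw [Ideal.span_singleton_mul_span_singleton] at hab
  have hd : a ∣ b * x := by
    apply Ideal.span_singleton_le_span_singleton.1
    rw [← hab]
    exact Ideal.mul_le_inf.trans inf_le_left
  obtain ⟨π, hπ⟩ := hd
  rw [hπ, ← Ideal.span_singleton_mul_span_singleton] at hab
  have hvπ : v.asIdeal = Ideal.span {π} := by
    refine mul_left_cancel₀ (a := Ideal.span {a}) ?_ hab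
    rw [Ne, Ideal.zero_eq_bot, Ideal.span_singleton_eq_bot]
    exact ha
  have hπ0 : π ≠ 0 := by
    rintro rfl
    rw [mul_zero] at hπ
    exact mul_ne_zero hb' hx0 hπ
  refine ⟨π, ?_, ?_, ?_⟩
  · rw [← Ideal.span_singleton_prime hπ0, ← hvπ]
    exact v.isPrime
  · have e : π - x = (b - 1) * x - (a - 1) * π := by linear_combination (-1 : 𝓞 F) * hπ
    rw [e]
    exact 𝔪.sub_mem (𝔪.mul_mem_right _ hb1) (𝔪.mul_mem_right _ ha1)
  · rw [← hvπ]
    exact hv

theorem t_DIR (h : S_RAY) : S_DIR := by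
  intro F _ _ 𝔪 hb x hx B
  by_cases ht : 𝔪 = ⊤
  · have h2 : (Ideal.span {(2 : 𝓞 F)}) ≠ ⊥ := by
      rw [Ne, Ideal.span_singleton_eq_bot]
      exact two_ne_zero
    have h3 : (Ideal.span {(2 : 𝓞 F)}) ≠ ⊤ := by
      intro h4
      rw [Ideal.span_singleton_eq_top] at h4
      have h5 : IsUnit (Algebra.norm ℤ (2 : 𝓞 F)) := h4.map (Algebra.norm ℤ)
      have h6 : Algebra.norm ℤ (2 : 𝓞 F) = 2 ^ Module.finrank ℤ (𝓞 F) := by
        have := Algebra.norm_algebraMap (S := 𝓞 F) (2 : ℤ)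
        rw [← this]
        norm_num
      rw [h6, isUnit_pow_iff (Module.finrank_pos (R := ℤ) (M := 𝓞 F)).ne'] at h5
      exact absurd (Int.isUnit_iff.1 h5) (by norm_num)
    obtain ⟨π, h4, h5, h6⟩ := aux h F (Ideal.span {2}) h2 h3 1 (by
      rw [Ideal.span_singleton_one, ← Ideal.one_eq_top]
      exact isCoprime_one_left) B
    exact ⟨π, h4, by rw [ht]; trivial, h6⟩
  · exact aux h F 𝔪 hb ht x hx B

end Pool.Agent.T2h61.CG.TDIR
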