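import Pool.Agent.T2h61.CG.T_COB

/-!
# Descent to the level `K_f`
-/

set_option autoImplicit false

open NumberField IsDedekindDomain Matrix Polynomial

noncomputable section

namespace Pool.Agent.T2h61.CG.TDSC

open Pool.Agent.T2h61.CG.THK
open Pool.Agent.T2h61.CG.TVAN (act1_comp)

variable {F : Type} [Field F] [NumberField F] {n : ℕ} {R W : Type} [CommRing R] [AddCommGroup W]
  [Module R W]

theorem act1_tr (𝔪 : Ideal (𝓞 F)) (v : HeightOneSpectrum (𝓞 F)) (a : 𝓞 F)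
    (t : FreeAlgebra R (Fin n)) (g : GL (Fin n) F) (φ : Pt F n → W) :
    act1 R 𝔪 v a t (tr g φ) = tr g (act1 R 𝔪 v a t φ) := by
  let T : (Pt F n → W) →ₗ[R] (Pt F n → W) :=
    { toFun := tr g
      map_add' := fun _ _ => rfl
      map_smul' := fun _ _ => rfl }
  have h1 := Pool.Agent.T2h62.CG.lift_comm (R := R)
    (fun q : Fin n => hk (n := n) (W := W) R 𝔪 v (q.1 + 1) a)
    (fun q : Fin n => hk (n := n) (W := W) R 𝔪 v (q.1 + 1) a) T
    (fun q φ => (t_HKG F n R W 𝔪 v (q.1 + 1) a g φ).symm) t φ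
  exact h1.symm

/-- the functions of level `𝔪` -/
def LM (F R W : Type) [Field F] [NumberField F] [CommRing R] [AddCommGroup W] [Module R W] (n : ℕ)
    (𝔪 : Ideal (𝓞 F)) : Submodule R (Pt F n → W) where
  carrier := {f | Lev 𝔪 f}
  add_mem' := by
    rintro f g h1 h3
    refine ⟨fun x hx => ?_, fun x y hx hy he => ?_⟩
    · rw [Pi.add_apply, h1.1 x hx, h3.1 x hx, add_zero]
    · rw [Pi.add_apply, Pi.add_apply, h1.2 x y hx hy he, h3.2 x y hx hy he]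
  zero_mem' := ⟨fun _ _ => rfl, fun _ _ _ _ _ => rfl⟩
  smul_mem' := by
    rintro r f h1
    refine ⟨fun x hx => ?_, fun x y hx hy he => ?_⟩
    · rw [Pi.smul_apply, h1.1 x hx, smul_zero]
    · rw [Pi.smul_apply, Pi.smul_apply, h1.2 x y hx hy he]

theorem act1_lev {𝔪 : Ideal (𝓞 F)} {v : HeightOneSpectrum (𝓞 F)} {a : 𝓞 F}
    (hv : ¬ 𝔪 ≤ v.asIdeal) (ha : a ∈ v.asIdeal) (ha1 : a - 1 ∈ 𝔪) (t : FreeAlgebra R (Fin n))
    {φ : Pt F n → W} (hφ : Lev 𝔪 φ) : Lev 𝔪 (act1 R 𝔪 v a t φ) :=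
  Pool.Agent.T2h62.CG.lift_mem (R := R)
    (fun q : Fin n => hk (n := n) (W := W) R 𝔪 v (q.1 + 1) a) (LM F R W n 𝔪)
    (fun q φ hφ => t_HKL F n R W 𝔪 v (q.1 + 1) a hv ha ha1 φ hφ) t φ hφ

/-- change of level -/
theorem act1_rs {𝔪 𝔪₁ : Ideal (𝓞 F)} {v : HeightOneSpectrum (𝓞 F)} {a a₁ : 𝓞 F}
    (hm : 𝔪₁ ≤ 𝔪) (hv : ¬ 𝔪₁ ≤ v.asIdeal) (ha : a ∈ v.asIdeal) (ha1 : a - 1 ∈ 𝔪)
    (hb : a₁ ∈ v.asIdeal) (hb1 : a₁ - 1 ∈ 𝔪₁) (t : FreeAlgebra R (Fin n)) :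
    ∀ φ : Pt F n → W, Lev 𝔪 φ → act1 R 𝔪₁ v a₁ t (rs 𝔪₁ φ) = rs 𝔪₁ (act1 R 𝔪 v a t φ) := by
  classical
  let T : (Pt F n → W) →ₗ[R] (Pt F n → W) :=
    { toFun := rs 𝔪₁
      map_add' := fun φ ψ => by
        funext x
        show (ite _ _ _ : W) = (ite _ _ _ : W) + (ite _ _ _ : W)
        split_ifs
        · rfl
        · rw [add_zero]
      map_smul' := fun r φ => by
        funext x
        show (ite _ _ _ : W) = r • (ite _ _ _ : W)
        split_ifs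
        · rfl
        · rw [smul_zero] }
  have hT : ∀ φ, rs 𝔪₁ φ = T φ := fun _ => rfl
  have hv' : ¬ 𝔪 ≤ v.asIdeal := fun h => hv (hm.trans h)
  induction t using FreeAlgebra.induction with
  | grade0 r =>
    intro φ hφ
    simp only [act1, AlgHom.commutes, Module.algebraMap_end_apply]
    rw [hT, hT, map_smul]
  | grade1 q =>
    intro φ hφ
    simp only [act1, FreeAlgebra.lift_ι_apply]
    exact t_HKC F n R W 𝔪 𝔪₁ v (q.1 + 1) a a₁ hm hv ha ha1 hb hb1 φ hφ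
  | mul b c hb hc =>
    intro φ hφ
    rw [map_mul, Module.End.mul_apply, map_mul, Module.End.mul_apply, hc φ hφ,
      hb _ (act1_lev hv' ha ha1 c hφ)]
  | add b c hb hc =>
    intro φ hφ
    rw [map_add, LinearMap.add_apply, map_add, LinearMap.add_apply, hc φ hφ, hb φ hφ]
    rw [hT, hT, hT, map_add]

/-- right translations -/
theorem act1_rt {𝔪 : Ideal (𝓞 F)} {v : HeightOneSpectrum (𝓞 F)} {a : 𝓞 F}
    (hv : ¬ 𝔪 ≤ v.asIdeal) (ha : a ∈ v.asIdeal) (ha1 : a - 1 ∈ 𝔪)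
    {A : Matrix (Fin n) (Fin n) (𝓞 F)} (hA : IsUnit (A.map (Ideal.Quotient.mk 𝔪)))
    (t : FreeAlgebra R (Fin n)) : ∀ φ : Pt F n → W, Lev 𝔪 φ →
    act1 R 𝔪 v a t (rs 𝔪 fun x => φ (rt A x)) = rs 𝔪 fun x => act1 R 𝔪 v a t φ (rt A x) := by
  classical
  let T : (Pt F n → W) →ₗ[R] (Pt F n → W) :=
    { toFun := fun φ => rs 𝔪 fun x => φ (rt A x)
      map_add' := fun φ ψ => by
        funext x
        show (ite _ _ _ : W) = (ite _ _ _ : W) + (ite _ _ _ : W)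
        split_ifs
        · rfl
        · rw [add_zero]
      map_smul' := fun r φ => by
        funext x
        show (ite _ _ _ : W) = r • (ite _ _ _ : W)
        split_ifs
        · rfl
        · rw [smul_zero] }
  have hT : ∀ φ : Pt F n → W, (rs 𝔪 fun x => φ (rt A x)) = T φ := fun _ => rfl
  induction t using FreeAlgebra.induction with
  | grade0 r =>
    intro φ hφ
    simp only [act1, AlgHom.commutes, Module.algebraMap_end_apply]
    rw [hT, hT, map_smul]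
  | grade1 q =>
    intro φ hφ
    simp only [act1, FreeAlgebra.lift_ι_apply]
    funext x
    by_cases hx : Ok 𝔪 x
    · show _ = (ite _ _ _ : W)
      rw [if_pos hx]
      refine Eq.trans ?_ (t_HKR F n R W 𝔪 v (q.1 + 1) a A φ x hx (ok_rt hA hx)).symm
      show (dite _ _ _ : W) = (dite _ _ _ : W)
      by_cases hf : (Sub v (q.1 + 1) x.L).Finite
      · have h1 : Ok 𝔪 x ∧ (Sub v (q.1 + 1) x.L).Finite := ⟨hx, hf⟩
        rw [dif_pos h1, dif_pos h1]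
        refine Finset.sum_congr rfl fun M hM => ?_
        show (ite _ _ _ : W) = _
        rw [if_pos (ok_sub ha ha1 hx ((Set.Finite.mem_toFinset _).1 hM))]
      · have h1 : ¬ (Ok 𝔪 x ∧ (Sub v (q.1 + 1) x.L).Finite) := fun h' => hf h'.2
        rw [dif_neg h1, dif_neg h1]
    · have h1 : ¬ (Ok 𝔪 x ∧ (Sub v (q.1 + 1) x.L).Finite) := fun h' => hx h'.1
      show (dite _ _ _ : W) = (ite _ _ _ : W)
      rw [if_neg hx, dif_neg h1]
  | mul b c hb hc =>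
    intro φ hφ
    rw [map_mul, Module.End.mul_apply, Module.End.mul_apply, hc φ hφ,
      hb _ (act1_lev hv ha ha1 c hφ)]
  | add b c hb hc =>
    intro φ hφ
    rw [map_add, LinearMap.add_apply, LinearMap.add_apply, hc φ hφ, hb φ hφ]
    rw [hT, hT, hT, map_add]

theorem exists_a {𝔪 : Ideal (𝓞 F)} {v : HeightOneSpectrum (𝓞 F)} (hv : ¬ 𝔪 ≤ v.asIdeal) :
    ∃ a : 𝓞 F, a ∈ v.asIdeal ∧ a - 1 ∈ 𝔪 := by
  have hcop : IsCoprime 𝔪 v.asIdeal := by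
    rw [Ideal.isCoprime_iff_sup_eq]
    have hmax : v.asIdeal.IsMaximal := v.isMaximal
    by_contra hne
    have h5 : v.asIdeal ≤ 𝔪 ⊔ v.asIdeal := le_sup_right
    have h6 := hmax.eq_of_le hne h5
    exact hv (le_sup_left.trans h6.symm.le)
  obtain ⟨b, hb, c, hc, h⟩ := Ideal.isCoprime_iff_exists.1 hcop
  refine ⟨c, hc, ?_⟩
  have h2 : c - 1 = -b := by rw [← h]; ring
  rw [h2]
  exact 𝔪.neg_mem hb

theorem t_DSC (hT : S_THE) (hL : S_LIF) (hR : S_TRA) : S_DSC := by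
  classical
  intro F _ _ n hn R W _ _ _ 𝔪 𝔪₁ hm h𝔪₁ H ρW z hz u hu hzu v a hv ha ha1 t ht
  have hv' : ¬ 𝔪 ≤ v.asIdeal := fun h => hv (hm.trans h)
  have h𝔪 : 𝔪 ≠ ⊥ := fun h => h𝔪₁ (le_bot_iff.1 (h ▸ hm))
  obtain ⟨a₁, hb, hb1⟩ := exists_a hv
  set u₁ : Pt F n → W := act1 R 𝔪₁ v a₁ t u with hu₁
  have hu₁l : Lev 𝔪₁ u₁ := act1_lev hv hb hb1 t hu
  -- (A)
  have hA : ∀ g x, Ok 𝔪₁ x → act1 R 𝔪 v a t (z g) x = u₁ (ga g⁻¹ x) - u₁ x := by
    intro g x hx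
    have h1 : rs 𝔪₁ (z g) = tr g u - u := by
      funext y
      show (ite _ _ _ : W) = u (ga g⁻¹ y) - u y
      split_ifs with hy
      · exact hzu g y hy
      · rw [hu.1 y hy, hu.1 _ (fun h => hy (ok_ga_iff.1 h)), sub_zero]
    have h2 := act1_rs (R := R) hm hv ha ha1 hb hb1 t (z g) (hz g).1
    rw [h1, map_sub, act1_tr] at h2
    have h3 := congrFun h2 x
    have h4 : rs 𝔪₁ (act1 R 𝔪 v a t (z g)) x = act1 R 𝔪 v a t (z g) x := if_pos hx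
    rw [h4] at h3
    exact h3.symm
  -- (B)
  have hB : ∀ (A : Matrix (Fin n) (Fin n) (𝓞 F)) (h : H),
      A.map (Ideal.Quotient.mk 𝔪) = (h : GL (Fin n) (𝓞 F ⧸ 𝔪)).1 →
      IsUnit (A.map (Ideal.Quotient.mk 𝔪₁)) → ∀ x, Ok 𝔪₁ x → ρW h (u₁ (rt A x)) = u₁ x := by
    intro A h hAh hA1 x hx
    set f : Pt F n → W := (fun x => ρW h ((rs 𝔪₁ fun x => u (rt A x)) x)) - u with hf
    have hfx : ∀ y, Ok 𝔪₁ y → f y = ρW h (u (rt A y)) - u y := by
      intro y hy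
      show ρW h (ite _ _ _ : W) - u y = _
      rw [if_pos hy]
    have hfl : Lev 𝔪₁ f := by
      refine ⟨fun y hy => ?_, fun y y' hy hy' he => ?_⟩
      · show ρW h (ite _ _ _ : W) - u y = 0
        rw [if_neg hy, map_zero, hu.1 y hy, sub_zero]
      · rw [hfx y hy, hfx y' hy', hu.eq he, hu.eq (eqv_rt A he)]
    have hfi : Inv f := by
      intro g _ y
      by_cases hy : Ok 𝔪₁ y
      · rw [hfx y hy, hfx _ (ok_ga hy)]
        have h1 := hzu g⁻¹ y hy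
        have h2 := hzu g⁻¹ (rt A y) (ok_rt hA1 hy)
        rw [inv_inv] at h1 h2
        have h3 := (hz g⁻¹).2 A h hAh y (ok_mono hm hy)
        rw [h1, h2] at h3
        have h4 := congrArg (ρW h) h3
        rw [← Module.End.mul_apply, ← map_mul, mul_inv_cancel, map_one, Module.End.one_apply,
          map_sub] at h4
        rw [rt_ga]
        have h5 := h4
        have h6 : ρW h (u (ga g (rt A y))) = u (ga g y) - u y + ρW h (u (rt A y)) := by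
          rw [← h5]; abel
        rw [h6]; abel
      · rw [hfl.1 y hy, hfl.1 _ (fun h => hy (ok_ga_iff.1 h))]
    have h1 := congrFun (hT F n hn R W 𝔪₁ v a₁ h𝔪₁ hv hb hb1 f hfl hfi t ht) x
    rw [hf, map_sub, act1_comp 𝔪₁ v a₁ (ρW h) t, act1_rt hv hb hb1 hA1 t u hu] at h1
    have h2 : (rs 𝔪₁ fun x => act1 R 𝔪₁ v a₁ t u (rt A x)) x = u₁ (rt A x) := if_pos hx
    have h3 : ρW h ((rs 𝔪₁ fun x => act1 R 𝔪₁ v a₁ t u (rt A x)) x) - u₁ x = 0 := h1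
    rw [h2] at h3
    exact sub_eq_zero.1 h3
  -- (C)
  have hlift : ∀ x : Pt F n, Ok 𝔪 x → ∃ y, Ok 𝔪₁ y ∧ Eqv 𝔪 x y := fun x hx =>
    hL F n 𝔪 𝔪₁ hm h𝔪₁ x hx
  choose! l hl1 hl2 using hlift
  -- transitivity
  have htra : ∀ (x y : Pt F n) (A : Matrix (Fin n) (Fin n) (𝓞 F)) (h : H),
      A.map (Ideal.Quotient.mk 𝔪) = (h : GL (Fin n) (𝓞 F ⧸ 𝔪)).1 → Ok 𝔪₁ x → Ok 𝔪₁ y →
      Eqv 𝔪 y (rt A x) → u₁ y = ρW h⁻¹ (u₁ x) := by
    intro x y A h hAh hx hy he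
    obtain ⟨A', h1, h2, h3⟩ := hR F n 𝔪 𝔪₁ hm h𝔪₁ x y A hx hy he
    have h4 : A'.map (Ideal.Quotient.mk 𝔪) = (h : GL (Fin n) (𝓞 F ⧸ 𝔪)).1 := by
      rw [← hAh]
      ext i j
      exact Ideal.Quotient.eq.2 (h1 i j)
    have h5 := hB A' h h4 h2 x hx
    rw [hu₁l.eq h3, ← h5, ← Module.End.mul_apply, ← map_mul, inv_mul_cancel, map_one,
      Module.End.one_apply]
  have hone : (1 : Matrix (Fin n) (Fin n) (𝓞 F)).map (Ideal.Quotient.mk 𝔪) =
      ((1 : H) : GL (Fin n) (𝓞 F ⧸ 𝔪)).1 :=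
    Matrix.map_one _ (map_zero _) (map_one _)
  have hu₁eq : ∀ x y : Pt F n, Ok 𝔪₁ x → Ok 𝔪₁ y → Eqv 𝔪 y x → u₁ y = u₁ x := by
    intro x y hx hy he
    have := htra x y 1 1 hone hx hy (by rw [rt_one]; exact he)
    rwa [inv_one, map_one, Module.End.one_apply] at this
  refine ⟨fun x => if Ok 𝔪 x then u₁ (l x) else 0, ⟨⟨fun x hx => if_neg hx, ?_⟩, ?_⟩, ?_⟩
  · intro x y hx hy he
    show (ite _ _ _ : W) = (ite _ _ _ : W)
    rw [if_pos hx, if_pos hy]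
    exact hu₁eq _ _ (hl1 y hy) (hl1 x hx)
      (eqv_trans (eqv_symm (hl2 x hx)) (eqv_trans he (hl2 y hy)))
  · intro A h hAh x hx
    have hu : IsUnit (A.map (Ideal.Quotient.mk 𝔪)) := by
      rw [hAh]
      exact (h : GL (Fin n) (𝓞 F ⧸ 𝔪)).isUnit
    have hAx := ok_rt hu hx
    show (ite _ _ _ : W) = ρW h⁻¹ (ite _ _ _ : W)
    rw [if_pos hx, if_pos hAx]
    exact htra _ _ A h hAh (hl1 x hx) (hl1 _ hAx)
      (eqv_trans (eqv_symm (hl2 _ hAx)) (eqv_rt A (hl2 x hx)))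
  · intro g
    funext x
    by_cases hx : Ok 𝔪 x
    · have hlev := act1_lev (R := R) hv' ha ha1 t (hz g).1
      rw [hlev.eq (hl2 x hx), hA g _ (hl1 x hx)]
      have hgx : Ok 𝔪 (ga g⁻¹ x) := ok_ga hx
      show _ = (ite _ _ _ : W) - (ite _ _ _ : W)
      rw [if_pos hx, if_pos hgx]
      congr 1
      exact hu₁eq _ _ (hl1 _ hgx) (ok_ga (hl1 x hx))
        (eqv_trans (eqv_ga g⁻¹ (eqv_symm (hl2 x hx))) (hl2 _ hgx))
    · have hlev := act1_lev (R := R) hv' ha ha1 t (hz g).1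
      rw [hlev.1 x hx]
      have hgx : ¬ Ok 𝔪 (ga g⁻¹ x) := fun h => hx (ok_ga_iff.1 h)
      show _ = (ite _ _ _ : W) - (ite _ _ _ : W)
      rw [if_neg hx, if_neg hgx, sub_zero]

end Pool.Agent.T2h61.CG.TDSC
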