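import Pool.Agent.T2h61.CG.Stm

/-!
# Exponents of unit groups modulo elements of a progression (for the Mennicke symbols)
-/

set_option autoImplicit false
set_option linter.all false

open NumberField IsDedekindDomain

namespace Pool.Agent.T2h61.CG.TEXP

variable {F : Type} [Field F] [NumberField F]

theorem det_cast {ι : Type*} [Fintype ι] [DecidableEq ι] (n : ℕ) (M : Matrix ι ι ℤ) :
    ((Matrix.det M : ℤ) : ZMod n) = Matrix.det ((Int.castRingHom (ZMod n)).mapMatrix M) := by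
  rw [← RingHom.map_det]
  rfl

/-- norms of elements congruent modulo an integer -/
theorem norm_congr (n : ℕ) (x y z : 𝓞 F) (h : x = y + (n : 𝓞 F) * z) :
    ((n : ℕ) : ℤ) ∣ Algebra.norm ℤ x - Algebra.norm ℤ y := by
  classical
  set b := Module.Free.chooseBasis ℤ (𝓞 F) with hb
  rw [Algebra.norm_eq_matrix_det b, Algebra.norm_eq_matrix_det b]
  have e : Algebra.leftMulMatrix b x = Algebra.leftMulMatrix b y +
      (n : ℤ) • Algebra.leftMulMatrix b z := by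
    rw [h, map_add, ← map_zsmul (Algebra.leftMulMatrix b) (n : ℤ) z]
    congr 2
    simp
  rw [e, ← ZMod.intCast_zmod_eq_zero_iff_dvd _ n, Int.cast_sub, sub_eq_zero]
  rw [det_cast, det_cast]
  congr 1
  rw [map_add]
  have h0 : (Int.castRingHom (ZMod n)).mapMatrix ((n : ℤ) • Algebra.leftMulMatrix b z) = 0 := by
    ext i j
    rw [RingHom.mapMatrix_apply, Matrix.map_apply, Matrix.smul_apply, smul_eq_mul, map_mul]
    have h1 : (Int.castRingHom (ZMod n)) (n : ℤ) = 0 := by simp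
    rw [h1, zero_mul]
    rfl
  rw [h0, add_zero]

/-- the norm of a natural number -/
theorem norm_nat (r : ℕ) : Algebra.norm ℤ (r : 𝓞 F) = (r : ℤ) ^ Module.finrank ℤ (𝓞 F) := by
  have := Algebra.norm_algebraMap (S := 𝓞 F) (r : ℤ)
  rw [← this]
  congr 1
  simp

/-- the multiplicative group modulo a prime element -/
theorem unit_pow {π : 𝓞 F} (hπ : Prime π) (u : (𝓞 F)ˣ) :
    π ∣ (u : 𝓞 F) ^ (Ideal.absNorm (Ideal.span {π}) - 1) - 1 := by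
  classical
  have hπ0 : π ≠ 0 := hπ.ne_zero
  have hp : (Ideal.span {π}).IsPrime := (Ideal.span_singleton_prime hπ0).2 hπ
  have hb : Ideal.span {π} ≠ ⊥ := by rwa [Ne, Ideal.span_singleton_eq_bot]
  have hm : (Ideal.span {π}).IsMaximal := hp.isMaximal hb
  letI := Ideal.Quotient.field (Ideal.span {π})
  haveI : Finite (𝓞 F ⧸ Ideal.span {π}) := Ideal.finiteQuotientOfFreeOfNeBot _ hb
  letI := Fintype.ofFinite (𝓞 F ⧸ Ideal.span {π})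
  have h1 : Ideal.absNorm (Ideal.span {π}) = Fintype.card (𝓞 F ⧸ Ideal.span {π}) := by
    rw [Ideal.absNorm_apply, Submodule.cardQuot_apply, Nat.card_eq_fintype_card]
  rw [← Ideal.mem_span_singleton, ← Ideal.Quotient.eq_zero_iff_mem, map_sub, map_pow, map_one,
    h1, sub_eq_zero]
  refine FiniteField.pow_card_sub_one_eq_one _ ?_
  intro h2
  exact (u.isUnit.map (Ideal.Quotient.mk (Ideal.span {π}))).ne_zero h2

/-- congruences modulo the power of `ℓ` -/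
theorem not_dvd_norm {ℓ κ : ℕ} {π : 𝓞 F} (hπ0 : π ≠ 0)
    (h1 : ¬ (((ℓ ^ (κ + 1) : ℕ) : ℤ) ∣ Algebra.norm ℤ π - 1))
    (h2 : ¬ (((ℓ ^ (κ + 1) : ℕ) : ℤ) ∣ Algebra.norm ℤ π + 1)) :
    ¬ ℓ ^ (κ + 1) ∣ Ideal.absNorm (Ideal.span {π}) - 1 := by
  intro h
  have h3 : 1 ≤ Ideal.absNorm (Ideal.span {π}) := by
    rw [Nat.one_le_iff_ne_zero, Ne, Ideal.absNorm_eq_zero_iff, Ideal.span_singleton_eq_bot]
    exact hπ0
  have h4 : ((ℓ ^ (κ + 1) : ℕ) : ℤ) ∣ (Ideal.absNorm (Ideal.span {π}) : ℤ) - 1 := by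
    have h5 : (((Ideal.absNorm (Ideal.span {π}) - 1 : ℕ)) : ℤ) =
        (Ideal.absNorm (Ideal.span {π}) : ℤ) - 1 := by
      rw [Nat.cast_sub h3, Nat.cast_one]
    rw [← h5]
    exact_mod_cast h
  rw [Ideal.absNorm_span_singleton] at h4
  rcases Int.natAbs_eq (Algebra.norm ℤ π) with h6 | h6
  · rw [← h6] at h4
    exact h1 h4
  · apply h2
    have h7 : ((Algebra.norm ℤ π).natAbs : ℤ) = - Algebra.norm ℤ π := by
      rw [eq_neg_iff_add_eq_zero]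
      omega
    rw [h7] at h4
    have h8 := (dvd_neg (a := ((ℓ ^ (κ + 1) : ℕ) : ℤ))).2 h4
    have h9 : -(-Algebra.norm ℤ π - 1) = Algebra.norm ℤ π + 1 := by ring
    rwa [h9] at h8

theorem exists_r {ℓ : ℕ} (hℓ : ℓ.Prime) : ∃ r₁ r₂ : ℕ, 2 ≤ r₁ ∧ r₁ < r₂ ∧ r₂ ≤ 5 ∧
    Nat.Coprime r₁ ℓ ∧ Nat.Coprime r₂ ℓ := by
  by_cases h2 : ℓ = 2
  · subst h2; exact ⟨3, 5, by norm_num, by norm_num, by norm_num, by norm_num, by norm_num⟩
  by_cases h3 : ℓ = 3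
  · subst h3; exact ⟨2, 5, by norm_num, by norm_num, by norm_num, by norm_num, by norm_num⟩
  exact ⟨2, 3, by norm_num, by norm_num, by norm_num,
    (Nat.coprime_primes Nat.prime_two hℓ).2 (Ne.symm h2),
    (Nat.coprime_primes Nat.prime_three hℓ).2 (Ne.symm h3)⟩

/-- nonzero integers of size at most `M` are not divisible by a large power of `ℓ` -/
theorem not_dvd {ℓ M : ℕ} (hℓ : ℓ.Prime) {x : ℤ} (hx : x ≠ 0) (hM : x.natAbs ≤ M) :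
    ¬ (((ℓ ^ (M.factorial.factorization ℓ + 1) : ℕ) : ℤ) ∣ x) := by
  intro h
  have h1 : ℓ ^ (M.factorial.factorization ℓ + 1) ∣ x.natAbs := Int.natCast_dvd.1 h
  have h2 : x.natAbs ∣ M.factorial := Nat.dvd_factorial (Int.natAbs_pos.2 hx) hM
  have h3 := (h1.trans h2)
  rw [hℓ.pow_dvd_iff_le_factorization (Nat.factorial_ne_zero M)] at h3
  omega

theorem pow_sub_bound {r s d : ℕ} (h1 : r ≤ 5) (h2 : s ≤ 5) (ε : ℤ) (hε : ε = 1 ∨ ε = -1) :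
    ((r : ℤ) ^ d + ε * (s : ℤ) ^ d).natAbs ≤ 2 * 5 ^ d := by
  have h3 : r ^ d ≤ 5 ^ d := Nat.pow_le_pow_left h1 d
  have h4 : s ^ d ≤ 5 ^ d := Nat.pow_le_pow_left h2 d
  have h5 : (r : ℤ) ^ d = ((r ^ d : ℕ) : ℤ) := by push_cast; rfl
  have h6 : (s : ℤ) ^ d = ((s ^ d : ℕ) : ℤ) := by push_cast; rfl
  rw [h5, h6]
  rcases hε with rfl | rfl <;> omega

theorem pow_ne {r s d : ℕ} (hd : d ≠ 0) (hr : 1 ≤ s) (hrs : s < r) (ε : ℤ)
    (hε : ε = 1 ∨ ε = -1) : (r : ℤ) ^ d + ε * (s : ℤ) ^ d ≠ 0 := by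
  have h3 : s ^ d < r ^ d := Nat.pow_lt_pow_left hrs hd
  have h5 : (r : ℤ) ^ d = ((r ^ d : ℕ) : ℤ) := by push_cast; rfl
  have h6 : (s : ℤ) ^ d = ((s ^ d : ℕ) : ℤ) := by push_cast; rfl
  rw [h5, h6]
  rcases hε with rfl | rfl <;> omega

theorem cop_of_not_dvd {π x : 𝓞 F} (hπ : Prime π) (h : ¬ π ∣ x) : IsCoprime π x := by
  have hmax : (Ideal.span {π}).IsMaximal :=
    ((Ideal.span_singleton_prime hπ.ne_zero).2 hπ).isMaximal
      (by rw [Ne, Ideal.span_singleton_eq_bot]; exact hπ.ne_zero)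
  have h1 : x ∉ Ideal.span {π} := by rwa [Ideal.mem_span_singleton]
  obtain ⟨y, i, hi, e⟩ := hmax.exists_inv h1
  obtain ⟨z, rfl⟩ := Ideal.mem_span_singleton.1 hi
  exact ⟨z, y, by linear_combination e⟩

theorem norm_le_of_dvd {x y : 𝓞 F} (hy : y ≠ 0) (h : x ∣ y) :
    Ideal.absNorm (Ideal.span {x}) ≤ Ideal.absNorm (Ideal.span {y}) := by
  refine Nat.le_of_dvd (Nat.pos_of_ne_zero ?_)
    (Ideal.absNorm_dvd_absNorm_of_le (Ideal.span_singleton_le_span_singleton.2 h))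
  rw [Ne, Ideal.absNorm_eq_zero_iff, Ideal.span_singleton_eq_bot]
  exact hy

theorem exists_rep {ℓ : ℕ} (hℓ : ℓ.Prime) {n : ℕ} (hn : n ≠ 0) (K : ℕ) {r : ℕ}
    (hr : Nat.Coprime r ℓ) : ∃ r' : ℕ, r' ≡ r [MOD ℓ ^ (K + 1)] ∧ Nat.Coprime r' ℓ ∧
      Nat.Coprime r' n := by
  have hc : Nat.Coprime (ℓ ^ (K + 1)) (n / ℓ ^ n.factorization ℓ) :=
    Nat.Coprime.pow_left _ (Nat.coprime_ordCompl hℓ hn)
  obtain ⟨r', h1, h2⟩ := Nat.chineseRemainder hc r 1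
  have h3 : Nat.Coprime r' ℓ := by
    have h4 : r' ≡ r [MOD ℓ] := h1.of_dvd (dvd_pow_self ℓ (Nat.succ_ne_zero K))
    unfold Nat.Coprime
    rw [h4.gcd_eq]
    exact hr
  refine ⟨r', h1, h3, ?_⟩
  have h5 : Nat.Coprime r' (n / ℓ ^ n.factorization ℓ) := by
    unfold Nat.Coprime
    rw [h2.gcd_eq]
    exact Nat.gcd_one_left _
  rw [← Nat.ordProj_mul_ordCompl_eq_self n ℓ]
  exact Nat.Coprime.mul_right (Nat.Coprime.pow_right _ h3) h5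

theorem choose_r {ℓ M d : ℕ} (hℓ : ℓ.Prime) (hd : d ≠ 0) (hM : M = 2 * 5 ^ d) (A : ℤ) :
    ∃ r : ℕ, 2 ≤ r ∧ r ≤ 5 ∧ Nat.Coprime r ℓ ∧
      ¬ (((ℓ ^ (M.factorial.factorization ℓ + 1) : ℕ) : ℤ) ∣ A - (r : ℤ) ^ d) ∧
      ¬ (((ℓ ^ (M.factorial.factorization ℓ + 1) : ℕ) : ℤ) ∣ A + (r : ℤ) ^ d) := by
  obtain ⟨r₁, r₂, hr2, hr12, hr5, hc1, hc2⟩ := exists_r hℓ
  by_contra hcon
  push Not at hcon
  have g1 : ∃ ε : ℤ, (ε = 1 ∨ ε = -1) ∧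
      (((ℓ ^ (M.factorial.factorization ℓ + 1) : ℕ) : ℤ) ∣ A + ε * (r₁ : ℤ) ^ d) := by
    by_cases h : (((ℓ ^ (M.factorial.factorization ℓ + 1) : ℕ) : ℤ) ∣ A - (r₁ : ℤ) ^ d)
    · exact ⟨-1, Or.inr rfl, by rw [neg_one_mul, ← sub_eq_add_neg]; exact h⟩
    · exact ⟨1, Or.inl rfl, by rw [one_mul]; exact hcon r₁ hr2 (by omega) hc1 h⟩
  have g2 : ∃ ε : ℤ, (ε = 1 ∨ ε = -1) ∧
      (((ℓ ^ (M.factorial.factorization ℓ + 1) : ℕ) : ℤ) ∣ A + ε * (r₂ : ℤ) ^ d) := by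
    by_cases h : (((ℓ ^ (M.factorial.factorization ℓ + 1) : ℕ) : ℤ) ∣ A - (r₂ : ℤ) ^ d)
    · exact ⟨-1, Or.inr rfl, by rw [neg_one_mul, ← sub_eq_add_neg]; exact h⟩
    · exact ⟨1, Or.inl rfl, by rw [one_mul]; exact hcon r₂ (by omega) hr5 hc2 h⟩
  obtain ⟨ε₁, h1, k1⟩ := g1
  obtain ⟨ε₂, h2, k2⟩ := g2
  have k3 := (k2.sub k1).mul_left ε₂
  have e : ε₂ * (A + ε₂ * (r₂ : ℤ) ^ d - (A + ε₁ * (r₁ : ℤ) ^ d)) =
      (r₂ : ℤ) ^ d + (-(ε₂ * ε₁)) * (r₁ : ℤ) ^ d := by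
    have : ε₂ * ε₂ = 1 := by rcases h2 with rfl | rfl <;> norm_num
    linear_combination ((r₂ : ℤ) ^ d) * this
  rw [e] at k3
  have hε : -(ε₂ * ε₁) = 1 ∨ -(ε₂ * ε₁) = -1 := by
    rcases h1 with rfl | rfl <;> rcases h2 with rfl | rfl <;> norm_num
  exact not_dvd hℓ (pow_ne hd (by omega) hr12 _ hε)
    (hM ▸ pow_sub_bound hr5 (by omega) _ hε) k3

theorem t_EXP (hDIR : S_DIR) : S_EXP := by
  intro F _ _
  set d : ℕ := Module.finrank ℤ (𝓞 F) with hd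
  have hd0 : d ≠ 0 := (Module.finrank_pos (R := ℤ) (M := 𝓞 F)).ne'
  set M : ℕ := 2 * 5 ^ d with hM
  refine ⟨M.factorial, Nat.factorial_ne_zero M, ?_⟩
  intro a b N hb hN hab ℓ hℓ
  set κ : ℕ := M.factorial.factorization ℓ with hκ
  have hN0 : (N : 𝓞 F) ≠ 0 := by exact_mod_cast hN
  have hbN : b * (N : 𝓞 F) ≠ 0 := mul_ne_zero hb hN0
  have hℓ0 : ((ℓ : ℕ) : 𝓞 F) ≠ 0 := by exact_mod_cast hℓ.ne_zero
  -- the auxiliary prime element
  obtain ⟨a', ha'p, ha'1, ha'2⟩ := hDIR F (Ideal.span {b * N})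
    (by rwa [Ne, Ideal.span_singleton_eq_bot]) a
    ((Ideal.isCoprime_span_singleton_iff _ _).2 hab)
    (Ideal.absNorm (Ideal.span {((ℓ : ℕ) : 𝓞 F)}))
  rw [Ideal.mem_span_singleton] at ha'1
  obtain ⟨y0, hy0⟩ := ha'1
  have ha'c : IsCoprime a' (b * N) := by
    have : a' = a + (b * N) * y0 := by linear_combination hy0
    rw [this]
    exact IsCoprime.add_mul_left_left hab y0
  have ha'ℓ : IsCoprime a' ((ℓ : ℕ) : 𝓞 F) := cop_of_not_dvd ha'p fun h =>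
    absurd (norm_le_of_dvd hℓ0 h) (not_le.2 ha'2)
  set L : ℕ := ℓ ^ (κ + 1) with hL
  have hLc : ((L : ℕ) : 𝓞 F) = ((ℓ : ℕ) : 𝓞 F) ^ (κ + 1) := by rw [hL]; push_cast; rfl
  have hL0 : ((L : ℕ) : 𝓞 F) ≠ 0 := by rw [hLc]; exact pow_ne_zero _ hℓ0
  set q : 𝓞 F := b * N * L with hq
  have hq0 : q ≠ 0 := mul_ne_zero hbN hL0
  have ha'q : IsCoprime a' q := by
    rw [hq, hLc]
    exact IsCoprime.mul_right ha'c (IsCoprime.pow_right ha'ℓ)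
  obtain ⟨r, hr2, hr5, hrc, hA1, hA2⟩ := choose_r hℓ hd0 hM (Algebra.norm ℤ a')
  set n0 : ℕ := Ideal.absNorm (Ideal.span {b * (N : 𝓞 F)}) with hn0
  have hn00 : n0 ≠ 0 := by
    rw [hn0, Ne, Ideal.absNorm_eq_zero_iff, Ideal.span_singleton_eq_bot]
    exact hbN
  have hdn : b * (N : 𝓞 F) ∣ (n0 : 𝓞 F) := by
    rw [← Ideal.mem_span_singleton]
    exact Ideal.absNorm_mem _
  obtain ⟨r', hr'1, hr'2, hr'3⟩ := exists_rep hℓ hn00 κ hrc
  have hr'q : IsCoprime ((r' : ℕ) : 𝓞 F) q := by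
    have h1 : IsCoprime ((r' : ℕ) : 𝓞 F) ((ℓ : ℕ) : 𝓞 F) := Nat.Coprime.cast hr'2
    have h2 : IsCoprime ((r' : ℕ) : 𝓞 F) ((n0 : ℕ) : 𝓞 F) := Nat.Coprime.cast hr'3
    rw [hq, hLc]
    exact IsCoprime.mul_right (IsCoprime.of_isCoprime_of_dvd_right h2 hdn)
      (IsCoprime.pow_right h1)
  -- the two prime elements
  obtain ⟨π₁, hπ₁, h11, h12⟩ := hDIR F (Ideal.span {q})
    (by rwa [Ne, Ideal.span_singleton_eq_bot]) ((r' : ℕ) : 𝓞 F)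
    ((Ideal.isCoprime_span_singleton_iff _ _).2 hr'q) 1
  rw [Ideal.mem_span_singleton] at h11
  obtain ⟨w₁, hw₁⟩ := h11
  have hπ₁q : IsCoprime π₁ q := by
    have : π₁ = ((r' : ℕ) : 𝓞 F) + q * w₁ := by linear_combination hw₁
    rw [this]
    exact IsCoprime.add_mul_left_left hr'q w₁
  obtain ⟨y, z, hyz⟩ := hπ₁q
  have hyq : IsCoprime y q := ⟨π₁, z, by linear_combination hyz⟩
  obtain ⟨π₂, hπ₂, h21, h22⟩ := hDIR F (Ideal.span {q})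
    (by rwa [Ne, Ideal.span_singleton_eq_bot]) (a' * y)
    ((Ideal.isCoprime_span_singleton_iff _ _).2 (IsCoprime.mul_left ha'q hyq))
    (Ideal.absNorm (Ideal.span {π₁}))
  rw [Ideal.mem_span_singleton] at h21
  obtain ⟨w₂, hw₂⟩ := h21
  have hprod : π₁ * π₂ = a' + q * (π₁ * w₂ - a' * z) := by
    linear_combination π₁ * hw₂ + a' * hyz
  set w := π₁ * w₂ - a' * z with hw
  have hπ₂1 : ¬ π₂ ∣ π₁ := fun h => absurd (norm_le_of_dvd hπ₁.ne_zero h) (not_le.2 h22)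
  have hcop : IsCoprime π₁ π₂ := (cop_of_not_dvd hπ₂ hπ₂1).symm
  refine ⟨y0 + L * w, Nat.lcm (Ideal.absNorm (Ideal.span {π₁}) - 1)
    (Ideal.absNorm (Ideal.span {π₂}) - 1), ?_, ?_, ?_⟩
  · exact Nat.lcm_ne_zero (by omega) (by omega)
  · intro u
    have e : a + b * N * (y0 + L * w) = π₁ * π₂ := by
      rw [hprod, hq]
      linear_combination -hy0
    rw [e]
    have hdv : ∀ (π : 𝓞 F), Prime π → ∀ k : ℕ, Ideal.absNorm (Ideal.span {π}) - 1 ∣ k →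
        π ∣ (u : 𝓞 F) ^ k - 1 := by
      rintro π hπ k ⟨j, rfl⟩
      refine (unit_pow hπ u).trans ?_
      rw [pow_mul]
      have := sub_dvd_pow_sub_pow ((u : 𝓞 F) ^ (Ideal.absNorm (Ideal.span {π}) - 1)) 1 j
      rwa [one_pow] at this
    exact hcop.mul_dvd (hdv π₁ hπ₁ _ (Nat.dvd_lcm_left _ _)) (hdv π₂ hπ₂ _ (Nat.dvd_lcm_right _ _))
  · -- the norms
    have hN1 : ((L : ℕ) : ℤ) ∣ Algebra.norm ℤ π₁ - (r : ℤ) ^ d := by
      have h1 := norm_congr L π₁ ((r' : ℕ) : 𝓞 F) (b * N * w₁) (by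
        rw [hq] at hw₁; linear_combination hw₁)
      rw [norm_nat, ← hd] at h1
      have h2 : ((L : ℕ) : ℤ) ∣ (r' : ℤ) ^ d - (r : ℤ) ^ d := by
        have h3 : (((r' : ℕ) : ℤ)) ≡ ((r : ℕ) : ℤ) [ZMOD ((L : ℕ) : ℤ)] :=
          (Int.natCast_modEq_iff).2 hr'1
        exact (h3.pow d).symm.dvd
      have h3 := h1.add h2
      have e : Algebra.norm ℤ π₁ - (r' : ℤ) ^ d + ((r' : ℤ) ^ d - (r : ℤ) ^ d) =
        Algebra.norm ℤ π₁ - (r : ℤ) ^ d := by ring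
      rwa [e] at h3
    have hN2 : ((L : ℕ) : ℤ) ∣ Algebra.norm ℤ π₁ * Algebra.norm ℤ π₂ - Algebra.norm ℤ a' := by
      rw [← map_mul]
      refine norm_congr L (π₁ * π₂) a' (b * N * w) ?_
      rw [hprod, hq]
      ring
    have b1 : ¬ ((L : ℕ) : ℤ) ∣ Algebra.norm ℤ π₁ - 1 := by
      intro h
      have h1 := h.sub hN1
      have e : Algebra.norm ℤ π₁ - 1 - (Algebra.norm ℤ π₁ - (r : ℤ) ^ d) =
        (r : ℤ) ^ d + (-1) * ((1 : ℕ) : ℤ) ^ d := by push_cast; rw [one_pow]; ring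
      rw [e] at h1
      exact not_dvd hℓ (pow_ne hd0 le_rfl (by omega) _ (Or.inr rfl))
        (pow_sub_bound hr5 (by norm_num) _ (Or.inr rfl)) h1
    have b2 : ¬ ((L : ℕ) : ℤ) ∣ Algebra.norm ℤ π₁ + 1 := by
      intro h
      have h1 := h.sub hN1
      have e : Algebra.norm ℤ π₁ + 1 - (Algebra.norm ℤ π₁ - (r : ℤ) ^ d) =
        (r : ℤ) ^ d + 1 * ((1 : ℕ) : ℤ) ^ d := by push_cast; rw [one_pow]; ring
      rw [e] at h1
      exact not_dvd hℓ (pow_ne hd0 le_rfl (by omega) _ (Or.inl rfl))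
        (pow_sub_bound hr5 (by norm_num) _ (Or.inl rfl)) h1
    have c1 : ¬ ((L : ℕ) : ℤ) ∣ Algebra.norm ℤ π₂ - 1 := by
      intro h
      apply hA1
      have h1 := ((h.mul_left (Algebra.norm ℤ π₁)).sub hN2).add hN1
      have e : Algebra.norm ℤ π₁ * (Algebra.norm ℤ π₂ - 1) -
          (Algebra.norm ℤ π₁ * Algebra.norm ℤ π₂ - Algebra.norm ℤ a') +
          (Algebra.norm ℤ π₁ - (r : ℤ) ^ d) = Algebra.norm ℤ a' - (r : ℤ) ^ d := by ring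
      rwa [e] at h1
    have c2 : ¬ ((L : ℕ) : ℤ) ∣ Algebra.norm ℤ π₂ + 1 := by
      intro h
      apply hA2
      have h1 := ((h.mul_left (Algebra.norm ℤ π₁)).sub hN2).sub hN1
      have e : Algebra.norm ℤ π₁ * (Algebra.norm ℤ π₂ + 1) -
          (Algebra.norm ℤ π₁ * Algebra.norm ℤ π₂ - Algebra.norm ℤ a') -
          (Algebra.norm ℤ π₁ - (r : ℤ) ^ d) = Algebra.norm ℤ a' + (r : ℤ) ^ d := by ring
      rwa [e] at h1
    have d1 := not_dvd_norm (ℓ := ℓ) (κ := κ) hπ₁.ne_zero b1 b2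
    have d2 := not_dvd_norm (ℓ := ℓ) (κ := κ) hπ₂.ne_zero c1 c2
    intro h
    have k1 : Ideal.absNorm (Ideal.span {π₁}) - 1 ≠ 0 := by omega
    have k2 : Ideal.absNorm (Ideal.span {π₂}) - 1 ≠ 0 := by omega
    rw [hℓ.pow_dvd_iff_le_factorization (Nat.lcm_ne_zero k1 k2), Nat.factorization_lcm k1 k2,
      Finsupp.sup_apply, le_sup_iff] at h
    rcases h with h | h
    · exact d1 ((hℓ.pow_dvd_iff_le_factorization k1).2 h)
    · exact d2 ((hℓ.pow_dvd_iff_le_factorization k2).2 h)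

end Pool.Agent.T2h61.CG.TEXP
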