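import Pool.Agent.T2h61.CG.Stm
import Pool.Agent.T2h62.CG.Alg

/-!
# D7: eigensystems which kill the kernel of `ThN`
-/

set_option autoImplicit false

open NumberField IsDedekindDomain Matrix Polynomial

noncomputable section

namespace Pool.Agent.T2h61.CG.TEXT

theorem t_EXT : S_EXT := by
  intro R k _ _ _ _ n N i hi lam h
  let θ := ThN R N
  let B : Subalgebra R R[X] := θ.range
  let θ' : FreeAlgebra R (Fin n) →+* B := θ.rangeRestrict.toRingHom
  have hs : Function.Surjective θ' := θ.rangeRestrict_surjective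
  have hk : RingHom.ker θ' ≤ RingHom.ker lam.toRingHom := by
    intro t ht
    rw [RingHom.mem_ker] at ht ⊢
    apply h
    have := congrArg (Subtype.val) ht
    exact this
  let l : B →+* k := RingHom.liftOfSurjective θ' hs ⟨lam.toRingHom, hk⟩
  have hl : ∀ t, l (θ' t) = lam t := fun t =>
    RingHom.liftOfRightInverse_comp_apply _ _ _ _ t
  have hθ : ∀ j, θ (FreeAlgebra.ι R j) = C (N j : R) * X ^ (j.1 + 1) := fun j => by
    show ThN R N (FreeAlgebra.ι R j) = _
    unfold ThN
    rw [FreeAlgebra.lift_ι_apply]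
  have hX : IsIntegral B (X : R[X]) := by
    refine IsIntegral.of_pow (n := i.1 + 1) (by omega) ?_
    have h1 : (X : R[X]) ^ (i.1 + 1) = algebraMap B R[X] (θ' (FreeAlgebra.ι R i)) := by
      show _ = θ (FreeAlgebra.ι R i)
      rw [hθ, hi, Nat.cast_one, map_one, one_mul]
    rw [h1]
    exact isIntegral_algebraMap
  have : Algebra.IsIntegral B R[X] := by
    refine ⟨fun p => ?_⟩
    induction p using Polynomial.induction_on' with
    | add p q hp hq => exact hp.add hq
    | monomial m a =>
      rw [← C_mul_X_pow_eq_monomial]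
      have h1 : (C a : R[X]) = algebraMap B R[X] (algebraMap R B a) := rfl
      rw [h1]
      exact isIntegral_algebraMap.mul (hX.pow m)
  obtain ⟨ψ, hψ⟩ := Pool.Agent.T2h62.CG.exists_ext (B := B) (A := R[X]) Subtype.val_injective l
  refine ⟨ψ X, fun j => ?_⟩
  rw [← hl, ← hψ]
  have h2 : algebraMap B R[X] (θ' (FreeAlgebra.ι R j)) = θ (FreeAlgebra.ι R j) := rfl
  rw [h2, hθ, map_mul, map_pow, map_natCast, map_natCast]

end Pool.Agent.T2h61.CG.TEXT
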