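import Pool.Agent.T2h61.CG.Stm
import Pool.Agent.T2h62.CG.Gal

/-!
# Calegari–Geraghty for `GL_n` over number fields: F2
-/

set_option autoImplicit false
set_option linter.unusedSectionVars false

open NumberField IsDedekindDomain Pool.Agent.W401.Cheb

noncomputable section

namespace Pool.Agent.T2h61.CG.TFRB

/-- a Galois number field containing `L` and the `p`-th roots of unity -/
theorem exists_M (L : Type) [Field L] [NumberField L] (p : ℕ) [NeZero p] :
    ∃ (M : Type) (_ : Field M) (_ : NumberField M) (_ : Algebra L M) (ζ : M),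
      IsGalois ℚ M ∧ IsPrimitiveRoot ζ p := by
  let L₁ := CyclotomicField p L
  have hNF : NumberField L₁ := IsCyclotomicExtension.numberField {p} L L₁
  let M := IntermediateField.normalClosure ℚ L₁ (AlgebraicClosure L₁)
  have hA : Algebra.IsAlgebraic ℚ (AlgebraicClosure L₁) := Algebra.IsAlgebraic.trans ℚ L₁ _
  have hB : IsAlgClosure ℚ (AlgebraicClosure L₁) := ⟨inferInstance, hA⟩
  have h0 : Normal ℚ (AlgebraicClosure L₁) := IsAlgClosure.normal ℚ _
  have h1 : Normal ℚ M := normalClosure.normal (F := ℚ) (K := L₁) (L := AlgebraicClosure L₁)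
  have h2 : FiniteDimensional ℚ M := inferInstance
  have h3 : NumberField M := { to_charZero := inferInstance, to_finiteDimensional := h2 }
  refine ⟨M, inferInstance, h3, ((algebraMap L₁ M).comp (algebraMap L L₁)).toAlgebra,
    algebraMap L₁ M (IsCyclotomicExtension.zeta p L L₁), ⟨⟩, ?_⟩
  exact (IsCyclotomicExtension.zeta_spec p L L₁).map_of_injective (algebraMap L₁ M).injective

/-- the residue field has `ℓ` elements -/
theorem card_quot {F : Type} [Field F] [NumberField F] {ℓ : ℕ} [hℓ : Fact ℓ.Prime]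
    (ψ : 𝓞 F →+* AlgebraicClosure (ZMod ℓ)) (h : ∀ x, ψ x = ψ x ^ ℓ) :
    Nat.card (𝓞 F ⧸ RingHom.ker ψ) = ℓ := by
  have hdeg := Polynomial.card_roots' (Polynomial.X ^ ℓ - Polynomial.X :
    Polynomial (AlgebraicClosure (ZMod ℓ)))
  have hne : (Polynomial.X ^ ℓ - Polynomial.X : Polynomial (AlgebraicClosure (ZMod ℓ))) ≠ 0 :=
    FiniteField.X_pow_card_sub_X_ne_zero _ hℓ.out.one_lt
  rw [FiniteField.X_pow_card_sub_X_natDegree_eq _ hℓ.out.one_lt] at hdeg
  set R := (Polynomial.X ^ ℓ - Polynomial.X : Polynomial (AlgebraicClosure (ZMod ℓ))).roots with hR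
  classical
  have hmap : ∀ x : 𝓞 F ⧸ RingHom.ker ψ, RingHom.kerLift ψ x ∈ R.toFinset := by
    intro x
    obtain ⟨y, rfl⟩ := Ideal.Quotient.mk_surjective x
    rw [RingHom.kerLift_mk, Multiset.mem_toFinset, hR, Polynomial.mem_roots hne,
      Polynomial.IsRoot.def, Polynomial.eval_sub, Polynomial.eval_pow, Polynomial.eval_X, ← h y,
      sub_self]
  have hinj : Function.Injective fun x : 𝓞 F ⧸ RingHom.ker ψ =>
      (⟨RingHom.kerLift ψ x, hmap x⟩ : R.toFinset) := by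
    intro x y hxy
    exact RingHom.kerLift_injective ψ (congrArg Subtype.val hxy)
  have hfin : Finite (𝓞 F ⧸ RingHom.ker ψ) := Finite.of_injective _ hinj
  apply le_antisymm
  · refine (Nat.card_le_card_of_injective _ hinj).trans ?_
    rw [Nat.card_eq_fintype_card, Fintype.card_coe]
    exact (Multiset.toFinset_card_le R).trans hdeg
  · have hch : CharP (𝓞 F ⧸ RingHom.ker ψ) ℓ := RingHom.charP (RingHom.kerLift ψ)
      (RingHom.kerLift_injective ψ) ℓ
    have hinj2 : Function.Injective (ZMod.castHom (dvd_refl ℓ) (𝓞 F ⧸ RingHom.ker ψ)) :=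
      ZMod.castHom_injective _
    have := Nat.card_le_card_of_injective _ hinj2
    rwa [Nat.card_zmod] at this

theorem main (F L M : Type) [Field F] [NumberField F] [Field L] [NumberField L] [Field M]
    [NumberField M] [Algebra F L] [Algebra L M] [Algebra F M] [IsScalarTower F L M] [IsGalois F L]
    [IsGalois ℚ M] {p : ℕ} [hp : Fact p.Prime] {ζ : M} (hζ : IsPrimitiveRoot ζ p)
    (S : Set (HeightOneSpectrum (𝓞 F))) (hS : S.Finite) :
    ∃ G' : Subgroup Gal(L/F), G'.Normal ∧ (∃ g₀ : Gal(L/F), ∀ g, ∃ i : ℤ, g * g₀ ^ i ∈ G') ∧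
    ∀ g ∈ G', ∃ v : HeightOneSpectrum (𝓞 F), v ∉ S ∧ p ∣ Ideal.absNorm v.asIdeal - 1 ∧
      ∃ (ℓ : ℕ) (_ : Fact ℓ.Prime) (φ : 𝓞 L →+* AlgebraicClosure (ZMod ℓ)), IsFrob v φ g := by
  have hG : IsGalois F M := IsGalois.tower_top_of_isGalois ℚ F M
  set χ : Gal(M/F) →* (ZMod p)ˣ := hζ.autToPow F with hχ
  let res : Gal(M/F) →* Gal(L/F) := AlgEquiv.restrictNormalHom (F := F) (K₁ := M) L
  have hres : Function.Surjective res := AlgEquiv.restrictNormalHom_surjective M
  refine ⟨χ.ker.map res, Subgroup.Normal.map inferInstance res hres, ?_, ?_⟩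
  · obtain ⟨y, hy⟩ := IsCyclic.exists_generator (α := χ.range)
    obtain ⟨σ₀, hσ₀⟩ := y.2
    refine ⟨res σ₀, fun g => ?_⟩
    obtain ⟨σ, rfl⟩ := hres g
    obtain ⟨j, hj⟩ := Subgroup.mem_zpowers_iff.1 (hy ⟨χ σ, ⟨σ, rfl⟩⟩)
    refine ⟨-j, σ * σ₀ ^ (-j), ?_, by rw [map_mul, map_zpow]⟩
    have h1 : χ σ₀ ^ j = χ σ := by
      have := congrArg Subtype.val hj
      rw [hσ₀]
      exact this
    show σ * σ₀ ^ (-j) ∈ χ.ker
    rw [MonoidHom.mem_ker, map_mul, map_zpow, ← h1, ← zpow_add, add_neg_cancel, zpow_zero]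
  · rintro _ ⟨σ, hσ, rfl⟩
    have hσζ : σ ζ = ζ := by
      have h1 : χ σ = 1 := hσ
      rw [← hζ.autToPow_spec F σ, ← hχ, h1, Units.val_one, ZMod.val_one'' hp.out.one_lt.ne',
        pow_one]
    set τ : Gal(M/ℚ) := AlgEquiv.restrictScalars ℚ σ with hτ
    have hτx : ∀ x : M, τ x = σ x := fun x => rfl
    have hinf := infinite_frob M τ
    have hfin : (((fun v : HeightOneSpectrum (𝓞 F) => Ideal.absNorm v.asIdeal) '' S) ∪
        {q | q ∣ p}).Finite := by
      apply (hS.image _).union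
      exact (Set.finite_Iic p).subset fun q hq => Nat.le_of_dvd hp.out.pos hq
    obtain ⟨ℓ, ⟨hℓ, hx⟩, hnot⟩ := (hinf.sdiff hfin).nonempty
    have hF : Fact ℓ.Prime := ⟨hℓ⟩
    have hℓm : ¬ ℓ ∣ p := fun h => hnot (Or.inr h)
    rw [xp, dif_pos hℓ] at hx
    obtain ⟨⟨φ, hφ⟩⟩ := (Nat.card_ne_zero.1 hx).1
    have hmod : (ℓ : ZMod p) = 1 := Pool.Agent.T2h62.CG.frob_mod hζ hℓm φ τ hφ hσζ
    set ψ : 𝓞 F →+* AlgebraicClosure (ZMod ℓ) := φ.comp (algebraMap (𝓞 F) (𝓞 M)) with hψ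
    have hψx : ∀ x, ψ x = ψ x ^ ℓ := by
      intro x
      have h1 : τ • algebraMap (𝓞 F) (𝓞 M) x = algebraMap (𝓞 F) (𝓞 M) x := by
        apply RingOfIntegers.ext
        exact σ.commutes (x : F)
      have h2 := hφ (algebraMap (𝓞 F) (𝓞 M) x)
      rw [h1] at h2
      exact h2
    have hcard := card_quot ψ hψx
    have hne : RingHom.ker ψ ≠ ⊥ := by
      intro h0
      rw [h0] at hcard
      have h1 : (ℓ : 𝓞 F) ∈ RingHom.ker ψ := by
        rw [RingHom.mem_ker, map_natCast]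
        exact CharP.cast_eq_zero _ ℓ
      rw [h0, Ideal.mem_bot] at h1
      exact hℓ.ne_zero (by exact_mod_cast h1)
    let v : HeightOneSpectrum (𝓞 F) := ⟨RingHom.ker ψ, RingHom.ker_isPrime ψ, hne⟩
    have hv : Ideal.absNorm v.asIdeal = ℓ := by
      rw [← hcard]
      rfl
    refine ⟨v, fun hvS => hnot (Or.inl ⟨v, hvS, hv⟩), ?_, ℓ, hF,
      φ.comp (algebraMap (𝓞 L) (𝓞 M)), ?_, ?_⟩
    · rw [hv, ← CharP.cast_eq_zero_iff (ZMod p) p, Nat.cast_sub hℓ.one_lt.le, hmod, Nat.cast_one,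
        sub_self]
    · intro x
      show x ∈ RingHom.ker ψ ↔ φ (algebraMap (𝓞 L) (𝓞 M) (algebraMap (𝓞 F) (𝓞 L) x)) = 0
      rw [RingHom.mem_ker, hψ, RingHom.comp_apply, ← IsScalarTower.algebraMap_apply (𝓞 F) (𝓞 L) (𝓞 M)]
    · intro x y hxy
      have h1 : algebraMap (𝓞 L) (𝓞 M) y = τ • algebraMap (𝓞 L) (𝓞 M) x := by
        apply RingOfIntegers.ext
        show algebraMap L M (y : L) = σ (algebraMap L M (x : L))
        rw [hxy]
        exact AlgEquiv.restrictNormal_commutes σ L (x : L)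
      rw [RingHom.comp_apply, RingHom.comp_apply, h1, hv]
      exact hφ _

theorem t_FRB : S_FRB := by
  intro F L _ _ _ _ _ _ p hp S hS
  have hp' : Fact p.Prime := ⟨hp⟩
  have hp0 : NeZero p := ⟨hp.ne_zero⟩
  obtain ⟨M, _, _, _, ζ, hM, hζ⟩ := exists_M L p
  let _ : Algebra F M := ((algebraMap L M).comp (algebraMap F L)).toAlgebra
  have : IsScalarTower F L M := IsScalarTower.of_algebraMap_eq' rfl
  exact main F L M hζ S hS

end Pool.Agent.T2h61.CG.TFRB
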