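import Pool.Agent.T2h61.CG.Stm
import Pool.Agent.T2h62.CG.Grp

/-!
# F1: group theory
-/

set_option autoImplicit false

open NumberField IsDedekindDomain Matrix Polynomial
open scoped Pointwise

noncomputable section

namespace Pool.Agent.T2h61.CG.TGRP

section

variable {G k : Type} [Group G] [Field k] {n : ℕ}

/-- the elements for which `v` is an eigenvector -/
def St (ρ : G →* GL (Fin n) k) (v : Fin n → k) : Subgroup G where
  carrier := {g | ∃ a : kˣ, (ρ g).1.mulVec v = (a : k) • v}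
  one_mem' := ⟨1, by rw [map_one, Units.val_one, Matrix.one_mulVec, Units.val_one, one_smul]⟩
  mul_mem' := by
    rintro g h ⟨a, ha⟩ ⟨b, hb⟩
    refine ⟨a * b, ?_⟩
    rw [map_mul, Units.val_mul, ← Matrix.mulVec_mulVec, hb, Matrix.mulVec_smul, ha, smul_smul,
      Units.val_mul, mul_comm]
  inv_mem' := by
    rintro g ⟨a, ha⟩
    refine ⟨a⁻¹, ?_⟩
    have h1 : (ρ g⁻¹).1.mulVec ((ρ g).1.mulVec v) = v := by
      rw [Matrix.mulVec_mulVec, ← Units.val_mul, ← map_mul, inv_mul_cancel, map_one, Units.val_one,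
        Matrix.one_mulVec]
    rw [ha, Matrix.mulVec_smul] at h1
    rw [← h1, smul_smul, h1, Units.inv_mul, one_smul]

theorem pow_scalar {p : ℕ} [hp : Fact p.Prime] [CharP k p] (hn : n ≠ 0)
    (M : Matrix (Fin n) (Fin n) k) (c : k) (h : M.charpoly = (X - C c) ^ n) :
    M ^ (p ^ n) = c ^ (p ^ n) • (1 : Matrix (Fin n) (Fin n) k) := by
  have h1 := Matrix.aeval_self_charpoly M
  rw [h, map_pow, map_sub, Polynomial.aeval_X, Polynomial.aeval_C] at h1
  have h2 : (M - algebraMap k (Matrix (Fin n) (Fin n) k) c) ^ (p ^ n) = 0 := by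
    have hle : n ≤ p ^ n := (Nat.lt_pow_self hp.out.one_lt).le
    rw [← Nat.sub_add_cancel hle, pow_add, h1, mul_zero]
  have : Nonempty (Fin n) := ⟨⟨0, Nat.pos_of_ne_zero hn⟩⟩
  have : CharP (Matrix (Fin n) (Fin n) k) p := inferInstance
  have h4 := sub_pow_char_pow_of_commute (R := Matrix (Fin n) (Fin n) k) (p := p) (n := n)
    (x := M) (y := algebraMap k (Matrix (Fin n) (Fin n) k) c) (Algebra.commutes c M).symm
  rw [h4, sub_eq_zero] at h2
  rw [h2, ← map_pow, Algebra.algebraMap_eq_smul_one]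

theorem ne_zero_of_scalar (hn : n ≠ 0) {M : GL (Fin n) k} {b : k}
    (h : M.1 = b • (1 : Matrix (Fin n) (Fin n) k)) : b ≠ 0 := by
  rintro rfl
  rw [zero_smul] at h
  have h1 := M.det.ne_zero
  rw [Matrix.GeneralLinearGroup.val_det_apply, h] at h1
  have : Nonempty (Fin n) := ⟨⟨0, Nat.pos_of_ne_zero hn⟩⟩
  rw [Matrix.det_zero] at h1
  · exact h1 rfl

end

theorem t_GRP : S_GRP := by
  intro G k _ _ _ _ p hp hc n hn ρ G' hG' hcyc hchar
  classical
  have hpf : Fact p.Prime := ⟨hp⟩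
  have hne : Nonempty (Fin n) := ⟨⟨0, Nat.pos_of_ne_zero hn⟩⟩
  -- the `p ^ n`-th powers are scalar
  have key : ∀ g ∈ G', ∃ c : k, (ρ g).1 ^ (p ^ n) = c ^ (p ^ n) • (1 : Matrix (Fin n) (Fin n) k) := by
    intro g hg
    obtain ⟨c, h | h⟩ := hchar g hg
    · exact ⟨c, pow_scalar hn _ c h⟩
    · have h1 := pow_scalar (p := p) hn _ c h
      have h2 : ((ρ g⁻¹) ^ (p ^ n)).1 = c ^ (p ^ n) • (1 : Matrix (Fin n) (Fin n) k) := by
        rw [Units.val_pow_eq_pow_val, h1]
      have h3 := ne_zero_of_scalar hn h2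
      refine ⟨c⁻¹, ?_⟩
      have h4 : (ρ g).1 ^ (p ^ n) * (ρ g⁻¹).1 ^ (p ^ n) = 1 := by
        rw [← Units.val_pow_eq_pow_val, ← Units.val_pow_eq_pow_val, ← Units.val_mul, map_inv,
          inv_pow, mul_inv_cancel, Units.val_one]
      rw [h1, Matrix.mul_smul, mul_one] at h4
      rw [inv_pow, ← h4, smul_smul, inv_mul_cancel₀ h3, one_smul]
  choose! c hcs using key
  have root : ∀ a b : k, a ^ (p ^ n) = b ^ (p ^ n) → a = b := by
    intro a b hab
    have := sub_pow_char_pow (R := k) (p := p) (n := n) a b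
    rw [hab, sub_self] at this
    exact sub_eq_zero.1 (pow_eq_zero_iff (pow_ne_zero n hp.ne_zero) |>.1 this)
  -- the scalar elements of `G'`
  let Z : Subgroup G' :=
    { carrier := {g | ∃ b : k, (ρ g.1).1 = b • (1 : Matrix (Fin n) (Fin n) k)}
      one_mem' := ⟨1, by simp⟩
      mul_mem' := by
        rintro g h ⟨a, ha⟩ ⟨b, hb⟩
        refine ⟨a * b, ?_⟩
        rw [Subgroup.coe_mul, map_mul, Units.val_mul, ha, hb, Matrix.smul_mul, one_mul, smul_smul]
      inv_mem' := by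
        rintro g ⟨a, ha⟩
        have ha0 := ne_zero_of_scalar hn ha
        refine ⟨a⁻¹, ?_⟩
        have h4 : (ρ g.1).1 * (ρ (g⁻¹).1).1 = 1 := by
          rw [Subgroup.coe_inv, map_inv, ← Units.val_mul, mul_inv_cancel, Units.val_one]
        rw [ha, Matrix.smul_mul, one_mul] at h4
        rw [← h4, smul_smul, inv_mul_cancel₀ ha0, one_smul] }
  have hmemZ : ∀ g : G', g ∈ Z ↔ ∃ b : k, (ρ g.1).1 = b • (1 : Matrix (Fin n) (Fin n) k) :=
    fun g => Iff.rfl
  have hZn : Z.Normal := by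
    constructor
    rintro g ⟨a, ha⟩ h
    refine ⟨a, ?_⟩
    rw [Subgroup.coe_mul, Subgroup.coe_mul, map_mul, map_mul, Units.val_mul, Units.val_mul, ha,
      Matrix.mul_smul, mul_one, Matrix.smul_mul, Subgroup.coe_inv, map_inv, ← Units.val_mul,
      mul_inv_cancel, Units.val_one]
  have hZp : IsPGroup p (G' ⧸ Z) := by
    intro x
    induction x using QuotientGroup.induction_on with
    | H g =>
      refine ⟨n, ?_⟩
      rw [← QuotientGroup.mk_pow, QuotientGroup.eq_one_iff, hmemZ]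
      refine ⟨c g.1 ^ (p ^ n), ?_⟩
      rw [Subgroup.coe_pow, map_pow, Units.val_pow_eq_pow_val]
      exact hcs g.1 g.2
  obtain ⟨m, hm⟩ := IsPGroup.iff_card.1 hZp
  obtain ⟨P⟩ : Nonempty (Sylow p G') := inferInstance
  have hPZ : (P : Subgroup G') ⊔ Z = ⊤ := by
    rw [← Subgroup.index_eq_one]
    have h1 : ((P : Subgroup G') ⊔ Z).index ∣ p ^ m := by
      rw [← hm]
      exact Subgroup.index_dvd_of_le le_sup_right
    have h2 : ((P : Subgroup G') ⊔ Z).index ∣ (P : Subgroup G').index :=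
      Subgroup.index_dvd_of_le le_sup_left
    obtain ⟨j, -, hj⟩ := (Nat.dvd_prime_pow hp).1 h1
    rcases Nat.eq_zero_or_pos j with h0 | h0
    · rw [hj, h0, pow_zero]
    · exfalso
      refine P.not_dvd_index ((dvd_pow_self p h0.ne').trans ?_)
      rw [← hj]; exact h2
  -- a vector fixed by `P`
  let ac : DistribMulAction P (Fin n → k) :=
    { smul := fun g v => (ρ g.1.1).1 *ᵥ v
      one_smul := fun v => by
        show (ρ (1 : G)).1 *ᵥ v = v
        rw [map_one]; exact Matrix.one_mulVec v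
      mul_smul := fun g g' v => by
        show (ρ (g.1.1 * g'.1.1)).1 *ᵥ v = (ρ g.1.1).1 *ᵥ ((ρ g'.1.1).1 *ᵥ v)
        rw [Matrix.mulVec_mulVec, map_mul]
        rfl
      smul_zero := fun g => Matrix.mulVec_zero _
      smul_add := fun g v w => Matrix.mulVec_add _ v w }
  obtain ⟨w, hw0, hw⟩ := Pool.Agent.T2h62.CG.exists_fixed (D := P) P.isPGroup' (A := Fin n → k)
    (fun a => by
      funext i
      rw [Pi.smul_apply, nsmul_eq_mul, CharP.cast_eq_zero, zero_mul]
      rfl)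
  have hw' : ∀ g ∈ G', (ρ g).1 *ᵥ w = c g • w := by
    intro g hg
    have hmem : (⟨g, hg⟩ : G') ∈ (P : Subgroup G') ⊔ Z := by rw [hPZ]; exact Subgroup.mem_top _
    have h1 : (⟨g, hg⟩ : G') ∈ ((P : Subgroup G') : Set G') * (Z : Set G') := by
      rw [← Subgroup.mul_normal]; exact hmem
    obtain ⟨x, hx, z, ⟨b, hb⟩, hxz⟩ := h1
    have hg' : g = x.1 * z.1 := by
      have := congrArg Subtype.val hxz
      exact this.symm
    have h2 : (ρ g).1 *ᵥ w = b • w := by
      rw [hg', map_mul, Units.val_mul, ← Matrix.mulVec_mulVec, hb, Matrix.smul_mulVec,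
        Matrix.one_mulVec, Matrix.mulVec_smul]
      congr 1
      exact hw ⟨x, hx⟩
    have h3 : ∀ j : ℕ, (ρ g).1 ^ j *ᵥ w = b ^ j • w := by
      intro j
      induction j with
      | zero => rw [pow_zero, pow_zero, Matrix.one_mulVec, one_smul]
      | succ j ih => rw [pow_succ, ← Matrix.mulVec_mulVec, h2, Matrix.mulVec_smul, ih, smul_smul, pow_succ,
          mul_comm]
    have h4 := h3 (p ^ n)
    rw [hcs g hg, Matrix.smul_mulVec, Matrix.one_mulVec] at h4
    have h5 : c g ^ (p ^ n) = b ^ (p ^ n) := smul_left_injective k hw0 h4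
    rw [h2, root _ _ h5]
  -- the common eigenspace
  let U : Submodule k (Fin n → k) :=
    { carrier := {v | ∀ g ∈ G', (ρ g).1 *ᵥ v = c g • v}
      add_mem' := fun {a b} ha hb g hg => by
        rw [Matrix.mulVec_add, ha g hg, hb g hg, smul_add]
      zero_mem' := fun g _ => by rw [Matrix.mulVec_zero, smul_zero]
      smul_mem' := fun r a ha g hg => by
        rw [Matrix.mulVec_smul, ha g hg, smul_comm] }
  have hU : U ≠ ⊥ := by
    rw [Submodule.ne_bot_iff]
    exact ⟨w, hw', hw0⟩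
  have hcc : ∀ h g, g ∈ G' → c (h⁻¹ * g * h) = c g := by
    intro h g hg
    have hg2 : h⁻¹ * g * h ∈ G' := by
      have := hG'.conj_mem g hg h⁻¹
      rwa [inv_inv] at this
    apply root
    have h1 := hcs _ hg2
    have h2 : (ρ (h⁻¹ * g * h)).1 ^ (p ^ n) = c g ^ (p ^ n) • (1 : Matrix (Fin n) (Fin n) k) := by
      have e1 : (h⁻¹ * g * h) ^ (p ^ n) = h⁻¹ * g ^ (p ^ n) * h := by
        have := conj_pow (i := p ^ n) (a := h⁻¹) (b := g)
        rwa [inv_inv] at this
      rw [← Units.val_pow_eq_pow_val, ← map_pow, e1, map_mul, map_mul, Units.val_mul, Units.val_mul,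
        map_pow ρ g, Units.val_pow_eq_pow_val, hcs g hg, Matrix.mul_smul, mul_one, Matrix.smul_mul,
        map_inv, ← Units.val_mul, inv_mul_cancel, Units.val_one]
    rw [h1] at h2
    have h3 := congrFun (congrFun h2 ⟨0, Nat.pos_of_ne_zero hn⟩) ⟨0, Nat.pos_of_ne_zero hn⟩
    simpa using h3
  obtain ⟨g₀, hg₀⟩ := hcyc
  obtain ⟨v, hvU, hv0, hv⟩ := Pool.Agent.T2h62.CG.exists_common (k := k) (ι := Unit)
    (fun _ => (ρ g₀).1.mulVecLin) U hU
    (by
      intro _ u hu g hg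
      show (ρ g).1 *ᵥ ((ρ g₀).1 *ᵥ u) = c g • ((ρ g₀).1 *ᵥ u)
      have hg2 : g₀⁻¹ * g * g₀ ∈ G' := by
        have := hG'.conj_mem g hg g₀⁻¹
        rwa [inv_inv] at this
      have e : g * g₀ = g₀ * (g₀⁻¹ * g * g₀) := by group
      rw [Matrix.mulVec_mulVec, ← Units.val_mul, ← map_mul, e, map_mul, Units.val_mul,
        ← Matrix.mulVec_mulVec, hu _ hg2, hcc g₀ g hg, Matrix.mulVec_smul])
    (fun _ _ _ _ => rfl)
  obtain ⟨a, ha⟩ := hv ()
  have hinj : ∀ g : G, ∀ b : k, (ρ g).1 *ᵥ v = b • v → g ∈ St ρ v := by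
    intro g b hb
    have hb0 : b ≠ 0 := by
      rintro rfl
      rw [zero_smul] at hb
      apply hv0
      have h1 : (ρ g⁻¹).1.mulVec ((ρ g).1.mulVec v) = v := by
        rw [Matrix.mulVec_mulVec, ← Units.val_mul, ← map_mul, inv_mul_cancel, map_one,
          Units.val_one, Matrix.one_mulVec]
      rw [← h1, hb, Matrix.mulVec_zero]
    exact ⟨Units.mk0 b hb0, hb⟩
  have h1 : g₀ ∈ St ρ v := hinj g₀ a ha
  have h2 : ∀ g ∈ G', g ∈ St ρ v := fun g hg => hinj g (c g) (hvU g hg)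
  refine ⟨v, hv0, fun g => ?_⟩
  obtain ⟨i, hi⟩ := hg₀ g
  have h3 : g ∈ St ρ v := by
    have h4 := (St ρ v).mul_mem (h2 _ hi) ((St ρ v).inv_mem ((St ρ v).zpow_mem h1 i))
    rwa [mul_inv_cancel_right] at h4
  obtain ⟨b, hb⟩ := h3
  exact ⟨b, hb⟩

end Pool.Agent.T2h61.CG.TGRP
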