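import Pool.Agent.T2h61.CG.Mx91

/-!
# Calegari–Geraghty for `GL_n` over number fields: B1
-/

set_option autoImplicit false

open NumberField IsDedekindDomain Matrix

noncomputable section

namespace Pool.Agent.T2h61.CG.TKU2

open Pool.Agent.T2h61.CG Pool.Agent.T2h61.CG.Mx

variable {F : Type} [Field F] [NumberField F]

theorem coe_unit (u : (𝓞 F)ˣ) : ((Units.map (algebraMap (𝓞 F) F).toMonoidHom u : Fˣ) : F) =
    ((u : 𝓞 F) : F) := rfl

/-- a unit of infinite order -/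
theorem exists_unit (hF : Infinite (𝓞 F)ˣ) : ∃ v : (𝓞 F)ˣ, ∀ k : ℕ, k ≠ 0 → v ^ k ≠ 1 := by
  by_contra hcon
  push Not at hcon
  have h1 : (⊤ : Subgroup (𝓞 F)ˣ) ≤ NumberField.Units.torsion F := by
    intro x _
    obtain ⟨k, hk, hx⟩ := hcon x
    show x ∈ CommGroup.torsion _
    rw [CommGroup.mem_torsion, isOfFinOrder_iff_pow_eq_one]
    exact ⟨k, Nat.pos_of_ne_zero hk, hx⟩
  have h2 : Finite (𝓞 F)ˣ := by
    have h3 : Finite (NumberField.Units.torsion F) := inferInstance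
    have h4 : Function.Injective (fun x : (𝓞 F)ˣ =>
        (⟨x, h1 (Subgroup.mem_top x)⟩ : NumberField.Units.torsion F)) := by
      intro x y hxy
      exact congrArg Subtype.val hxy
    exact Finite.of_injective _ h4
  exact not_finite (𝓞 F)ˣ

/-- some power of every unit is `1` modulo `N` -/
theorem pow_cong (v : (𝓞 F)ˣ) {N : ℕ} (hN : N ≠ 0) :
    ∃ k : ℕ, k ≠ 0 ∧ (N : 𝓞 F) ∣ ((v ^ k : (𝓞 F)ˣ) : 𝓞 F) - 1 := by
  have hne : Ideal.span {(N : 𝓞 F)} ≠ ⊥ := by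
    rw [Ne, Ideal.span_singleton_eq_bot]
    exact_mod_cast hN
  have hfin : Finite (𝓞 F ⧸ Ideal.span {(N : 𝓞 F)}) := Ideal.finiteQuotientOfFreeOfNeBot _ hne
  have hfin' : Finite (𝓞 F ⧸ Ideal.span {(N : 𝓞 F)})ˣ := inferInstance
  refine ⟨Nat.card (𝓞 F ⧸ Ideal.span {(N : 𝓞 F)})ˣ, Nat.card_pos.ne', ?_⟩
  have h1 := pow_card_eq_one' (x := Units.map (Ideal.Quotient.mk (Ideal.span {(N : 𝓞 F)})).toMonoidHom v)
  rw [← map_pow] at h1
  have h2 := congrArg Units.val h1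
  rw [Units.coe_map, Units.val_one] at h2
  have h3 : Ideal.Quotient.mk (Ideal.span {(N : 𝓞 F)})
      ((v ^ Nat.card (𝓞 F ⧸ Ideal.span {(N : 𝓞 F)})ˣ : (𝓞 F)ˣ) : 𝓞 F) =
      Ideal.Quotient.mk (Ideal.span {(N : 𝓞 F)}) 1 := by
    rw [map_one]; exact h2
  rwa [Ideal.Quotient.eq, Ideal.mem_span_singleton] at h3

theorem cg_Dv {N : ℕ} {u : (𝓞 F)ˣ} (h : (N : 𝓞 F) ∣ (u : 𝓞 F) - 1)
    (hs : ∀ w, sg ((u : 𝓞 F) : F) w = 1) : Cg N (Dv u) := by
  refine ⟨⟨Matrix.GeneralLinearGroup.mk'' !![(u : 𝓞 F), 0; 0, 1]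
    (by rw [Matrix.det_fin_two_of, mul_one, mul_zero, sub_zero]; exact u.isUnit), ?_, ?_⟩, ?_⟩
  · apply gl_ext
    ext i j
    fin_cases i <;> fin_cases j
    · rfl
    · exact (map_zero (algebraMap (𝓞 F) F)).symm
    · exact (map_zero (algebraMap (𝓞 F) F)).symm
    · exact (map_one (algebraMap (𝓞 F) F)).symm
  · intro i j
    fin_cases i <;> fin_cases j
    · exact h
    · show (N : 𝓞 F) ∣ 0 - 0
      rw [sub_zero]; exact dvd_zero _
    · show (N : 𝓞 F) ∣ 0 - 0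
      rw [sub_zero]; exact dvd_zero _
    · show (N : 𝓞 F) ∣ 1 - 1
      rw [sub_self]; exact dvd_zero _
  · intro w
    have e : (Dv u).1.det = ((u : 𝓞 F) : F) := by
      rw [Dv, Du_val, Matrix.det_fin_two_of, coe_unit, mul_one, mul_zero, sub_zero]
    rw [e, hs]

/-- a nontrivial totally positive unit `= 1` modulo `N` -/
theorem exists_unit_cong (hF : Infinite (𝓞 F)ˣ) {N : ℕ} (hN : N ≠ 0) :
    ∃ u : (𝓞 F)ˣ, u ≠ 1 ∧ Cg N (Dv u) := by
  obtain ⟨v, hv⟩ := exists_unit hF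
  obtain ⟨k, hk, h1⟩ := pow_cong v hN
  refine ⟨v ^ k * v ^ k, ?_, cg_Dv ?_ ?_⟩
  · rw [← pow_add]
    exact hv _ (by omega)
  · have e : ((v ^ k * v ^ k : (𝓞 F)ˣ) : 𝓞 F) - 1 =
        (((v ^ k : (𝓞 F)ˣ) : 𝓞 F) - 1) * (((v ^ k : (𝓞 F)ˣ) : 𝓞 F) + 1) := by
      rw [Units.val_mul]; ring
    rw [e]
    exact Dvd.dvd.mul_right h1 _
  · intro w
    have hne : (((v ^ k : (𝓞 F)ˣ) : 𝓞 F) : F) ≠ 0 := by
      intro h0
      exact (v ^ k).ne_zero (RingOfIntegers.coe_injective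
        (h0.trans (map_zero (algebraMap (𝓞 F) F)).symm))
    have e : ((((v ^ k * v ^ k : (𝓞 F)ˣ)) : 𝓞 F) : F) =
        (((v ^ k : (𝓞 F)ˣ) : 𝓞 F) : F) * (((v ^ k : (𝓞 F)ˣ) : 𝓞 F) : F) :=
      map_mul (algebraMap (𝓞 F) F) _ _
    rw [e, sg_mul hne hne]
    exact Int.units_mul_self _

theorem t_KU2 : S_KU2 := by
  intro F _ _ hF W _ c hc
  obtain ⟨N, hN, hc⟩ := hc
  have hc : AdN N c := hc
  obtain ⟨u, hu, hD⟩ := exists_unit_cong hF hN
  have hne : (u : 𝓞 F) - 1 ≠ 0 := by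
    intro h0
    exact hu (Units.ext (sub_eq_zero.1 h0))
  have hnorm : Ideal.absNorm (Ideal.span {(u : 𝓞 F) - 1}) ≠ 0 := by
    rw [Ne, Ideal.absNorm_eq_zero_iff, Ideal.span_singleton_eq_bot]; exact hne
  obtain ⟨q, hq⟩ := Ideal.mem_span_singleton.1 (Ideal.absNorm_mem (Ideal.span {(u : 𝓞 F) - 1}))
  refine ⟨N * Ideal.absNorm (Ideal.span {(u : 𝓞 F) - 1}), mul_ne_zero hN hnorm, ?_⟩
  -- the two cases
  have key : ∀ (i j : Fin 2) (hij : i ≠ j), (∀ x : F, c (tv i j hij (((u : 𝓞 F) : F) * x)) =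
      c (tv i j hij x) ∨ ¬ Cg N (tv i j hij x)) → ∀ y : 𝓞 F,
      c (tv i j hij (((N * Ideal.absNorm (Ideal.span {(u : 𝓞 F) - 1}) : ℕ) : F) * y)) = 0 := by
    intro i j hij h y
    have e : (((N * Ideal.absNorm (Ideal.span {(u : 𝓞 F) - 1}) : ℕ) : F) * y) =
        ((u : 𝓞 F) : F) * ((N : F) * ((q * y : 𝓞 F) : F)) + (N : F) * ((-(q * y) : 𝓞 F) : F) := by
      have h1 := congrArg (algebraMap (𝓞 F) F) hq
      rw [map_natCast, map_mul, map_sub, map_one] at h1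
      change _ = (((u : 𝓞 F) : F) - 1) * (q : F) at h1
      have h2 : ((q * y : 𝓞 F) : F) = (q : F) * (y : F) := map_mul (algebraMap (𝓞 F) F) _ _
      have h3 : ((-(q * y) : 𝓞 F) : F) = -((q : F) * (y : F)) := by
        rw [← h2]; exact map_neg (algebraMap (𝓞 F) F) _
      rw [h2, h3]
      push_cast
      rw [h1]
      ring
    have h4 : c (tv i j hij (((u : 𝓞 F) : F) * ((N : F) * ((q * y : 𝓞 F) : F)))) =
        c (tv i j hij ((N : F) * ((q * y : 𝓞 F) : F))) := by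
      rcases h ((N : F) * ((q * y : 𝓞 F) : F)) with h | h
      · exact h
      · exact absurd (cg_tv hij (q * y) rfl) h
    have h5 : Cg N (tv i j hij (((u : 𝓞 F) : F) * ((N : F) * ((q * y : 𝓞 F) : F)))) := by
      refine cg_tv hij ((u : 𝓞 F) * (q * y)) ?_
      have h2 : (((u : 𝓞 F) * (q * y) : 𝓞 F) : F) = ((u : 𝓞 F) : F) * ((q * y : 𝓞 F) : F) :=
        map_mul (algebraMap (𝓞 F) F) _ _
      rw [h2]
      ring
    rw [e, ← tv_mul, hc _ _ h5 (cg_tv hij (-(q * y)) rfl), h4]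
    have h6 : tv i j hij ((N : F) * ((-(q * y) : 𝓞 F) : F)) =
        (tv i j hij ((N : F) * ((q * y : 𝓞 F) : F)))⁻¹ := by
      rw [tv_inv]
      congr 1
      have h3 : ((-(q * y) : 𝓞 F) : F) = -((q * y : 𝓞 F) : F) := map_neg (algebraMap (𝓞 F) F) _
      rw [h3]
      ring
    rw [h6, hc.inv (cg_tv hij (q * y) rfl), add_neg_cancel]
  intro i j hij y
  have hcases : (i = 0 ∧ j = 1) ∨ (i = 1 ∧ j = 0) := by
    fin_cases i <;> fin_cases j <;> simp_all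
  rcases hcases with ⟨rfl, rfl⟩ | ⟨rfl, rfl⟩
  · refine key 0 1 hij (fun x => ?_) y
    by_cases hx : Cg N (tv 0 1 hij x)
    · left
      have := hc.conj hD hx
      rw [Dv, Du_conj01, coe_unit] at this
      exact this
    · exact Or.inr hx
  · refine key 1 0 hij (fun x => ?_) y
    by_cases hx : Cg N (tv 1 0 hij x)
    · left
      have := hc.conj (cg_inv hD) hx
      rw [Dv, Du_inv, Du_conj10, inv_inv, coe_unit] at this
      exact this
    · exact Or.inr hx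

end Pool.Agent.T2h61.CG.TKU2
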