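import Pool.Agent.T2h61.CG.Mx91
import Pool.Agent.T2h61.CG.T_KU2

/-!
# Calegari–Geraghty for `GL_n` over number fields: B6
-/

set_option autoImplicit false
set_option linter.unusedSectionVars false

open NumberField IsDedekindDomain Matrix

noncomputable section

namespace Pool.Agent.T2h61.CG.TGT2

open Pool.Agent.T2h61.CG Pool.Agent.T2h61.CG.Mx

variable {F : Type} [Field F] [NumberField F] {n : ℕ}

/-- the elements `g` which leave the germs of the locally additive functions on the elements with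
the property `P` invariant -/
def KS (P : GL (Fin n) F → Prop) (hP : ∀ g γ, P γ → P (g * γ * g⁻¹)) : Subgroup (GL (Fin n) F) where
  carrier := {g | ∀ (W : Type) [AddCommGroup W] (c : GL (Fin n) F → W), Adl c → ∃ N : ℕ, N ≠ 0 ∧
    ∀ γ, Cg N γ → P γ → c (g * γ * g⁻¹) = c γ}
  one_mem' := fun W _ c _ => ⟨1, one_ne_zero, fun γ _ _ => by rw [one_mul, inv_one, mul_one]⟩
  mul_mem' := by
    intro g h hg hh W _ c hc
    obtain ⟨N₁, hN₁, h1⟩ := hg W c hc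
    obtain ⟨N₂, hN₂, h2⟩ := hh W _ (Mx.Adl.conj hc g)
    refine ⟨N₁ * N₂, mul_ne_zero hN₁ hN₂, fun γ hγ hp => ?_⟩
    have h3 := h2 γ (cg_mono (dvd_mul_left _ _) hγ) hp
    have h4 := h1 γ (cg_mono (dvd_mul_right _ _) hγ) hp
    rw [← h4]
    refine Eq.trans ?_ h3
    show c (g * h * γ * (g * h)⁻¹) = c (g * (h * γ * h⁻¹) * g⁻¹)
    congr 1
    group
  inv_mem' := by
    intro g hg W _ c hc
    obtain ⟨N₁, hN₁, h1⟩ := hg W c hc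
    obtain ⟨N₂, hN₂, h2⟩ := cg_conj g⁻¹ hN₁
    refine ⟨N₂, hN₂, fun γ hγ hp => ?_⟩
    have h3 := h1 _ (h2 γ hγ) (hP g⁻¹ γ hp)
    rw [← h3]
    congr 1
    group

theorem mem_KS {P : GL (Fin n) F → Prop} {hP : ∀ g γ, P γ → P (g * γ * g⁻¹)} {g : GL (Fin n) F} :
    g ∈ KS P hP ↔ ∀ (W : Type) [AddCommGroup W] (c : GL (Fin n) F → W), Adl c → ∃ N : ℕ, N ≠ 0 ∧
    ∀ γ, Cg N γ → P γ → c (g * γ * g⁻¹) = c γ := Iff.rfl

theorem conj_mem_KS {P : GL (Fin n) F → Prop} {hP : ∀ g γ, P γ → P (g * γ * g⁻¹)}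
    {g : GL (Fin n) F} (hg : g ∈ KS P hP) (h : GL (Fin n) F) : h * g * h⁻¹ ∈ KS P hP := by
  rw [mem_KS]
  intro W _ c hc
  obtain ⟨N₁, hN₁, h1⟩ := mem_KS.1 hg W _ (Mx.Adl.conj hc h)
  obtain ⟨N₂, hN₂, h2⟩ := cg_conj h⁻¹ hN₁
  refine ⟨N₂, hN₂, fun γ hγ hp => ?_⟩
  have h3 := h1 _ (h2 γ hγ) (hP h⁻¹ γ hp)
  have e1 : h * (g * (h⁻¹ * γ * h⁻¹⁻¹) * g⁻¹) * h⁻¹ = h * g * h⁻¹ * γ * (h * g * h⁻¹)⁻¹ := by group
  have e2 : h * (h⁻¹ * γ * h⁻¹⁻¹) * h⁻¹ = γ := by group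
  change c (h * (g * (h⁻¹ * γ * h⁻¹⁻¹) * g⁻¹) * h⁻¹) = c (h * (h⁻¹ * γ * h⁻¹⁻¹) * h⁻¹) at h3
  rwa [e1, e2] at h3

theorem exists_den (x : F) : ∃ d : ℕ, d ≠ 0 ∧ ∃ y : 𝓞 F, (d : F) * x = y := by
  obtain ⟨⟨a, b⟩, hab⟩ := IsLocalization.surj (nonZeroDivisors (𝓞 F)) x
  have hb : (b : 𝓞 F) ≠ 0 := nonZeroDivisors.coe_ne_zero b
  have h1 : Ideal.absNorm (Ideal.span {(b : 𝓞 F)}) ≠ 0 := by
    rw [Ne, Ideal.absNorm_eq_zero_iff, Ideal.span_singleton_eq_bot]; exact hb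
  have h2 : ((Ideal.absNorm (Ideal.span {(b : 𝓞 F)}) : ℕ) : 𝓞 F) ∈ Ideal.span {(b : 𝓞 F)} :=
    Ideal.absNorm_mem _
  obtain ⟨c, hc⟩ := Ideal.mem_span_singleton.1 h2
  refine ⟨_, h1, c * a, ?_⟩
  have h3 : ((Ideal.absNorm (Ideal.span {(b : 𝓞 F)}) : ℕ) : F) =
      (algebraMap (𝓞 F) F b) * (c : F) := by
    have := congrArg (algebraMap (𝓞 F) F) hc
    rw [map_natCast, map_mul] at this
    exact this
  have h4 : x * algebraMap (𝓞 F) F (b : 𝓞 F) = algebraMap (𝓞 F) F a := hab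
  have h5 : ((c * a : 𝓞 F) : F) = (c : F) * algebraMap (𝓞 F) F a :=
    map_mul (algebraMap (𝓞 F) F) c a
  rw [h3, h5, ← h4]
  ring

/-- the determinant is a totally positive unit `= 1` modulo `N` -/
theorem det_unit {N : ℕ} {γ : GL (Fin 2) F} (hγ : Cg N γ) : ∃ δ : (𝓞 F)ˣ,
    γ.1.det = ((δ : 𝓞 F) : F) ∧ (N : 𝓞 F) ∣ (δ : 𝓞 F) - 1 ∧ ∀ w, sg ((δ : 𝓞 F) : F) w = 1 := by
  obtain ⟨⟨A, h1, h2⟩, h3⟩ := hγ
  have hdet : γ.1.det = ((A.1.det : 𝓞 F) : F) := by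
    rw [h1]
    exact (RingHom.map_det (algebraMap (𝓞 F) F) A.1).symm
  refine ⟨Matrix.GeneralLinearGroup.det A, hdet, ?_, fun w => ?_⟩
  · show (N : 𝓞 F) ∣ A.1.det - 1
    rw [Matrix.det_fin_two]
    have e00 := h2 0 0
    have e01 := h2 0 1
    have e11 := h2 1 1
    rw [Matrix.one_apply_eq] at e00 e11
    rw [Matrix.one_apply_ne (by decide), sub_zero] at e01
    have e : A.1 0 0 * A.1 1 1 - A.1 0 1 * A.1 1 0 - 1 =
        (A.1 0 0 - 1) * A.1 1 1 + (A.1 1 1 - 1) - A.1 0 1 * A.1 1 0 := by ring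
    rw [e]
    exact dvd_sub (dvd_add (Dvd.dvd.mul_right e00 _) e11) (Dvd.dvd.mul_right e01 _)
  · have := h3 w
    rw [hdet] at this
    exact this

theorem t_GT2 (hinv : S_INV2) (hku : S_KU2) (hsl : S_SLG) : S_GT2 := by
  intro F _ _ hF
  obtain ⟨t, ht, hinv⟩ := hinv F hF
  -- the elements of determinant `1`
  have hP1 : ∀ g γ : GL (Fin 2) F, γ.1.det = 1 → (g * γ * g⁻¹).1.det = 1 := by
    intro g γ h
    rw [gl_det_conj, h]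
  have hDt : Dv t ∈ KS (fun γ : GL (Fin 2) F => γ.1.det = 1) hP1 := fun W _ c hc => hinv W c hc
  have ht1 : ((t : 𝓞 F) : F) - 1 ≠ 0 := by
    intro h0
    apply ht
    apply Units.ext
    apply RingOfIntegers.coe_injective (K := F)
    exact (sub_eq_zero.1 h0).trans (map_one (algebraMap (𝓞 F) F)).symm
  have hcases : ∀ (i j : Fin 2), i ≠ j → (i = 0 ∧ j = 1) ∨ (i = 1 ∧ j = 0) := by decide
  have hmem : ∀ (i j : Fin 2) (hij : i ≠ j) (x : F),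
      tv i j hij x ∈ KS (fun γ : GL (Fin 2) F => γ.1.det = 1) hP1 := by
    intro i j hij x
    rcases hcases i j hij with ⟨rfl, rfl⟩ | ⟨rfl, rfl⟩
    · set y := (((t : 𝓞 F) : F) - 1)⁻¹ * x with hy
      have e : tv (0 : Fin 2) 1 hij x = Dv t * (tv 0 1 hij y * (Dv t)⁻¹ * (tv 0 1 hij y)⁻¹) := by
        have e1 : Dv t * (tv 0 1 hij y * (Dv t)⁻¹ * (tv 0 1 hij y)⁻¹) =
            (Dv t * tv 0 1 hij y * (Dv t)⁻¹) * (tv 0 1 hij y)⁻¹ := by group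
        rw [e1, Dv, Du_conj01, tv_inv, tv_mul, TKU2.coe_unit]
        congr 1
        rw [hy]
        field_simp
        ring
      rw [e]
      exact Subgroup.mul_mem _ hDt (conj_mem_KS (Subgroup.inv_mem _ hDt) _)
    · have ht2 : ((t : 𝓞 F) : F)⁻¹ - 1 ≠ 0 := by
        intro h0
        apply ht1
        rw [inv_eq_one.1 (sub_eq_zero.1 h0), sub_self]
      set y := (((t : 𝓞 F) : F)⁻¹ - 1)⁻¹ * x with hy
      have e : tv (1 : Fin 2) 0 hij x = Dv t * (tv 1 0 hij y * (Dv t)⁻¹ * (tv 1 0 hij y)⁻¹) := by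
        have e1 : Dv t * (tv 1 0 hij y * (Dv t)⁻¹ * (tv 1 0 hij y)⁻¹) =
            (Dv t * tv 1 0 hij y * (Dv t)⁻¹) * (tv 1 0 hij y)⁻¹ := by group
        rw [e1, Dv, Du_conj10, tv_inv, tv_mul, Units.val_inv_eq_inv_val, TKU2.coe_unit]
        congr 1
        have h3 : ((t : 𝓞 F) : F)⁻¹ * y + -y = (((t : 𝓞 F) : F)⁻¹ - 1) * y := by ring
        rw [h3, hy, ← mul_assoc, mul_inv_cancel₀ ht2, one_mul]
      rw [e]
      exact Subgroup.mul_mem _ hDt (conj_mem_KS (Subgroup.inv_mem _ hDt) _)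
  -- all elements
  have hP2 : ∀ g γ : GL (Fin 2) F, (fun _ => True) γ → (fun _ => True) (g * γ * g⁻¹) :=
    fun _ _ _ => trivial
  have hmem2 : ∀ (i j : Fin 2) (hij : i ≠ j) (x : F),
      tv i j hij x ∈ KS (fun _ : GL (Fin 2) F => True) hP2 := by
    intro i j hij x W _ c hc
    obtain ⟨N₁, hN₁, h0⟩ := hku F hF W c hc
    obtain ⟨N₂, hN₂, h1⟩ := hmem i j hij x W c hc
    obtain ⟨N₀, hN₀, hc⟩ := hc
    have hc : AdN N₀ c := hc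
    obtain ⟨N₃, hN₃, h2⟩ := cg_conj (tv i j hij x) hN₀
    obtain ⟨d, hd, y, hy⟩ := exists_den x
    refine ⟨N₀ * N₁ * N₂ * N₃ * d, by positivity, fun γ hγ _ => ?_⟩
    have hγ0 : Cg N₀ γ := cg_mono ⟨N₁ * N₂ * N₃ * d, by ring⟩ hγ
    have hγ2 : Cg N₂ γ := cg_mono ⟨N₀ * N₁ * N₃ * d, by ring⟩ hγ
    have hγ3 : Cg N₃ γ := cg_mono ⟨N₀ * N₁ * N₂ * d, by ring⟩ hγ
    obtain ⟨δ, hδ, hδ1, hδ2⟩ := det_unit hγ
    have hD : Cg (N₀ * N₁ * N₂ * N₃ * d) (Dv δ) := TKU2.cg_Dv hδ1 hδ2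
    have hD0 : Cg N₀ (Dv δ) := cg_mono ⟨N₁ * N₂ * N₃ * d, by ring⟩ hD
    have hD2 : Cg N₂ (Dv δ) := cg_mono ⟨N₀ * N₁ * N₃ * d, by ring⟩ hD
    have hD3 : Cg N₃ (Dv δ) := cg_mono ⟨N₀ * N₁ * N₂ * d, by ring⟩ hD
    set E := tv i j hij x with hE
    set γ₁ := (Dv δ)⁻¹ * γ with hγ₁
    have e1 : γ = Dv δ * γ₁ := by rw [hγ₁, mul_inv_cancel_left]
    have hg0 : Cg N₀ γ₁ := cg_mul (cg_inv hD0) hγ0
    have hg2 : Cg N₂ γ₁ := cg_mul (cg_inv hD2) hγ2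
    have hg3 : Cg N₃ γ₁ := cg_mul (cg_inv hD3) hγ3
    have hdet1 : γ₁.1.det = 1 := by
      have h4 : (Dv δ).1.det = ((δ : 𝓞 F) : F) := by
        rw [Dv, Du_val, Matrix.det_fin_two_of, TKU2.coe_unit, mul_one, mul_zero, sub_zero]
      have h5 : (Dv δ).1.det * γ₁.1.det = γ.1.det := by
        rw [← Matrix.det_mul, ← Units.val_mul, ← e1]
      rw [h4, ← hδ] at h5
      exact mul_left_cancel₀ (det_ne_zero γ) (h5.trans (mul_one _).symm)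
    -- a small elementary matrix
    obtain ⟨q, hq⟩ := hδ1
    have hsmall : ∃ z : 𝓞 F, E * Dv δ * E⁻¹ = tv i j hij ((N₁ : F) * ((N₀ : 𝓞 F) * z : 𝓞 F)) * Dv δ := by
      have hδq : ((δ : 𝓞 F) : F) - 1 = ((N₀ : F) * N₁ * N₂ * N₃ * d) * (q : F) := by
        have := congrArg (algebraMap (𝓞 F) F) hq
        rw [map_sub, map_one, map_mul, map_natCast] at this
        push_cast at this
        exact this
      rcases hcases i j hij with ⟨rfl, rfl⟩ | ⟨rfl, rfl⟩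
      · refine ⟨-((N₂ : 𝓞 F) * N₃ * q * y), ?_⟩
        have e2 : E * Dv δ * E⁻¹ = E * (Dv δ * E⁻¹ * (Dv δ)⁻¹) * Dv δ := by group
        rw [e2, hE, tv_inv, Dv, Du_conj01, tv_mul, TKU2.coe_unit]
        congr 2
        have e3 : (((N₀ : 𝓞 F) * -((N₂ : 𝓞 F) * N₃ * q * y) : 𝓞 F) : F) =
            -((N₀ : F) * N₂ * N₃ * q * y) := by
          have : ((N₀ : 𝓞 F) * -((N₂ : 𝓞 F) * N₃ * q * y) : 𝓞 F) =
            -((N₀ : 𝓞 F) * N₂ * N₃ * q * y) := by ring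
          rw [this]
          simp
        rw [e3, ← hy]
        linear_combination (-x) * hδq
      · refine ⟨((δ⁻¹ : (𝓞 F)ˣ) : 𝓞 F) * ((N₂ : 𝓞 F) * N₃ * q * y), ?_⟩
        have e2 : E * Dv δ * E⁻¹ = E * (Dv δ * E⁻¹ * (Dv δ)⁻¹) * Dv δ := by group
        have e4 : (((δ⁻¹ : (𝓞 F)ˣ) : 𝓞 F) : F) * ((δ : 𝓞 F) : F) = 1 := by
          have := congrArg (algebraMap (𝓞 F) F) δ.inv_mul
          rw [map_mul, map_one] at this
          exact this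
        have e5 : ((δ : 𝓞 F) : F)⁻¹ = (((δ⁻¹ : (𝓞 F)ˣ) : 𝓞 F) : F) :=
          (eq_inv_of_mul_eq_one_left e4).symm
        rw [e2, hE, tv_inv, Dv, Du_conj10, tv_mul, Units.val_inv_eq_inv_val, TKU2.coe_unit, e5]
        congr 2
        have e3 : (((N₀ : 𝓞 F) * (((δ⁻¹ : (𝓞 F)ˣ) : 𝓞 F) * ((N₂ : 𝓞 F) * N₃ * q * y)) : 𝓞 F) : F) =
            (((δ⁻¹ : (𝓞 F)ˣ) : 𝓞 F) : F) * ((N₀ : F) * N₂ * N₃ * q * y) := by
          have : ((N₀ : 𝓞 F) * (((δ⁻¹ : (𝓞 F)ˣ) : 𝓞 F) * ((N₂ : 𝓞 F) * N₃ * q * y)) : 𝓞 F) =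
            ((δ⁻¹ : (𝓞 F)ˣ) : 𝓞 F) * ((N₀ : 𝓞 F) * N₂ * N₃ * q * y) := by ring
          rw [this]
          simp
        rw [e3, ← hy]
        linear_combination (x * (((δ⁻¹ : (𝓞 F)ˣ) : 𝓞 F) : F)) * hδq - x * e4
    obtain ⟨z, hz⟩ := hsmall
    have hE1 : Cg N₀ (E * Dv δ * E⁻¹) := h2 _ hD3
    have hE2 : Cg N₀ (E * γ₁ * E⁻¹) := h2 _ hg3
    have e6 : E * γ * E⁻¹ = (E * Dv δ * E⁻¹) * (E * γ₁ * E⁻¹) := by
      rw [e1]; group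
    have hT : Cg N₀ (tv i j hij ((N₁ : F) * ((N₀ : 𝓞 F) * z : 𝓞 F))) := by
      have : tv i j hij ((N₁ : F) * ((N₀ : 𝓞 F) * z : 𝓞 F)) = (E * Dv δ * E⁻¹) * (Dv δ)⁻¹ := by
        rw [hz, mul_inv_cancel_right]
      rw [this]
      exact cg_mul hE1 (cg_inv hD0)
    have h7 : c (E * Dv δ * E⁻¹) = c (Dv δ) := by
      rw [hz, hc _ _ hT hD0, h0, zero_add]
    rw [e6, hc _ _ hE1 hE2, h7, h1 γ₁ hg2 hdet1, ← hc _ _ hD0 hg0, ← e1]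
  intro W _ c hc g hg
  have h3 : g ∈ KS (fun _ : GL (Fin 2) F => True) hP2 := by
    have h4 := hsl F 2 g hg
    refine (Subgroup.closure_le _).2 ?_ h4
    rintro _ ⟨i, j, hij, x, rfl⟩
    exact hmem2 i j hij x
  obtain ⟨N, hN, h⟩ := h3 W c hc
  exact ⟨N, hN, fun γ hγ => h γ hγ trivial⟩

end Pool.Agent.T2h61.CG.TGT2
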