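import Pool.Agent.T2h61.CG.Bas2

/-!
# Hecke operators and level structures
-/

set_option autoImplicit false

open NumberField IsDedekindDomain Matrix Polynomial

noncomputable section

namespace Pool.Agent.T2h61.CG.THK

variable {F : Type} [Field F] [NumberField F] {n : ℕ}

/-- the index is invariant under `g` -/
theorem relIndex_gm (g : GL (Fin n) F) (L L' : Submodule (𝓞 F) (Fin n → F)) :
    (gm g L').toAddSubgroup.relIndex (gm g L).toAddSubgroup =
      L'.toAddSubgroup.relIndex L.toAddSubgroup := by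
  have hinj : Function.Injective
      ((Matrix.mulVecLin g.1).restrictScalars (𝓞 F)).toAddMonoidHom := by
    intro x y h
    have h' : g.1.mulVec x = g.1.mulVec y := h
    have := congrArg g⁻¹.1.mulVec h'
    rwa [inv_mulVec, inv_mulVec] at this
  have e : ∀ M : Submodule (𝓞 F) (Fin n → F), (gm g M).toAddSubgroup =
      M.toAddSubgroup.map ((Matrix.mulVecLin g.1).restrictScalars (𝓞 F)).toAddMonoidHom := by
    intro M
    rfl
  rw [e, e]
  exact AddSubgroup.relIndex_map_map_of_injective _ _ hinj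

theorem gm_mem_sub {g : GL (Fin n) F} {v : HeightOneSpectrum (𝓞 F)} {j : ℕ}
    {L L' : Submodule (𝓞 F) (Fin n → F)} : gm g L' ∈ Sub v j (gm g L) ↔ L' ∈ Sub v j L := by
  unfold Sub
  simp only [Set.mem_setOf_eq]
  rw [← gm_smul, gm_le_gm, gm_le_gm, relIndex_gm]

theorem sub_gm (g : GL (Fin n) F) (v : HeightOneSpectrum (𝓞 F)) (j : ℕ)
    (L : Submodule (𝓞 F) (Fin n → F)) : Sub v j (gm g L) = gm g '' Sub v j L := by
  ext L'
  constructor
  · intro h
    refine ⟨gm g⁻¹ L', ?_, gm_gm_inv g L'⟩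
    rw [← gm_mem_sub (g := g), gm_gm_inv]
    exact h
  · rintro ⟨L'', h, rfl⟩
    exact gm_mem_sub.2 h

theorem t_HKG : S_HKG := by
  classical
  intro F _ _ n R W _ _ _ 𝔪 v j a g φ
  funext x
  rw [tr_apply]
  have e : Sub v j (ga g⁻¹ x).L = gm g⁻¹ '' Sub v j x.L := sub_gm g⁻¹ v j x.L
  by_cases h : Ok 𝔪 x ∧ (Sub v j x.L).Finite
  · have h' : Ok 𝔪 (ga g⁻¹ x) ∧ (Sub v j (ga g⁻¹ x).L).Finite :=
      ⟨ok_ga h.1, by rw [e]; exact h.2.image _⟩
    show (dite _ _ _ : W) = (dite _ _ _ : W)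
    rw [dif_pos h, dif_pos h']
    have e2 : h'.2.toFinset = h.2.toFinset.image (gm g⁻¹) := by
      ext L'
      rw [Set.Finite.mem_toFinset, e, Finset.mem_image]
      simp only [Set.Finite.mem_toFinset]
      rfl
    rw [e2, Finset.sum_image (fun _ _ _ _ h => gm_inj.1 h)]
    refine Finset.sum_congr rfl fun L' _ => ?_
    rw [tr_apply]
    congr 1
    unfold ga
    congr 1
    funext i
    exact mulVec_smul_int _ _ _
  · have h' : ¬ (Ok 𝔪 (ga g⁻¹ x) ∧ (Sub v j (ga g⁻¹ x).L).Finite) := by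
      rintro ⟨h1, h2⟩
      refine h ⟨ok_ga_iff.1 h1, ?_⟩
      rw [e] at h2
      exact h2.of_finite_image (fun _ _ _ _ h => gm_inj.1 h)
    show (dite _ _ _ : W) = (dite _ _ _ : W)
    rw [dif_neg h, dif_neg h']

theorem t_HKR : S_HKR := by
  classical
  intro F _ _ n R W _ _ _ 𝔪 v j a A φ x hx hAx
  by_cases h : (Sub v j x.L).Finite
  · have h1 : Ok 𝔪 x ∧ (Sub v j x.L).Finite := ⟨hx, h⟩
    have h2 : Ok 𝔪 (rt A x) ∧ (Sub v j (rt A x).L).Finite := ⟨hAx, h⟩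
    show (dite _ _ _ : W) = (dite _ _ _ : W)
    rw [dif_pos h1, dif_pos h2]
    refine Finset.sum_congr rfl fun L' _ => ?_
    congr 1
    unfold rt
    congr 1
    funext k
    show a • ∑ i, A i k • x.e i = ∑ i, A i k • (a • x.e i)
    rw [Finset.smul_sum]
    exact Finset.sum_congr rfl fun i _ => smul_comm _ _ _
  · have h1 : ¬ (Ok 𝔪 x ∧ (Sub v j x.L).Finite) := fun h' => h h'.2
    have h2 : ¬ (Ok 𝔪 (rt A x) ∧ (Sub v j (rt A x).L).Finite) := fun h' => h h'.2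
    show (dite _ _ _ : W) = (dite _ _ _ : W)
    rw [dif_neg h1, dif_neg h2]

theorem mem_of_mul {𝔪 : Ideal (𝓞 F)} {v : HeightOneSpectrum (𝓞 F)} {j : ℕ}
    {L L' : Submodule (𝓞 F) (Fin n → F)} (h : L' ∈ Sub v j L) {y : Fin n → F}
    (hy : y ∈ (𝔪 * v.asIdeal) • L) : y ∈ 𝔪 • L' := by
  rw [Submodule.mul_smul] at hy
  exact Submodule.smul_mono le_rfl h.1 hy

theorem t_HKL : S_HKL := by
  classical
  intro F _ _ n R W _ _ _ 𝔪 v j a hv ha ha1 φ hφ
  refine ⟨fun x hx => ?_, fun x y hx hy hxy => ?_⟩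
  · have h : ¬ (Ok 𝔪 x ∧ (Sub v j x.L).Finite) := fun h => hx h.1
    show (dite _ _ _ : W) = 0
    rw [dif_neg h]
  · obtain ⟨s, L, e⟩ := x
    obtain ⟨s', L', e'⟩ := y
    obtain ⟨h1, h2, h3⟩ := hxy
    change s = s' at h1
    change L = L' at h2
    subst h1 h2
    by_cases h : (Sub v j L).Finite
    · have h4 : Ok 𝔪 (⟨s, L, e⟩ : Pt F n) ∧ (Sub v j L).Finite := ⟨hx, h⟩
      have h5 : Ok 𝔪 (⟨s, L, e'⟩ : Pt F n) ∧ (Sub v j L).Finite := ⟨hy, h⟩
      show (dite _ _ _ : W) = (dite _ _ _ : W)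
      rw [dif_pos h4, dif_pos h5]
      refine Finset.sum_congr rfl fun M hM => ?_
      have hM' : M ∈ Sub v j L := (Set.Finite.mem_toFinset _).1 hM
      refine hφ.eq ⟨rfl, rfl, fun i => ?_⟩
      show a • e i - a • e' i ∈ 𝔪 • M
      rw [← smul_sub]
      apply mem_of_mul hM'
      rw [mul_comm, Submodule.mul_smul]
      exact Submodule.smul_mem_smul ha (h3 i)
    · have h4 : ¬ (Ok 𝔪 (⟨s, L, e⟩ : Pt F n) ∧ (Sub v j L).Finite) := fun h' => h h'.2
      have h5 : ¬ (Ok 𝔪 (⟨s, L, e'⟩ : Pt F n) ∧ (Sub v j L).Finite) := fun h' => h h'.2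
      show (dite _ _ _ : W) = (dite _ _ _ : W)
      rw [dif_neg h4, dif_neg h5]

theorem t_HKA : S_HKA := by
  classical
  intro F _ _ n R W _ _ _ 𝔪 v j a H ρW hv ha ha1 φ hφ
  refine ⟨t_HKL F n R W 𝔪 v j a hv ha ha1 φ hφ.1, fun A h hA x hx => ?_⟩
  have hu : IsUnit (A.map (Ideal.Quotient.mk 𝔪)) := by
    rw [hA]
    exact (h : GL (Fin n) (𝓞 F ⧸ 𝔪)).isUnit
  rw [t_HKR F n R W 𝔪 v j a A φ x hx (ok_rt hu hx)]
  by_cases hf : (Sub v j x.L).Finite
  · have h1 : Ok 𝔪 x ∧ (Sub v j x.L).Finite := ⟨hx, hf⟩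
    show (dite _ _ _ : W) = ρW h⁻¹ (dite _ _ _ : W)
    rw [dif_pos h1, dif_pos h1, map_sum]
    refine Finset.sum_congr rfl fun M hM => ?_
    exact hφ.2 A h hA _ (ok_sub ha ha1 hx ((Set.Finite.mem_toFinset _).1 hM))
  · have h1 : ¬ (Ok 𝔪 x ∧ (Sub v j x.L).Finite) := fun h' => hf h'.2
    show (dite _ _ _ : W) = ρW h⁻¹ (dite _ _ _ : W)
    rw [dif_neg h1, dif_neg h1, map_zero]

theorem t_HKC : S_HKC := by
  classical
  intro F _ _ n R W _ _ _ 𝔪 𝔪₁ v j a a₁ hm hv ha ha1 hb hb1 φ hφ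
  funext x
  by_cases hx : Ok 𝔪₁ x
  · have hx' := ok_mono hm hx
    show (dite _ _ _ : W) = (ite _ _ _ : W)
    rw [if_pos hx]
    show (dite _ _ _ : W) = (dite _ _ _ : W)
    by_cases hf : (Sub v j x.L).Finite
    · have h1 : Ok 𝔪₁ x ∧ (Sub v j x.L).Finite := ⟨hx, hf⟩
      have h2 : Ok 𝔪 x ∧ (Sub v j x.L).Finite := ⟨hx', hf⟩
      rw [dif_pos h1, dif_pos h2]
      refine Finset.sum_congr rfl fun M hM => ?_
      have hM' : M ∈ Sub v j x.L := (Set.Finite.mem_toFinset _).1 hM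
      show (ite _ _ _ : W) = _
      rw [if_pos (ok_sub hb hb1 hx hM')]
      refine hφ.eq ⟨rfl, rfl, fun i => ?_⟩
      show a₁ • x.e i - a • x.e i ∈ 𝔪 • M
      rw [← sub_smul]
      apply mem_of_mul hM'
      refine Submodule.smul_mem_smul ?_ (hx.2.1 i)
      have hcop : IsCoprime 𝔪 v.asIdeal := by
        rw [Ideal.isCoprime_iff_sup_eq]
        have hmax : v.asIdeal.IsMaximal := v.isMaximal
        by_contra hne
        have h5 : v.asIdeal ≤ 𝔪 ⊔ v.asIdeal := le_sup_right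
        have h6 := hmax.eq_of_le hne h5
        exact hv (hm.trans (le_sup_left.trans h6.symm.le))
      have h7 : a₁ - a ∈ 𝔪 ⊓ v.asIdeal := by
        refine ⟨?_, v.asIdeal.sub_mem hb ha⟩
        have h8 : a₁ - a = (a₁ - 1) - (a - 1) := by ring
        rw [h8]
        exact 𝔪.sub_mem (hm hb1) ha1
      rw [Ideal.mul_eq_inf_of_isCoprime hcop]
      exact h7
    · have h1 : ¬ (Ok 𝔪₁ x ∧ (Sub v j x.L).Finite) := fun h' => hf h'.2
      have h2 : ¬ (Ok 𝔪 x ∧ (Sub v j x.L).Finite) := fun h' => hf h'.2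
      rw [dif_neg h1, dif_neg h2]
  · have h1 : ¬ (Ok 𝔪₁ x ∧ (Sub v j x.L).Finite) := fun h' => hx h'.1
    show (dite _ _ _ : W) = (ite _ _ _ : W)
    rw [if_neg hx, dif_neg h1]

end Pool.Agent.T2h61.CG.THK
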