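import Pool.Agent.T2h61.CG.T_LAT

/-!
# Chains of sublattices, transitivity
-/

set_option autoImplicit false

open NumberField IsDedekindDomain Matrix Polynomial

noncomputable section

namespace Pool.Agent.T2h61.CG.THYP

open Pool.Agent.T2h61.CG.TLAT

variable {F : Type} [Field F] [NumberField F] {n : ℕ}

/-- between a subspace and the whole space there are subspaces of every dimension -/
theorem exists_between {K V : Type} [Field K] [AddCommGroup V] [Module K V] [FiniteDimensional K V]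
    (U : Submodule K V) (hU : U ≠ ⊤) : ∃ U' : Submodule K V, U ≤ U' ∧
      Module.finrank K U' + 1 = Module.finrank K V := by
  obtain ⟨f, hf0, hf⟩ := Submodule.exists_le_ker_of_lt_top U (lt_top_iff_ne_top.2 hU)
  refine ⟨LinearMap.ker f, hf, ?_⟩
  exact Module.Dual.finrank_ker_add_one_of_ne_zero hf0

theorem t_CHN (hLVL : S_LVL) (hIND : S_IND) : S_CHN := by
  intro F _ _ n L hL v j L' hL'
  obtain ⟨θ, hs, hθ⟩ := exists_theta hLVL hIND hL v
  have hmax : v.asIdeal.IsMaximal := v.isMaximal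
  let fld : Field (𝓞 F ⧸ v.asIdeal) := Ideal.Quotient.field v.asIdeal
  have h1 := hL'
  rw [← tl_lt hθ h1.1 h1.2.1] at h1
  have h2 := (mem_sub_tl hs hθ).1 h1
  have hne : lt θ L' ≠ ⊤ := by
    intro h
    have h3 : Module.finrank (𝓞 F ⧸ v.asIdeal) (lt θ L') = n := by
      rw [h]
      exact (finrank_top (𝓞 F ⧸ v.asIdeal) (Fin n → 𝓞 F ⧸ v.asIdeal)).trans
        (Module.finrank_fin_fun (𝓞 F ⧸ v.asIdeal))
    omega
  obtain ⟨U', hU1, hU2⟩ := exists_between (K := 𝓞 F ⧸ v.asIdeal) (lt θ L') hne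
  have hU3 : Module.finrank (𝓞 F ⧸ v.asIdeal) U' + 1 = n :=
    hU2.trans (Module.finrank_fin_fun (𝓞 F ⧸ v.asIdeal))
  refine ⟨tl θ U', (mem_sub_tl hs hθ).2 hU3, ?_, ?_, ?_⟩
  · exact (Submodule.smul_mono le_rfl (tl_le θ U')).trans hL'.1
  · intro y hy
    refine (mem_tl (y := ⟨y, hL'.2.1 hy⟩)).2 (hU1 ?_)
    exact (mem_lt hθ hL'.1).2 hy
  · -- the index
    have hle : L' ≤ tl θ U' := by
      intro y hy
      refine (mem_tl (y := ⟨y, hL'.2.1 hy⟩)).2 (hU1 ?_)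
      exact (mem_lt hθ hL'.1).2 hy
    have h3 := AddSubgroup.relIndex_mul_relIndex L'.toAddSubgroup (tl θ U').toAddSubgroup
      L.toAddSubgroup hle (tl_le θ U')
    have h4 := ((mem_sub_tl hs hθ).2 hU3).2.2
    rw [h4, hL'.2.2, pow_one, pow_succ] at h3
    exact Nat.eq_of_mul_eq_mul_right (by have := two_le v; omega) h3

/-- functionals lift -/
theorem exists_dual {L : Submodule (𝓞 F) (Fin n → F)} (hL : IsLat L)
    {v : HeightOneSpectrum (𝓞 F)} {θ : L →ₗ[𝓞 F] (Fin n → 𝓞 F ⧸ v.asIdeal)}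
    (hs : Function.Surjective θ) (hθ : ∀ y : L, θ y = 0 ↔ (y : Fin n → F) ∈ v.asIdeal • L)
    (α : (Fin n → 𝓞 F ⧸ v.asIdeal) →ₗ[𝓞 F ⧸ v.asIdeal] 𝓞 F ⧸ v.asIdeal) :
    ∃ φ : (Fin n → F) →ₗ[F] F, ∀ y : L, ∃ c : 𝓞 F, φ y = c ∧
      Ideal.Quotient.mk v.asIdeal c = α (θ y) := by
  classical
  -- lifts of the standard basis
  choose b hb using fun i : Fin n => hs (Pi.single i 1)
  -- Nakayama
  let P : Submodule (𝓞 F) (Fin n → F) := Submodule.span (𝓞 F) (Set.range fun i => (b i : Fin n → F))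
  have hsum : ∀ (y : L) (c : Fin n → 𝓞 F), (∀ i, Ideal.Quotient.mk v.asIdeal (c i) = θ y i) →
      θ (y - ∑ i, c i • b i) = 0 := by
    intro y c hc
    rw [map_sub, sub_eq_zero, map_sum]
    funext k
    rw [Finset.sum_apply, ← hc k]
    simp only [map_smul, hb, Pi.smul_apply, Pi.single_apply]
    rw [Finset.sum_eq_single k]
    · rw [if_pos rfl, Algebra.smul_def, mul_one]; rfl
    · intro i _ hik
      rw [if_neg hik.symm, smul_zero]
    · intro h; exact absurd (Finset.mem_univ k) h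
  have hLe : L ≤ P ⊔ v.asIdeal • L := by
    intro y hy
    choose c hc using fun i => Ideal.Quotient.mk_surjective (I := v.asIdeal) (θ ⟨y, hy⟩ i)
    have h1 := (hθ _).1 (hsum ⟨y, hy⟩ c hc)
    have e : y = ((∑ i, c i • b i : L) : Fin n → F) +
        (((⟨y, hy⟩ : L) - ∑ i, c i • b i : L) : Fin n → F) := by
      rw [Submodule.coe_sub, add_sub_cancel]
    rw [e]
    refine Submodule.add_mem_sup ?_ h1
    rw [Submodule.coe_sum]
    exact Submodule.sum_mem _ fun i _ => Submodule.smul_mem _ _ (Submodule.subset_span ⟨i, rfl⟩)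
  obtain ⟨r, hr1, hr2⟩ : ∃ r : 𝓞 F, r - 1 ∈ v.asIdeal ∧ ∀ y ∈ L, r • y ∈ P := by
    obtain ⟨r, hr1, hr2⟩ := Submodule.exists_sub_one_mem_and_smul_eq_zero_of_fg_of_le_smul
      v.asIdeal (L.map P.mkQ) (hL.1.map _) (by
        rintro _ ⟨y, hy, rfl⟩
        obtain ⟨y1, hy1, y2, hy2, h⟩ := Submodule.mem_sup.1 (hLe hy)
        have h1 : P.mkQ y = P.mkQ y2 := by
          rw [← h, map_add, (Submodule.Quotient.mk_eq_zero P).2 hy1 |> fun h => (show P.mkQ y1 = 0 from h), zero_add]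
        rw [h1, ← Submodule.map_smul'']
        exact Submodule.mem_map_of_mem hy2)
    refine ⟨r, hr1, fun y hy => ?_⟩
    have h2 := hr2 (P.mkQ y) (Submodule.mem_map_of_mem hy)
    rw [← map_smul] at h2
    exact (Submodule.Quotient.mk_eq_zero P).1 h2
  have hr0 : (r : F) ≠ 0 := by
    intro h
    have hr0 : r = 0 := RingOfIntegers.coe_injective (h.trans (map_zero (algebraMap (𝓞 F) F)).symm)
    rw [hr0, zero_sub] at hr1
    have h1 : (1 : 𝓞 F) ∈ v.asIdeal := by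
      have := v.asIdeal.neg_mem hr1
      rwa [neg_neg] at this
    exact v.isPrime.ne_top ((Ideal.eq_top_iff_one _).2 h1)
  -- the lifts are a basis
  have hspan : ⊤ ≤ Submodule.span F (Set.range fun i => (b i : Fin n → F)) := by
    rw [← hL.2, Submodule.span_le]
    intro y hy
    have h1 := hr2 y hy
    have h2 : r • y ∈ Submodule.span F (Set.range fun i => (b i : Fin n → F)) := by
      have : P ≤ (Submodule.span F (Set.range fun i => (b i : Fin n → F))).restrictScalars (𝓞 F) :=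
        Submodule.span_le.2 fun z hz => Submodule.subset_span hz
      exact this h1
    have h3 : y = (r : F)⁻¹ • (r • y) := by
      rw [show r • y = (r : F) • y from rfl, smul_smul, inv_mul_cancel₀ hr0, one_smul]
    rw [h3]
    exact Submodule.smul_mem _ _ h2
  have hlin : LinearIndependent F (fun i => (b i : Fin n → F)) :=
    linearIndependent_of_top_le_span_of_card_eq_finrank hspan (by simp)
  let B : Module.Basis (Fin n) F (Fin n → F) := Module.Basis.mk hlin hspan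
  choose a ha using fun i : Fin n => Ideal.Quotient.mk_surjective (I := v.asIdeal)
    (α (Pi.single i 1))
  let Φ : (Fin n → F) →ₗ[F] F := B.constr F fun i => (a i : F)
  have hΦ : ∀ i, Φ (b i : Fin n → F) = a i := by
    intro i
    have h1 : B i = (b i : Fin n → F) := Module.Basis.mk_apply hlin hspan i
    rw [← h1]
    exact B.constr_basis F _ i
  refine ⟨(r : F) • Φ, fun y => ?_⟩
  obtain ⟨c, hc⟩ := (Submodule.mem_span_range_iff_exists_fun _).1 (hr2 _ y.2)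
  refine ⟨∑ i, c i * a i, ?_, ?_⟩
  · rw [LinearMap.smul_apply, smul_eq_mul]
    have h1 : (r : F) * Φ y = Φ (r • (y : Fin n → F)) := by
      rw [show r • (y : Fin n → F) = (r : F) • (y : Fin n → F) from rfl, map_smul, smul_eq_mul]
    have h2 : ((∑ i, c i * a i : 𝓞 F) : F) = ∑ i, (c i : F) * (a i : F) :=
      (map_sum (algebraMap (𝓞 F) F) _ _).trans
        (Finset.sum_congr rfl fun i _ => map_mul (algebraMap (𝓞 F) F) _ _)
    rw [h1, ← hc, map_sum, h2]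
    refine Finset.sum_congr rfl fun i _ => ?_
    rw [show c i • (b i : Fin n → F) = (c i : F) • (b i : Fin n → F) from rfl, map_smul, hΦ,
      smul_eq_mul]
  · -- `θ y = ∑ c_i e_i`
    have h1 : θ y = θ (∑ i, c i • b i) := by
      have h2 : r • y = ∑ i, c i • b i := by
        apply Subtype.ext
        rw [Submodule.coe_sum]
        exact hc.symm
      rw [← h2, map_smul]
      funext k
      rw [Pi.smul_apply, Algebra.smul_def]
      have h3 : algebraMap (𝓞 F) (𝓞 F ⧸ v.asIdeal) r = 1 := by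
        rw [← map_one (algebraMap (𝓞 F) (𝓞 F ⧸ v.asIdeal))]
        exact Ideal.Quotient.eq.2 hr1
      rw [h3, one_mul]
    rw [h1, map_sum, map_sum, map_sum]
    refine Finset.sum_congr rfl fun i _ => ?_
    rw [map_smul, hb, map_mul, ha]
    have h4 : (c i • (Pi.single i 1 : Fin n → 𝓞 F ⧸ v.asIdeal)) =
        Ideal.Quotient.mk v.asIdeal (c i) • (Pi.single i 1 : Fin n → 𝓞 F ⧸ v.asIdeal) := rfl
    rw [h4, map_smul, smul_eq_mul]

/-- two different hyperplanes -/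
theorem exists_hyp {K V : Type} [Field K] [AddCommGroup V] [Module K V] [FiniteDimensional K V]
    {U₁ U₂ : Submodule K V} (h1 : Module.finrank K U₁ + 1 = Module.finrank K V)
    (h2 : Module.finrank K U₂ + 1 = Module.finrank K V) (h : U₁ ≠ U₂) :
    ∃ (α₁ α₂ : V →ₗ[K] K) (w : V), (∀ y, y ∈ U₁ ↔ α₁ y = 0) ∧ (∀ y, y ∈ U₂ ↔ α₂ y = 0) ∧
      α₁ w = 1 ∧ α₂ w = 1 := by
  have key : ∀ U : Submodule K V, Module.finrank K U + 1 = Module.finrank K V →
      ∃ α : V →ₗ[K] K, ∀ y, y ∈ U ↔ α y = 0 := by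
    intro U hU
    have hne : U ≠ ⊤ := by
      intro h
      rw [h, finrank_top] at hU
      omega
    obtain ⟨f, hf0, hf⟩ := Submodule.exists_le_ker_of_lt_top U (lt_top_iff_ne_top.2 hne)
    have h3 := Module.Dual.finrank_ker_add_one_of_ne_zero hf0
    have h4 : U = LinearMap.ker f := Submodule.eq_of_le_of_finrank_eq hf (by omega)
    exact ⟨f, fun y => by rw [h4]; exact LinearMap.mem_ker⟩
  obtain ⟨α₁, hα₁⟩ := key U₁ h1
  obtain ⟨α₂, hα₂⟩ := key U₂ h2
  have hex : ∀ U U' : Submodule K V, Module.finrank K U + 1 = Module.finrank K V →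
      Module.finrank K U' + 1 = Module.finrank K V → U ≠ U' → ∃ p ∈ U, p ∉ U' := by
    intro U U' hU hU' hne
    by_contra hcon
    push Not at hcon
    exact hne (Submodule.eq_of_le_of_finrank_eq hcon (by omega))
  obtain ⟨p, hp1, hp2⟩ := hex U₁ U₂ h1 h2 h
  obtain ⟨q, hq1, hq2⟩ := hex U₂ U₁ h2 h1 h.symm
  rw [hα₁] at hp1 hq2
  rw [hα₂] at hp2 hq1
  refine ⟨α₁, α₂, (α₁ q)⁻¹ • q + (α₂ p)⁻¹ • p, hα₁, hα₂, ?_, ?_⟩
  · rw [map_add, map_smul, map_smul, hp1, smul_zero, add_zero, smul_eq_mul, inv_mul_cancel₀ hq2]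
  · rw [map_add, map_smul, map_smul, hq1, smul_zero, zero_add, smul_eq_mul, inv_mul_cancel₀ hp2]

theorem det_tw (u ρ : Fin n → F) (h : ρ ⬝ᵥ u = 0) : (tw u ρ h).1.det = 1 := by
  show (1 + Matrix.vecMulVec u ρ).det = 1
  have h1 := Matrix.det_one_add_replicateCol_mul_replicateRow (ι := Unit) u ρ
  rw [h, add_zero] at h1
  rw [← h1]
  congr 2
  ext i j
  simp [Matrix.vecMulVec_apply, Matrix.mul_apply]

theorem tw_mulVec (u ρ : Fin n → F) (h : ρ ⬝ᵥ u = 0) (y : Fin n → F) :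
    (tw u ρ h).1.mulVec y = y + (ρ ⬝ᵥ y) • u := by
  show (1 + Matrix.vecMulVec u ρ).mulVec y = _
  rw [Matrix.add_mulVec, Matrix.one_mulVec]
  congr 1
  funext i
  simp only [Matrix.mulVec, dotProduct, Matrix.vecMulVec_apply, Pi.smul_apply, smul_eq_mul,
    Finset.sum_mul]
  refine Finset.sum_congr rfl fun k _ => ?_
  ring

theorem tw_inv_mulVec (u ρ : Fin n → F) (h : ρ ⬝ᵥ u = 0) (y : Fin n → F) :
    (tw u ρ h)⁻¹.1.mulVec y = y - (ρ ⬝ᵥ y) • u := by
  show (1 - Matrix.vecMulVec u ρ).mulVec y = _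
  rw [Matrix.sub_mulVec, Matrix.one_mulVec]
  congr 1
  funext i
  simp only [Matrix.mulVec, dotProduct, Matrix.vecMulVec_apply, Pi.smul_apply, smul_eq_mul,
    Finset.sum_mul]
  refine Finset.sum_congr rfl fun k _ => ?_
  ring

theorem t_HYP (hLVL : S_LVL) (hIND : S_IND) : S_HYP := by
  classical
  intro F _ _ n hn L hL v 𝔪 hv L₁ hL₁ L₂ hL₂
  by_cases hne : L₁ = L₂
  · refine ⟨1, ?_, gm_one L, ?_, fun y _ => ?_⟩
    · rw [Units.val_one, Matrix.det_one]
    · rw [gm_one, hne]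
    · rw [Units.val_one, Matrix.one_mulVec, sub_self]
      exact Submodule.zero_mem _
  obtain ⟨θ, hs, hθ⟩ := exists_theta hLVL hIND hL v
  have hmax : v.asIdeal.IsMaximal := v.isMaximal
  let fld : Field (𝓞 F ⧸ v.asIdeal) := Ideal.Quotient.field v.asIdeal
  have hfr : ∀ L' ∈ Sub v 1 L, Module.finrank (𝓞 F ⧸ v.asIdeal) (lt θ L') + 1 =
      Module.finrank (𝓞 F ⧸ v.asIdeal) (Fin n → 𝓞 F ⧸ v.asIdeal) := by
    intro L' hL'
    have h1 := hL'
    rw [← tl_lt hθ h1.1 h1.2.1] at h1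
    have h2 := (mem_sub_tl hs hθ).1 h1
    exact h2.trans (Module.finrank_fin_fun (𝓞 F ⧸ v.asIdeal)).symm
  have hne' : lt θ L₁ ≠ lt θ L₂ := by
    intro h
    apply hne
    rw [← tl_lt hθ hL₁.1 hL₁.2.1, ← tl_lt hθ hL₂.1 hL₂.2.1, h]
  obtain ⟨α₁, α₂, w', hα₁, hα₂, hw₁, hw₂⟩ := exists_hyp (hfr L₁ hL₁) (hfr L₂ hL₂) hne'
  have hα₁' : ∀ y : L, (y : Fin n → F) ∈ L₁ ↔ α₁ (θ y) = 0 := fun y => by
    rw [← hα₁, mem_lt hθ hL₁.1]
  have hα₂' : ∀ y : L, (y : Fin n → F) ∈ L₂ ↔ α₂ (θ y) = 0 := fun y => by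
    rw [← hα₂, mem_lt hθ hL₂.1]
  -- an element `b` of `𝔪` with `b ≡ 1 mod v`
  obtain ⟨b, hb, hb1⟩ : ∃ b ∈ 𝔪, b - 1 ∈ v.asIdeal := by
    have hcop : IsCoprime 𝔪 v.asIdeal := by
      rw [Ideal.isCoprime_iff_sup_eq]
      by_contra hne
      have h5 : v.asIdeal ≤ 𝔪 ⊔ v.asIdeal := le_sup_right
      have h6 := hmax.eq_of_le hne h5
      exact hv (le_sup_left.trans h6.symm.le)
    obtain ⟨b, hb, c, hc, h⟩ := Ideal.isCoprime_iff_exists.1 hcop
    refine ⟨b, hb, ?_⟩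
    have h2 : b - 1 = -c := by rw [← h]; ring
    rw [h2]
    exact v.asIdeal.neg_mem hc
  obtain ⟨w₀, hw₀⟩ := hs w'
  have hθw : θ (b • w₀) = w' := by
    rw [map_smul, hw₀]
    funext k
    rw [Pi.smul_apply, Algebra.smul_def]
    have h3 : algebraMap (𝓞 F) (𝓞 F ⧸ v.asIdeal) b = 1 := by
      rw [← map_one (algebraMap (𝓞 F) (𝓞 F ⧸ v.asIdeal))]
      exact Ideal.Quotient.eq.2 hb1
    rw [h3, one_mul]
  set w : L := b • w₀ with hw
  have hwm : (w : Fin n → F) ∈ 𝔪 • L := Submodule.smul_mem_smul hb w₀.2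
  -- the functional
  obtain ⟨φ₀, hφ₀⟩ := exists_dual hL hs hθ (α₁ - α₂)
  obtain ⟨ψ, hψ⟩ := exists_dual hL hs hθ α₁
  obtain ⟨p, hp1, hp2⟩ := hφ₀ w
  obtain ⟨q, hq1, hq2⟩ := hψ w
  let φ : (Fin n → F) →ₗ[F] F := (q : F) • φ₀ - (p : F) • ψ
  have hφw : φ w = 0 := by
    show (q : F) * φ₀ w - (p : F) * ψ w = 0
    rw [hp1, hq1]; ring
  have hφ : ∀ y : L, ∃ c : 𝓞 F, φ y = c ∧ Ideal.Quotient.mk v.asIdeal c =
      α₁ (θ y) - α₂ (θ y) := by
    intro y
    obtain ⟨c, hc1, hc2⟩ := hφ₀ y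
    obtain ⟨d, hd1, hd2⟩ := hψ y
    refine ⟨q * c - p * d, ?_, ?_⟩
    · show (q : F) * φ₀ y - (p : F) * ψ y = _
      rw [hc1, hd1]
      have h2 : ((q * c - p * d : 𝓞 F) : F) = (q : F) * (c : F) - (p : F) * (d : F) := by
        have h3 := map_sub (algebraMap (𝓞 F) F) (q * c) (p * d)
        rw [map_mul, map_mul] at h3
        exact h3
      rw [h2]
    · rw [map_sub, map_mul, map_mul, hc2, hd2, hp2, hq2, hθw, hw₁, LinearMap.sub_apply,
        LinearMap.sub_apply, hw₁, hw₂]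
      ring
  -- the matrix
  let ρ : Fin n → F := fun i => φ (Pi.single i 1)
  have hρ : ∀ y : Fin n → F, ρ ⬝ᵥ y = φ y := by
    intro y
    have h : y = ∑ i, y i • (Pi.single i 1 : Fin n → F) := by
      funext k
      simp [Finset.sum_apply, Pi.single_apply]
    conv_rhs => rw [h, map_sum]
    show ∑ i, ρ i * y i = _
    refine Finset.sum_congr rfl fun i _ => ?_
    rw [map_smul, smul_eq_mul, mul_comm]
  have hρw : ρ ⬝ᵥ (w : Fin n → F) = 0 := by rw [hρ, hφw]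
  set g : GL (Fin n) F := tw (w : Fin n → F) ρ hρw with hg
  have hgy : ∀ y, g.1.mulVec y = y + φ y • (w : Fin n → F) := fun y => by
    rw [hg, tw_mulVec, hρ]
  have hgy' : ∀ y, g⁻¹.1.mulVec y = y - φ y • (w : Fin n → F) := fun y => by
    rw [hg, tw_inv_mulVec, hρ]
  have hφs : ∀ y : L, ∃ c : 𝓞 F, φ y • (w : Fin n → F) = ((c • w : L) : Fin n → F) ∧
      Ideal.Quotient.mk v.asIdeal c = α₁ (θ y) - α₂ (θ y) := by
    intro y
    obtain ⟨c, hc1, hc2⟩ := hφ y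
    exact ⟨c, by rw [hc1]; rfl, hc2⟩
  have hθc : ∀ c : 𝓞 F, θ (c • w) = Ideal.Quotient.mk v.asIdeal c • w' := by
    intro c
    rw [map_smul, hθw]; rfl
  have hgL : gm g L = L := by
    apply le_antisymm
    · intro y hy
      obtain ⟨x, hx, rfl⟩ := mem_gm.1 hy
      obtain ⟨c, hc, -⟩ := hφs ⟨x, hx⟩
      rw [hgy, hc]
      exact L.add_mem hx (c • w).2
    · intro y hy
      rw [mem_gm']
      obtain ⟨c, hc, -⟩ := hφs ⟨y, hy⟩
      rw [hgy', hc]
      exact L.sub_mem hy (c • w).2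
  refine ⟨g, det_tw _ _ _, hgL, ?_, ?_⟩
  · apply le_antisymm
    · intro y hy
      obtain ⟨x, hx, rfl⟩ := mem_gm.1 hy
      obtain ⟨c, hc, hc2⟩ := hφs ⟨x, hL₁.2.1 hx⟩
      rw [hgy, hc]
      refine (hα₂' (⟨x, hL₁.2.1 hx⟩ + c • w)).2 ?_
      rw [map_add, map_add, hθc, map_smul, hw₂, hc2, smul_eq_mul,
        (hα₁' ⟨x, hL₁.2.1 hx⟩).1 hx]
      ring
    · intro y hy
      rw [mem_gm']
      obtain ⟨c, hc, hc2⟩ := hφs ⟨y, hL₂.2.1 hy⟩
      rw [hgy', hc]
      refine (hα₁' (⟨y, hL₂.2.1 hy⟩ - c • w)).2 ?_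
      rw [map_sub, map_sub, hθc, map_smul, hw₁, hc2, smul_eq_mul,
        (hα₂' ⟨y, hL₂.2.1 hy⟩).1 hy]
      ring
  · intro y hy
    obtain ⟨c, hc, -⟩ := hφs ⟨y, hy⟩
    rw [hgy, add_sub_cancel_left, hc]
    exact Submodule.smul_mem _ c hwm

end Pool.Agent.T2h61.CG.THYP
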