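import Pool.Agent.T2h61.CG.T_STA

/-!
# C2: level structures are bases
-/

set_option autoImplicit false

open NumberField IsDedekindDomain Matrix

noncomputable section

namespace Pool.Agent.T2h61.CG.TIND

/-- Nakayama -/
theorem nak {R V : Type*} [CommRing R] [AddCommGroup V] [Module R V] {L P : Submodule R V}
    (hL : L.FG) {𝔪 : Ideal R} (h : L ≤ P ⊔ 𝔪 • L) : ∃ r : R, r - 1 ∈ 𝔪 ∧ ∀ y ∈ L, r • y ∈ P := by
  have h1 : L.map P.mkQ ≤ 𝔪 • L.map P.mkQ := by
    refine (Submodule.map_mono h).trans ?_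
    rw [Submodule.map_sup, Submodule.mkQ_map_self, bot_sup_eq, Submodule.map_smul'']
  obtain ⟨r, hr, hr'⟩ := Submodule.exists_sub_one_mem_and_smul_eq_zero_of_fg_of_le_smul 𝔪 _
    (hL.map P.mkQ) h1
  refine ⟨r, hr, fun y hy => ?_⟩
  have h2 := hr' (P.mkQ y) (Submodule.mem_map_of_mem hy)
  rw [← map_smul, Submodule.mkQ_apply, Submodule.Quotient.mk_eq_zero] at h2
  exact h2

variable {F : Type} [Field F] [NumberField F] {n : ℕ}

omit [NumberField F] in
theorem smul_int (r : 𝓞 F) (y : Fin n → F) : r • y = (r : F) • y := by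
  rw [TSTA.smul_fun]; rfl

/-- a nonzero multiple of `L` is contained in the span of `k` vectors, so they span `F^n` -/
theorem span_top {k : ℕ} {L : Submodule (𝓞 F) (Fin n → F)} (hL : IsLat L) {e : Fin k → Fin n → F}
    {r : 𝓞 F} (hr : r ≠ 0) (h : ∀ y ∈ L, r • y ∈ Submodule.span (𝓞 F) (Set.range e)) :
    Submodule.span F (Set.range e) = ⊤ := by
  rw [eq_top_iff, ← hL.2, Submodule.span_le]
  intro y hy
  have h1 := h y hy
  have h2 : r • y ∈ Submodule.span F (Set.range e) :=
    Submodule.span_le_restrictScalars (𝓞 F) F (Set.range e) h1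
  rw [smul_int] at h2
  have hr' : (r : F) ≠ 0 := by simpa using hr
  have h3 := Submodule.smul_mem _ (r : F)⁻¹ h2
  rwa [smul_smul, inv_mul_cancel₀ hr', one_smul] at h3

theorem linInd {L : Submodule (𝓞 F) (Fin n → F)} (hL : IsLat L) {e : Fin n → Fin n → F}
    {r : 𝓞 F} (hr : r ≠ 0) (h : ∀ y ∈ L, r • y ∈ Submodule.span (𝓞 F) (Set.range e)) :
    LinearIndependent F e :=
  linearIndependent_of_top_le_span_of_card_eq_finrank (span_top hL hr h).ge (by simp)

/-- C2 -/
theorem t_IND : S_IND := by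
  intro F _ _ n L hL 𝔪 hm e he hLe c hc i
  by_cases htop : 𝔪 = ⊤
  · rw [htop]; exact Submodule.mem_top
  obtain ⟨r, hr, hr'⟩ := nak hL.1 hLe
  have hr0 : r ≠ 0 := by
    rintro rfl
    rw [zero_sub, neg_mem_iff] at hr
    exact htop ((Ideal.eq_top_iff_one _).2 hr)
  have hli := linInd hL hr0 hr'
  have h1 : ∀ x ∈ 𝔪 • L, r • x ∈ 𝔪 • Submodule.span (𝓞 F) (Set.range e) := by
    intro x hx
    induction hx using Submodule.smul_induction_on' with
    | smul a ha y hy =>
      rw [smul_comm]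
      exact Submodule.smul_mem_smul ha (hr' y hy)
    | add x _ y _ hx hy => rw [smul_add]; exact Submodule.add_mem _ hx hy
  have h2 := h1 _ hc
  obtain ⟨a, ha, ha'⟩ := (Submodule.mem_ideal_smul_span_iff_exists_sum _ _ _).1 h2
  rw [Finsupp.sum_fintype _ (fun i c => c • e i) (fun i => zero_smul _ _)] at ha'
  have h3 : ∑ i, ((a i : F) - r * c i) • e i = 0 := by
    have e1 : ∑ i, ((a i : F) - r * c i) • e i = ∑ i, a i • e i - r • ∑ i, c i • e i := by
      rw [Finset.smul_sum, ← Finset.sum_sub_distrib]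
      refine Finset.sum_congr rfl fun i _ => ?_
      rw [smul_int, smul_int, smul_int, sub_smul, mul_smul]
    rw [e1, ha', sub_self]
  have h4 := (Fintype.linearIndependent_iff.1 hli) _ h3 i
  have h5 : a i = r * c i := by
    apply RingOfIntegers.coe_injective
    rw [show algebraMap (𝓞 F) F (a i) = (a i : F) from rfl, sub_eq_zero.1 h4]
    exact (map_mul (algebraMap (𝓞 F) F) _ _).symm
  have h6 : c i = a i - (r - 1) * c i := by rw [h5]; ring
  rw [h6]
  exact 𝔪.sub_mem (ha i) (𝔪.mul_mem_right _ hr)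

end Pool.Agent.T2h61.CG.TIND
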