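import Pool.Agent.T2h61.CG.Mx91
import Pool.Agent.T2h61.CG.T_KU2

/-!
# Calegari–Geraghty for `GL_n` over number fields: B4
-/

set_option autoImplicit false
set_option linter.unusedSectionVars false

open NumberField IsDedekindDomain Matrix

noncomputable section

namespace Pool.Agent.T2h61.CG.TINV2

open Pool.Agent.T2h61.CG Pool.Agent.T2h61.CG.Mx

variable {F : Type} [Field F] [NumberField F]

theorem DI_conj_val (u : (𝓞 F)ˣ) (A : GL (Fin 2) (𝓞 F)) :
    (DI u * A * (DI u)⁻¹).1 0 0 = A.1 0 0 ∧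
      (DI u * A * (DI u)⁻¹).1 0 1 = (u : 𝓞 F) * A.1 0 1 := by
  have h := Dv_conj_val u (Matrix.GeneralLinearGroup.map (algebraMap (𝓞 F) F) A)
  rw [← map_DI, ← map_inv, ← map_mul, ← map_mul] at h
  constructor
  · apply RingOfIntegers.coe_injective (K := F)
    have := congrFun (congrFun h 0) 0
    exact this
  · apply RingOfIntegers.coe_injective (K := F)
    have := congrFun (congrFun h 0) 1
    refine Eq.trans this ?_
    exact (map_mul (algebraMap (𝓞 F) F) _ _).symm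

theorem map_conj (u : (𝓞 F)ˣ) (A : GL (Fin 2) (𝓞 F)) :
    Matrix.GeneralLinearGroup.map (algebraMap (𝓞 F) F) (DI u * A * (DI u)⁻¹) =
      Dv u * Matrix.GeneralLinearGroup.map (algebraMap (𝓞 F) F) A * (Dv u)⁻¹ := by
  rw [map_mul, map_mul, map_inv, map_DI]

theorem det_conj_int (u : (𝓞 F)ˣ) (A : GL (Fin 2) (𝓞 F)) (h : A.1.det = 1) :
    (DI u * A * (DI u)⁻¹).1.det = 1 := by
  rw [Units.val_mul, Units.val_mul, Matrix.det_mul, Matrix.det_mul, h, mul_one,
    ← Matrix.det_mul, ← Units.val_mul, mul_inv_cancel, Units.val_one, Matrix.det_one]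

theorem t_INV2 (hexp : S_EXP) (hmen : S_MEN) (hku : S_KU2) : S_INV2 := by
  intro F _ _ hF
  obtain ⟨v, hv⟩ := TKU2.exists_unit hF
  obtain ⟨m, hm, hexp⟩ := hexp F
  refine ⟨v ^ m, hv m hm, fun W _ c hc => ?_⟩
  obtain ⟨N₁, hN₁, h0⟩ := hku F hF W c hc
  obtain ⟨N₀, hN₀, hc⟩ := hc
  have hc : AdN N₀ c := hc
  refine ⟨N₀ * N₁, mul_ne_zero hN₀ hN₁, fun γ hγ hdet => ?_⟩
  set N := N₀ * N₁ with hN
  have hNne : N ≠ 0 := mul_ne_zero hN₀ hN₁
  have hcN : AdN N c := hc.mono (dvd_mul_right _ _)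
  have h0N : ∀ (i j : Fin 2) (hij : i ≠ j) (y : 𝓞 F), c (tv i j hij ((N : F) * y)) = 0 := by
    intro i j hij y
    have e : (N : F) * (y : F) = (N₁ : F) * (((N₀ : 𝓞 F) * y : 𝓞 F) : F) := by
      have := map_mul (algebraMap (𝓞 F) F) (N₀ : 𝓞 F) y
      rw [map_natCast] at this
      change (((N₀ : 𝓞 F) * y : 𝓞 F) : F) = (N₀ : F) * (y : F) at this
      rw [this, hN]
      push_cast
      ring
    rw [e]
    exact h0 i j hij _
  have hγ' := hγ
  obtain ⟨⟨A, hA, hA1⟩, -⟩ := hγ'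
  have hAd : A.1.det = 1 := by
    apply RingOfIntegers.coe_injective (K := F)
    have h1 := RingHom.map_det (algebraMap (𝓞 F) F) A.1
    refine Eq.trans h1 ?_
    rw [hA] at hdet
    refine Eq.trans hdet ?_
    exact (map_one (algebraMap (𝓞 F) F)).symm
  -- the orbit
  set f : ℤ → W := fun k => c (Dv (v ^ k) * γ * (Dv (v ^ k))⁻¹) with hf
  have hfstep : ∀ (j : ℤ) (k : ℕ) (s : 𝓞 F),
      A.1 0 0 + A.1 0 1 * N * s ∣ ((v ^ k : (𝓞 F)ˣ) : 𝓞 F) - 1 → f (j + k) = f j := by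
    intro j k s hs
    have h1 := hmen F W c N hNne hcN h0N (DI (v ^ j) * A * (DI (v ^ j))⁻¹)
      (det_conj_int _ _ hAd) (by rw [map_conj, ← hA]; exact cg_conj_Dv hγ _) (v ^ k)
      (((v ^ (-j) : (𝓞 F)ˣ) : 𝓞 F) * s) (by
        rw [(DI_conj_val _ _).1, (DI_conj_val _ _).2]
        have e : ((v ^ j : (𝓞 F)ˣ) : 𝓞 F) * ((v ^ (-j) : (𝓞 F)ˣ) : 𝓞 F) = 1 := by
          rw [← Units.val_mul, ← _root_.zpow_add, add_neg_cancel, zpow_zero, Units.val_one]
        have e2 : A.1 0 0 + ((v ^ j : (𝓞 F)ˣ) : 𝓞 F) * A.1 0 1 * (N : 𝓞 F) *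
            (((v ^ (-j) : (𝓞 F)ˣ) : 𝓞 F) * s) = A.1 0 0 + A.1 0 1 * N * s := by
          linear_combination (A.1 0 1 * N * s) * e
        rw [e2]
        exact hs)
    rw [map_conj, ← hA] at h1
    show c (Dv (v ^ (j + k)) * γ * (Dv (v ^ (j + k)))⁻¹) = c (Dv (v ^ j) * γ * (Dv (v ^ j))⁻¹)
    rw [← h1]
    congr 1
    rw [add_comm, _root_.zpow_add, zpow_natCast, Dv_mul]
    group
  -- the periods
  let P : AddSubgroup ℤ :=
    { carrier := {k | ∀ j, f (j + k) = f j}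
      zero_mem' := fun j => by rw [add_zero]
      add_mem' := fun {a b} ha hb j => by
        rw [← add_assoc, hb, ha]
      neg_mem' := fun {a} ha j => by
        have := ha (j + -a)
        rw [neg_add_cancel_right] at this
        exact this.symm }
  have hP : ∀ k : ℕ, (k : ℤ) ∈ P ↔ ∀ j, f (j + k) = f j := fun k => Iff.rfl
  have hmain : (m : ℤ) ∈ P := by
    by_cases hb : A.1 0 1 = 0
    · have h1 : (1 : ℤ) ∈ P := by
        have : ((1 : ℕ) : ℤ) ∈ P := by
          rw [hP]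
          intro j
          refine hfstep j 1 0 ?_
          rw [hb, zero_mul, zero_mul, add_zero]
          refine IsUnit.dvd ?_
          have h2 := hAd
          rw [Matrix.det_fin_two, hb, zero_mul, sub_zero] at h2
          exact IsUnit.of_mul_eq_one _ h2
        exact_mod_cast this
      have h2 := P.nsmul_mem h1 m
      rwa [nsmul_eq_mul, mul_one] at h2
    · obtain ⟨d, hd⟩ := Int.subgroup_cyclic P
      have hmem : ∀ k : ℤ, k ∈ P ↔ d ∣ k := by
        intro k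
        rw [hd, AddSubgroup.mem_closure_singleton]
        constructor
        · rintro ⟨x, rfl⟩
          rw [smul_eq_mul]
          exact dvd_mul_left _ _
        · rintro ⟨x, rfl⟩
          exact ⟨x, by rw [smul_eq_mul, mul_comm]⟩
      -- coprimality
      have hcop : IsCoprime (A.1 0 0) (A.1 0 1 * N) := by
        refine IsCoprime.mul_right ⟨A.1 1 1, -A.1 1 0, ?_⟩ ?_
        · have h2 := hAd
          rw [Matrix.det_fin_two] at h2
          linear_combination h2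
        · obtain ⟨q, hq⟩ := hA1 0 0
          rw [Matrix.one_apply_eq] at hq
          exact ⟨1, -q, by linear_combination hq⟩
      have hall : ∀ ℓ : ℕ, ℓ.Prime → ∃ k : ℕ, k ≠ 0 ∧ d ∣ k ∧
          ¬ ℓ ^ (m.factorization ℓ + 1) ∣ k := by
        intro ℓ hℓ
        obtain ⟨s, k, hk, h1, h2⟩ := hexp _ _ N hb hNne hcop ℓ hℓ
        refine ⟨k, hk, (hmem k).1 fun j => hfstep j k s ?_, h2⟩
        rw [Units.val_pow_eq_pow_val]
        exact h1 v
      rw [hmem]
      have hd0 : d.natAbs ≠ 0 := by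
        obtain ⟨k, hk, h1, -⟩ := hall 2 Nat.prime_two
        intro h0
        rw [Int.natAbs_eq_zero] at h0
        rw [h0, zero_dvd_iff] at h1
        exact hk (by exact_mod_cast h1)
      rw [← Int.natAbs_dvd, Int.natCast_dvd_natCast, ← Nat.factorization_prime_le_iff_dvd hd0 hm]
      intro ℓ hℓ
      obtain ⟨k, hk, h1, h2⟩ := hall ℓ hℓ
      by_contra hlt
      push Not at hlt
      apply h2
      have h3 : d.natAbs ∣ k := by
        rw [← Int.natCast_dvd_natCast, Int.natAbs_dvd]; exact h1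
      exact ((hℓ.pow_dvd_iff_le_factorization hd0).2 hlt).trans h3
  have h1 := (hP m).1 hmain 0
  rw [zero_add] at h1
  have h2 : f 0 = c γ := by
    show c (Dv (v ^ (0 : ℤ)) * γ * (Dv (v ^ (0 : ℤ)))⁻¹) = c γ
    rw [zpow_zero, Dv_one, one_mul, inv_one, mul_one]
  have h3 : f m = c (Dv (v ^ m) * γ * (Dv (v ^ m))⁻¹) := by
    show c (Dv (v ^ (m : ℤ)) * γ * (Dv (v ^ (m : ℤ)))⁻¹) = _
    rw [zpow_natCast]
  rw [← h3, h1, h2]

end Pool.Agent.T2h61.CG.TINV2
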