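import Pool.Agent.T2h61.CG.Mx91

/-!
# Calegari–Geraghty for `GL_n` over number fields: B2
-/

set_option autoImplicit false

open NumberField IsDedekindDomain Matrix

noncomputable section

namespace Pool.Agent.T2h61.CG.TKU3

open Pool.Agent.T2h61.CG Pool.Agent.T2h61.CG.Mx

theorem t_KU3 : S_KU3 := by
  intro F _ _ n hn W _ c hc
  obtain ⟨N, hN, hc⟩ := hc
  have hc : AdN N c := hc
  refine ⟨N * N, mul_ne_zero hN hN, fun i j hij y => ?_⟩
  obtain ⟨k, hk⟩ : ∃ k : Fin n, k ∉ ({i, j} : Finset (Fin n)) := by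
    by_contra hcon
    push Not at hcon
    have h1 : (Finset.univ : Finset (Fin n)) ⊆ {i, j} := fun x _ => hcon x
    have h2 := Finset.card_le_card h1
    rw [Finset.card_univ, Fintype.card_fin] at h2
    have h3 := Finset.card_le_two (a := i) (b := j)
    omega
  rw [Finset.mem_insert, Finset.mem_singleton, not_or] at hk
  have e : tv i j hij (((N * N : ℕ) : F) * y) = tv i k (Ne.symm hk.1) ((N : F) * ((1 : 𝓞 F) : F)) *
      tv k j hk.2 ((N : F) * y) * (tv i k (Ne.symm hk.1) ((N : F) * ((1 : 𝓞 F) : F)))⁻¹ *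
      (tv k j hk.2 ((N : F) * y))⁻¹ := by
    rw [tv_comm hij]
    congr 1
    push_cast
    ring
  rw [e]
  exact hc.comm (cg_tv _ 1 rfl) (cg_tv _ y rfl)

end Pool.Agent.T2h61.CG.TKU3
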