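import Pool.Agent.T2h61.CG.Bas2

/-!
# Lattices modulo a prime
-/

set_option autoImplicit false

open NumberField IsDedekindDomain Matrix Polynomial

noncomputable section

namespace Pool.Agent.T2h61.CG.TLAT

variable {F : Type} [Field F] [NumberField F] {n : ℕ}

/-- the reduction modulo `v` -/
theorem exists_theta (hLVL : S_LVL) (hIND : S_IND) {L : Submodule (𝓞 F) (Fin n → F)}
    (hL : IsLat L) (v : HeightOneSpectrum (𝓞 F)) :
    ∃ θ : L →ₗ[𝓞 F] (Fin n → 𝓞 F ⧸ v.asIdeal), Function.Surjective θ ∧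
      ∀ y : L, θ y = 0 ↔ (y : Fin n → F) ∈ v.asIdeal • L := by
  obtain ⟨e, he, hLe⟩ := hLVL F n L hL v.asIdeal v.ne_bot
  have hind := hIND F n L hL v.asIdeal v.ne_bot e he hLe
  have hex : ∀ y : L, ∃ c : Fin n → 𝓞 F, (y : Fin n → F) - ∑ i, c i • e i ∈ v.asIdeal • L := by
    intro y
    obtain ⟨y1, hy1, y2, hy2, h⟩ := Submodule.mem_sup.1 (hLe y.2)
    obtain ⟨c, hc⟩ := (Submodule.mem_span_range_iff_exists_fun _).1 hy1
    refine ⟨c, ?_⟩
    rw [hc, ← h, add_sub_cancel_left]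
    exact hy2
  choose c hc using hex
  have key : ∀ (y : L) (d : Fin n → 𝓞 F), (y : Fin n → F) - ∑ i, d i • e i ∈ v.asIdeal • L →
      ∀ i, c y i - d i ∈ v.asIdeal := by
    intro y d hd i
    refine hind (fun i => c y i - d i) ?_ i
    have h1 := Submodule.sub_mem _ hd (hc y)
    have e1 : (y : Fin n → F) - ∑ i, d i • e i - ((y : Fin n → F) - ∑ i, c y i • e i) =
        ∑ i, (c y i - d i) • e i := by
      simp only [sub_smul, Finset.sum_sub_distrib]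
      abel
    rwa [e1] at h1
  let θ : L →ₗ[𝓞 F] (Fin n → 𝓞 F ⧸ v.asIdeal) :=
    { toFun := fun y i => Ideal.Quotient.mk v.asIdeal (c y i)
      map_add' := fun y y' => by
        funext i
        rw [Pi.add_apply, ← map_add]
        apply Ideal.Quotient.eq.2
        refine key (y + y') (fun i => c y i + c y' i) ?_ i
        have h1 := Submodule.add_mem _ (hc y) (hc y')
        have e1 : (y : Fin n → F) - ∑ i, c y i • e i + ((y' : Fin n → F) - ∑ i, c y' i • e i) =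
            ((y + y' : L) : Fin n → F) - ∑ i, (c y i + c y' i) • e i := by
          simp only [add_smul, Finset.sum_add_distrib, Submodule.coe_add]
          abel
        rwa [e1] at h1
      map_smul' := fun r y => by
        funext i
        rw [Pi.smul_apply, RingHom.id_apply, Algebra.smul_def, Ideal.Quotient.algebraMap_eq,
          ← map_mul]
        apply Ideal.Quotient.eq.2
        refine key (r • y) (fun i => r * c y i) ?_ i
        have h1 := Submodule.smul_mem _ r (hc y)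
        have e1 : r • ((y : Fin n → F) - ∑ i, c y i • e i) =
            ((r • y : L) : Fin n → F) - ∑ i, (r * c y i) • e i := by
          rw [smul_sub, Finset.smul_sum]
          simp only [mul_smul, Submodule.coe_smul]
        rwa [e1] at h1 }
  have hθ : ∀ y i, θ y i = Ideal.Quotient.mk v.asIdeal (c y i) := fun _ _ => rfl
  refine ⟨θ, fun w => ?_, fun y => ?_⟩
  · choose d hd using fun i => Ideal.Quotient.mk_surjective (I := v.asIdeal) (w i)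
    let y : L := ⟨∑ i, d i • e i, Submodule.sum_mem _ fun i _ => Submodule.smul_mem _ _ (he i)⟩
    refine ⟨y, ?_⟩
    funext i
    rw [hθ, ← hd i]
    apply Ideal.Quotient.eq.2
    refine key y d ?_ i
    show ∑ i, d i • e i - ∑ i, d i • e i ∈ _
    rw [sub_self]
    exact Submodule.zero_mem _
  · constructor
    · intro h
      have h1 : ∀ i, c y i ∈ v.asIdeal := fun i =>
        Ideal.Quotient.eq_zero_iff_mem.1 (congrFun h i)
      have h2 : ∑ i, c y i • e i ∈ v.asIdeal • L :=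
        Submodule.sum_mem _ fun i _ => Submodule.smul_mem_smul (h1 i) (he i)
      have h3 := Submodule.add_mem _ (hc y) h2
      rwa [sub_add_cancel] at h3
    · intro h
      funext i
      rw [hθ, Pi.zero_apply]
      apply Ideal.Quotient.eq_zero_iff_mem.2
      refine hind (c y) ?_ i
      have h3 := Submodule.sub_mem _ h (hc y)
      rwa [sub_sub_cancel] at h3

variable {L : Submodule (𝓞 F) (Fin n → F)} {v : HeightOneSpectrum (𝓞 F)}

/-- the sublattice attached to a subspace -/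
def tl (θ : L →ₗ[𝓞 F] (Fin n → 𝓞 F ⧸ v.asIdeal))
    (U : Submodule (𝓞 F ⧸ v.asIdeal) (Fin n → 𝓞 F ⧸ v.asIdeal)) :
    Submodule (𝓞 F) (Fin n → F) :=
  ((U.restrictScalars (𝓞 F)).comap θ).map L.subtype

theorem mem_tl {θ : L →ₗ[𝓞 F] (Fin n → 𝓞 F ⧸ v.asIdeal)}
    {U : Submodule (𝓞 F ⧸ v.asIdeal) (Fin n → 𝓞 F ⧸ v.asIdeal)} {y : L} :
    (y : Fin n → F) ∈ tl θ U ↔ θ y ∈ U := by
  unfold tl
  rw [Submodule.mem_map]
  constructor
  · rintro ⟨y', h1, h2⟩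
    have : y' = y := Subtype.ext h2
    rw [this] at h1
    exact h1
  · intro h
    exact ⟨y, h, rfl⟩

theorem tl_le (θ : L →ₗ[𝓞 F] (Fin n → 𝓞 F ⧸ v.asIdeal))
    (U : Submodule (𝓞 F ⧸ v.asIdeal) (Fin n → 𝓞 F ⧸ v.asIdeal)) : tl θ U ≤ L := by
  unfold tl
  rintro _ ⟨y, -, rfl⟩
  exact y.2

/-- the subspace attached to a sublattice -/
def lt (θ : L →ₗ[𝓞 F] (Fin n → 𝓞 F ⧸ v.asIdeal)) (L' : Submodule (𝓞 F) (Fin n → F)) :
    Submodule (𝓞 F ⧸ v.asIdeal) (Fin n → 𝓞 F ⧸ v.asIdeal) where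
  carrier := {w | ∃ y : L, θ y = w ∧ (y : Fin n → F) ∈ L'}
  add_mem' := by
    rintro _ _ ⟨y, rfl, hy⟩ ⟨y', rfl, hy'⟩
    exact ⟨y + y', map_add _ _ _, L'.add_mem hy hy'⟩
  zero_mem' := ⟨0, map_zero _, L'.zero_mem⟩
  smul_mem' := by
    rintro r _ ⟨y, rfl, hy⟩
    obtain ⟨s, rfl⟩ := Ideal.Quotient.mk_surjective r
    exact ⟨s • y, map_smul _ _ _, L'.smul_mem s hy⟩

theorem mem_lt {θ : L →ₗ[𝓞 F] (Fin n → 𝓞 F ⧸ v.asIdeal)}
    (hθ : ∀ y : L, θ y = 0 ↔ (y : Fin n → F) ∈ v.asIdeal • L) {L' : Submodule (𝓞 F) (Fin n → F)}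
    (h : v.asIdeal • L ≤ L') {y : L} : θ y ∈ lt θ L' ↔ (y : Fin n → F) ∈ L' := by
  constructor
  · rintro ⟨y', h1, h2⟩
    have h3 : θ (y - y') = 0 := by rw [map_sub, h1, sub_self]
    have h4 := L'.add_mem (h ((hθ _).1 h3)) h2
    rwa [Submodule.coe_sub, sub_add_cancel] at h4
  · intro h
    exact ⟨y, rfl, h⟩

theorem tl_lt {θ : L →ₗ[𝓞 F] (Fin n → 𝓞 F ⧸ v.asIdeal)}
    (hθ : ∀ y : L, θ y = 0 ↔ (y : Fin n → F) ∈ v.asIdeal • L) {L' : Submodule (𝓞 F) (Fin n → F)}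
    (h : v.asIdeal • L ≤ L') (h' : L' ≤ L) : tl θ (lt θ L') = L' := by
  apply le_antisymm
  · intro y hy
    have hyL := tl_le θ _ hy
    exact (mem_lt hθ h (y := ⟨y, hyL⟩)).1 (mem_tl.1 hy)
  · intro y hy
    exact (mem_tl (y := ⟨y, h' hy⟩)).2 ((mem_lt hθ h).2 hy)

theorem lt_tl {θ : L →ₗ[𝓞 F] (Fin n → 𝓞 F ⧸ v.asIdeal)} (hs : Function.Surjective θ)
    (U : Submodule (𝓞 F ⧸ v.asIdeal) (Fin n → 𝓞 F ⧸ v.asIdeal)) : lt θ (tl θ U) = U := by
  apply le_antisymm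
  · rintro _ ⟨y, rfl, hy⟩
    exact mem_tl.1 hy
  · intro w hw
    obtain ⟨y, rfl⟩ := hs w
    exact ⟨y, rfl, mem_tl.2 hw⟩

theorem smul_le_tl {θ : L →ₗ[𝓞 F] (Fin n → 𝓞 F ⧸ v.asIdeal)}
    (hθ : ∀ y : L, θ y = 0 ↔ (y : Fin n → F) ∈ v.asIdeal • L)
    (U : Submodule (𝓞 F ⧸ v.asIdeal) (Fin n → 𝓞 F ⧸ v.asIdeal)) :
    v.asIdeal • L ≤ tl θ U := by
  intro y hy
  have hyL : y ∈ L := smul_le_self _ _ hy
  refine (mem_tl (y := ⟨y, hyL⟩)).2 ?_
  rw [(hθ ⟨y, hyL⟩).2 hy]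
  exact U.zero_mem

theorem two_le (v : HeightOneSpectrum (𝓞 F)) : 2 ≤ Ideal.absNorm v.asIdeal := by
  have h0 : Ideal.absNorm v.asIdeal ≠ 0 := Ideal.absNorm_eq_zero_iff.not.2 v.ne_bot
  have h1 : Ideal.absNorm v.asIdeal ≠ 1 := Ideal.absNorm_eq_one_iff.not.2 v.isPrime.ne_top
  omega

theorem index_tl {θ : L →ₗ[𝓞 F] (Fin n → 𝓞 F ⧸ v.asIdeal)} (hs : Function.Surjective θ)
    (U : Submodule (𝓞 F ⧸ v.asIdeal) (Fin n → 𝓞 F ⧸ v.asIdeal)) :
    ∃ d, Module.finrank (𝓞 F ⧸ v.asIdeal) U + d = n ∧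
      (tl θ U).toAddSubgroup.relIndex L.toAddSubgroup = Ideal.absNorm v.asIdeal ^ d := by
  have hmax : v.asIdeal.IsMaximal := v.isMaximal
  let fld : Field (𝓞 F ⧸ v.asIdeal) := Ideal.Quotient.field v.asIdeal
  have hfin : Finite (𝓞 F ⧸ v.asIdeal) := Ideal.finiteQuotientOfFreeOfNeBot v.asIdeal v.ne_bot
  refine ⟨Module.finrank (𝓞 F ⧸ v.asIdeal) ((Fin n → 𝓞 F ⧸ v.asIdeal) ⧸ U), ?_, ?_⟩
  · have h1 := Submodule.finrank_quotient_add_finrank (R := 𝓞 F ⧸ v.asIdeal) U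
    rw [Module.finrank_fin_fun] at h1
    omega
  · have h1 : (tl θ U).toAddSubgroup.addSubgroupOf L.toAddSubgroup =
        U.toAddSubgroup.comap θ.toAddMonoidHom := by
      ext y
      rw [AddSubgroup.mem_addSubgroupOf, AddSubgroup.mem_comap]
      exact mem_tl
    rw [AddSubgroup.relIndex, h1]
    have h2 := AddSubgroup.index_comap_of_surjective (f := θ.toAddMonoidHom) U.toAddSubgroup hs
    rw [h2]
    have h3 : U.toAddSubgroup.index = Nat.card ((Fin n → 𝓞 F ⧸ v.asIdeal) ⧸ U) := rfl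
    rw [h3, Module.natCard_eq_pow_finrank (K := 𝓞 F ⧸ v.asIdeal)]
    congr 1

theorem mem_sub_tl {θ : L →ₗ[𝓞 F] (Fin n → 𝓞 F ⧸ v.asIdeal)} (hs : Function.Surjective θ)
    (hθ : ∀ y : L, θ y = 0 ↔ (y : Fin n → F) ∈ v.asIdeal • L) {j : ℕ}
    {U : Submodule (𝓞 F ⧸ v.asIdeal) (Fin n → 𝓞 F ⧸ v.asIdeal)} :
    tl θ U ∈ Sub v j L ↔ Module.finrank (𝓞 F ⧸ v.asIdeal) U + j = n := by
  obtain ⟨d, h1, h2⟩ := index_tl hs U
  have h3 := two_le v
  constructor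
  · rintro ⟨-, -, h4⟩
    rw [h2] at h4
    have := Nat.pow_right_injective h3 h4
    omega
  · intro h4
    refine ⟨smul_le_tl hθ U, tl_le θ U, ?_⟩
    rw [h2, show d = j by omega]

theorem t_GRS (hLVL : S_LVL) (hIND : S_IND) : S_GRS := by
  intro F _ _ n L hL v j
  obtain ⟨θ, hs, hθ⟩ := exists_theta hLVL hIND hL v
  have hfin : Finite (𝓞 F ⧸ v.asIdeal) := Ideal.finiteQuotientOfFreeOfNeBot v.asIdeal v.ne_bot
  have hfinU : Finite (Submodule (𝓞 F ⧸ v.asIdeal) (Fin n → 𝓞 F ⧸ v.asIdeal)) :=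
    Finite.of_injective (fun U => (U : Set (Fin n → 𝓞 F ⧸ v.asIdeal))) SetLike.coe_injective
  let e : {U : Submodule (𝓞 F ⧸ v.asIdeal) (Fin n → 𝓞 F ⧸ v.asIdeal) //
      Module.finrank (𝓞 F ⧸ v.asIdeal) U + j = n} ≃ Sub v j L :=
    { toFun := fun U => ⟨tl θ U.1, (mem_sub_tl hs hθ).2 U.2⟩
      invFun := fun L' => ⟨lt θ L'.1, by
        have h1 := L'.2
        rw [← tl_lt hθ h1.1 h1.2.1] at h1
        exact (mem_sub_tl hs hθ).1 h1⟩
      left_inv := fun U => Subtype.ext (lt_tl hs U.1)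
      right_inv := fun L' => Subtype.ext (tl_lt hθ L'.2.1 L'.2.2.1) }
  refine ⟨?_, (Nat.card_congr e).symm⟩
  exact Set.finite_coe_iff.1 (Finite.of_equiv _ e)

end Pool.Agent.T2h61.CG.TLAT
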