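import Pool.Agent.T2h61.CG.T_LVL

/-!
# C7: level structures lift
-/

set_option autoImplicit false

open NumberField IsDedekindDomain Matrix

noncomputable section

namespace Pool.Agent.T2h61.CG.TLIF

/-- C7 -/
theorem t_LIF : S_LIF := by
  intro F _ _ n 𝔪 𝔪₁ _ h1 x hx
  obtain ⟨e', h2, h3, h4⟩ := TLVL.lift_level hx.1 h1 hx.2.1 hx.2.2
  refine ⟨⟨x.s, x.L, e'⟩, ⟨hx.1, h2, h4⟩, rfl, rfl, fun i => ?_⟩
  rw [← neg_sub]
  exact Submodule.neg_mem _ (h3 i)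

end Pool.Agent.T2h61.CG.TLIF
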