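import Pool.Agent.T2h61.CG.T_IND

/-!
# C1, C7: level structures exist and lift
-/

set_option autoImplicit false

open NumberField IsDedekindDomain Matrix

noncomputable section

namespace Pool.Agent.T2h61.CG.TLVL

section gen

variable {R V : Type*} [CommRing R] [AddCommGroup V] [Module R V] {L P : Submodule R V}
  {I J : Ideal R}

theorem comb (h1 : L ≤ P ⊔ I • L) (h2 : L ≤ P ⊔ J • L) : L ≤ P ⊔ (I * J) • L := by
  refine h1.trans (sup_le le_sup_left ?_)
  refine (Submodule.smul_mono (le_refl I) h2).trans ?_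
  rw [Submodule.smul_sup, Submodule.mul_smul]
  exact sup_le_sup_right Submodule.smul_le_right _

theorem comb_pow (h1 : L ≤ P ⊔ I • L) (k : ℕ) : L ≤ P ⊔ I ^ k • L := by
  induction k with
  | zero => rw [pow_zero, Ideal.one_eq_top, Submodule.top_smul]; exact le_sup_right
  | succ k ih => rw [pow_succ]; exact comb ih h1

theorem mono_ideal (h : I ≤ J) (h1 : L ≤ P ⊔ I • L) : L ≤ P ⊔ J • L :=
  h1.trans (sup_le_sup_left (Submodule.smul_mono_left h) _)

theorem congr_span {k : ℕ} {e e' : Fin k → V} (h : ∀ i, e' i - e i ∈ I • L)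
    (h1 : L ≤ Submodule.span R (Set.range e) ⊔ I • L) :
    L ≤ Submodule.span R (Set.range e') ⊔ I • L := by
  refine h1.trans (sup_le (Submodule.span_le.2 ?_) le_sup_right)
  rintro _ ⟨i, rfl⟩
  have e1 : e i = e' i + -(e' i - e i) := by abel
  rw [SetLike.mem_coe, e1]
  exact Submodule.add_mem_sup (Submodule.subset_span ⟨i, rfl⟩) (Submodule.neg_mem _ (h i))

/-- combination of level structures modulo coprime ideals -/
theorem crt {k : ℕ} {e f : Fin k → V} (he : ∀ i, e i ∈ L) (hf : ∀ i, f i ∈ L)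
    (hIJ : I ⊔ J = ⊤) : ∃ e' : Fin k → V, (∀ i, e' i ∈ L) ∧ (∀ i, e' i - e i ∈ I • L) ∧
      ∀ i, e' i - f i ∈ J • L := by
  obtain ⟨a, ha, b, hb, hab⟩ := Submodule.mem_sup.1 ((Ideal.eq_top_iff_one _).1 hIJ)
  refine ⟨fun i => b • e i + a • f i, fun i => L.add_mem (L.smul_mem _ (he i))
    (L.smul_mem _ (hf i)), fun i => ?_, fun i => ?_⟩
  · have e1 : b • e i + a • f i - e i = a • (f i - e i) := by
      have : b = 1 - a := by rw [← hab]; ring
      rw [this]; module
    rw [e1]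
    exact Submodule.smul_mem_smul ha (L.sub_mem (hf i) (he i))
  · have e1 : b • e i + a • f i - f i = b • (e i - f i) := by
      have : a = 1 - b := by rw [← hab]; ring
      rw [this]; module
    rw [e1]
    exact Submodule.smul_mem_smul hb (L.sub_mem (he i) (hf i))

end gen

variable {F : Type} [Field F] [NumberField F] {n : ℕ}

/-- one generator too many -/
theorem drop {L : Submodule (𝓞 F) (Fin n → F)} (v : HeightOneSpectrum (𝓞 F)) {k : ℕ}
    {e : Fin (k + 1) → Fin n → F} (he : ∀ i, e i ∈ L)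
    (h : L ≤ Submodule.span (𝓞 F) (Set.range e) ⊔ v.asIdeal • L) (hk : n ≤ k) :
    ∃ e' : Fin k → Fin n → F, (∀ i, e' i ∈ L) ∧
      L ≤ Submodule.span (𝓞 F) (Set.range e') ⊔ v.asIdeal • L := by
  have h1 : ¬ LinearIndependent F e := by
    intro hli
    have := hli.fintype_card_le_finrank
    simp only [Fintype.card_fin, Module.finrank_fin_fun] at this
    omega
  obtain ⟨g, hg, j, hj⟩ := Fintype.not_linearIndependent_iff.1 h1
  obtain ⟨a, ha, i₀, -, hi₀⟩ := Ideal.exist_integer_multiples_notMem (K := F)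
    v.isPrime.ne_top Finset.univ g (Finset.mem_univ j) hj
  choose c hc using fun i => ha i (Finset.mem_univ i)
  have hc0 : c i₀ ∉ v.asIdeal := by
    intro h
    apply hi₀
    rw [← hc i₀]
    exact (FractionalIdeal.mem_coeIdeal _).2 ⟨_, h, rfl⟩
  have hsum : ∑ i, c i • e i = 0 := by
    have e1 : ∑ i, c i • e i = a • ∑ i, g i • e i := by
      rw [Finset.smul_sum]
      refine Finset.sum_congr rfl fun i _ => ?_
      rw [TIND.smul_int, smul_smul, ← hc i]
    rw [e1, hg, smul_zero]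
  obtain ⟨b, t, ht, hbt⟩ := v.isMaximal.exists_inv hc0
  refine ⟨fun i => e (i₀.succAbove i), fun i => he _, h.trans (sup_le (Submodule.span_le.2 ?_)
    le_sup_right)⟩
  rintro _ ⟨i, rfl⟩
  rw [SetLike.mem_coe]
  by_cases hi : i = i₀
  · subst hi
    rw [Fin.sum_univ_succAbove _ i] at hsum
    have e2 : e i = (∑ l, (-(b * c (i.succAbove l))) • e (i.succAbove l)) + t • e i := by
      have e3 : c i • e i = -∑ l, c (i.succAbove l) • e (i.succAbove l) :=
        eq_neg_of_add_eq_zero_left hsum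
      have e4 : e i = b • c i • e i + t • e i := by
        rw [smul_smul, ← add_smul, hbt, one_smul]
      nth_rw 1 [e4]
      rw [e3, smul_neg, Finset.smul_sum, ← Finset.sum_neg_distrib]
      congr 1
      refine Finset.sum_congr rfl fun l _ => ?_
      rw [smul_smul, neg_smul]
    rw [e2]
    refine Submodule.add_mem_sup (Submodule.sum_mem _ fun l _ => Submodule.smul_mem _ _
      (Submodule.subset_span ⟨l, rfl⟩)) (Submodule.smul_mem_smul ht (he i))
  · obtain ⟨l, hl⟩ := Fin.exists_succAbove_eq hi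
    exact Submodule.mem_sup_left (Submodule.subset_span ⟨l, by dsimp only; rw [hl]⟩)

theorem prime_level {L : Submodule (𝓞 F) (Fin n → F)} (hL : IsLat L)
    (v : HeightOneSpectrum (𝓞 F)) : ∃ e : Fin n → Fin n → F, (∀ i, e i ∈ L) ∧
      L ≤ Submodule.span (𝓞 F) (Set.range e) ⊔ v.asIdeal • L := by
  classical
  have hex : ∃ k : ℕ, ∃ e : Fin k → Fin n → F, (∀ i, e i ∈ L) ∧
      L ≤ Submodule.span (𝓞 F) (Set.range e) ⊔ v.asIdeal • L := by
    obtain ⟨k, e, he⟩ := Submodule.fg_iff_exists_fin_generating_family.1 hL.1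
    refine ⟨k, e, fun i => ?_, ?_⟩
    · rw [← he]; exact Submodule.subset_span ⟨i, rfl⟩
    · rw [he]; exact le_sup_left
  have hk : Nat.find hex ≤ n := by
    by_contra hlt
    push Not at hlt
    obtain ⟨k, hk⟩ : ∃ k, Nat.find hex = k + 1 := ⟨Nat.find hex - 1, by omega⟩
    have h1 := Nat.find_spec hex
    rw [hk] at h1
    obtain ⟨e, he, he'⟩ := h1
    exact Nat.find_min hex (m := k) (by omega) (drop v he he' (by omega))
  obtain ⟨k, hk, e, he, he'⟩ : ∃ k ≤ n, ∃ e : Fin k → Fin n → F, (∀ i, e i ∈ L) ∧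
      L ≤ Submodule.span (𝓞 F) (Set.range e) ⊔ v.asIdeal • L := ⟨_, hk, Nat.find_spec hex⟩
  refine ⟨fun i => if h : i.1 < k then e ⟨i.1, h⟩ else 0, fun i => ?_,
    he'.trans (sup_le_sup_right (Submodule.span_mono ?_) _)⟩
  · beta_reduce
    split_ifs with h
    · exact he _
    · exact L.zero_mem
  · rintro _ ⟨i, rfl⟩
    refine ⟨⟨i.1, lt_of_lt_of_le i.2 hk⟩, ?_⟩
    beta_reduce
    rw [dif_pos i.2]

/-- level structures modulo a finite product of primes -/
theorem prod_level {L : Submodule (𝓞 F) (Fin n → F)} (hL : IsLat L)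
    (T : Finset (HeightOneSpectrum (𝓞 F))) : ∃ e : Fin n → Fin n → F, (∀ i, e i ∈ L) ∧
      L ≤ Submodule.span (𝓞 F) (Set.range e) ⊔ (∏ v ∈ T, v.asIdeal) • L := by
  classical
  induction T using Finset.induction_on with
  | empty =>
    refine ⟨0, fun i => L.zero_mem, ?_⟩
    rw [Finset.prod_empty, Ideal.one_eq_top, Submodule.top_smul]; exact le_sup_right
  | insert v T hv ih =>
    obtain ⟨e, he, he'⟩ := ih
    obtain ⟨f, hf, hf'⟩ := prime_level hL v
    have hcop : (∏ w ∈ T, w.asIdeal) ⊔ v.asIdeal = ⊤ := by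
      refine IsCoprime.sup_eq (IsCoprime.prod_left fun w hw => ?_)
      refine Ideal.isCoprime_iff_sup_eq.2 (w.isMaximal.coprime_of_ne v.isMaximal fun h => hv ?_)
      rwa [← HeightOneSpectrum.ext h]
    obtain ⟨e', h1, h2, h3⟩ := crt he hf hcop
    refine ⟨e', h1, ?_⟩
    rw [Finset.prod_insert hv, mul_comm]
    exact comb (congr_span h2 he') (congr_span h3 hf')

/-- the general lifting lemma -/
theorem lift_level {L : Submodule (𝓞 F) (Fin n → F)} (hL : IsLat L) {𝔪 𝔪₁ : Ideal (𝓞 F)}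
    (h1 : 𝔪₁ ≠ ⊥) {e : Fin n → Fin n → F} (he : ∀ i, e i ∈ L)
    (he' : L ≤ Submodule.span (𝓞 F) (Set.range e) ⊔ 𝔪 • L) :
    ∃ e' : Fin n → Fin n → F, (∀ i, e' i ∈ L) ∧ (∀ i, e' i - e i ∈ 𝔪 • L) ∧
      L ≤ Submodule.span (𝓞 F) (Set.range e') ⊔ 𝔪₁ • L := by
  classical
  have hfin := Ideal.finite_factors h1
  set T : Finset (HeightOneSpectrum (𝓞 F)) := hfin.toFinset.filter fun v => ¬ 𝔪 ≤ v.asIdeal with hT
  obtain ⟨f, hf, hf'⟩ := prod_level hL T
  have hcop : 𝔪 ⊔ (∏ w ∈ T, w.asIdeal) = ⊤ := by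
    refine IsCoprime.sup_eq (IsCoprime.prod_right fun w hw => ?_)
    rw [hT, Finset.mem_filter] at hw
    refine Ideal.isCoprime_iff_sup_eq.2 ?_
    by_contra hne
    have h2 : w.asIdeal = 𝔪 ⊔ w.asIdeal := w.isMaximal.eq_of_le hne le_sup_right
    exact hw.2 (le_of_le_of_eq le_sup_left h2.symm)
  obtain ⟨e', h2, h3, h4⟩ := crt he hf hcop
  refine ⟨e', h2, h3, ?_⟩
  have h5 := comb (congr_span h3 he') (congr_span h4 hf')
  have h6 : 𝔪 * ∏ v ∈ T, v.asIdeal ≤ 𝔪₁.radical := by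
    rw [Ideal.radical_eq_sInf]
    refine le_sInf ?_
    rintro P ⟨hP, hPp⟩
    have hPb : P ≠ ⊥ := fun h => h1 (le_bot_iff.1 (hP.trans h.le))
    by_cases hmP : 𝔪 ≤ P
    · exact Ideal.mul_le_left.trans hmP
    · have hmem : (⟨P, hPp, hPb⟩ : HeightOneSpectrum (𝓞 F)) ∈ T := by
        rw [hT, Finset.mem_filter, Set.Finite.mem_toFinset]
        exact ⟨Ideal.dvd_iff_le.2 hP, hmP⟩
      have h8 := Finset.dvd_prod_of_mem (fun v : HeightOneSpectrum (𝓞 F) => v.asIdeal) hmem
      have h7 : ∏ v ∈ T, v.asIdeal ≤ P := Ideal.dvd_iff_le.1 h8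
      exact Ideal.mul_le_right.trans h7
  obtain ⟨k, hk⟩ := Ideal.exists_radical_pow_le_of_fg 𝔪₁
    (IsNoetherian.noetherian (𝔪₁.radical))
  exact mono_ideal ((Ideal.pow_right_mono h6 k).trans hk) (comb_pow h5 k)

/-- C1 -/
theorem t_LVL : S_LVL := by
  intro F _ _ n L hL 𝔪 hm
  obtain ⟨e, h1, -, h2⟩ := lift_level (𝔪 := ⊤) hL hm (e := 0) (fun _ => L.zero_mem)
    (by rw [Submodule.top_smul]; exact le_sup_right)
  exact ⟨e, h1, h2⟩

end Pool.Agent.T2h61.CG.TLVL
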