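import Pool.Agent.T2h61.CG.Mx91

/-!
# Calegari–Geraghty for `GL_n` over number fields: B3
-/

set_option autoImplicit false
set_option linter.unusedSectionVars false

open NumberField IsDedekindDomain Matrix

noncomputable section

namespace Pool.Agent.T2h61.CG.TMEN

open Pool.Agent.T2h61.CG Pool.Agent.T2h61.CG.Mx

variable {F : Type} [Field F] [NumberField F] {W : Type} [AddCommGroup W] {N : ℕ}
  {c : GL (Fin 2) F → W}

/-- elements with the same first row -/
theorem row (h : AdN N c)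
    (h0 : ∀ (i j : Fin 2) (hij : i ≠ j) (y : 𝓞 F), c (tv i j hij ((N : F) * y)) = 0)
    {γ δ : GL (Fin 2) F} (hγ : Cg N γ) (hδ : Cg N δ) (d1 : γ.1.det = 1) (d2 : δ.1.det = 1)
    (e0 : γ.1 0 0 = δ.1 0 0) (e1 : γ.1 0 1 = δ.1 0 1) : c δ = c γ := by
  have hγ' := hγ
  have hδ' := hδ
  obtain ⟨⟨A, a1, a2⟩, -⟩ := hγ'
  obtain ⟨⟨B, b1, b2⟩, -⟩ := hδ'
  obtain ⟨p, hp⟩ := a2 1 0
  obtain ⟨q, hq⟩ := b2 1 0
  rw [Matrix.one_apply_ne (by decide), sub_zero] at hp hq
  have ea : ∀ i j, γ.1 i j = ((A.1 i j : 𝓞 F) : F) := fun i j => by rw [a1]; rfl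
  have eb : ∀ i j, δ.1 i j = ((B.1 i j : 𝓞 F) : F) := fun i j => by rw [b1]; rfl
  have key : δ = tv 1 0 (by decide) ((N : F) * ((q * A.1 1 1 - B.1 1 1 * p : 𝓞 F) : F)) * γ := by
    have e2 : ((q * A.1 1 1 - B.1 1 1 * p : 𝓞 F) : F) =
        (q : F) * ((A.1 1 1 : 𝓞 F) : F) - ((B.1 1 1 : 𝓞 F) : F) * (p : F) := by
      have := map_sub (algebraMap (𝓞 F) F) (q * A.1 1 1) (B.1 1 1 * p)
      rw [map_mul, map_mul] at this
      exact this
    have e3 : γ.1 1 0 = (N : F) * (p : F) := by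
      rw [ea, hp]
      have := map_mul (algebraMap (𝓞 F) F) (N : 𝓞 F) p
      rw [map_natCast] at this
      exact this
    have e4 : δ.1 1 0 = (N : F) * (q : F) := by
      rw [eb, hq]
      have := map_mul (algebraMap (𝓞 F) F) (N : 𝓞 F) q
      rw [map_natCast] at this
      exact this
    have e5 : (N : F) * ((q * A.1 1 1 - B.1 1 1 * p : 𝓞 F) : F) =
        δ.1 1 0 * γ.1 1 1 - δ.1 1 1 * γ.1 1 0 := by
      rw [e2, ← ea, ← eb, e3, e4]; ring
    rw [e5]
    rw [Matrix.det_fin_two] at d1 d2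
    apply gl_ext
    rw [Units.val_mul, tv_val]
    ext i j
    fin_cases i <;> fin_cases j
    · simp [Matrix.mul_apply, Fin.sum_univ_two, Matrix.transvection, e0]
    · simp [Matrix.mul_apply, Fin.sum_univ_two, Matrix.transvection, e1]
    · simp only [Matrix.mul_apply, Fin.sum_univ_two, Matrix.transvection, Matrix.single_apply,
        Matrix.add_apply, Fin.mk_one, Fin.zero_eta, Matrix.one_apply]
      simp only [Fin.isValue, one_ne_zero, ↓reduceIte, and_self, zero_add, and_false, add_zero,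
        one_mul, zero_ne_one]
      rw [← e0, ← e1] at d2
      linear_combination (δ.1 1 0) * d1 * (-1) + (γ.1 1 0) * d2
    · simp only [Matrix.mul_apply, Fin.sum_univ_two, Matrix.transvection, Matrix.single_apply,
        Matrix.add_apply, Fin.mk_one, Matrix.one_apply]
      simp only [Fin.isValue, one_ne_zero, ↓reduceIte, and_self, zero_add, and_false, add_zero,
        one_mul, zero_ne_one]
      rw [← e0, ← e1] at d2
      linear_combination (δ.1 1 1) * d1 * (-1) + (γ.1 1 1) * d2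
  rw [key, h _ _ (cg_tv _ _ rfl) hγ, h0, zero_add]

theorem t_MEN : S_MEN := by
  intro F _ _ W _ c N hN hc h0 A hA hg u s hdiv
  have hc : AdN N c := hc
  set g := Matrix.GeneralLinearGroup.map (algebraMap (𝓞 F) F) A with hgdef
  obtain ⟨w, hw⟩ := hdiv
  have hgd : g.1.det = 1 := by
    have := (RingHom.map_det (algebraMap (𝓞 F) F) A.1).symm
    rw [hA, map_one] at this
    exact this
  -- `b` is divisible by `N`
  have hb : (N : 𝓞 F) ∣ A.1 0 1 := by
    obtain ⟨⟨A', a1, a2⟩, -⟩ := hg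
    have h1 := a2 0 1
    rw [Matrix.one_apply_ne (by decide), sub_zero] at h1
    have h2 : A' = A := by
      apply Units.ext
      apply Matrix.map_injective (RingOfIntegers.coe_injective (K := F))
      have := congrArg Units.val a1
      exact this.symm
    rwa [h2] at h1
  obtain ⟨b', hb'⟩ := hb
  set T := tv (F := F) (1 : Fin 2) 0 (by decide) ((N : F) * (s : F)) with hT
  have hTc : Cg N T := cg_tv _ s rfl
  have hg' : Cg N (g * T) := cg_mul hg hTc
  have hcg' : c (g * T) = c g := by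
    rw [hc _ _ hg hTc, hT, h0, add_zero]
  set T1 := tv (F := F) (0 : Fin 2) 1 (by decide) ((N : F) * ((w * b' : 𝓞 F) : F)) with hT1
  have hT1c : Cg N T1 := cg_tv _ (w * b') rfl
  have h1 : c (g * T * T1) = c g := by
    rw [hc _ _ hg' hT1c, hT1, h0, add_zero, hcg']
  have hD : Cg N (Dv u * (g * T) * (Dv u)⁻¹) := cg_conj_Dv hg' u
  have hga : ∀ i j, g.1 i j = ((A.1 i j : 𝓞 F) : F) := fun i j => rfl
  have hTd : T.1.det = 1 := tv_det _ _ _ _
  have hT1d : T1.1.det = 1 := tv_det _ _ _ _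
  have hgT : (g * T).1.det = 1 := by
    rw [Units.val_mul, Matrix.det_mul, hgd, hTd, one_mul]
  have hgT0 : (g * T).1 0 0 = g.1 0 0 + g.1 0 1 * ((N : F) * (s : F)) := by
    rw [Units.val_mul, hT, tv_val, Matrix.mul_apply, Fin.sum_univ_two]
    simp [Matrix.transvection]
  have hgT1 : (g * T).1 0 1 = g.1 0 1 := by
    rw [Units.val_mul, hT, tv_val, Matrix.mul_apply, Fin.sum_univ_two]
    simp [Matrix.transvection]
  have hgTT0 : (g * T * T1).1 0 0 = (g * T).1 0 0 := by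
    rw [Units.val_mul, hT1, tv_val, Matrix.mul_apply, Fin.sum_univ_two]
    simp [Matrix.transvection]
  have hgTT1 : (g * T * T1).1 0 1 = (g * T).1 0 1 +
      (g * T).1 0 0 * ((N : F) * ((w * b' : 𝓞 F) : F)) := by
    rw [Units.val_mul, hT1, tv_val, Matrix.mul_apply, Fin.sum_univ_two]
    simp [Matrix.transvection, add_comm]
  have h2 : c (Dv u * (g * T) * (Dv u)⁻¹) = c (g * T * T1) := by
    refine row hc h0 (cg_mul hg' hT1c) hD ?_ ?_ ?_ ?_
    · rw [Units.val_mul, Matrix.det_mul, hgT, hT1d, one_mul]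
    · rw [gl_det_conj, hgT]
    · rw [hgTT0, Dv_conj_val]; rfl
    · rw [hgTT1, Dv_conj_val]
      show _ = ((u : 𝓞 F) : F) * (g * T).1 0 1
      have hw' := congrArg (algebraMap (𝓞 F) F) hw
      rw [map_sub, map_one, map_mul, map_add, map_mul, map_mul, map_natCast] at hw'
      change ((u : 𝓞 F) : F) - 1 = (((A.1 0 0 : 𝓞 F) : F) + ((A.1 0 1 : 𝓞 F) : F) * (N : F) *
        (s : F)) * (w : F) at hw'
      have hb2 := congrArg (algebraMap (𝓞 F) F) hb'
      rw [map_mul, map_natCast] at hb2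
      change ((A.1 0 1 : 𝓞 F) : F) = (N : F) * (b' : F) at hb2
      have h3 : ((w * b' : 𝓞 F) : F) = (w : F) * (b' : F) := map_mul (algebraMap (𝓞 F) F) _ _
      have h4 : (g * T).1 0 0 * (w : F) = ((u : 𝓞 F) : F) - 1 := by
        rw [hw', hgT0, hga, hga]; ring
      rw [h3, hgT1, hga, hb2]
      linear_combination (N : F) * (b' : F) * h4
  have h5 : Dv u * (g * T) * (Dv u)⁻¹ = (Dv u * g * (Dv u)⁻¹) * (Dv u * T * (Dv u)⁻¹) := by group
  have h6 : Dv u * T * (Dv u)⁻¹ = tv (F := F) (1 : Fin 2) 0 (by decide)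
      ((N : F) * ((((u⁻¹ : (𝓞 F)ˣ) : 𝓞 F) * s : 𝓞 F) : F)) := by
    rw [Dv, hT, Du_conj10]
    congr 1
    have h3 : ((((u⁻¹ : (𝓞 F)ˣ) : 𝓞 F) * s : 𝓞 F) : F) = (((u⁻¹ : (𝓞 F)ˣ) : 𝓞 F) : F) * (s : F) :=
      map_mul (algebraMap (𝓞 F) F) _ _
    rw [h3, ← map_inv]
    show (((u⁻¹ : (𝓞 F)ˣ) : 𝓞 F) : F) * _ = _
    ring
  have h7 : c (Dv u * (g * T) * (Dv u)⁻¹) = c (Dv u * g * (Dv u)⁻¹) := by
    rw [h5, hc _ _ (cg_conj_Dv hg u) (cg_conj_Dv hTc u), h6, h0, add_zero]
  rw [← h7, h2, h1]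

end Pool.Agent.T2h61.CG.TMEN
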