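import Pool.Agent.T2h61.CG.Bas2

/-!
# Calegari–Geraghty for `GL_n` over number fields: C10
-/

set_option autoImplicit false
set_option linter.unusedSectionVars false

open NumberField IsDedekindDomain Matrix

noncomputable section

namespace Pool.Agent.T2h61.CG.TORB

open Pool.Agent.T2h61.CG

variable {F : Type} [Field F] [NumberField F] {n : ℕ}

/-- two level structures of a lattice differ by a matrix -/
theorem exists_rt {𝔪 : Ideal (𝓞 F)} {x y : Pt F n} (hx : Ok 𝔪 x) (hy : Ok 𝔪 y) (hs : x.s = y.s)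
    (hL : x.L = y.L) : ∃ A : Matrix (Fin n) (Fin n) (𝓞 F), Eqv 𝔪 y (rt A x) := by
  have key : ∀ j, ∃ c : Fin n → 𝓞 F, y.e j - ∑ i, c i • x.e i ∈ 𝔪 • y.L := by
    intro j
    have h1 : y.e j ∈ x.L := by rw [hL]; exact hy.2.1 j
    obtain ⟨p, hp, q, hq, hpq⟩ := Submodule.mem_sup.1 (hx.2.2 h1)
    obtain ⟨c, hc⟩ := (Submodule.mem_span_range_iff_exists_fun (𝓞 F)).1 hp
    refine ⟨c, ?_⟩
    rw [hc, ← hpq, add_sub_cancel_left, ← hL]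
    exact hq
  choose c hc using key
  exact ⟨fun i j => c j i, hs.symm, hL.symm, fun j => hc j⟩

open Classical in
/-- the representatives -/
def rep (𝔪 : Ideal (𝓞 F)) (Y : Set (Submodule (𝓞 F) (Fin n → F)))
    (p : ({w : InfinitePlace F // w.IsReal} → ℤˣ) × Y × Matrix (Fin n) (Fin n) (𝓞 F ⧸ 𝔪)) :
    Pt F n :=
  if h : ∃ x₀ : Pt F n, Ok 𝔪 x₀ ∧ x₀.s = p.1 ∧ x₀.L = p.2.1.1 then
    rt (fun i j => Quotient.out (p.2.2 i j)) h.choose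
  else ⟨1, ⊥, 0⟩

theorem t_ORB (hcls : S_CLS) : S_ORB := by
  intro F _ _ n 𝔪 h𝔪
  obtain ⟨Y, hY, hYL, hY2⟩ := hcls F n
  have hfin : Finite (𝓞 F ⧸ 𝔪) := Ideal.finiteQuotientOfFreeOfNeBot _ h𝔪
  have hfY : Finite Y := hY
  have hfs : Finite ({w : InfinitePlace F // w.IsReal} → ℤˣ) := inferInstance
  have hfM : Finite (Matrix (Fin n) (Fin n) (𝓞 F ⧸ 𝔪)) := inferInstance
  refine ⟨{y | y ∈ Set.range (rep 𝔪 Y) ∧ Ok 𝔪 y}, (Set.finite_range _).subset fun y hy => hy.1,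
    fun y hy => hy.2, fun x hx => ?_⟩
  obtain ⟨L₀, hL₀, g, hg⟩ := hY2 x.L hx.1
  have hx' : Ok 𝔪 (ga g⁻¹ x) := ok_ga hx
  have hx'L : (ga g⁻¹ x).L = L₀ := by
    show gm g⁻¹ x.L = L₀
    rw [hg, gm_inv_gm]
  have hex : ∃ x₀ : Pt F n, Ok 𝔪 x₀ ∧ x₀.s = (ga g⁻¹ x).s ∧ x₀.L = L₀ := ⟨_, hx', rfl, hx'L⟩
  obtain ⟨h1, h2, h3⟩ := hex.choose_spec
  obtain ⟨A, hA⟩ := exists_rt h1 hx' h2 (h3.trans hx'L.symm)
  set B : Matrix (Fin n) (Fin n) (𝓞 F ⧸ 𝔪) := fun i j => Ideal.Quotient.mk 𝔪 (A i j) with hB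
  have hrep : rep 𝔪 Y ((ga g⁻¹ x).s, ⟨L₀, hL₀⟩, B) =
      rt (fun i j => Quotient.out (B i j)) hex.choose := by
    rw [rep, dif_pos hex]
  have hcong : Eqv 𝔪 (rt A hex.choose) (rt (fun i j => Quotient.out (B i j)) hex.choose) := by
    refine rt_congr (fun i j => ?_) h1
    rw [← Ideal.Quotient.eq]
    exact (Quotient.out_eq (B i j)).symm
  have hE : Eqv 𝔪 (ga g⁻¹ x) (rep 𝔪 Y ((ga g⁻¹ x).s, ⟨L₀, hL₀⟩, B)) := by
    rw [hrep]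
    exact eqv_trans hA hcong
  refine ⟨_, ⟨⟨_, rfl⟩, ok_eqv hx' hE⟩, g, ?_⟩
  have := eqv_ga g hE
  rwa [ga_ga_inv] at this

end Pool.Agent.T2h61.CG.TORB
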