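import Pool.Agent.T2h61.CG.Stm
import Pool.Agent.T3h73.SL.T_DEN0
import Pool.Agent.N603.RC.RC3

/-!
# Every ray class of a number field contains primes of arbitrarily large norm

Copy of `Pool/Agent/T3h73/SL/T_RAYP.lean` without the hypothesis that the field is totally complex.
-/

set_option autoImplicit false
set_option linter.all false

open NumberField IsDedekindDomain Filter Topology

namespace Pool.Agent.T2h61.CG.TRAY

open Pool.Agent.T3h73.SL (Pl)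
open Pool.Agent.T3h73.SL.Den0 (fin_le psum norm_pos)
open Pool.Agent.Y773.IQ (T1 T1_cop pi1 pi1_coe ofM' ofM'_pos ofM'_supp exists_rep cls_card_le cop_one ne_zero_of_cop)
open Pool.Agent.Y767 (Mq Mq_cop Mq_cancel Cls cls cls_eq cls_pi)
open Pool.Agent.Y773.G (IsModChar)
open Pool.Agent.N603.RC (chi chi_pos chi_mod expand coe)

/-- the sum of the logarithms of the norms of the primes of a ray class -/
theorem den (K : Type) [Field K] [NumberField K] (𝔪 : Ideal (𝓞 K)) (hbot : 𝔪 ≠ ⊥) (htop : 𝔪 ≠ ⊤)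
    (𝔟 : Ideal (𝓞 K)) (h𝔟 : IsCoprime 𝔟 𝔪) : ∃ (S : Set (Pl K)) (c X₀ : ℝ), 0 < c ∧
    (∀ q ∈ S, ∃ a b : 𝓞 K, a ≠ 0 ∧ b ≠ 0 ∧ a - 1 ∈ 𝔪 ∧ b - 1 ∈ 𝔪 ∧
        Ideal.span {a} * q.asIdeal = Ideal.span {b} * 𝔟) ∧
    ∀ x : ℝ, X₀ ≤ x → ∃ T : Finset (Pl K), (∀ q ∈ T, q ∈ S) ∧
      c * x < ∑ q ∈ T, Real.log (Ideal.absNorm q.asIdeal) := by
  classical
  have hfin := (cls_card_le hbot htop).1
  have := Mq_cancel htop
  let _ := Fintype.ofFinite (Cls (pi1 htop))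
  obtain ⟨n, e, -⟩ := Pool.Agent.N603.RC.enum (C := Cls (pi1 htop))
  let _ : Fintype (Cls (pi1 htop) →* ℂˣ) := Fintype.ofEquiv _ e
  set c0 : Cls (pi1 htop) := cls (pi1 htop) ⟨𝔟, h𝔟⟩ with hc0
  set Φ : Cls (pi1 htop) → ℂ := fun c => if c = c0 then 1 else 0 with hΦ
  set h : ℕ := Fintype.card (Cls (pi1 htop)) with hh
  have hhpos : (0 : ℝ) < h := by
    rw [hh]
    exact_mod_cast Fintype.card_pos
  set P : Ideal (𝓞 K) → Prop := fun 𝔞 => ∃ h1 : IsCoprime 𝔞 𝔪, cls (pi1 htop) ⟨𝔞, h1⟩ = c0 with hP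
  have hF : ∀ 𝔞, ∑ χ : Cls (pi1 htop) →* ℂˣ, coe Φ χ * chi htop χ 𝔞 = if P 𝔞 then 1 else 0 := by
    intro 𝔞
    by_cases h𝔞 : IsCoprime 𝔞 𝔪
    · have h1 : ∀ χ : Cls (pi1 htop) →* ℂˣ, chi htop χ 𝔞 =
          ((χ (cls (pi1 htop) ⟨𝔞, h𝔞⟩) : ℂˣ) : ℂ) := fun χ => chi_pos htop χ ⟨𝔞, h𝔞⟩
      simp_rw [h1]
      rw [← expand Φ, hΦ]
      have h2 : (cls (pi1 htop) ⟨𝔞, h𝔞⟩ = c0) ↔ P 𝔞 := ⟨fun h => ⟨h𝔞, h⟩, fun h => h.2⟩
      simp only [h2]
    · rw [if_neg fun h => h𝔞 h.1]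
      refine Finset.sum_eq_zero fun χ _ => ?_
      have h3 : chi htop χ 𝔞 = 0 := by
        by_contra h4
        exact h𝔞 ((ofM'_supp htop _ 𝔞).mp h4)
      rw [h3, mul_zero]
  -- each character
  have key : ∀ χ : Cls (pi1 htop) →* ℂˣ, Tendsto (fun x : ℝ =>
      (∑ᶠ q ∈ {q : Pl K | (Ideal.absNorm q.asIdeal : ℝ) ≤ x},
      (Real.log (Ideal.absNorm q.asIdeal) : ℂ) * chi htop χ q.asIdeal) / (x : ℂ)) atTop
      (𝓝 (if χ = 1 then (1 : ℂ) else 0)) := by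
    intro χ
    obtain ⟨δ, -, h0, h1, T⟩ := Pool.Agent.N864.RC.rc1 K 𝔪 _ _ (chi_mod hbot htop χ)
    have hle : ∀ 𝔞, ‖chi htop χ 𝔞‖ ≤ 1 := by
      intro 𝔞
      by_cases h𝔞 : IsCoprime 𝔞 𝔪
      · have h2 : chi htop χ 𝔞 = ((χ (cls (pi1 htop) ⟨𝔞, h𝔞⟩) : ℂˣ) : ℂ) := chi_pos htop χ ⟨𝔞, h𝔞⟩
        rw [h2]
        have h3 : ((χ (cls (pi1 htop) ⟨𝔞, h𝔞⟩) : ℂˣ) : ℂ) ^ h = 1 := by
          rw [← Units.val_pow_eq_pow_val, ← map_pow, hh, pow_card_eq_one, map_one, Units.val_one]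
        have h4 := congrArg norm h3
        rw [norm_pow, norm_one] at h4
        exact ((pow_eq_one_iff_of_nonneg (norm_nonneg _) (by rw [hh]; exact Fintype.card_ne_zero)).1
          h4).le
      · have h3 : chi htop χ 𝔞 = 0 := by
          by_contra h4
          exact h𝔞 ((ofM'_supp htop _ 𝔞).mp h4)
        rw [h3, norm_zero]
        exact zero_le_one
    have T2 := psum _ hle T
    have hδ : (δ : ℂ) = if χ = 1 then (1 : ℂ) else 0 := by
      split_ifs with hχ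
      · have : δ = 1 := h1 fun 𝔞 h𝔞 => by
          have h2 : chi htop χ 𝔞 = ((χ (cls (pi1 htop) ⟨𝔞, h𝔞⟩) : ℂˣ) : ℂ) := chi_pos htop χ ⟨𝔞, h𝔞⟩
          rw [h2, hχ, MonoidHom.one_apply, Units.val_one]
        rw [this, Complex.ofReal_one]
      · have : δ = 0 := by
          obtain ⟨c, hc⟩ : ∃ c, χ c ≠ 1 := by
            by_contra hcon
            push Not at hcon
            exact hχ (MonoidHom.ext hcon)
          obtain ⟨𝔞, h𝔞⟩ := exists_rep htop c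
          refine h0 ⟨(𝔞 : Ideal (𝓞 K)), Mq_cop 𝔞, ?_⟩
          rw [chi_pos htop χ 𝔞, h𝔞]
          intro h
          exact hc (Units.ext h)
        rw [this, Complex.ofReal_zero]
    rw [hδ] at T2
    exact T2
  have T := tendsto_finsetSum (Finset.univ : Finset (Cls (pi1 htop) →* ℂˣ))
    fun χ _ => (key χ).const_mul (coe Φ χ)
  have hlim : ∑ χ : Cls (pi1 htop) →* ℂˣ, coe Φ χ * (if χ = 1 then (1 : ℂ) else 0) =
      (((h : ℝ)⁻¹ : ℝ) : ℂ) := by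
    simp_rw [mul_ite, mul_one, mul_zero]
    rw [Finset.sum_ite_eq' Finset.univ, if_pos (Finset.mem_univ _)]
    unfold coe
    rw [hΦ]
    simp only [MonoidHom.one_apply, Units.val_one, mul_one]
    rw [Finset.sum_ite_eq' Finset.univ, if_pos (Finset.mem_univ _), ← hh]
    push_cast
    rw [one_div]
  rw [hlim] at T
  have e1 : ∀ x : ℝ, ∑ χ : Cls (pi1 htop) →* ℂˣ, coe Φ χ *
      ((∑ᶠ q ∈ {q : Pl K | (Ideal.absNorm q.asIdeal : ℝ) ≤ x},
      (Real.log (Ideal.absNorm q.asIdeal) : ℂ) * chi htop χ q.asIdeal) / (x : ℂ)) =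
      (((∑ q ∈ (fin_le (K := K) x).toFinset.filter fun q => P q.asIdeal,
        Real.log (Ideal.absNorm q.asIdeal)) / x : ℝ) : ℂ) := by
    intro x
    have h1 : ∀ χ : Cls (pi1 htop) →* ℂˣ, coe Φ χ *
      ((∑ᶠ q ∈ {q : Pl K | (Ideal.absNorm q.asIdeal : ℝ) ≤ x},
      (Real.log (Ideal.absNorm q.asIdeal) : ℂ) * chi htop χ q.asIdeal) / (x : ℂ)) =
      (∑ q ∈ (fin_le (K := K) x).toFinset, (Real.log (Ideal.absNorm q.asIdeal) : ℂ) *
        (coe Φ χ * chi htop χ q.asIdeal)) / (x : ℂ) := by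
      intro χ
      rw [finsum_mem_eq_finite_toFinset_sum _ (fin_le x), ← mul_div_assoc, Finset.mul_sum]
      congr 1
      refine Finset.sum_congr rfl fun q _ => ?_
      ring
    simp_rw [h1]
    rw [← Finset.sum_div, Finset.sum_comm, Finset.sum_filter]
    rw [Complex.ofReal_div, Complex.ofReal_sum]
    congr 1
    refine Finset.sum_congr rfl fun q _ => ?_
    rw [← Finset.mul_sum, hF]
    split_ifs
    · rw [mul_one]
    · rw [mul_zero, Complex.ofReal_zero]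
  have T1 := T.congr e1
  have T2 := (Complex.continuous_re.tendsto _).comp T1
  rw [Complex.ofReal_re] at T2
  have E1 : ∀ᶠ x : ℝ in atTop, (h : ℝ)⁻¹ / 2 < (∑ q ∈ (fin_le (K := K) x).toFinset.filter
      fun q => P q.asIdeal, Real.log (Ideal.absNorm q.asIdeal)) / x := by
    refine (T2.eventually (lt_mem_nhds (half_lt_self (inv_pos.2 hhpos)))).mono fun x hx => ?_
    rw [Function.comp_apply, Complex.ofReal_re] at hx
    exact hx
  obtain ⟨X₀, hX₀⟩ := Filter.eventually_atTop.1 (E1.and (eventually_gt_atTop (1 : ℝ)))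
  refine ⟨{q | P q.asIdeal}, (h : ℝ)⁻¹ / 2, X₀, half_pos (inv_pos.2 hhpos), ?_, fun x hx =>
    ⟨(fin_le (K := K) x).toFinset.filter fun q => P q.asIdeal, ?_, ?_⟩⟩
  · rintro q ⟨h2, h3⟩
    obtain ⟨a, b, hab⟩ := cls_eq h3
    have h4 := congrArg Subtype.val hab
    rw [Submonoid.coe_mul, Submonoid.coe_mul, pi1_coe, pi1_coe] at h4
    exact ⟨a, b, ne_zero_of_cop htop (T1_cop a), ne_zero_of_cop htop (T1_cop b), a.2, b.2, h4⟩
  · intro q hq
    exact (Finset.mem_filter.1 hq).2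
  · obtain ⟨e2, e3⟩ := hX₀ x hx
    rwa [lt_div_iff₀ (by linarith)] at e2

theorem t_RAY : S_RAY := by
  classical
  intro K _ _ 𝔪 hbot htop 𝔟 h𝔟 B
  obtain ⟨S, c, X₀, hc, hS, h⟩ := den K 𝔪 hbot htop 𝔟 h𝔟
  by_contra hcon
  have hB : ∀ q ∈ S, Ideal.absNorm q.asIdeal ≤ B := by
    intro q hq
    by_contra hlt
    exact hcon ⟨q, not_le.1 hlt, hS q hq⟩
  set U : Finset (Pl K) := (fin_le (K := K) (B : ℝ)).toFinset with hU
  set D : ℝ := ∑ q ∈ U, Real.log (Ideal.absNorm q.asIdeal) with hD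
  obtain ⟨T, hT, hlt⟩ := h (max X₀ (D / c)) (le_max_left _ _)
  have h1 : ∑ q ∈ T, Real.log (Ideal.absNorm q.asIdeal) ≤ D := by
    refine Finset.sum_le_sum_of_subset_of_nonneg (fun q hq => ?_) fun q _ _ =>
      Real.log_natCast_nonneg _
    rw [hU, Set.Finite.mem_toFinset]
    show (Ideal.absNorm q.asIdeal : ℝ) ≤ B
    exact_mod_cast hB q (hT q hq)
  have h2 : D ≤ c * max X₀ (D / c) := by
    have h3 : D / c ≤ max X₀ (D / c) := le_max_right _ _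
    rw [div_le_iff₀ hc] at h3
    linarith
  linarith

end Pool.Agent.T2h61.CG.TRAY
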