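import Pool.Agent.T2h61.CG.Stm

/-!
# B5: `SL_n(F)` is generated by the elementary matrices
-/

set_option autoImplicit false

open NumberField IsDedekindDomain Matrix Polynomial

noncomputable section

namespace Pool.Agent.T2h61.CG.TSLG

theorem weyl_prod {k R : Type} [Field k] [Ring R] [Algebra k R] {E F P Q : R} (hEE : E * E = 0) (hEF : E * F = P)
    (hFE : F * E = Q) (hPE : P * E = E) (z : k) (hz : z ≠ 0) :
    (1 + z • E) * (1 + (-z⁻¹) • F) * (1 + z • E) = 1 - P - Q + z • E - z⁻¹ • F := by
  have h1 : (1 + z • E) * (1 + (-z⁻¹) • F) = 1 + z • E - z⁻¹ • F - P := by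
    rw [mul_add, mul_one, add_mul, one_mul, smul_mul_smul_comm, hEF, mul_neg, mul_inv_cancel₀ hz]
    module
  rw [h1, mul_add, mul_one, sub_mul, sub_mul, add_mul, one_mul, smul_mul_smul_comm, hEE, smul_mul_smul_comm, hFE,
    inv_mul_cancel₀ hz, mul_smul_comm, hPE]
  module

/-- the diagonal matrices as products of transvections -/
theorem diag_prod {k R : Type} [Field k] [Ring R] [Algebra k R] {E F P Q : R} (hEE : E * E = 0) (hFF : F * F = 0) (hEF : E * F = P)
    (hFE : F * E = Q) (hPE : P * E = E) (hEQ : E * Q = E) (hQF : Q * F = F) (hFP : F * P = F) (z : k) (hz : z ≠ 0) :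
    (1 + z • E) * (1 + (-z⁻¹) • F) * (1 + z • E) * ((1 + (-1 : k) • E) * (1 + (1 : k) • F) * (1 + (-1 : k) • E)) =
      1 - P - Q + z • P + z⁻¹ • Q := by
  have h2 : (1 + (-1 : k) • E) * (1 + (1 : k) • F) * (1 + (-1 : k) • E) = 1 - P - Q - E + F := by
    have h3 := weyl_prod hEE hEF hFE hPE (-1 : k) (neg_ne_zero.2 one_ne_zero)
    have h4 : (-(-1 : k)⁻¹) = 1 := by rw [inv_neg, inv_one, neg_neg]
    rw [h4] at h3
    rw [h3]
    have h5 : ((-1 : k)⁻¹) = -1 := by rw [inv_neg, inv_one]
    rw [h5]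
    module
  have hPP : P * P = P := by rw [← hEF, mul_assoc, ← mul_assoc F, hFE, hQF]
  have hQQ : Q * Q = Q := by rw [← hFE, mul_assoc, ← mul_assoc E, hEF, hPE]
  have hPQ : P * Q = 0 := by rw [← hEF, mul_assoc, ← hFE, ← mul_assoc F, hFF, zero_mul, mul_zero]
  have hQP : Q * P = 0 := by rw [← hFE, mul_assoc, ← hEF, ← mul_assoc E, hEE, zero_mul, mul_zero]
  have hPF : P * F = 0 := by rw [← hEF, mul_assoc, hFF, mul_zero]
  have hQE : Q * E = 0 := by rw [← hFE, mul_assoc, hEE, mul_zero]
  have hEP : E * P = 0 := by rw [← hEF, ← mul_assoc, hEE, zero_mul]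
  have hFQ : F * Q = 0 := by rw [← hFE, ← mul_assoc, hFF, zero_mul]
  rw [weyl_prod hEE hEF hFE hPE z hz, h2]
  simp only [mul_add, add_mul, mul_sub, sub_mul, mul_one, one_mul, smul_mul_assoc, hEE, hFF, hEF, hFE, hPE, hEQ, hQF,
    hFP, hPP, hQQ, hPQ, hQP, hPF, hQE, hEP, hFQ, smul_zero]
  module

variable {F : Type} [Field F] {n : ℕ}

theorem single_eq (a b : Fin n) (t : F) : (1 + t • Matrix.single a b (1 : F) : Matrix (Fin n) (Fin n) F) =
    Matrix.transvection a b t := by
  rw [Matrix.smul_single, smul_eq_mul, mul_one]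
  rfl

theorem diag2n_eq {i j : Fin n} (hij : i ≠ j) (z : F) (hz : z ≠ 0) :
    ((Matrix.SpecialLinearGroup.diag2n hij z hz : Matrix.SpecialLinearGroup (Fin n) F) :
      Matrix (Fin n) (Fin n) F) =
    (Matrix.transvection i j z * Matrix.transvection j i (-z⁻¹) * Matrix.transvection i j z) *
      (Matrix.transvection i j (-1) * Matrix.transvection j i 1 * Matrix.transvection i j (-1)) := by
  have hji : j ≠ i := hij.symm
  have h1 := diag_prod (k := F) (R := Matrix (Fin n) (Fin n) F) (E := Matrix.single i j 1)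
    (F := Matrix.single j i 1) (P := Matrix.single i i 1) (Q := Matrix.single j j 1)
    (Matrix.single_mul_single_of_ne _ _ _ _ hji _) (Matrix.single_mul_single_of_ne _ _ _ _ hij _)
    (by rw [Matrix.single_mul_single_same, mul_one]) (by rw [Matrix.single_mul_single_same, mul_one])
    (by rw [Matrix.single_mul_single_same, mul_one]) (by rw [Matrix.single_mul_single_same, mul_one])
    (by rw [Matrix.single_mul_single_same, mul_one]) (by rw [Matrix.single_mul_single_same, mul_one])
    z hz
  have h2 : ((Matrix.SpecialLinearGroup.diag2n hij z hz : Matrix.SpecialLinearGroup (Fin n) F) :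
      Matrix (Fin n) (Fin n) F) =
      1 - Matrix.single i i 1 - Matrix.single j j 1 + z • Matrix.single i i (1 : F) +
        z⁻¹ • Matrix.single j j (1 : F) := by
    rw [Matrix.SpecialLinearGroup.diag2n_coe]
    ext a b
    simp only [Matrix.add_apply, Matrix.sub_apply, Matrix.smul_apply, Matrix.single_apply,
      Matrix.one_apply, Matrix.diagonal_apply, smul_eq_mul]
    by_cases hab : a = b
    · subst hab
      by_cases hai : a = i
      · subst hai
        simp [hij, hij.symm]
      · by_cases haj : a = j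
        · subst haj
          simp [hij, hij.symm]
        · simp [hai, haj, Ne.symm hai, Ne.symm haj]
    · have h3 : ¬ (i = a ∧ i = b) := fun h => hab (h.1.symm.trans h.2)
      have h4 : ¬ (j = a ∧ j = b) := fun h => hab (h.1.symm.trans h.2)
      simp [hab, h3, h4]
  rw [h2, ← h1]
  simp only [single_eq]

theorem t_SLG : S_SLG := by
  intro F _ _ n g hg
  obtain ⟨H, hH⟩ : ∃ H, H = Subgroup.closure
    {h : GL (Fin n) F | ∃ (i j : Fin n) (hij : i ≠ j) (x : F), h = tv i j hij x} := ⟨_, rfl⟩
  rw [← hH]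
  rcases subsingleton_or_nontrivial (Fin n) with hM | hM
  · have h1 : g = 1 := by
      refine Units.ext ?_
      rw [Units.val_one]
      ext i j
      rw [Subsingleton.elim j i, Matrix.one_apply_eq]
      have h3 := Matrix.det_eq_elem_of_subsingleton (g : Matrix (Fin n) (Fin n) F) i
      rw [hg] at h3
      exact h3.symm
    rw [h1]
    exact H.one_mem
  have htr : ∀ (i j : Fin n) (hij : i ≠ j) (x : F) (h : GL (Fin n) F),
      h.1 = Matrix.transvection i j x → h ∈ H := by
    intro i j hij x h hh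
    rw [hH]
    refine Subgroup.subset_closure ⟨i, j, hij, x, Units.ext hh⟩
  have key := Matrix.SpecialLinearGroup.diagonal_transvection_induction' (ι := Fin n) (F := F)
    (fun A => ∀ h : GL (Fin n) F, h.1 = A.1 → h ∈ H) ⟨g.1, hg⟩ ?_ ?_ ?_
  · exact key g rfl
  · intro i j hij z hz h hh
    rw [diag2n_eq] at hh
    have e : h = (tv i j hij z * tv j i hij.symm (-z⁻¹) * tv i j hij z) *
        (tv i j hij (-1) * tv j i hij.symm 1 * tv i j hij (-1)) := Units.ext hh
    rw [e]
    exact H.mul_mem (H.mul_mem (H.mul_mem (htr _ _ hij _ _ rfl) (htr _ _ hij.symm _ _ rfl))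
      (htr _ _ hij _ _ rfl)) (H.mul_mem (H.mul_mem (htr _ _ hij _ _ rfl)
        (htr _ _ hij.symm _ _ rfl)) (htr _ _ hij _ _ rfl))
  · intro i j hij a h hh
    exact htr i j hij a h hh
  · intro A B hA hB h hh
    have e : h = Matrix.SpecialLinearGroup.toGL A * Matrix.SpecialLinearGroup.toGL B :=
      Units.ext hh
    rw [e]
    exact H.mul_mem (hA _ rfl) (hB _ rfl)

end Pool.Agent.T2h61.CG.TSLG
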