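import Pool.Agent.T2h61.CG.Mx91

/-!
# Calegari–Geraghty for `GL_n` over number fields: B7
-/

set_option autoImplicit false
set_option linter.unusedSectionVars false
set_option linter.unusedSimpArgs false
set_option linter.unusedVariables false

open NumberField IsDedekindDomain Matrix

noncomputable section

namespace Pool.Agent.T2h61.CG.TSML

open Pool.Agent.T2h61.CG Pool.Agent.T2h61.CG.Mx

variable {F : Type} [Field F] [NumberField F] {n : ℕ}

theorem tw_val (u ρ : Fin n → F) (h : ρ ⬝ᵥ u = 0) : (tw u ρ h).1 = 1 + Matrix.vecMulVec u ρ := rfl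

theorem det_tw_int (u ρ : Fin n → 𝓞 F) (h : ρ ⬝ᵥ u = 0) :
    (1 + Matrix.vecMulVec u ρ).det = 1 := by
  rw [Matrix.vecMulVec_eq Unit, Matrix.det_one_add_replicateCol_mul_replicateRow, h, add_zero]

/-- `1 + u ρᵀ` is in a congruence subgroup -/
theorem cg_tw {N : ℕ} {u ρ : Fin n → F} (h : ρ ⬝ᵥ u = 0) (u' ρ' : Fin n → 𝓞 F)
    (hu : ∀ i, u i = (u' i : F)) (hρ : ∀ i, ρ i = (ρ' i : F))
    (hN : ∀ i j, (N : 𝓞 F) ∣ u' i * ρ' j) : Cg N (tw u ρ h) := by
  have h' : ρ' ⬝ᵥ u' = 0 := by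
    apply RingOfIntegers.coe_injective (K := F)
    have e1 : algebraMap (𝓞 F) F (ρ' ⬝ᵥ u') = ρ ⬝ᵥ u := by
      rw [dotProduct, map_sum, dotProduct]
      refine Finset.sum_congr rfl fun i _ => ?_
      rw [map_mul, hu, hρ]
    exact e1.trans (h.trans (map_zero (algebraMap (𝓞 F) F)).symm)
  refine cg_of_mat (1 + Matrix.vecMulVec u' ρ') ?_ (det_tw_int u' ρ' h') fun i j => ?_
  · rw [tw_val]
    ext i j
    rw [Matrix.map_apply, Matrix.add_apply, Matrix.add_apply, map_add, Matrix.vecMulVec_apply,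
      Matrix.vecMulVec_apply, map_mul, hu, hρ, Matrix.one_apply, Matrix.one_apply]
    congr 1
    split_ifs <;> simp
  · rw [Matrix.add_apply, add_sub_cancel_left, Matrix.vecMulVec_apply]
    exact hN i j

theorem tw_comm (a b ρ : Fin n → F) (x y t : F) (h1 : ρ ⬝ᵥ a = 0) (e : Fin n → F)
    (h2 : e ⬝ᵥ a = 0) (h3 : ρ ⬝ᵥ b = 0) (h4 : e ⬝ᵥ b = 1) (ht : x * y = t)
    (p1 : e ⬝ᵥ (x • a) = 0) (p2 : ρ ⬝ᵥ (y • b) = 0) (p3 : ρ ⬝ᵥ (t • a) = 0) :
    tw (x • a) e p1 * tw (y • b) ρ p2 * (tw (x • a) e p1)⁻¹ * (tw (y • b) ρ p2)⁻¹ =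
      tw (t • a) ρ p3 := by
  rw [mul_inv_eq_iff_eq_mul, mul_inv_eq_iff_eq_mul]
  apply gl_ext
  simp only [Units.val_mul, tw_val]
  simp only [mul_add, add_mul, mul_one, one_mul, Matrix.vecMulVec_mul_vecMulVec, p1, p2, p3,
    dotProduct_smul, h1, h2, h3, h4, smul_eq_mul, mul_zero, zero_smul, Matrix.vecMulVec_zero,
    add_zero, smul_zero]
  have e1 : Matrix.vecMulVec (x • a) (y • ρ) = Matrix.vecMulVec (t • a) ρ := by
    rw [Matrix.smul_vecMulVec, Matrix.vecMulVec_smul, smul_smul, ht, ← Matrix.smul_vecMulVec]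
  rw [e1]
  abel

theorem tk_eq (k l m : Fin n) (hkl : k ≠ l) (hmk : m ≠ k) (hml : m ≠ l) (t : F) (u : Fin n → F)
    (h : al k l u ⬝ᵥ (t • Function.update u m 0) = 0) :
    tk k l t u = (tv m k hmk (t * u m * u l) * tv m l hml (-(t * u m * u k))) *
      tw (t • Function.update u m 0) (al k l u) h := by
  apply gl_ext
  have hd : al k l u ⬝ᵥ (t • Function.update u m 0) = 0 := h
  have e1 : (tv m k hmk (t * u m * u l) * tv m l hml (-(t * u m * u k))).1 =
      1 + Matrix.vecMulVec (Pi.single m (t * u m) : Fin n → F) (al k l u) := by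
    rw [Units.val_mul, tv_val, tv_val, Matrix.transvection, Matrix.transvection, mul_add, mul_one,
      add_mul, one_mul, Matrix.single_mul_single_of_ne _ _ _ _ hmk.symm, add_zero, add_assoc]
    congr 1
    ext i j
    rw [Matrix.add_apply, Matrix.single_apply, Matrix.single_apply, Matrix.vecMulVec_apply, al,
      Pi.single_apply]
    by_cases hi : i = m
    · subst hi
      by_cases hj : j = k
      · subst hj
        simp [hkl, hkl.symm]
      · by_cases hj' : j = l
        · subst hj'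
          simp [hkl, hj]
        · simp [hj, hj', Ne.symm hj, Ne.symm hj']
    · simp [hi, Ne.symm hi]
  rw [Units.val_mul, e1, tk, tw_val, tw_val, mul_add, mul_one, add_mul, one_mul,
    Matrix.vecMulVec_mul_vecMulVec, hd, zero_smul, Matrix.vecMulVec_zero, add_zero, add_assoc,
    ← Matrix.add_vecMulVec]
  congr 2
  funext i
  rw [Pi.add_apply, Pi.smul_apply, Pi.smul_apply, smul_eq_mul, smul_eq_mul, Pi.single_apply,
    Function.update_apply]
  split_ifs with h5
  · subst h5; rw [mul_zero, add_zero]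
  · rw [zero_add]

theorem t_SML (hku : S_KU3) : S_SML := by
  intro F _ _ n hn W _ c hc
  obtain ⟨N₁, hN₁, h0⟩ := hku F n hn W c hc
  obtain ⟨N₀, hN₀, hc⟩ := hc
  have hc : AdN N₀ c := hc
  refine ⟨N₀ * N₀ * N₁, mul_ne_zero (mul_ne_zero hN₀ hN₀) hN₁, fun u k l τ => ?_⟩
  by_cases hkl : k = l
  · subst hkl
    have e : tk k k (((N₀ * N₀ * N₁ : ℕ) : F) * τ) (fun i => (u i : F)) = 1 := by
      apply gl_ext
      rw [tk, tw_val]
      have : al k k (fun i => (u i : F)) = 0 := by
        funext i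
        rw [al, sub_self]; rfl
      rw [this, Matrix.vecMulVec_zero, add_zero]
      rfl
    rw [e, hc.one]
  obtain ⟨m, hm⟩ : ∃ m : Fin n, m ∉ ({k, l} : Finset (Fin n)) := by
    by_contra hcon
    push Not at hcon
    have h1 : (Finset.univ : Finset (Fin n)) ⊆ {k, l} := fun x _ => hcon x
    have h2 := Finset.card_le_card h1
    rw [Finset.card_univ, Fintype.card_fin] at h2
    have h3 := Finset.card_le_two (a := k) (b := l)
    omega
  rw [Finset.mem_insert, Finset.mem_singleton, not_or] at hm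
  obtain ⟨hmk, hml⟩ := hm
  set U : Fin n → F := fun i => (u i : F) with hU
  set t : F := ((N₀ * N₀ * N₁ : ℕ) : F) * τ with ht
  -- integrality
  have hcast : ∀ (M : ℕ) (z : 𝓞 F), (((M : 𝓞 F) * z : 𝓞 F) : F) = (M : F) * (z : F) := by
    intro M z
    have := map_mul (algebraMap (𝓞 F) F) (M : 𝓞 F) z
    rw [map_natCast] at this
    exact this
  have hρe : ∀ i, al k l U i = (((if i = k then u l else 0) - (if i = l then u k else 0) : 𝓞 F) : F) := by
    intro i
    rw [al]
    split_ifs <;> simp [hU]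
  have hdotm : ∀ z : F, al k l U ⬝ᵥ (Pi.single m z : Fin n → F) = 0 := by
    intro z
    rw [dotProduct_single, al, if_neg hmk, if_neg hml, sub_zero, zero_mul]
  have hdot1 : al k l U ⬝ᵥ Function.update U m 0 = 0 := by
    have h1 := al_dot k l 1 U
    rw [one_smul] at h1
    have h2 : U = Function.update U m 0 + (Pi.single m (U m) : Fin n → F) := by
      funext i
      rw [Pi.add_apply, Function.update_apply, Pi.single_apply]
      split_ifs with h5
      · subst h5; rw [zero_add]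
      · rw [add_zero]
    have h3 : al k l U ⬝ᵥ U = al k l U ⬝ᵥ Function.update U m 0 := by
      conv_lhs => rw [h2]
      rw [dotProduct_add, ← h2, hdotm, add_zero]
    rw [← h3, h1]
  have hdot2 : (Pi.single m 1 : Fin n → F) ⬝ᵥ Function.update U m 0 = 0 := by
    rw [single_dotProduct, Function.update_self, mul_zero]
  have hdot3 : (Pi.single m 1 : Fin n → F) ⬝ᵥ (Pi.single m 1 : Fin n → F) = 1 := by
    rw [single_dotProduct, Pi.single_eq_same, mul_one]
  have hx : (N₀ : F) * ((N₀ * N₁ : ℕ) * τ) = t := by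
    rw [ht]; push_cast; ring
  have p1 : (Pi.single m 1 : Fin n → F) ⬝ᵥ ((N₀ : F) • Function.update U m 0) = 0 := by
    rw [dotProduct_smul, hdot2, smul_zero]
  have p2 : al k l U ⬝ᵥ ((((N₀ * N₁ : ℕ) : F) * τ) • (Pi.single m 1 : Fin n → F)) = 0 := by
    rw [dotProduct_smul, hdotm, smul_zero]
  have p3 : al k l U ⬝ᵥ (t • Function.update U m 0) = 0 := by
    rw [dotProduct_smul, hdot1, smul_zero]
  have hu'e : ∀ i, Function.update U m 0 i = ((Function.update u m 0 i : 𝓞 F) : F) := by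
    intro i
    rw [Function.update_apply, Function.update_apply]
    split_ifs
    · exact (map_zero (algebraMap (𝓞 F) F)).symm
    · rfl
  have c1 : Cg N₀ (tw ((N₀ : F) • Function.update U m 0) (Pi.single m 1) p1) := by
    refine cg_tw p1 (fun i => (N₀ : 𝓞 F) * Function.update u m 0 i)
      (fun i => (Pi.single m 1 : Fin n → 𝓞 F) i) (fun i => ?_) (fun i => ?_) (fun i j => ?_)
    · rw [hcast, Pi.smul_apply, smul_eq_mul, hu'e]
    · rw [Pi.single_apply, Pi.single_apply]
      split_ifs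
      · exact (map_one (algebraMap (𝓞 F) F)).symm
      · exact (map_zero (algebraMap (𝓞 F) F)).symm
    · exact Dvd.dvd.mul_right (dvd_mul_right _ _) _
  have c2 : Cg N₀ (tw ((((N₀ * N₁ : ℕ) : F) * τ) • (Pi.single m 1 : Fin n → F)) (al k l U) p2) := by
    refine cg_tw p2 (fun i => (N₀ : 𝓞 F) * (N₁ * τ * (Pi.single m 1 : Fin n → 𝓞 F) i))
      _ (fun i => ?_) hρe (fun i j => ?_)
    · rw [hcast, Pi.smul_apply, smul_eq_mul, Pi.single_apply, Pi.single_apply]
      split_ifs
      · rw [mul_one, mul_one, hcast]; push_cast; ring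
      · rw [mul_zero, mul_zero]
        have : ((0 : 𝓞 F) : F) = 0 := map_zero (algebraMap (𝓞 F) F)
        rw [this, mul_zero]
    · exact Dvd.dvd.mul_right (dvd_mul_right _ _) _
  have e1 := tk_eq k l m hkl hmk hml t U p3
  have e2 := tw_comm (Function.update U m 0) (Pi.single m 1) (al k l U) (N₀ : F)
    (((N₀ * N₁ : ℕ) : F) * τ) t hdot1 (Pi.single m 1) hdot2 (hdotm 1) hdot3 hx p1 p2 p3
  have hcP : c (tw (t • Function.update U m 0) (al k l U) p3) = 0 := by
    rw [← e2]
    exact hc.comm c1 c2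
  have hP : Cg N₀ (tw (t • Function.update U m 0) (al k l U) p3) := by
    rw [← e2]
    exact cg_mul (cg_mul (cg_mul c1 c2) (cg_inv c1)) (cg_inv c2)
  -- the elementary factors
  have hT : ∀ (l' : Fin n) (h' : m ≠ l') (z : 𝓞 F) (y : F), y = t * (z : F) →
      Cg N₀ (tv m l' h' y) ∧ c (tv m l' h' y) = 0 := by
    intro l' h' z y hy
    have e3 : y = (N₀ : F) * (((N₀ : 𝓞 F) * (N₁ * τ * z) : 𝓞 F) : F) := by
      rw [hy, ht, hcast]
      have : ((N₁ * τ * z : 𝓞 F) : F) = N₁ * τ * z := by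
        rw [mul_assoc, hcast, mul_assoc]
        congr 1
      rw [this]; push_cast; ring
    have e4 : y = (N₁ : F) * (((N₀ : 𝓞 F) * (N₀ * (τ * z)) : 𝓞 F) : F) := by
      rw [hy, ht, hcast, hcast]
      have : ((τ * z : 𝓞 F) : F) = τ * z := map_mul (algebraMap (𝓞 F) F) _ _
      rw [this]; push_cast; ring
    refine ⟨cg_tv h' _ e3, ?_⟩
    rw [e4]
    exact h0 _ _ _ _
  obtain ⟨a1, a2⟩ := hT k hmk (u m * u l) (t * U m * U l) (by
    have : ((u m * u l : 𝓞 F) : F) = U m * U l := map_mul (algebraMap (𝓞 F) F) _ _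
    rw [this]; ring)
  obtain ⟨b1, b2⟩ := hT l hml (-(u m * u k)) (-(t * U m * U k)) (by
    have : ((-(u m * u k) : 𝓞 F) : F) = -(U m * U k) := by
      have h1 := map_neg (algebraMap (𝓞 F) F) (u m * u k)
      rw [map_mul] at h1
      exact h1
    rw [this]; ring)
  rw [e1, hc _ _ (cg_mul a1 b1) hP, hc _ _ a1 b1, a2, b2, hcP, add_zero, add_zero]

end Pool.Agent.T2h61.CG.TSML
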