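import Pool.Agent.T2h61.CG.Stm

/-!
# Calegari–Geraghty for `GL_n` over number fields: points and level structures
-/

set_option autoImplicit false

open NumberField IsDedekindDomain Matrix Polynomial

noncomputable section

namespace Pool.Agent.T2h61.CG

variable {F : Type} [Field F] [NumberField F] {n : ℕ}

/-! ## the action on submodules -/

theorem mem_gm {g : GL (Fin n) F} {L : Submodule (𝓞 F) (Fin n → F)} {y : Fin n → F} :
    y ∈ gm g L ↔ ∃ x ∈ L, g.1.mulVec x = y := by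
  unfold gm
  rw [Submodule.mem_map]
  rfl

theorem mulVec_mem_gm {g : GL (Fin n) F} {L : Submodule (𝓞 F) (Fin n → F)} {y : Fin n → F}
    (h : y ∈ L) : g.1.mulVec y ∈ gm g L := mem_gm.2 ⟨y, h, rfl⟩

theorem inv_mulVec (g : GL (Fin n) F) (y : Fin n → F) : g⁻¹.1.mulVec (g.1.mulVec y) = y := by
  rw [Matrix.mulVec_mulVec, ← Units.val_mul, inv_mul_cancel, Units.val_one, Matrix.one_mulVec]

theorem mulVec_inv (g : GL (Fin n) F) (y : Fin n → F) : g.1.mulVec (g⁻¹.1.mulVec y) = y := by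
  rw [Matrix.mulVec_mulVec, ← Units.val_mul, mul_inv_cancel, Units.val_one, Matrix.one_mulVec]

theorem mem_gm' {g : GL (Fin n) F} {L : Submodule (𝓞 F) (Fin n → F)} {y : Fin n → F} :
    y ∈ gm g L ↔ g⁻¹.1.mulVec y ∈ L := by
  rw [mem_gm]
  constructor
  · rintro ⟨x, hx, rfl⟩
    rwa [inv_mulVec]
  · intro h
    exact ⟨_, h, mulVec_inv g y⟩

theorem mulVec_mem_gm_iff {g : GL (Fin n) F} {L : Submodule (𝓞 F) (Fin n → F)} {y : Fin n → F} :
    g.1.mulVec y ∈ gm g L ↔ y ∈ L := by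
  rw [mem_gm', inv_mulVec]

theorem gm_one (L : Submodule (𝓞 F) (Fin n → F)) : gm 1 L = L := by
  ext y
  rw [mem_gm', inv_one, Units.val_one, Matrix.one_mulVec]

theorem gm_mul (g h : GL (Fin n) F) (L : Submodule (𝓞 F) (Fin n → F)) :
    gm (g * h) L = gm g (gm h L) := by
  ext y
  rw [mem_gm', mem_gm', mem_gm', _root_.mul_inv_rev, Units.val_mul, Matrix.mulVec_mulVec]

theorem gm_inv_gm (g : GL (Fin n) F) (L : Submodule (𝓞 F) (Fin n → F)) : gm g⁻¹ (gm g L) = L := by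
  rw [← gm_mul, inv_mul_cancel, gm_one]

theorem gm_gm_inv (g : GL (Fin n) F) (L : Submodule (𝓞 F) (Fin n → F)) : gm g (gm g⁻¹ L) = L := by
  rw [← gm_mul, mul_inv_cancel, gm_one]

theorem gm_mono {g : GL (Fin n) F} {L L' : Submodule (𝓞 F) (Fin n → F)} (h : L ≤ L') :
    gm g L ≤ gm g L' := Submodule.map_mono h

theorem gm_le_gm {g : GL (Fin n) F} {L L' : Submodule (𝓞 F) (Fin n → F)} :
    gm g L ≤ gm g L' ↔ L ≤ L' := by
  constructor
  · intro h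
    have := gm_mono (g := g⁻¹) h
    rwa [gm_inv_gm, gm_inv_gm] at this
  · exact gm_mono

theorem gm_inj {g : GL (Fin n) F} {L L' : Submodule (𝓞 F) (Fin n → F)} :
    gm g L = gm g L' ↔ L = L' := by
  constructor
  · intro h
    have := congrArg (gm g⁻¹) h
    rwa [gm_inv_gm, gm_inv_gm] at this
  · rintro rfl; rfl

theorem gm_smul (g : GL (Fin n) F) (𝔪 : Ideal (𝓞 F)) (L : Submodule (𝓞 F) (Fin n → F)) :
    gm g (𝔪 • L) = 𝔪 • gm g L := Submodule.map_smul'' 𝔪 L _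

theorem gm_sup (g : GL (Fin n) F) (L L' : Submodule (𝓞 F) (Fin n → F)) :
    gm g (L ⊔ L') = gm g L ⊔ gm g L' := Submodule.map_sup _ _ _

theorem gm_span (g : GL (Fin n) F) {ι : Type} (e : ι → Fin n → F) :
    gm g (Submodule.span (𝓞 F) (Set.range e)) =
      Submodule.span (𝓞 F) (Set.range fun i => g.1.mulVec (e i)) := by
  unfold gm
  rw [Submodule.map_span, ← Set.range_comp]
  rfl

theorem isLat_gm {g : GL (Fin n) F} {L : Submodule (𝓞 F) (Fin n → F)} (h : IsLat L) :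
    IsLat (gm g L) := by
  refine ⟨h.1.map _, ?_⟩
  rw [eq_top_iff]
  intro y _
  have h1 : g⁻¹.1.mulVec y ∈ Submodule.span F (L : Set (Fin n → F)) := by
    rw [h.2]; trivial
  have h2 : (Matrix.mulVecLin g.1) (g⁻¹.1.mulVec y) ∈
      (Submodule.span F (L : Set (Fin n → F))).map (Matrix.mulVecLin g.1) :=
    Submodule.mem_map_of_mem h1
  rw [Matrix.mulVecLin_apply, mulVec_inv, Submodule.map_span] at h2
  refine Submodule.span_mono ?_ h2
  rintro _ ⟨x, hx, rfl⟩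
  exact mulVec_mem_gm hx

theorem isLat_gm_iff {g : GL (Fin n) F} {L : Submodule (𝓞 F) (Fin n → F)} :
    IsLat (gm g L) ↔ IsLat L := by
  constructor
  · intro h
    have := isLat_gm (g := g⁻¹) h
    rwa [gm_inv_gm] at this
  · exact isLat_gm

theorem mulVec_smul_int (A : Matrix (Fin n) (Fin n) F) (c : 𝓞 F) (y : Fin n → F) :
    A.mulVec (c • y) = c • A.mulVec y :=
  ((Matrix.mulVecLin A).restrictScalars (𝓞 F)).map_smul c y

/-! ## the action on points -/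

theorem ga_one (x : Pt F n) : ga 1 x = x := by
  obtain ⟨s, L, e⟩ := x
  unfold ga
  congr 1
  · funext w
    rw [Units.val_one, Matrix.det_one, sg_one, one_mul]
  · exact gm_one L
  · funext i
    rw [Units.val_one, Matrix.one_mulVec]

theorem ga_mul (g h : GL (Fin n) F) (x : Pt F n) : ga (g * h) x = ga g (ga h x) := by
  obtain ⟨s, L, e⟩ := x
  unfold ga
  congr 1
  · funext w
    show sg (g * h).1.det w * s w = sg g.1.det w * (sg h.1.det w * s w)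
    rw [sg_det_mul, mul_assoc]
  · exact gm_mul g h L
  · funext i
    show (g * h).1.mulVec (e i) = g.1.mulVec (h.1.mulVec (e i))
    rw [Units.val_mul, Matrix.mulVec_mulVec]

theorem ga_inv_ga (g : GL (Fin n) F) (x : Pt F n) : ga g⁻¹ (ga g x) = x := by
  rw [← ga_mul, inv_mul_cancel, ga_one]

theorem ga_ga_inv (g : GL (Fin n) F) (x : Pt F n) : ga g (ga g⁻¹ x) = x := by
  rw [← ga_mul, mul_inv_cancel, ga_one]

theorem tr_apply {W : Type} (g : GL (Fin n) F) (φ : Pt F n → W) (x : Pt F n) :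
    tr g φ x = φ (ga g⁻¹ x) := rfl

theorem ok_ga {𝔪 : Ideal (𝓞 F)} {g : GL (Fin n) F} {x : Pt F n} (h : Ok 𝔪 x) : Ok 𝔪 (ga g x) := by
  obtain ⟨h1, h2, h3⟩ := h
  refine ⟨isLat_gm h1, fun i => mulVec_mem_gm (h2 i), ?_⟩
  have := gm_mono (g := g) h3
  rwa [gm_sup, gm_smul, gm_span] at this

theorem ok_ga_iff {𝔪 : Ideal (𝓞 F)} {g : GL (Fin n) F} {x : Pt F n} :
    Ok 𝔪 (ga g x) ↔ Ok 𝔪 x := by
  constructor
  · intro h
    have := ok_ga (g := g⁻¹) h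
    rwa [ga_inv_ga] at this
  · exact ok_ga

theorem eqv_refl {𝔪 : Ideal (𝓞 F)} (x : Pt F n) : Eqv 𝔪 x x :=
  ⟨rfl, rfl, fun i => by rw [sub_self]; exact Submodule.zero_mem _⟩

theorem eqv_symm {𝔪 : Ideal (𝓞 F)} {x y : Pt F n} (h : Eqv 𝔪 x y) : Eqv 𝔪 y x := by
  obtain ⟨h1, h2, h3⟩ := h
  refine ⟨h1.symm, h2.symm, fun i => ?_⟩
  rw [← h2, ← neg_sub]
  exact Submodule.neg_mem _ (h3 i)

theorem eqv_trans {𝔪 : Ideal (𝓞 F)} {x y w : Pt F n} (h : Eqv 𝔪 x y) (h' : Eqv 𝔪 y w) :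
    Eqv 𝔪 x w := by
  obtain ⟨h1, h2, h3⟩ := h
  obtain ⟨h1', h2', h3'⟩ := h'
  refine ⟨h1.trans h1', h2.trans h2', fun i => ?_⟩
  rw [← sub_add_sub_cancel]
  exact Submodule.add_mem _ (h3 i) (by rw [h2]; exact h3' i)

theorem eqv_ga {𝔪 : Ideal (𝓞 F)} {x y : Pt F n} (g : GL (Fin n) F) (h : Eqv 𝔪 x y) :
    Eqv 𝔪 (ga g x) (ga g y) := by
  obtain ⟨h1, h2, h3⟩ := h
  refine ⟨?_, ?_, fun i => ?_⟩
  · show (fun w => _ * x.s w) = fun w => _ * y.s w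
    rw [h1]
  · show gm g x.L = gm g y.L
    rw [h2]
  · show g.1.mulVec (x.e i) - g.1.mulVec (y.e i) ∈ 𝔪 • gm g x.L
    rw [← Matrix.mulVec_sub, ← gm_smul]
    exact mulVec_mem_gm (h3 i)

theorem eqv_ga_iff {𝔪 : Ideal (𝓞 F)} {x y : Pt F n} (g : GL (Fin n) F) :
    Eqv 𝔪 (ga g x) (ga g y) ↔ Eqv 𝔪 x y := by
  constructor
  · intro h
    have := eqv_ga g⁻¹ h
    rwa [ga_inv_ga, ga_inv_ga] at this
  · exact eqv_ga g

theorem eqv_mono {𝔪 𝔪₁ : Ideal (𝓞 F)} (hm : 𝔪₁ ≤ 𝔪) {x y : Pt F n} (h : Eqv 𝔪₁ x y) :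
    Eqv 𝔪 x y := ⟨h.1, h.2.1, fun i => Submodule.smul_mono_left hm (h.2.2 i)⟩

theorem ok_mono {𝔪 𝔪₁ : Ideal (𝓞 F)} (hm : 𝔪₁ ≤ 𝔪) {x : Pt F n} (h : Ok 𝔪₁ x) : Ok 𝔪 x :=
  ⟨h.1, h.2.1, h.2.2.trans (sup_le_sup_left (Submodule.smul_mono_left hm) _)⟩

theorem smul_le_self (𝔪 : Ideal (𝓞 F)) (L : Submodule (𝓞 F) (Fin n → F)) : 𝔪 • L ≤ L :=
  Submodule.smul_le_right

/-- an equivalent point is a point of the same level -/
theorem ok_eqv {𝔪 : Ideal (𝓞 F)} {x y : Pt F n} (h : Ok 𝔪 x) (h' : Eqv 𝔪 x y) : Ok 𝔪 y := by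
  obtain ⟨h1, h2, h3⟩ := h
  obtain ⟨e1, e2, e3⟩ := h'
  refine ⟨e2 ▸ h1, fun i => ?_, ?_⟩
  · have h4 := Submodule.sub_mem _ (h2 i) (smul_le_self _ _ (e3 i))
    rw [sub_sub_cancel, e2] at h4
    exact h4
  · rw [← e2]
    refine h3.trans (sup_le ?_ le_sup_right)
    rw [Submodule.span_le]
    rintro _ ⟨i, rfl⟩
    have h5 : x.e i = y.e i + (x.e i - y.e i) := by abel
    rw [h5]
    exact Submodule.add_mem_sup (Submodule.subset_span ⟨i, rfl⟩) (e3 i)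

theorem ok_congr {𝔪 : Ideal (𝓞 F)} {x y : Pt F n} (h' : Eqv 𝔪 x y) : Ok 𝔪 x ↔ Ok 𝔪 y :=
  ⟨fun h => ok_eqv h h', fun h => ok_eqv h (eqv_symm h')⟩

/-- functions of level `𝔪` on equivalent points -/
theorem Lev.eq {W : Type} [Zero W] {𝔪 : Ideal (𝓞 F)} {φ : Pt F n → W} (h : Lev 𝔪 φ) {x y : Pt F n}
    (h' : Eqv 𝔪 x y) : φ x = φ y := by
  by_cases hx : Ok 𝔪 x
  · exact h.2 x y hx (ok_eqv hx h') h'
  · rw [h.1 x hx, h.1 y (fun hy => hx (ok_eqv hy (eqv_symm h')))]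

theorem lev_tr {W : Type} [Zero W] {𝔪 : Ideal (𝓞 F)} {φ : Pt F n → W} (g : GL (Fin n) F)
    (h : Lev 𝔪 φ) : Lev 𝔪 (tr g φ) :=
  ⟨fun x hx => h.1 _ (fun h' => hx (ok_ga_iff.1 h')), fun _ _ _ _ he => h.eq (eqv_ga _ he)⟩

/-! ## right translations -/

theorem rt_ga (A : Matrix (Fin n) (Fin n) (𝓞 F)) (g : GL (Fin n) F) (x : Pt F n) :
    rt A (ga g x) = ga g (rt A x) := by
  obtain ⟨s, L, e⟩ := x
  unfold rt ga
  congr 1
  funext j
  show ∑ i, A i j • g.1.mulVec (e i) = g.1.mulVec (∑ i, A i j • e i)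
  rw [Matrix.mulVec_sum]
  exact Finset.sum_congr rfl fun i _ => (mulVec_smul_int _ _ _).symm

theorem rt_rt (A B : Matrix (Fin n) (Fin n) (𝓞 F)) (x : Pt F n) : rt B (rt A x) = rt (A * B) x := by
  obtain ⟨s, L, e⟩ := x
  unfold rt
  congr 1
  funext j
  show ∑ i, B i j • ∑ k, A k i • e k = ∑ k, (A * B) k j • e k
  simp only [Finset.smul_sum, Matrix.mul_apply, Finset.sum_smul]
  rw [Finset.sum_comm]
  refine Finset.sum_congr rfl fun k _ => Finset.sum_congr rfl fun i _ => ?_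
  rw [smul_smul, mul_comm]

theorem eqv_rt {𝔪 : Ideal (𝓞 F)} (A : Matrix (Fin n) (Fin n) (𝓞 F)) {x y : Pt F n}
    (h : Eqv 𝔪 x y) : Eqv 𝔪 (rt A x) (rt A y) := by
  obtain ⟨h1, h2, h3⟩ := h
  refine ⟨h1, h2, fun j => ?_⟩
  show ∑ i, A i j • x.e i - ∑ i, A i j • y.e i ∈ 𝔪 • x.L
  rw [← Finset.sum_sub_distrib]
  refine Submodule.sum_mem _ fun i _ => ?_
  rw [← smul_sub]
  exact Submodule.smul_mem _ _ (h3 i)

/-- matrices which are congruent modulo `𝔪` have the same action modulo `𝔪` -/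
theorem rt_congr {𝔪 : Ideal (𝓞 F)} {A B : Matrix (Fin n) (Fin n) (𝓞 F)}
    (h : ∀ i j, A i j - B i j ∈ 𝔪) {x : Pt F n} (hx : Ok 𝔪 x) : Eqv 𝔪 (rt A x) (rt B x) := by
  refine ⟨rfl, rfl, fun j => ?_⟩
  show ∑ i, A i j • x.e i - ∑ i, B i j • x.e i ∈ 𝔪 • x.L
  rw [← Finset.sum_sub_distrib]
  refine Submodule.sum_mem _ fun i _ => ?_
  rw [← sub_smul]
  exact Submodule.smul_mem_smul (h i j) (hx.2.1 i)

theorem rt_one (x : Pt F n) : rt 1 x = x := by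
  obtain ⟨s, L, e⟩ := x
  unfold rt
  congr 1
  funext j
  show ∑ i, (1 : Matrix (Fin n) (Fin n) (𝓞 F)) i j • e i = e j
  simp [Matrix.one_apply]

theorem isUnit_map_iff {𝔪 : Ideal (𝓞 F)} {A : Matrix (Fin n) (Fin n) (𝓞 F)}
    (h : IsUnit (A.map (Ideal.Quotient.mk 𝔪))) : ∃ B : Matrix (Fin n) (Fin n) (𝓞 F),
      (∀ i j, (A * B) i j - (1 : Matrix (Fin n) (Fin n) (𝓞 F)) i j ∈ 𝔪) ∧
      (∀ i j, (B * A) i j - (1 : Matrix (Fin n) (Fin n) (𝓞 F)) i j ∈ 𝔪) ∧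
      IsUnit (B.map (Ideal.Quotient.mk 𝔪)) := by
  obtain ⟨u, hu⟩ := h
  choose b hb using fun i j => Ideal.Quotient.mk_surjective (I := 𝔪) (u⁻¹.1 i j)
  have hB : (Matrix.of b).map (Ideal.Quotient.mk 𝔪) = u⁻¹.1 := by
    ext i j
    exact hb i j
  have h1 : (1 : Matrix (Fin n) (Fin n) (𝓞 F)).map (Ideal.Quotient.mk 𝔪) = 1 :=
    Matrix.map_one _ (map_zero _) (map_one _)
  refine ⟨Matrix.of b, fun i j => ?_, fun i j => ?_, by rw [hB]; exact u⁻¹.isUnit⟩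
  · have h2 : (A * Matrix.of b).map (Ideal.Quotient.mk 𝔪) =
        (1 : Matrix (Fin n) (Fin n) (𝓞 F)).map (Ideal.Quotient.mk 𝔪) := by
      rw [Matrix.map_mul, hB, ← hu, h1, ← Units.val_mul, mul_inv_cancel, Units.val_one]
    exact Ideal.Quotient.eq.1 (congrFun (congrFun h2 i) j)
  · have h2 : (Matrix.of b * A).map (Ideal.Quotient.mk 𝔪) =
        (1 : Matrix (Fin n) (Fin n) (𝓞 F)).map (Ideal.Quotient.mk 𝔪) := by
      rw [Matrix.map_mul, hB, ← hu, h1, ← Units.val_mul, inv_mul_cancel, Units.val_one]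
    exact Ideal.Quotient.eq.1 (congrFun (congrFun h2 i) j)

/-- matrices which are invertible modulo `𝔪` act on the points of level `𝔪` -/
theorem ok_rt {𝔪 : Ideal (𝓞 F)} {A : Matrix (Fin n) (Fin n) (𝓞 F)}
    (h : IsUnit (A.map (Ideal.Quotient.mk 𝔪))) {x : Pt F n} (hx : Ok 𝔪 x) : Ok 𝔪 (rt A x) := by
  obtain ⟨B, hAB, -, -⟩ := isUnit_map_iff h
  have hx' := hx
  obtain ⟨h1, h2, h3⟩ := hx
  refine ⟨h1, fun j => ?_, ?_⟩
  · show ∑ i, A i j • x.e i ∈ x.L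
    exact Submodule.sum_mem _ fun i _ => Submodule.smul_mem _ _ (h2 i)
  refine h3.trans (sup_le ?_ le_sup_right)
  rw [Submodule.span_le]
  rintro _ ⟨j, rfl⟩
  have e1 := (rt_congr hAB hx').2.2 j
  rw [rt_one, ← rt_rt] at e1
  have e2 : x.e j = (rt B (rt A x)).e j + -((rt B (rt A x)).e j - x.e j) := by abel
  rw [SetLike.mem_coe, e2]
  refine Submodule.add_mem_sup ?_ (Submodule.neg_mem _ e1)
  show ∑ i, B i j • (rt A x).e i ∈ _
  exact Submodule.sum_mem _ fun i _ => Submodule.smul_mem _ _ (Submodule.subset_span ⟨i, rfl⟩)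

theorem isLat_sub {v : HeightOneSpectrum (𝓞 F)} {j : ℕ} {L L' : Submodule (𝓞 F) (Fin n → F)}
    (hL : IsLat L) (h : L' ∈ Sub v j L) : IsLat L' := by
  obtain ⟨h1, h2, -⟩ := h
  refine ⟨?_, ?_⟩
  · have hn : IsNoetherian (𝓞 F) L := isNoetherian_of_fg_of_noetherian L hL.1
    exact isNoetherian_submodule.1 hn L' h2
  · obtain ⟨c, hc, hc0⟩ : ∃ c ∈ v.asIdeal, c ≠ 0 := Submodule.exists_mem_ne_zero_of_ne_bot v.ne_bot
    have hc0' : (c : F) ≠ 0 := by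
      intro h0
      exact hc0 (RingOfIntegers.coe_injective (h0.trans (map_zero (algebraMap (𝓞 F) F)).symm))
    rw [eq_top_iff, ← hL.2, Submodule.span_le]
    intro y hy
    have h3 : c • y ∈ L' := h1 (Submodule.smul_mem_smul hc hy)
    have h4 : y = (c : F)⁻¹ • (c • y) := by
      rw [show c • y = (c : F) • y from rfl, smul_smul, inv_mul_cancel₀ hc0', one_smul]
    rw [h4]
    exact Submodule.smul_mem _ _ (Submodule.subset_span h3)

/-- the points `(s, L', a e)` -/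
theorem ok_sub {𝔪 : Ideal (𝓞 F)} {v : HeightOneSpectrum (𝓞 F)} {j : ℕ} {a : 𝓞 F}
    (ha : a ∈ v.asIdeal) (ha1 : a - 1 ∈ 𝔪) {x : Pt F n} (hx : Ok 𝔪 x)
    {L' : Submodule (𝓞 F) (Fin n → F)} (h : L' ∈ Sub v j x.L) :
    Ok 𝔪 (⟨x.s, L', fun i => a • x.e i⟩ : Pt F n) := by
  obtain ⟨h1, h2, h3⟩ := hx
  refine ⟨isLat_sub h1 h, fun i => h.1 (Submodule.smul_mem_smul ha (h2 i)), ?_⟩
  intro y hy
  have hy' : y ∈ L' := hy
  have e1 : y = a • y + (1 - a) • y := by rw [← add_smul, add_sub_cancel, one_smul]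
  rw [e1]
  refine Submodule.add_mem _ ?_ (Submodule.mem_sup_right ?_)
  · obtain ⟨y1, hy1, y2, hy2, rfl⟩ := Submodule.mem_sup.1 (h3 (h.2.1 hy'))
    rw [smul_add]
    refine Submodule.add_mem_sup ?_ ?_
    · have h5 : a • y1 ∈ (Submodule.span (𝓞 F) (Set.range x.e)).map
          (LinearMap.lsmul (𝓞 F) (Fin n → F) a) := Submodule.mem_map_of_mem hy1
      rw [Submodule.map_span, ← Set.range_comp] at h5
      exact h5
    · have h6 : a • y2 ∈ v.asIdeal • (𝔪 • x.L) := Submodule.smul_mem_smul ha hy2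
      rw [← Submodule.mul_smul, mul_comm, Submodule.mul_smul] at h6
      exact Submodule.smul_mono le_rfl h.1 h6
  · have h7 : (1 - a) ∈ 𝔪 := by
      rw [← neg_sub]; exact 𝔪.neg_mem ha1
    exact Submodule.smul_mem_smul h7 hy'

end Pool.Agent.T2h61.CG
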