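import Pool.Agent.T2h61.CG.Stm
import Pool.Agent.T2h61.CG.Bas2

/-!
# C11, C12: congruence subgroups and stabilisers of level structures
-/

set_option autoImplicit false

open NumberField IsDedekindDomain Matrix

noncomputable section

namespace Pool.Agent.T2h61.CG.TSTA

variable {F : Type} [Field F] [NumberField F] {n : ℕ}

omit [NumberField F] in
theorem smul_fun (a : 𝓞 F) (y : Fin n → F) : a • y = fun i => (a : F) * y i := by
  funext i
  rw [Pi.smul_apply, Algebra.smul_def]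

/-- a nonzero element divides a nonzero natural number -/
theorem exists_nat {b : 𝓞 F} (hb : b ≠ 0) : ∃ d : ℕ, d ≠ 0 ∧ ∃ c : 𝓞 F, (d : 𝓞 F) = b * c := by
  have h1 : Ideal.absNorm (Ideal.span {b}) ≠ 0 := by
    rw [Ne, Ideal.absNorm_eq_zero_iff, Ideal.span_singleton_eq_bot]; exact hb
  have h2 : ((Ideal.absNorm (Ideal.span {b}) : ℕ) : 𝓞 F) ∈ Ideal.span {b} := Ideal.absNorm_mem _
  obtain ⟨c, hc⟩ := Ideal.mem_span_singleton.1 h2
  exact ⟨_, h1, c, hc⟩

theorem exists_nat_mem {𝔪 : Ideal (𝓞 F)} (h : 𝔪 ≠ ⊥) : ∃ d : ℕ, d ≠ 0 ∧ (d : 𝓞 F) ∈ 𝔪 :=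
  ⟨Ideal.absNorm 𝔪, by rwa [Ne, Ideal.absNorm_eq_zero_iff], Ideal.absNorm_mem _⟩

/-- every element of `F` has a denominator in `ℕ` -/
theorem exists_den (x : F) : ∃ d : ℕ, d ≠ 0 ∧ ∃ y : 𝓞 F, (d : F) * x = y := by
  obtain ⟨⟨a, b⟩, hab⟩ := IsLocalization.surj (nonZeroDivisors (𝓞 F)) x
  have hb : (b : 𝓞 F) ≠ 0 := nonZeroDivisors.coe_ne_zero b
  obtain ⟨d, hd, c, hc⟩ := exists_nat hb
  refine ⟨d, hd, c * a, ?_⟩
  have h3 : (d : F) = (b : 𝓞 F) * (c : F) := by
    have := congrArg (algebraMap (𝓞 F) F) hc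
    simpa using this
  rw [h3]
  have h4 : x * algebraMap (𝓞 F) F (b : 𝓞 F) = algebraMap (𝓞 F) F a := hab
  have h5 : ((c * a : 𝓞 F) : F) = (c : F) * (a : F) := map_mul (algebraMap (𝓞 F) F) c a
  rw [h5]
  change _ = (c : F) * algebraMap (𝓞 F) F a
  rw [← h4]
  change (algebraMap (𝓞 F) F b) * (c : F) * x = (c : F) * (x * algebraMap (𝓞 F) F b)
  ring

/-- the elements of `span F L` have denominators -/
theorem exists_smul_mem (L : Submodule (𝓞 F) (Fin n → F)) {x : Fin n → F}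
    (hx : x ∈ Submodule.span F (L : Set (Fin n → F))) : ∃ d : ℕ, d ≠ 0 ∧ (d : 𝓞 F) • x ∈ L := by
  induction hx using Submodule.span_induction with
  | mem x hx => exact ⟨1, one_ne_zero, by rw [Nat.cast_one, one_smul]; exact hx⟩
  | zero => exact ⟨1, one_ne_zero, by rw [smul_zero]; exact L.zero_mem⟩
  | add x y _ _ hx hy =>
    obtain ⟨d, hd, hx⟩ := hx
    obtain ⟨d', hd', hy⟩ := hy
    refine ⟨d * d', mul_ne_zero hd hd', ?_⟩
    rw [smul_add]
    refine L.add_mem ?_ ?_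
    · rw [Nat.cast_mul, mul_comm, mul_smul]; exact L.smul_mem _ hx
    · rw [Nat.cast_mul, mul_smul]; exact L.smul_mem _ hy
  | smul a x _ hx =>
    obtain ⟨d, hd, hx⟩ := hx
    obtain ⟨d', hd', y, hy⟩ := exists_den a
    refine ⟨d' * d, mul_ne_zero hd' hd, ?_⟩
    have e : ((d' * d : ℕ) : 𝓞 F) • a • x = y • ((d : 𝓞 F) • x) := by
      rw [smul_fun, smul_fun, smul_fun]
      funext i
      have e5 : ((d : 𝓞 F) : F) = d := map_natCast (algebraMap (𝓞 F) F) d
      have e6 : (((d' * d : ℕ) : 𝓞 F) : F) = (d' * d : ℕ) := map_natCast (algebraMap (𝓞 F) F) _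
      rw [Pi.smul_apply, smul_eq_mul, ← hy, e5, e6]
      push_cast
      ring
    rw [e]
    exact L.smul_mem _ hx

/-- `d 𝓞^n ⊆ L ⊆ (1/d) 𝓞^n` -/
theorem exists_sandwich {L : Submodule (𝓞 F) (Fin n → F)} (hL : IsLat L) :
    ∃ d : ℕ, d ≠ 0 ∧ (∀ z : Fin n → 𝓞 F, (fun i => (d : F) * (z i : F)) ∈ L) ∧
      ∀ y ∈ L, ∃ z : Fin n → 𝓞 F, ∀ i, (d : F) * y i = z i := by
  classical
  obtain ⟨⟨S, hS⟩, hsp⟩ := hL
  choose a ha0 ha using fun i : Fin n => exists_smul_mem L
    (show (Pi.single i 1 : Fin n → F) ∈ Submodule.span F (L : Set (Fin n → F)) by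
      rw [hsp]; exact Submodule.mem_top)
  choose b hb0 c hc using fun x : F => exists_den (F := F) x
  set d₁ : ℕ := ∏ i, a i with hd₁
  set d₂ : ℕ := ∏ y ∈ S, ∏ i, b (y i) with hd₂
  have h1 : d₁ ≠ 0 := Finset.prod_ne_zero_iff.2 fun i _ => ha0 i
  have h2 : d₂ ≠ 0 := Finset.prod_ne_zero_iff.2 fun y _ => Finset.prod_ne_zero_iff.2 fun i _ => hb0 _
  refine ⟨d₁ * d₂, mul_ne_zero h1 h2, ?_, ?_⟩
  · intro z
    have e : (fun i => ((d₁ * d₂ : ℕ) : F) * (z i : F)) =
        ∑ i, ((d₂ : 𝓞 F) * z i * ((∏ j ∈ Finset.univ.erase i, a j : ℕ) : 𝓞 F)) •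
          ((a i : 𝓞 F) • (Pi.single i 1 : Fin n → F)) := by
      funext k
      rw [Finset.sum_apply, Finset.sum_eq_single k]
      · simp only [Pi.smul_apply, Algebra.smul_def, map_mul, map_natCast, Pi.single_eq_same]
        rw [hd₁, ← Finset.mul_prod_erase Finset.univ a (Finset.mem_univ k)]
        push_cast
        rw [show algebraMap (𝓞 F) F (z k) = (z k : F) from rfl]
        ring
      · intro i _ hik
        rw [Pi.smul_apply, Pi.smul_apply, Pi.single_eq_of_ne (Ne.symm hik), smul_zero, smul_zero]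
      · intro h; exact absurd (Finset.mem_univ k) h
    rw [e]
    exact L.sum_mem fun i _ => L.smul_mem _ (ha i)
  · intro y hy
    rw [← hS] at hy
    induction hy using Submodule.span_induction with
    | mem y hy =>
      have hk : ∀ i, b (y i) ∣ d₁ * d₂ := fun i =>
        ((Finset.dvd_prod_of_mem (fun j => b (y j)) (Finset.mem_univ i)).trans
          (Finset.dvd_prod_of_mem (fun y : Fin n → F => ∏ j, b (y j)) (Finset.mem_coe.1 hy))).trans
          (dvd_mul_left _ _)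
      choose q hq using hk
      refine ⟨fun i => (q i : 𝓞 F) * c (y i), fun i => ?_⟩
      have h5 : (((q i : 𝓞 F) * c (y i) : 𝓞 F) : F) = (q i : F) * (c (y i) : F) := by
        have h6 := map_mul (algebraMap (𝓞 F) F) (q i : 𝓞 F) (c (y i))
        rw [map_natCast] at h6
        exact h6
      rw [h5, ← hc, hq i]
      push_cast
      ring
    | zero => exact ⟨0, fun i => by simp⟩
    | add x y _ _ hx hy =>
      obtain ⟨z, hz⟩ := hx
      obtain ⟨w, hw⟩ := hy
      refine ⟨z + w, fun i => ?_⟩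
      rw [Pi.add_apply, mul_add, hz, hw, Pi.add_apply]
      exact (map_add (algebraMap (𝓞 F) F) _ _).symm
    | smul a x _ hx =>
      obtain ⟨z, hz⟩ := hx
      refine ⟨a • z, fun i => ?_⟩
      rw [Pi.smul_apply, Algebra.smul_def, Pi.smul_apply, smul_eq_mul]
      rw [show ((a * z i : 𝓞 F) : F) = algebraMap (𝓞 F) F a * (z i : F) from
        map_mul (algebraMap (𝓞 F) F) _ _, ← hz]
      ring

/-- C11 -/
theorem t_STA : S_STA := by
  intro F _ _ n L hL 𝔪 hm
  obtain ⟨M, hM, hMm⟩ := exists_nat_mem hm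
  obtain ⟨d, hd, h1, h2⟩ := exists_sandwich hL
  refine ⟨M * d * d, mul_ne_zero (mul_ne_zero hM hd) hd, ?_⟩
  have key : ∀ γ : GL (Fin n) F, Cg (M * d * d) γ → ∀ y ∈ L, γ.1.mulVec y - y ∈ 𝔪 • L := by
    rintro γ ⟨⟨A, rfl, hA⟩, -⟩ y hy
    choose q hq using hA
    obtain ⟨z, hz⟩ := h2 y hy
    have e : (Matrix.GeneralLinearGroup.map (algebraMap (𝓞 F) F) A).1.mulVec y - y =
        (M : 𝓞 F) • (fun i => (d : F) * ((Matrix.mulVec (Matrix.of q) z i : 𝓞 F) : F)) := by
      funext i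
      have e1 : ((Matrix.mulVec (Matrix.of q) z i : 𝓞 F) : F) = ∑ j, (q i j : F) * (z j : F) := by
        rw [Matrix.mulVec, dotProduct]
        rw [show ((∑ j, Matrix.of q i j * z j : 𝓞 F) : F) =
          algebraMap (𝓞 F) F (∑ j, Matrix.of q i j * z j) from rfl, map_sum]
        exact Finset.sum_congr rfl fun j _ => map_mul _ _ _
      have e2 : y i = ∑ j, ((1 : Matrix (Fin n) (Fin n) F) i j) * y j := by
        have := congrFun (Matrix.one_mulVec y) i
        rw [← this]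
        simp [Matrix.mulVec, dotProduct]
      rw [smul_fun, Pi.sub_apply]
      have e3 : (Matrix.GeneralLinearGroup.map (algebraMap (𝓞 F) F) A).1.mulVec y i =
        ∑ j, (algebraMap (𝓞 F) F (A.1 i j)) * y j := rfl
      rw [e3]
      refine (congrArg (fun t => ∑ j, (algebraMap (𝓞 F) F (A.1 i j)) * y j - t) e2).trans ?_
      beta_reduce
      rw [← Finset.sum_sub_distrib, e1, Finset.mul_sum, Finset.mul_sum]
      refine Finset.sum_congr rfl fun j _ => ?_
      rw [← hz j, ← sub_mul]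
      have e4 : (algebraMap (𝓞 F) F (A.1 i j)) - (1 : Matrix (Fin n) (Fin n) F) i j =
          (M : F) * d * d * (q i j : F) := by
        have h := congrArg (algebraMap (𝓞 F) F) (hq i j)
        rw [map_sub, map_mul, map_natCast] at h
        have h' : algebraMap (𝓞 F) F ((1 : Matrix (Fin n) (Fin n) (𝓞 F)) i j) =
            (1 : Matrix (Fin n) (Fin n) F) i j := by
          rw [Matrix.one_apply, Matrix.one_apply]; split_ifs <;> simp
        rw [h'] at h
        rw [h]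
        push_cast
        rfl
      rw [e4]
      have e5 : ((M : 𝓞 F) : F) = M := map_natCast (algebraMap (𝓞 F) F) M
      rw [e5]
      ring
    rw [e]
    exact Submodule.smul_mem_smul hMm (h1 _)
  intro γ hγ
  have hk : ∀ δ : GL (Fin n) F, Cg (M * d * d) δ → gm δ L ≤ L := by
    intro δ hδ x hx
    obtain ⟨y, hy, rfl⟩ := mem_gm.1 hx
    have := L.add_mem (Submodule.smul_le_right (key δ hδ y hy)) hy
    rwa [sub_add_cancel] at this
  refine ⟨le_antisymm (hk γ hγ) ?_, key γ hγ⟩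
  have := gm_mono (g := γ) (hk _ (cg_inv hγ))
  rwa [gm_gm_inv] at this

end Pool.Agent.T2h61.CG.TSTA
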