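import Pool.Agent.T2h61.CG.T_STA

/-!
# C12: the stabilisers of level structures are small
-/

set_option autoImplicit false

open NumberField IsDedekindDomain Matrix

noncomputable section

namespace Pool.Agent.T2h61.CG.TSTB

open TSTA

variable {F : Type} [Field F] [NumberField F] {n : ℕ}

/-- C12 -/
theorem t_STB : S_STB := by
  intro F _ _ n L hL N hN
  obtain ⟨d, hd, h1, h2⟩ := exists_sandwich hL
  have hdF : (d : F) ≠ 0 := Nat.cast_ne_zero.2 hd
  refine ⟨N * d * d, mul_ne_zero (mul_ne_zero hN hd) hd, ?_⟩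
  have hnat : ∀ k : ℕ, ((k : 𝓞 F) : F) = k := fun k => map_natCast (algebraMap (𝓞 F) F) k
  -- the matrix of `δ - 1`
  have key : ∀ δ : GL (Fin n) F,
      (∀ y ∈ L, δ.1.mulVec y - y ∈ Ideal.span {((N * d * d : ℕ) : 𝓞 F)} • L) →
      ∃ Z : Matrix (Fin n) (Fin n) (𝓞 F),
        δ.1 = (1 + (N : 𝓞 F) • Z).map (algebraMap (𝓞 F) F) := by
    intro δ hδ
    have h3 : ∀ j : Fin n, ∃ z : Fin n → 𝓞 F, ∀ i,
        δ.1 i j - (1 : Matrix (Fin n) (Fin n) F) i j = (N : F) * (z i : F) := by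
      intro j
      have h4 := hδ _ (h1 (Pi.single j 1))
      rw [Submodule.ideal_span_singleton_smul] at h4
      obtain ⟨w, hw, hw'⟩ := (Submodule.mem_smul_pointwise_iff_exists _ _ _).1 h4
      obtain ⟨z, hz⟩ := h2 w hw
      refine ⟨z, fun i => ?_⟩
      have e1 : (fun i => (d : F) * ((Pi.single j (1 : 𝓞 F) : Fin n → 𝓞 F) i : F)) =
          (d : F) • (Pi.single j 1 : Fin n → F) := by
        funext i
        rw [Pi.smul_apply, smul_eq_mul]
        by_cases h : i = j
        · subst h; rw [Pi.single_eq_same, Pi.single_eq_same]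
          rw [show ((1 : 𝓞 F) : F) = 1 from map_one (algebraMap (𝓞 F) F)]
        · rw [Pi.single_eq_of_ne h, Pi.single_eq_of_ne h]
          rw [show ((0 : 𝓞 F) : F) = 0 from map_zero (algebraMap (𝓞 F) F)]
      rw [e1, Matrix.mulVec_smul, Matrix.mulVec_single_one] at hw'
      have e2 := congrFun hw' i
      rw [smul_fun] at e2
      rw [Pi.sub_apply, Pi.smul_apply, Pi.smul_apply, smul_eq_mul, smul_eq_mul, hnat] at e2
      have e3 : δ.1.col j i = δ.1 i j := rfl
      rw [e3] at e2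
      have e4 : (1 : Matrix (Fin n) (Fin n) F) i j = (Pi.single j 1 : Fin n → F) i := by
        rw [Matrix.one_apply, Pi.single_apply]
      rw [e4]
      apply mul_left_cancel₀ hdF
      rw [mul_sub, ← e2, ← hz i]
      push_cast
      ring
    choose z hz using h3
    refine ⟨Matrix.of fun i j => z j i, ?_⟩
    ext i j
    rw [Matrix.map_apply, Matrix.add_apply, Matrix.smul_apply, Matrix.of_apply, smul_eq_mul, map_add,
      map_mul, map_natCast]
    have h' : algebraMap (𝓞 F) F ((1 : Matrix (Fin n) (Fin n) (𝓞 F)) i j) =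
        (1 : Matrix (Fin n) (Fin n) F) i j := by
      rw [Matrix.one_apply, Matrix.one_apply]; split_ifs <;> simp
    rw [h']
    exact eq_add_of_sub_eq' (hz j i)
  intro γ hγL hγ hs
  have hγ' : ∀ y ∈ L, γ⁻¹.1.mulVec y - y ∈ Ideal.span {((N * d * d : ℕ) : 𝓞 F)} • L := by
    intro y hy
    have h5 : γ⁻¹.1.mulVec y ∈ L := by
      rw [← hγL] at hy
      exact mem_gm'.1 hy
    have h6 := hγ _ h5
    rw [mulVec_inv] at h6
    rw [← neg_sub]
    exact Submodule.neg_mem _ h6
  obtain ⟨Z, hZ⟩ := key γ hγ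
  obtain ⟨Z', hZ'⟩ := key γ⁻¹ hγ'
  have hinj : Function.Injective (fun M : Matrix (Fin n) (Fin n) (𝓞 F) =>
      M.map (algebraMap (𝓞 F) F)) := Matrix.map_injective (RingOfIntegers.coe_injective)
  have h7 : (1 + (N : 𝓞 F) • Z) * (1 + (N : 𝓞 F) • Z') = 1 := by
    apply hinj
    beta_reduce
    rw [Matrix.map_mul, ← hZ, ← hZ', ← Units.val_mul, mul_inv_cancel, Units.val_one,
      Matrix.map_one _ (map_zero _) (map_one _)]
  have h8 : (1 + (N : 𝓞 F) • Z') * (1 + (N : 𝓞 F) • Z) = 1 := by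
    apply hinj
    beta_reduce
    rw [Matrix.map_mul, ← hZ, ← hZ', ← Units.val_mul, inv_mul_cancel, Units.val_one,
      Matrix.map_one _ (map_zero _) (map_one _)]
  refine ⟨⟨⟨_, _, h7, h8⟩, ?_, fun i j => ?_⟩, hs⟩
  · apply Units.ext
    rw [hZ]
    rfl
  · change (N : 𝓞 F) ∣ (1 + (N : 𝓞 F) • Z) i j - (1 : Matrix (Fin n) (Fin n) (𝓞 F)) i j
    rw [Matrix.add_apply, add_sub_cancel_left, Matrix.smul_apply, smul_eq_mul]
    exact dvd_mul_right _ _

end Pool.Agent.T2h61.CG.TSTB
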