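import Pool.Agent.T2h61.CG.T_HK
import Pool.Agent.T2h62.CG.Bas

/-!
# The Hecke operators on the `SL_n(F)`-invariant functions
-/

set_option autoImplicit false

open NumberField IsDedekindDomain Matrix Polynomial

noncomputable section

namespace Pool.Agent.T2h61.CG.TTHE

open Pool.Agent.T2h61.CG.THK (mem_of_mul gm_mem_sub sub_gm t_HKL)

variable {F : Type} [Field F] [NumberField F] {n : ℕ} {R W : Type} [CommRing R] [AddCommGroup W]
  [Module R W]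

open scoped Classical in
/-- the operator `U` -/
def U (R : Type) [CommRing R] [Module R W] (𝔪 : Ideal (𝓞 F)) (v : HeightOneSpectrum (𝓞 F))
    (a : 𝓞 F) : Module.End R (Pt F n → W) where
  toFun φ x :=
    if h : Ok 𝔪 x ∧ (Sub v 1 x.L).Nonempty then φ ⟨x.s, h.2.choose, fun i => a • x.e i⟩ else 0
  map_add' φ ψ := by
    funext x
    by_cases h : Ok 𝔪 x ∧ (Sub v 1 x.L).Nonempty
    · simp only [Pi.add_apply, dif_pos h]
    · simp only [Pi.add_apply, dif_neg h, add_zero]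
  map_smul' r φ := by
    funext x
    by_cases h : Ok 𝔪 x ∧ (Sub v 1 x.L).Nonempty
    · simp only [Pi.smul_apply, dif_pos h, RingHom.id_apply]
    · simp only [Pi.smul_apply, dif_neg h, smul_zero]

/-- the value of `U f` -/
theorem U_apply (hY : S_HYP) (hn : 2 ≤ n) {𝔪 : Ideal (𝓞 F)} {v : HeightOneSpectrum (𝓞 F)}
    {a : 𝓞 F} (hv : ¬ 𝔪 ≤ v.asIdeal) (ha : a ∈ v.asIdeal) {f : Pt F n → W}
    (hf : Lev 𝔪 f) (hi : Inv f) {x : Pt F n} (hx : Ok 𝔪 x)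
    {L' : Submodule (𝓞 F) (Fin n → F)} (hL' : L' ∈ Sub v 1 x.L) :
    U R 𝔪 v a f x = f ⟨x.s, L', fun i => a • x.e i⟩ := by
  classical
  have h : Ok 𝔪 x ∧ (Sub v 1 x.L).Nonempty := ⟨hx, L', hL'⟩
  show (dite _ _ _ : W) = _
  rw [dif_pos h]
  obtain ⟨g, hg1, hg2, hg3, hg4⟩ := hY F n hn x.L hx.1 v 𝔪 hv _ h.2.choose_spec _ hL'
  rw [← hi g hg1]
  refine hf.eq ⟨?_, hg3, fun i => ?_⟩
  · show (fun w => sg g.1.det w * x.s w) = x.s
    funext w
    rw [hg1, sg_one, one_mul]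
  · show g.1.mulVec (a • x.e i) - a • x.e i ∈ 𝔪 • gm g h.2.choose
    rw [hg3, mulVec_smul_int, ← smul_sub]
    apply mem_of_mul hL'
    rw [mul_comm, Submodule.mul_smul]
    exact Submodule.smul_mem_smul ha (hg4 _ (hx.2.1 i))

theorem U_lev (hY : S_HYP) (hn : 2 ≤ n) {𝔪 : Ideal (𝓞 F)} {v : HeightOneSpectrum (𝓞 F)}
    {a : 𝓞 F} (hv : ¬ 𝔪 ≤ v.asIdeal) (ha : a ∈ v.asIdeal) {f : Pt F n → W}
    (hf : Lev 𝔪 f) (hi : Inv f) : Lev 𝔪 (U R 𝔪 v a f) := by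
  classical
  refine ⟨fun x hx => ?_, fun x y hx hy hxy => ?_⟩
  · have h : ¬ (Ok 𝔪 x ∧ (Sub v 1 x.L).Nonempty) := fun h => hx h.1
    show (dite _ _ _ : W) = 0
    rw [dif_neg h]
  · by_cases hne : (Sub v 1 x.L).Nonempty
    · obtain ⟨L', hL'⟩ := hne
      rw [U_apply hY hn hv ha hf hi hx hL', U_apply hY hn hv ha hf hi hy (hxy.2.1 ▸ hL')]
      refine hf.eq ⟨hxy.1, rfl, fun i => ?_⟩
      show a • x.e i - a • y.e i ∈ 𝔪 • L'
      rw [← smul_sub]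
      apply mem_of_mul hL'
      rw [mul_comm, Submodule.mul_smul]
      exact Submodule.smul_mem_smul ha (hxy.2.2 i)
    · have h : ¬ (Ok 𝔪 x ∧ (Sub v 1 x.L).Nonempty) := fun h => hne h.2
      have h' : ¬ (Ok 𝔪 y ∧ (Sub v 1 y.L).Nonempty) := fun h => hne (hxy.2.1 ▸ h.2)
      show (dite _ _ _ : W) = (dite _ _ _ : W)
      rw [dif_neg h, dif_neg h']

theorem U_inv (hY : S_HYP) (hn : 2 ≤ n) {𝔪 : Ideal (𝓞 F)} {v : HeightOneSpectrum (𝓞 F)}
    {a : 𝓞 F} (hv : ¬ 𝔪 ≤ v.asIdeal) (ha : a ∈ v.asIdeal) {f : Pt F n → W}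
    (hf : Lev 𝔪 f) (hi : Inv f) : Inv (U R 𝔪 v a f) := by
  classical
  intro g hg x
  by_cases hx : Ok 𝔪 x
  · by_cases hne : (Sub v 1 x.L).Nonempty
    · obtain ⟨L', hL'⟩ := hne
      have hgL' : gm g L' ∈ Sub v 1 (ga g x).L := gm_mem_sub.2 hL'
      rw [U_apply hY hn hv ha hf hi (ok_ga hx) hgL', U_apply hY hn hv ha hf hi hx hL']
      have e : (⟨(ga g x).s, gm g L', fun i => a • (ga g x).e i⟩ : Pt F n) =
          ga g (⟨x.s, L', fun i => a • x.e i⟩ : Pt F n) := by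
        show (⟨fun w => sg g.1.det w * x.s w, gm g L', fun i => a • g.1.mulVec (x.e i)⟩ : Pt F n) =
          ⟨fun w => sg g.1.det w * x.s w, gm g L', fun i => g.1.mulVec (a • x.e i)⟩
        congr 1
        funext i
        exact (mulVec_smul_int g.1 a (x.e i)).symm
      rw [e, hi g hg]
    · have h : ¬ (Ok 𝔪 x ∧ (Sub v 1 x.L).Nonempty) := fun h => hne h.2
      have h' : ¬ (Ok 𝔪 (ga g x) ∧ (Sub v 1 (ga g x).L).Nonempty) := by
        rintro ⟨-, h2⟩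
        have h3 : Sub v 1 (ga g x).L = gm g '' Sub v 1 x.L := sub_gm g v 1 x.L
        rw [h3, Set.image_nonempty] at h2
        exact hne h2
      show (dite _ _ _ : W) = (dite _ _ _ : W)
      rw [dif_neg h, dif_neg h']
  · rw [(U_lev (R := R) hY hn hv ha hf hi).1 x hx,
      (U_lev (R := R) hY hn hv ha hf hi).1 _ (fun h => hx (ok_ga_iff.1 h))]

/-- the powers of `U` -/
theorem pow_U (hY : S_HYP) (hC : S_CHN) (hn : 2 ≤ n) {𝔪 : Ideal (𝓞 F)}
    {v : HeightOneSpectrum (𝓞 F)} {a : 𝓞 F} (hv : ¬ 𝔪 ≤ v.asIdeal) (ha : a ∈ v.asIdeal)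
    (ha1 : a - 1 ∈ 𝔪) {f : Pt F n → W} (hf : Lev 𝔪 f) (hi : Inv f) (j : ℕ) :
    Lev 𝔪 ((U R 𝔪 v a ^ j) f) ∧ Inv ((U R 𝔪 v a ^ j) f) ∧
    ∀ x : Pt F n, Ok 𝔪 x → ∀ L' ∈ Sub v (j + 1) x.L,
      (U R 𝔪 v a ^ (j + 1)) f x = f ⟨x.s, L', fun i => a • x.e i⟩ := by
  induction j with
  | zero =>
    refine ⟨hf, hi, fun x hx L' hL' => ?_⟩
    rw [zero_add, pow_one]
    exact U_apply hY hn hv ha hf hi hx hL'
  | succ j ih =>
    obtain ⟨h1, h2, h3⟩ := ih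
    have e : (U R 𝔪 v a ^ (j + 1)) f = U R 𝔪 v a ((U R 𝔪 v a ^ j) f) := by
      rw [pow_succ', Module.End.mul_apply]
    have h1' : Lev 𝔪 ((U R 𝔪 v a ^ (j + 1)) f) := by
      rw [e]; exact U_lev hY hn hv ha h1 h2
    have h2' : Inv ((U R 𝔪 v a ^ (j + 1)) f) := by
      rw [e]; exact U_inv hY hn hv ha h1 h2
    refine ⟨h1', h2', fun x hx L' hL' => ?_⟩
    obtain ⟨L'', hL'', hL3⟩ := hC F n x.L hx.1 v (j + 1) L' hL'
    rw [pow_succ', Module.End.mul_apply, U_apply hY hn hv ha h1' h2' hx hL'']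
    rw [h3 _ (ok_sub ha ha1 hx hL'') L' hL3]
    refine hf.eq ⟨rfl, rfl, fun i => ?_⟩
    show a • a • x.e i - a • x.e i ∈ 𝔪 • L'
    have e2 : a • a • x.e i - a • x.e i = (a - 1) • (a • x.e i) := by
      rw [sub_smul, one_smul]
    rw [e2]
    exact Submodule.smul_mem_smul ha1 (hL'.1 (Submodule.smul_mem_smul ha (hx.2.1 i)))

/-- the Hecke operators -/
theorem hk_eq (hY : S_HYP) (hC : S_CHN) (hG : S_GRS) (hstd : IsLat (stdL F n)) (hn : 2 ≤ n)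
    {𝔪 : Ideal (𝓞 F)} {v : HeightOneSpectrum (𝓞 F)} {a : 𝓞 F} (hv : ¬ 𝔪 ≤ v.asIdeal)
    (ha : a ∈ v.asIdeal) (ha1 : a - 1 ∈ 𝔪) {f : Pt F n → W} (hf : Lev 𝔪 f) (hi : Inv f) (j : ℕ) :
    hk R 𝔪 v (j + 1) a f = (deg n v (j + 1) : R) • (U R 𝔪 v a ^ (j + 1)) f := by
  classical
  funext x
  by_cases hx : Ok 𝔪 x
  · have h := (hG F n x.L hx.1 v (j + 1))
    have h1 : Ok 𝔪 x ∧ (Sub v (j + 1) x.L).Finite := ⟨hx, h.1⟩
    show (dite _ _ _ : W) = _
    rw [dif_pos h1, Pi.smul_apply]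
    rw [Finset.sum_congr rfl (g := fun _ => (U R 𝔪 v a ^ (j + 1)) f x) (fun L' hL' =>
      ((pow_U (R := R) hY hC hn hv ha ha1 hf hi j).2.2 x hx L'
        ((Set.Finite.mem_toFinset _).1 hL')).symm)]
    rw [Finset.sum_const, Nat.cast_smul_eq_nsmul]
    congr 1
    rw [deg, (hG F n _ hstd v (j + 1)).2, ← h.2, ← Nat.card_eq_card_finite_toFinset h.1]
  · have h1 : ¬ (Ok 𝔪 x ∧ (Sub v (j + 1) x.L).Finite) := fun h' => hx h'.1
    show (dite _ _ _ : W) = _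
    rw [dif_neg h1, Pi.smul_apply]
    rw [(pow_U (R := R) hY hC hn hv ha ha1 hf hi (j + 1)).1.1 x hx, smul_zero]

theorem isLat_stdL (F : Type) [Field F] [NumberField F] (n : ℕ) : IsLat (stdL F n) := by
  refine ⟨Submodule.fg_span (Set.finite_range _), ?_⟩
  rw [eq_top_iff]
  intro y _
  have h : y = ∑ i, y i • (Pi.single i 1 : Fin n → F) := by
    funext k
    simp [Finset.sum_apply, Pi.single_apply]
  rw [h]
  exact Submodule.sum_mem _ fun i _ => Submodule.smul_mem _ _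
    (Submodule.subset_span (Submodule.subset_span ⟨i, rfl⟩))

/-- the Lev, Inv functions -/
def LI (F R W : Type) [Field F] [NumberField F] [CommRing R] [AddCommGroup W] [Module R W] (n : ℕ)
    (𝔪 : Ideal (𝓞 F)) : Submodule R (Pt F n → W) where
  carrier := {f | Lev 𝔪 f ∧ Inv f}
  add_mem' := by
    rintro f g ⟨h1, h2⟩ ⟨h3, h4⟩
    refine ⟨⟨fun x hx => ?_, fun x y hx hy he => ?_⟩, fun g' hg x => ?_⟩
    · rw [Pi.add_apply, h1.1 x hx, h3.1 x hx, add_zero]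
    · rw [Pi.add_apply, Pi.add_apply, h1.2 x y hx hy he, h3.2 x y hx hy he]
    · rw [Pi.add_apply, Pi.add_apply, h2 g' hg, h4 g' hg]
  zero_mem' := ⟨⟨fun _ _ => rfl, fun _ _ _ _ _ => rfl⟩, fun _ _ _ => rfl⟩
  smul_mem' := by
    rintro r f ⟨h1, h2⟩
    refine ⟨⟨fun x hx => ?_, fun x y hx hy he => ?_⟩, fun g' hg x => ?_⟩
    · rw [Pi.smul_apply, h1.1 x hx, smul_zero]
    · rw [Pi.smul_apply, Pi.smul_apply, h1.2 x y hx hy he]
    · rw [Pi.smul_apply, Pi.smul_apply, h2 g' hg]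

theorem t_THE (hY : S_HYP) (hC : S_CHN) (hG : S_GRS) : S_THE := by
  intro F _ _ n hn R W _ _ _ 𝔪 v a h𝔪 hv ha ha1 f hf hi t ht
  have hstd := isLat_stdL F n
  have key : ∀ t : FreeAlgebra R (Fin n), ∀ f ∈ LI F R W n 𝔪,
      act1 R 𝔪 v a t f = aeval (U R 𝔪 v a) (Th R n v t) f ∧ act1 R 𝔪 v a t f ∈ LI F R W n 𝔪 := by
    intro t
    induction t using FreeAlgebra.induction with
    | grade0 r =>
      intro f hf
      simp only [act1, AlgHom.commutes, Module.algebraMap_end_apply]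
      exact ⟨trivial, (LI F R W n 𝔪).smul_mem r hf⟩
    | grade1 q =>
      intro f hf
      have h1 := hk_eq (R := R) hY hC hG hstd hn hv ha ha1 hf.1 hf.2 q.1
      have h2 := pow_U (R := R) hY hC hn hv ha ha1 hf.1 hf.2 (q.1 + 1)
      simp only [act1, FreeAlgebra.lift_ι_apply]
      rw [h1]
      refine ⟨?_, (LI F R W n 𝔪).smul_mem _ ⟨h2.1, h2.2.1⟩⟩
      simp only [Th, ThN, FreeAlgebra.lift_ι_apply, map_mul, aeval_C, map_pow, aeval_X,
        Module.End.mul_apply, Module.algebraMap_end_apply]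
    | mul b c hb hc =>
      intro f hf
      rw [map_mul, Module.End.mul_apply, map_mul, map_mul, Module.End.mul_apply]
      have h1 := hc f hf
      have h2 := hb _ h1.2
      exact ⟨by rw [h2.1, h1.1], h2.2⟩
    | add b c hb hc =>
      intro f hf
      rw [map_add, LinearMap.add_apply, map_add, map_add, LinearMap.add_apply]
      have h1 := hc f hf
      have h2 := hb f hf
      exact ⟨by rw [h2.1, h1.1], (LI F R W n 𝔪).add_mem h2.2 h1.2⟩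
  have h1 := (key t f ⟨hf, hi⟩).1
  rw [ht, map_zero] at h1
  exact h1

end Pool.Agent.T2h61.CG.TTHE
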