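import Pool.Agent.T2h61.CG.T_IND

/-!
# C8: transitivity on the level structures
-/

set_option autoImplicit false

open NumberField IsDedekindDomain Matrix

noncomputable section

namespace Pool.Agent.T2h61.CG.TTRA

variable {F : Type} [Field F] [NumberField F] {n : ℕ}

/-- coordinates modulo `𝔪` -/
theorem coord {L : Submodule (𝓞 F) (Fin n → F)} {𝔪 : Ideal (𝓞 F)} {e : Fin n → Fin n → F}
    (h : L ≤ Submodule.span (𝓞 F) (Set.range e) ⊔ 𝔪 • L) {y : Fin n → F} (hy : y ∈ L) :
    ∃ c : Fin n → 𝓞 F, y - ∑ i, c i • e i ∈ 𝔪 • L := by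
  obtain ⟨u, hu, w, hw, rfl⟩ := Submodule.mem_sup.1 (h hy)
  obtain ⟨c, rfl⟩ := (Submodule.mem_span_range_iff_exists_fun _).1 hu
  exact ⟨c, by rwa [add_sub_cancel_left]⟩

/-- C8 -/
theorem t_TRA : S_TRA := by
  intro F _ _ n 𝔪 𝔪₁ h01 h1 x y A hx hy hxy
  have hL : y.L = x.L := hxy.2.1
  have hs : y.s = x.s := hxy.1
  have hm : 𝔪 ≠ ⊥ := fun h => h1 (le_bot_iff.1 (h01.trans h.le))
  choose c hc using fun j => coord hx.2.2 (y := y.e j) (by rw [← hL]; exact hy.2.1 j)
  choose b hb using fun j => coord hy.2.2 (y := x.e j) (by rw [hL]; exact hx.2.1 j)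
  have hEq : Eqv 𝔪₁ y (rt (Matrix.of fun i j => c j i) x) := by
    refine ⟨hs, hL, fun j => ?_⟩
    rw [hL]
    exact hc j
  refine ⟨Matrix.of fun i j => c j i, fun i j => ?_, ?_, hEq⟩
  · -- congruent to `A`
    refine TIND.t_IND F n x.L hx.1 𝔪 hm x.e hx.2.1 (ok_mono h01 hx).2.2
      (fun i => c j i - A i j) ?_ i
    have h3 := hxy.2.2 j
    rw [hL] at h3
    have h4 := Submodule.smul_mono_left h01 (hc j)
    have h5 := Submodule.sub_mem _ h3 h4
    have e1 : ∑ i, (c j i - A i j) • x.e i =
        y.e j - (rt A x).e j - (y.e j - ∑ i, c j i • x.e i) := by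
      have e2 : (rt A x).e j = ∑ i, A i j • x.e i := rfl
      rw [e2]
      simp only [sub_smul, Finset.sum_sub_distrib]
      abel
    rw [e1]
    exact h5
  · -- invertible
    have hmul : ((Matrix.of fun i j => c j i) * (Matrix.of fun i j => b j i)).map
        (Ideal.Quotient.mk 𝔪₁) = 1 := by
      have key : ∀ i j, ((Matrix.of fun i j => c j i) * (Matrix.of fun i j => b j i)) i j -
          (1 : Matrix (Fin n) (Fin n) (𝓞 F)) i j ∈ 𝔪₁ := by
        intro i j
        refine TIND.t_IND F n x.L hx.1 𝔪₁ h1 x.e hx.2.1 hx.2.2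
          (fun i => ((Matrix.of fun i j => c j i) * (Matrix.of fun i j => b j i)) i j -
            (1 : Matrix (Fin n) (Fin n) (𝓞 F)) i j) ?_ i
        have h3 : ∑ k, b j k • (y.e k - ∑ i, c k i • x.e i) ∈ 𝔪₁ • x.L :=
          Submodule.sum_mem _ fun k _ => Submodule.smul_mem _ _ (hc k)
        have h4 : x.e j - ∑ k, b j k • y.e k ∈ 𝔪₁ • x.L := by
          have := hb j; rwa [hL] at this
        have h5 := Submodule.neg_mem _ (Submodule.add_mem _ h3 h4)
        have e1 : ∑ i, (((Matrix.of fun i j => c j i) * (Matrix.of fun i j => b j i)) i j -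
            (1 : Matrix (Fin n) (Fin n) (𝓞 F)) i j) • x.e i =
            -(∑ k, b j k • (y.e k - ∑ i, c k i • x.e i) + (x.e j - ∑ k, b j k • y.e k)) := by
          have e2 : ∑ i, (1 : Matrix (Fin n) (Fin n) (𝓞 F)) i j • x.e i = x.e j := by
            rw [Finset.sum_eq_single j]
            · rw [Matrix.one_apply_eq, one_smul]
            · intro i _ hij; rw [Matrix.one_apply_ne hij, zero_smul]
            · intro h; exact absurd (Finset.mem_univ j) h
          have e3 : ∑ i, ((Matrix.of fun i j => c j i) * (Matrix.of fun i j => b j i)) i j • x.e i =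
              ∑ k, b j k • ∑ i, c k i • x.e i := by
            simp only [Matrix.mul_apply, Matrix.of_apply, Finset.sum_smul, Finset.smul_sum]
            rw [Finset.sum_comm]
            refine Finset.sum_congr rfl fun k _ => Finset.sum_congr rfl fun i _ => ?_
            rw [smul_smul, mul_comm]
          simp only [sub_smul, Finset.sum_sub_distrib, smul_sub]
          rw [e2, e3]
          abel
        rw [e1]
        exact h5
      ext i j
      rw [Matrix.map_apply, Matrix.one_apply]
      have h3 := key i j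
      rw [← Ideal.Quotient.eq] at h3
      rw [h3, Matrix.one_apply]
      split_ifs <;> simp
    rw [Matrix.map_mul] at hmul
    exact IsUnit.of_mul_eq_one _ hmul

end Pool.Agent.T2h61.CG.TTRA
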