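import Pool.Agent.T2h61.CG.T_THE

/-!
# The germs of a cocycle
-/

set_option autoImplicit false

open NumberField IsDedekindDomain Matrix Polynomial

noncomputable section

namespace Pool.Agent.T2h61.CG.TVAN

variable {F : Type} [Field F] [NumberField F] {n : ℕ}

/-- small elements of `GL_n(F)` fix a point modulo `𝔪` -/
theorem eqv_small (hST : S_STA) {𝔪 : Ideal (𝓞 F)} (h𝔪 : 𝔪 ≠ ⊥) {x : Pt F n} (hx : Ok 𝔪 x) :
    ∃ N : ℕ, N ≠ 0 ∧ ∀ γ : GL (Fin n) F, Cg N γ → Eqv 𝔪 (ga γ⁻¹ x) x := by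
  obtain ⟨N, hN, h⟩ := hST F n x.L hx.1 𝔪 h𝔪
  refine ⟨N, hN, fun γ hγ => ?_⟩
  obtain ⟨h1, h2⟩ := h γ⁻¹ (cg_inv hγ)
  refine ⟨?_, h1, fun i => ?_⟩
  · show (fun w => sg γ⁻¹.1.det w * x.s w) = x.s
    funext w
    rw [sg_det_inv, hγ.2 w, one_mul]
  · show γ⁻¹.1.mulVec (x.e i) - x.e i ∈ 𝔪 • gm γ⁻¹ x.L
    rw [h1]
    exact h2 _ (hx.2.1 i)

variable {W : Type} [AddCommGroup W]

theorem z_one {z : GL (Fin n) F → Pt F n → W} (hz : ∀ g h, z (g * h) = z g + tr g (z h)) :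
    z 1 = 0 := by
  have h := hz 1 1
  have h1 : tr (1 : GL (Fin n) F) (z 1) = z 1 := by
    funext x
    rw [tr_apply, inv_one, ga_one]
  rw [mul_one, h1] at h
  simpa using h

theorem z_conj {𝔪 : Ideal (𝓞 F)} {z : GL (Fin n) F → Pt F n → W} (hl : ∀ g, Lev 𝔪 (z g))
    (hz : ∀ g h, z (g * h) = z g + tr g (z h)) (g γ : GL (Fin n) F) {x : Pt F n}
    (h : Eqv 𝔪 (ga γ⁻¹ x) x) : z (g * γ * g⁻¹) (ga g x) = z γ x := by
  have h1 : z (g * γ * g⁻¹) (ga g x) = z g (ga g x) + (z γ x + z g⁻¹ (ga γ⁻¹ x)) := by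
    rw [mul_assoc, hz g, Pi.add_apply, tr_apply, ga_inv_ga, hz γ, Pi.add_apply, tr_apply]
  have h2 : z g (ga g x) + z g⁻¹ x = 0 := by
    have h3 := congrFun (hz g g⁻¹) (ga g x)
    rw [mul_inv_cancel, z_one hz, Pi.zero_apply, Pi.add_apply, tr_apply, ga_inv_ga] at h3
    exact h3.symm
  rw [h1, (hl g⁻¹).eq h, ← add_assoc, add_comm (z g (ga g x)), add_assoc, h2, add_zero]

theorem t_KAP (hST : S_STA) : S_KAP := by
  intro F _ _ n hGT W _ 𝔪 h𝔪 z hl hz g hg x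
  by_cases hx : Ok 𝔪 x
  · obtain ⟨N1, hN1, h1⟩ := eqv_small hST h𝔪 hx
    obtain ⟨N2, hN2, h2⟩ := eqv_small hST h𝔪 (ok_ga (g := g) hx)
    have hadl : Adl (fun γ => z γ (ga g x)) := by
      refine ⟨N2, hN2, fun γ δ hγ hδ => ?_⟩
      show z (γ * δ) (ga g x) = z γ (ga g x) + z δ (ga g x)
      rw [hz, Pi.add_apply, tr_apply, (hl δ).eq (h2 γ hγ)]
    obtain ⟨N3, hN3, h3⟩ := hGT W _ hadl g hg
    refine ⟨N1 * N3, mul_ne_zero hN1 hN3, fun γ hγ => ?_⟩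
    have h4 := h3 γ (cg_mono (Dvd.intro_left N1 rfl) hγ)
    have h5 := z_conj hl hz g γ (h1 γ (cg_mono (Dvd.intro N3 rfl) hγ))
    exact h4.symm.trans h5
  · refine ⟨1, one_ne_zero, fun γ _ => ?_⟩
    rw [(hl γ).1 x hx, (hl γ).1 _ (fun h => hx (ok_ga_iff.1 h))]

/-- Hecke operators commute with linear maps of the coefficients -/
theorem hk_comp {R : Type} [CommRing R] [Module R W] {V : Type} [AddCommGroup V] [Module R V]
    (𝔪 : Ideal (𝓞 F)) (v : HeightOneSpectrum (𝓞 F)) (j : ℕ) (a : 𝓞 F) (T : W →ₗ[R] V)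
    (φ : Pt F n → W) : hk R 𝔪 v j a (fun x => T (φ x)) = fun x => T (hk R 𝔪 v j a φ x) := by
  classical
  funext x
  by_cases h : Ok 𝔪 x ∧ (Sub v j x.L).Finite
  · show (dite _ _ _ : V) = T (dite _ _ _ : W)
    rw [dif_pos h, dif_pos h, map_sum]
  · show (dite _ _ _ : V) = T (dite _ _ _ : W)
    rw [dif_neg h, dif_neg h, map_zero]

theorem act1_comp {R : Type} [CommRing R] [Module R W] {V : Type} [AddCommGroup V] [Module R V]
    (𝔪 : Ideal (𝓞 F)) (v : HeightOneSpectrum (𝓞 F)) (a : 𝓞 F) (T : W →ₗ[R] V)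
    (t : FreeAlgebra R (Fin n)) (φ : Pt F n → W) :
    act1 R 𝔪 v a t (fun x => T (φ x)) = fun x => T (act1 R 𝔪 v a t φ x) := by
  let T' : (Pt F n → W) →ₗ[R] (Pt F n → V) :=
    { toFun := fun φ x => T (φ x)
      map_add' := fun φ ψ => by funext x; exact map_add T _ _
      map_smul' := fun r φ => by funext x; exact map_smul T _ _ }
  have h1 := Pool.Agent.T2h62.CG.lift_comm (R := R)
    (fun q : Fin n => hk (n := n) (W := W) R 𝔪 v (q.1 + 1) a)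
    (fun q : Fin n => hk (n := n) (W := V) R 𝔪 v (q.1 + 1) a) T'
    (fun q φ => (hk_comp 𝔪 v (q.1 + 1) a T φ).symm) t φ
  exact h1.symm

/-- the functions on `GL_n(F)` which vanish on a congruence subgroup -/
def Zg (F R W : Type) [Field F] [NumberField F] [CommRing R] [AddCommGroup W] [Module R W]
    (n : ℕ) : Submodule R (GL (Fin n) F → W) where
  carrier := {f | ∃ N : ℕ, N ≠ 0 ∧ ∀ γ, Cg N γ → f γ = 0}
  add_mem' := by
    rintro f g ⟨N, hN, h⟩ ⟨N', hN', h'⟩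
    refine ⟨N * N', mul_ne_zero hN hN', fun γ hγ => ?_⟩
    rw [Pi.add_apply, h γ (cg_mono (Dvd.intro N' rfl) hγ),
      h' γ (cg_mono (Dvd.intro_left N rfl) hγ), add_zero]
  zero_mem' := ⟨1, one_ne_zero, fun _ _ => rfl⟩
  smul_mem' := by
    rintro r f ⟨N, hN, h⟩
    exact ⟨N, hN, fun γ hγ => by rw [Pi.smul_apply, h γ hγ, smul_zero]⟩

theorem t_VAN (hK : S_KAP) (hT : S_THE) : S_VAN := by
  intro F _ _ n hn hGT R W _ _ _ 𝔪 v a h𝔪 hv ha ha1 z hl hz t ht x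
  let V := (GL (Fin n) F → W) ⧸ Zg F R W n
  -- the germs
  let φ : Pt F n → (GL (Fin n) F → W) := fun x γ => z γ x
  let κ : Pt F n → V := fun x => (Zg F R W n).mkQ (φ x)
  have hκl : Lev 𝔪 κ := by
    refine ⟨fun x hx => ?_, fun x y hx hy he => ?_⟩
    · have : φ x = 0 := by
        funext γ
        exact (hl γ).1 x hx
      show (Zg F R W n).mkQ (φ x) = 0
      rw [this, map_zero]
    · have : φ x = φ y := by
        funext γ
        exact (hl γ).2 x y hx hy he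
      show (Zg F R W n).mkQ (φ x) = (Zg F R W n).mkQ (φ y)
      rw [this]
  have hκi : Inv κ := by
    intro g hg x
    show (Zg F R W n).mkQ (φ (ga g x)) = (Zg F R W n).mkQ (φ x)
    rw [← sub_eq_zero, ← map_sub]
    apply (Submodule.Quotient.mk_eq_zero _).2
    obtain ⟨N, hN, h⟩ := hK F n hGT W 𝔪 h𝔪 z hl hz g hg x
    refine ⟨N, hN, fun γ hγ => ?_⟩
    rw [Pi.sub_apply, sub_eq_zero]
    exact h γ hγ
  have h1 := hT F n hn R V 𝔪 v a h𝔪 hv ha ha1 κ hκl hκi t ht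
  rw [act1_comp 𝔪 v a ((Zg F R W n).mkQ) t φ] at h1
  have h2 := (Submodule.Quotient.mk_eq_zero _).1 (congrFun h1 x)
  obtain ⟨N, hN, h3⟩ := h2
  refine ⟨N, hN, fun γ hγ => ?_⟩
  have h4 := h3 γ hγ
  have h5 := congrFun (act1_comp 𝔪 v a (LinearMap.proj γ : (GL (Fin n) F → W) →ₗ[R] W) t φ) x
  exact h5.trans h4

end Pool.Agent.T2h61.CG.TVAN
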