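import Pool.Agent.T2h61.CG.Fin
import Pool.Agent.T2h61.CG.T_BIG
import Pool.Agent.T2h61.CG.T_CLS
import Pool.Agent.T2h61.CG.T_CNP
import Pool.Agent.T2h61.CG.T_COB
import Pool.Agent.T2h61.CG.T_DIR
import Pool.Agent.T2h61.CG.T_DSC
import Pool.Agent.T2h61.CG.T_EXP
import Pool.Agent.T2h61.CG.T_EXT
import Pool.Agent.T2h61.CG.T_FRB
import Pool.Agent.T2h61.CG.T_GRP
import Pool.Agent.T2h61.CG.T_GT2
import Pool.Agent.T2h61.CG.T_GT3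
import Pool.Agent.T2h61.CG.T_HK
import Pool.Agent.T2h61.CG.T_HYP
import Pool.Agent.T2h61.CG.T_IND
import Pool.Agent.T2h61.CG.T_INV2
import Pool.Agent.T2h61.CG.T_KU2
import Pool.Agent.T2h61.CG.T_KU3
import Pool.Agent.T2h61.CG.T_LAT
import Pool.Agent.T2h61.CG.T_LIF
import Pool.Agent.T2h61.CG.T_LVL
import Pool.Agent.T2h61.CG.T_MEN
import Pool.Agent.T2h61.CG.T_ORB
import Pool.Agent.T2h61.CG.T_RAY
import Pool.Agent.T2h61.CG.T_SAT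
import Pool.Agent.T2h61.CG.T_SLG
import Pool.Agent.T2h61.CG.T_SML
import Pool.Agent.T2h61.CG.T_STA
import Pool.Agent.T2h61.CG.T_STB
import Pool.Agent.T2h61.CG.T_THE
import Pool.Agent.T2h61.CG.T_TRA
import Pool.Agent.T2h61.CG.T_VAN

/-!
# Calegari–Geraghty for `GL_n` over number fields: everything together
-/

set_option autoImplicit false

open NumberField IsDedekindDomain Matrix Polynomial

noncomputable section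

namespace Pool.Agent.T2h61.CG

theorem a_DIR : S_DIR := TDIR.t_DIR TRAY.t_RAY
theorem a_EXP : S_EXP := TEXP.t_EXP a_DIR
theorem a_GT2 : S_GT2 := TGT2.t_GT2 (TINV2.t_INV2 a_EXP TMEN.t_MEN TKU2.t_KU2) TKU2.t_KU2 TSLG.t_SLG
theorem a_GT3 : S_GT3 :=
  TGT3.t_GT3 (TSML.t_SML TKU3.t_KU3) (TBIG.t_BIG TKU3.t_KU3) TSLG.t_SLG
theorem a_GRS : S_GRS := TLAT.t_GRS TLVL.t_LVL TIND.t_IND
theorem a_THE : S_THE :=
  TTHE.t_THE (THYP.t_HYP TLVL.t_LVL TIND.t_IND) (THYP.t_CHN TLVL.t_LVL TIND.t_IND) a_GRS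
theorem a_VAN : S_VAN := TVAN.t_VAN (TVAN.t_KAP TSTA.t_STA) a_THE
theorem a_COB : S_COB := TCOB.t_COB (TORB.t_ORB TCLS.t_CLS) TSTB.t_STB
theorem a_DSC : S_DSC := TDSC.t_DSC a_THE TLIF.t_LIF TTRA.t_TRA
theorem a_SAT : S_SAT := TSAT.t_SAT a_GRS TCNP.t_CNP

theorem a_main (F : Type) [Field F] [NumberField F] (n : ℕ) (hn : 2 ≤ n)
    (𝔪 : Ideal (𝓞 F)) (h𝔪 : 𝔪 ≠ ⊥) (S : Set (HeightOneSpectrum (𝓞 F))) (hSf : S.Finite)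
    (hS : ∀ v, 𝔪 ≤ v.asIdeal → v ∈ S) (a : HeightOneSpectrum (𝓞 F) → 𝓞 F)
    (ha : ∀ v ∉ S, a v ∈ v.asIdeal ∧ a v - 1 ∈ 𝔪) (R W k : Type) [CommRing R] [AddCommGroup W]
    [Module R W] [Field k] [IsAlgClosed k] [Algebra R k] (H : Subgroup (GL (Fin n) (𝓞 F ⧸ 𝔪)))
    (ρW : Representation R H W) (lam : FreeAlgebra R (Ix n S) →ₐ[R] k)
    (hl : Supp0 a ρW lam ∨ (3 ≤ n ∨ Infinite (𝓞 F)ˣ) ∧ Supp1 a ρW lam) :
    (∃ S' : Set (HeightOneSpectrum (𝓞 F)), S ⊆ S' ∧ S'.Finite ∧ ∃ c : HeightOneSpectrum (𝓞 F) → k,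
      ∀ v ∉ S', ∀ j, 1 ≤ j → j ≤ n → ev lam v j = deg n v j * c v ^ j) ∧
    ∀ p : ℕ, p.Prime → CharP k p → ∀ (L : Type) [Field L] [NumberField L] [Algebra F L]
      [IsGalois F L] (ρ : Gal(L/F) →* GL (Fin n) k), Attached lam L ρ →
      ∃ w : Fin n → k, w ≠ 0 ∧ ∀ g, ∃ b : k, (ρ g).1.mulVec w = b • w :=
  main a_THE TEXT.t_EXT a_GRS THK.t_HKG THK.t_HKA a_VAN a_COB a_DSC a_GT2 a_GT3 TGRP.t_GRP
    TFRB.t_FRB a_SAT F n hn 𝔪 h𝔪 S hSf hS a ha R W k H ρW lam hl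

end Pool.Agent.T2h61.CG
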