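import Pool.Agent.T2h61.CG.Def

/-!
# Calegari–Geraghty for `GL_n` over number fields: basic lemmas
-/

set_option autoImplicit false

open NumberField IsDedekindDomain Matrix

noncomputable section

namespace Pool.Agent.T2h61.CG

variable {F : Type} [Field F] [NumberField F] {n : ℕ}

/-! ## congruence subgroups -/

/-- `γ ∈ GL_n(𝓞)`, `γ ≡ 1` modulo `N`, and `det γ` is totally positive -/
def Cg (N : ℕ) (γ : GL (Fin n) F) : Prop :=
  (∃ A : GL (Fin n) (𝓞 F), γ = Matrix.GeneralLinearGroup.map (algebraMap (𝓞 F) F) A ∧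
    ∀ i j, (N : 𝓞 F) ∣ A.1 i j - (1 : Matrix (Fin n) (Fin n) (𝓞 F)) i j) ∧
  ∀ w, sg γ.1.det w = 1

theorem sg_mul {x y : F} (hx : x ≠ 0) (hy : y ≠ 0) (w : {w : InfinitePlace F // w.IsReal}) :
    sg (x * y) w = sg x w * sg y w := by
  unfold sg
  have h1 : InfinitePlace.embedding_of_isReal w.2 x ≠ 0 := by
    rwa [Ne, map_eq_zero]
  have h2 : InfinitePlace.embedding_of_isReal w.2 y ≠ 0 := by
    rwa [Ne, map_eq_zero]
  rw [map_mul]
  rcases lt_or_gt_of_ne h1 with h | h <;> rcases lt_or_gt_of_ne h2 with h' | h'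
  · rw [if_pos (mul_pos_of_neg_of_neg h h'), if_neg (not_lt.2 h.le), if_neg (not_lt.2 h'.le)]
    decide
  · rw [if_neg (not_lt.2 (mul_neg_of_neg_of_pos h h').le), if_neg (not_lt.2 h.le), if_pos h']
    decide
  · rw [if_neg (not_lt.2 (mul_neg_of_pos_of_neg h h').le), if_pos h, if_neg (not_lt.2 h'.le)]
    decide
  · rw [if_pos (mul_pos h h'), if_pos h, if_pos h']
    decide

theorem sg_one (w : {w : InfinitePlace F // w.IsReal}) : sg (1 : F) w = 1 := by
  unfold sg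
  rw [map_one, if_pos one_pos]

theorem det_ne_zero (g : GL (Fin n) F) : g.1.det ≠ 0 :=
  (Matrix.isUnit_iff_isUnit_det g.1).1 g.isUnit |>.ne_zero

theorem sg_det_mul (g h : GL (Fin n) F) (w : {w : InfinitePlace F // w.IsReal}) :
    sg (g * h).1.det w = sg g.1.det w * sg h.1.det w := by
  rw [Units.val_mul, Matrix.det_mul, sg_mul (det_ne_zero g) (det_ne_zero h)]

theorem sg_det_inv (g : GL (Fin n) F) (w : {w : InfinitePlace F // w.IsReal}) :
    sg g⁻¹.1.det w = sg g.1.det w := by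
  have h := sg_det_mul g g⁻¹ w
  rw [mul_inv_cancel, Units.val_one, Matrix.det_one, sg_one] at h
  have h2 : sg g⁻¹.1.det w = (sg g.1.det w)⁻¹ := (inv_eq_of_mul_eq_one_right h.symm).symm
  rw [h2, Int.units_inv_eq_self]

theorem cg_one (N : ℕ) : Cg N (1 : GL (Fin n) F) := by
  refine ⟨⟨1, by rw [map_one], fun i j => ?_⟩, fun w => ?_⟩
  · rw [Units.val_one, sub_self]; exact dvd_zero _
  · rw [Units.val_one, Matrix.det_one, sg_one]

theorem cg_mono {N N' : ℕ} (h : N ∣ N') {γ : GL (Fin n) F} (hγ : Cg N' γ) : Cg N γ := by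
  obtain ⟨⟨A, h1, h2⟩, h3⟩ := hγ
  exact ⟨⟨A, h1, fun i j => (by exact_mod_cast Nat.cast_dvd_cast h : (N : 𝓞 F) ∣ N').trans (h2 i j)⟩,
    h3⟩

theorem cg_mul {N : ℕ} {γ δ : GL (Fin n) F} (hγ : Cg N γ) (hδ : Cg N δ) : Cg N (γ * δ) := by
  obtain ⟨⟨A, h1, h2⟩, h3⟩ := hγ
  obtain ⟨⟨B, h1', h2'⟩, h3'⟩ := hδ
  refine ⟨⟨A * B, by rw [map_mul, h1, h1'], fun i j => ?_⟩, fun w => ?_⟩
  · have e : (A * B).1 - 1 = (A.1 - 1) * B.1 + (B.1 - 1) := by
      rw [Units.val_mul, sub_mul, one_mul]; abel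
    have e' := congrFun (congrFun e i) j
    rw [Matrix.sub_apply] at e'
    rw [e', Matrix.add_apply, Matrix.mul_apply]
    refine dvd_add (Finset.dvd_sum fun k _ => ?_) (h2' i j)
    exact Dvd.dvd.mul_right (h2 i k) _
  · rw [sg_det_mul, h3, h3', one_mul]

theorem cg_inv {N : ℕ} {γ : GL (Fin n) F} (hγ : Cg N γ) : Cg N γ⁻¹ := by
  obtain ⟨⟨A, h1, h2⟩, h3⟩ := hγ
  refine ⟨⟨A⁻¹, by rw [map_inv, h1], fun i j => ?_⟩, fun w => ?_⟩
  · have e : A⁻¹.1 - 1 = -(A⁻¹.1 * (A.1 - 1)) := by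
      rw [mul_sub, mul_one, ← Units.val_mul, inv_mul_cancel, Units.val_one]; abel
    have e' := congrFun (congrFun e i) j
    rw [Matrix.sub_apply] at e'
    rw [e', Matrix.neg_apply, Matrix.mul_apply]
    exact (Finset.dvd_sum fun k _ => Dvd.dvd.mul_left (h2 k j) _).neg_right
  · rw [sg_det_inv, h3]

/-- conjugation by a fixed element is continuous for the congruence topology -/
theorem cg_conj (g : GL (Fin n) F) {N : ℕ} (hN : N ≠ 0) :
    ∃ N' : ℕ, N' ≠ 0 ∧ ∀ γ : GL (Fin n) F, Cg N' γ → Cg N (g * γ * g⁻¹) := by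
  classical
  -- a common denominator of the entries of `g` and `g⁻¹`
  obtain ⟨d, hd0, hd⟩ : ∃ d : ℕ, d ≠ 0 ∧ ∀ i j, (∃ y : 𝓞 F, (d : F) * g.1 i j = y) ∧
      ∃ y : 𝓞 F, (d : F) * g⁻¹.1 i j = y := by
    have key : ∀ x : F, ∃ d : ℕ, d ≠ 0 ∧ ∃ y : 𝓞 F, (d : F) * x = y := by
      intro x
      obtain ⟨⟨a, b⟩, hab⟩ := IsLocalization.surj (nonZeroDivisors (𝓞 F)) x
      have hb : (b : 𝓞 F) ≠ 0 := nonZeroDivisors.coe_ne_zero b
      have h1 : Ideal.absNorm (Ideal.span {(b : 𝓞 F)}) ≠ 0 := by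
        rw [Ne, Ideal.absNorm_eq_zero_iff, Ideal.span_singleton_eq_bot]; exact hb
      have h2 : ((Ideal.absNorm (Ideal.span {(b : 𝓞 F)}) : ℕ) : 𝓞 F) ∈ Ideal.span {(b : 𝓞 F)} :=
        Ideal.absNorm_mem _
      obtain ⟨c, hc⟩ := Ideal.mem_span_singleton.1 h2
      refine ⟨_, h1, c * a, ?_⟩
      have h3 : ((Ideal.absNorm (Ideal.span {(b : 𝓞 F)}) : ℕ) : F) = (b : 𝓞 F) * (c : F) := by
        have := congrArg (algebraMap (𝓞 F) F) hc
        simpa using this
      rw [h3]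
      have h4 : x * algebraMap (𝓞 F) F (b : 𝓞 F) = algebraMap (𝓞 F) F a := hab
      have h5 : ((c * a : 𝓞 F) : F) = (c : F) * (a : F) := by
        exact map_mul (algebraMap (𝓞 F) F) c a
      rw [h5]
      change _ = (c : F) * algebraMap (𝓞 F) F a
      rw [← h4]
      change (algebraMap (𝓞 F) F b) * (c : F) * x = (c : F) * (x * algebraMap (𝓞 F) F b)
      ring
    choose dd hdd yy hyy using key
    refine ⟨(∏ i, ∏ j, dd (g.1 i j)) * ∏ i, ∏ j, dd (g⁻¹.1 i j), ?_, ?_⟩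
    · refine mul_ne_zero ?_ ?_ <;>
      · refine Finset.prod_ne_zero_iff.2 fun i _ => Finset.prod_ne_zero_iff.2 fun j _ => hdd _
    · intro i j
      have hmul : ∀ (x : F) (D : ℕ), dd x ∣ D → ∃ y : 𝓞 F, (D : F) * x = y := by
        rintro x D ⟨e, rfl⟩
        refine ⟨e * yy x, ?_⟩
        have h5 : (((e : 𝓞 F) * yy x : 𝓞 F) : F) = (e : F) * (yy x : F) := by
          have h6 := map_mul (algebraMap (𝓞 F) F) (e : 𝓞 F) (yy x)
          rw [map_natCast] at h6
          exact h6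
        rw [h5, ← hyy x]
        push_cast
        ring
      constructor
      · refine hmul _ _ (Dvd.dvd.mul_right ?_ _)
        exact (Finset.dvd_prod_of_mem (fun j => dd (g.1 i j)) (Finset.mem_univ j)).trans
          (Finset.dvd_prod_of_mem (fun i => ∏ j, dd (g.1 i j)) (Finset.mem_univ i))
      · refine hmul _ _ (Dvd.dvd.mul_left ?_ _)
        exact (Finset.dvd_prod_of_mem (fun j => dd (g⁻¹.1 i j)) (Finset.mem_univ j)).trans
          (Finset.dvd_prod_of_mem (fun i => ∏ j, dd (g⁻¹.1 i j)) (Finset.mem_univ i))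
  choose y hy using fun i j => (hd i j).1
  choose y' hy' using fun i j => (hd i j).2
  -- the key computation: `g δ g⁻¹` is integral and congruent to `1`
  have main : ∀ A : GL (Fin n) (𝓞 F),
      (∀ i j, ((N * d * d : ℕ) : 𝓞 F) ∣ A.1 i j - (1 : Matrix (Fin n) (Fin n) (𝓞 F)) i j) →
      ∃ B : Matrix (Fin n) (Fin n) (𝓞 F), (g * Matrix.GeneralLinearGroup.map (algebraMap (𝓞 F) F) A *
        g⁻¹).1 = B.map (algebraMap (𝓞 F) F) ∧
        ∀ i j, (N : 𝓞 F) ∣ B i j - (1 : Matrix (Fin n) (Fin n) (𝓞 F)) i j := by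
    intro A hA
    choose q hq using hA
    refine ⟨1 + (N : 𝓞 F) • (Matrix.of y * Matrix.of q * Matrix.of y'), ?_, ?_⟩
    · have e1 : (Matrix.GeneralLinearGroup.map (algebraMap (𝓞 F) F) A).1 =
          1 + ((N : F) * d * d) • (Matrix.of q).map (algebraMap (𝓞 F) F) := by
        ext i j
        have h1 : A.1 i j = (1 : Matrix (Fin n) (Fin n) (𝓞 F)) i j + ((N * d * d : ℕ) : 𝓞 F) * q i j := by
          rw [← hq i j]; ring
        have h2 := congrArg (algebraMap (𝓞 F) F) h1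
        rw [map_add, map_mul] at h2
        change algebraMap (𝓞 F) F (A.1 i j) = _
        rw [h2, Matrix.add_apply, Matrix.smul_apply, Matrix.map_apply, Matrix.of_apply]
        congr 1
        · rw [Matrix.one_apply, Matrix.one_apply]; split_ifs <;> simp
        · rw [smul_eq_mul]; push_cast; rfl
      have e2 : (d : F) • g.1 = (Matrix.of y).map (algebraMap (𝓞 F) F) := by
        ext i j
        rw [Matrix.smul_apply, smul_eq_mul, hy]; rfl
      have e3 : (d : F) • g⁻¹.1 = (Matrix.of y').map (algebraMap (𝓞 F) F) := by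
        ext i j
        rw [Matrix.smul_apply, smul_eq_mul, hy']; rfl
      rw [Units.val_mul, Units.val_mul, e1]
      rw [mul_add, mul_one, add_mul, ← Units.val_mul, mul_inv_cancel, Units.val_one]
      have e4 : g.1 * ((N : F) * d * d) • (Matrix.of q).map (algebraMap (𝓞 F) F) * g⁻¹.1 =
          (N : F) • (((d : F) • g.1) * (Matrix.of q).map (algebraMap (𝓞 F) F) * ((d : F) • g⁻¹.1)) := by
        simp only [Matrix.mul_smul, Matrix.smul_mul, smul_smul]
        congr 1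
        ring
      rw [e4, e2, e3]
      ext i j
      rw [Matrix.add_apply, Matrix.smul_apply, Matrix.map_apply, Matrix.add_apply,
        Matrix.smul_apply, map_add, smul_eq_mul, smul_eq_mul, map_mul, map_natCast]
      congr 1
      · rw [Matrix.one_apply, Matrix.one_apply]; split_ifs <;> simp
      · rw [← Matrix.map_mul, ← Matrix.map_mul]; rfl
    · intro i j
      rw [Matrix.add_apply, Matrix.smul_apply, smul_eq_mul, add_sub_cancel_left]
      exact dvd_mul_right _ _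
  refine ⟨N * d * d, mul_ne_zero (mul_ne_zero hN hd0) hd0, ?_⟩
  intro γ hγ
  have hγ' := cg_inv hγ
  obtain ⟨⟨A, h1, h2⟩, h3⟩ := hγ
  obtain ⟨⟨A', h1', h2'⟩, -⟩ := hγ'
  obtain ⟨B, hB1, hB2⟩ := main A h2
  obtain ⟨B', hB1', -⟩ := main A' h2'
  have hinj : Function.Injective (fun M : Matrix (Fin n) (Fin n) (𝓞 F) =>
      M.map (algebraMap (𝓞 F) F)) := Matrix.map_injective (RingOfIntegers.coe_injective)
  have hBB : B * B' = 1 := by
    apply hinj
    show (B * B').map (algebraMap (𝓞 F) F) = (1 : Matrix (Fin n) (Fin n) (𝓞 F)).map (algebraMap (𝓞 F) F)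
    rw [Matrix.map_mul, ← hB1, ← hB1', ← Units.val_mul, ← h1, ← h1']
    rw [show g * γ * g⁻¹ * (g * γ⁻¹ * g⁻¹) = 1 by group, Units.val_one,
      Matrix.map_one _ (map_zero _) (map_one _)]
  have hBB' : B' * B = 1 := by
    apply hinj
    show (B' * B).map (algebraMap (𝓞 F) F) = (1 : Matrix (Fin n) (Fin n) (𝓞 F)).map (algebraMap (𝓞 F) F)
    rw [Matrix.map_mul, ← hB1, ← hB1', ← Units.val_mul, ← h1, ← h1']
    rw [show g * γ⁻¹ * g⁻¹ * (g * γ * g⁻¹) = 1 by group, Units.val_one,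
      Matrix.map_one _ (map_zero _) (map_one _)]
  refine ⟨⟨⟨B, B', hBB, hBB'⟩, ?_, hB2⟩, ?_⟩
  · apply Units.ext
    rw [h1, hB1]
    rfl
  · intro w
    rw [sg_det_mul, sg_det_mul, sg_det_inv, h3 w, mul_one]
    exact Int.units_mul_self _

end Pool.Agent.T2h61.CG
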