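import Mathlib

/-!
# The cohomology of the locally symmetric spaces of `GL_n` over a number field in degrees `0` and
`1`: definitions

Let `F` be a number field with ring of integers `𝓞`, and let `𝔪` be a nonzero ideal of `𝓞`. The set
`π₀(GL_n(F ⊗ ℝ)) × GL_n(𝔸_f) / K(𝔪)`, where `K(𝔪)` is the kernel of `GL_n(𝓞^) → GL_n(𝓞/𝔪)`, is the
set of all triples `(s, L, e)` where `s` is a family of signs at the real places of `F`, `L` is an
`𝓞`-lattice in `F^n`, and `e = (e_1, …, e_n)` is a basis of `L / 𝔪 L` over `𝓞/𝔪`: the element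
`x = (x_∞, x_f)` corresponds to the signs of `det x_∞`, to `L = F^n ∩ x_f 𝓞^^n` and to the classes
`e_j` of `x_f (j-th unit vector)`. Left multiplication by `g ∈ GL_n(F)` corresponds to
`(s, L, e) ↦ (sgn(det g) s, g L, g e)`, and right multiplication by `h ∈ GL_n(𝓞/𝔪)` to
`(s, L, e) ↦ (s, L, e h)`.
-/

set_option autoImplicit false

open NumberField IsDedekindDomain Matrix Polynomial

noncomputable section

namespace Pool.Agent.T2h61.CG

section pts

variable {F : Type} [Field F] [NumberField F] {n : ℕ}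

/-- the sign of `x` at the real place `w` (`-1` for `x = 0`) -/
def sg (x : F) (w : {w : InfinitePlace F // w.IsReal}) : ℤˣ :=
  open Classical in if 0 < InfinitePlace.embedding_of_isReal w.2 x then 1 else -1

/-- triples `(s, L, e)`: signs `s` at the real places of `F`, an `𝓞`-submodule `L` of `F^n`, and
vectors `e_1, …, e_n` of `F^n` -/
structure Pt (F : Type) [Field F] [NumberField F] (n : ℕ) where
  /-- the signs -/
  s : {w : InfinitePlace F // w.IsReal} → ℤˣ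
  /-- the module -/
  L : Submodule (𝓞 F) (Fin n → F)
  /-- the vectors -/
  e : Fin n → Fin n → F

/-- `L` is a lattice in `F^n`: it is finitely generated and spans `F^n` -/
def IsLat (L : Submodule (𝓞 F) (Fin n → F)) : Prop :=
  L.FG ∧ Submodule.span F (L : Set (Fin n → F)) = ⊤

/-- `(s, L, e)` is a lattice with level structure modulo `𝔪`: `L` is a lattice, the `e_i` are
elements of `L`, and their classes generate `L / 𝔪 L` (so they are a basis over `𝓞/𝔪`) -/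
def Ok (𝔪 : Ideal (𝓞 F)) (x : Pt F n) : Prop :=
  IsLat x.L ∧ (∀ i, x.e i ∈ x.L) ∧ x.L ≤ Submodule.span (𝓞 F) (Set.range x.e) ⊔ 𝔪 • x.L

/-- the same signs, the same lattice, and the same level structure modulo `𝔪` -/
def Eqv (𝔪 : Ideal (𝓞 F)) (x y : Pt F n) : Prop :=
  x.s = y.s ∧ x.L = y.L ∧ ∀ i, x.e i - y.e i ∈ 𝔪 • x.L

/-- the image of a submodule of `F^n` under `g ∈ GL_n(F)` -/
def gm (g : GL (Fin n) F) (L : Submodule (𝓞 F) (Fin n → F)) : Submodule (𝓞 F) (Fin n → F) :=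
  L.map ((Matrix.mulVecLin g.1).restrictScalars (𝓞 F))

/-- left multiplication by `g ∈ GL_n(F)` -/
def ga (g : GL (Fin n) F) (x : Pt F n) : Pt F n :=
  ⟨fun w => sg g.1.det w * x.s w, gm g x.L, fun i => g.1.mulVec (x.e i)⟩

/-- right multiplication by an integral matrix: `e ↦ e A` -/
def rt (A : Matrix (Fin n) (Fin n) (𝓞 F)) (x : Pt F n) : Pt F n :=
  ⟨x.s, x.L, fun j => ∑ i, A i j • x.e i⟩

/-- the left translate of a function by `g ∈ GL_n(F)` -/
def tr {W : Type} (g : GL (Fin n) F) (φ : Pt F n → W) : Pt F n → W := fun x => φ (ga g⁻¹ x)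

/-- the functions on `π₀(GL_n(F ⊗ ℝ)) × GL_n(𝔸_f) / K(𝔪)` (extended by `0`) -/
def Lev {W : Type} [Zero W] (𝔪 : Ideal (𝓞 F)) (φ : Pt F n → W) : Prop :=
  (∀ x, ¬ Ok 𝔪 x → φ x = 0) ∧ ∀ x y, Ok 𝔪 x → Ok 𝔪 y → Eqv 𝔪 x y → φ x = φ y

/-- the functions `φ` on `π₀(GL_n(F ⊗ ℝ)) × GL_n(𝔸_f)` with `φ (x h) = h⁻¹ φ (x)` for `h ∈ K_f`,
where `K_f ⊆ GL_n(𝓞^)` is the inverse image of a subgroup `H` of `GL_n(𝓞/𝔪)` and acts on `W`
through `H`; the local system on `Y(K_f)` attached to `W` has the cohomology of `GL_n(F)` with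
values in these functions -/
def Aut {𝔪 : Ideal (𝓞 F)} {R W : Type} [CommRing R] [AddCommGroup W] [Module R W]
    {H : Subgroup (GL (Fin n) (𝓞 F ⧸ 𝔪))} (ρW : Representation R H W) (φ : Pt F n → W) : Prop :=
  Lev 𝔪 φ ∧ ∀ (A : Matrix (Fin n) (Fin n) (𝓞 F)) (h : H),
    A.map (Ideal.Quotient.mk 𝔪) = (h : GL (Fin n) (𝓞 F ⧸ 𝔪)).1 →
    ∀ x, Ok 𝔪 x → φ (rt A x) = ρW h⁻¹ (φ x)

/-- the submodules `L'` with `v L ⊆ L' ⊆ L` and `[L : L'] = N(v)^j`, that is
`L / L' ≅ (𝓞/v)^j` -/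
def Sub (v : HeightOneSpectrum (𝓞 F)) (j : ℕ) (L : Submodule (𝓞 F) (Fin n → F)) :
    Set (Submodule (𝓞 F) (Fin n → F)) :=
  {L' | v.asIdeal • L ≤ L' ∧ L' ≤ L ∧
    L'.toAddSubgroup.relIndex L.toAddSubgroup = Ideal.absNorm v.asIdeal ^ j}

/-- the standard lattice `𝓞^n` -/
def stdL (F : Type) [Field F] [NumberField F] (n : ℕ) : Submodule (𝓞 F) (Fin n → F) :=
  Submodule.span (𝓞 F) (Set.range fun i : Fin n => (Pi.single i 1 : Fin n → F))

/-- the degree `N_{v,j}` of the Hecke operator `T_{v,j}` -/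
def deg (n : ℕ) (v : HeightOneSpectrum (𝓞 F)) (j : ℕ) : ℕ := Nat.card (Sub v j (stdL F n))

/-- the Hecke operator `T_{v,j}` in level `𝔪` (`v` prime to `𝔪`): the sum of the right translates
of `φ` by representatives of `K_v diag(ϖ, …, ϖ, 1, …, 1) K_v / K_v`, that is
`(T_{v,j} φ) (s, L, e) = ∑ φ (s, L', e')` over the `L' ⊆ L` with `L / L' ≅ (𝓞/v)^j`, where `e'` is
the level structure of `L'` given by `L' / 𝔪 L' = L / 𝔪 L`. If `a ∈ v` is `1` modulo `𝔪` then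
`e' = a e`. -/
def hk (R : Type) {W : Type} [CommRing R] [AddCommGroup W] [Module R W] (𝔪 : Ideal (𝓞 F))
    (v : HeightOneSpectrum (𝓞 F)) (j : ℕ) (a : 𝓞 F) : Module.End R (Pt F n → W) where
  toFun φ x := open Classical in
    if h : Ok 𝔪 x ∧ (Sub v j x.L).Finite then
      ∑ L' ∈ h.2.toFinset, φ ⟨x.s, L', fun i => a • x.e i⟩
    else 0
  map_add' φ ψ := by
    funext x
    by_cases h : Ok 𝔪 x ∧ (Sub v j x.L).Finite
    · simp only [Pi.add_apply, dif_pos h, Finset.sum_add_distrib]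
    · simp only [Pi.add_apply, dif_neg h, add_zero]
  map_smul' r φ := by
    funext x
    by_cases h : Ok 𝔪 x ∧ (Sub v j x.L).Finite
    · simp only [Pi.smul_apply, dif_pos h, Finset.smul_sum, RingHom.id_apply]
    · simp only [Pi.smul_apply, dif_neg h, smul_zero]

/-- the names of the Hecke operators `T_{v,j}`, `v ∉ S` a finite place and `1 ≤ j ≤ n` -/
abbrev Ix (n : ℕ) (S : Set (HeightOneSpectrum (𝓞 F))) :=
  {q : HeightOneSpectrum (𝓞 F) × ℕ // q.1 ∉ S ∧ 1 ≤ q.2 ∧ q.2 ≤ n}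

/-- the action of the (free) Hecke algebra on functions -/
def act (R : Type) {W : Type} [CommRing R] [AddCommGroup W] [Module R W] (𝔪 : Ideal (𝓞 F))
    (S : Set (HeightOneSpectrum (𝓞 F))) (a : HeightOneSpectrum (𝓞 F) → 𝓞 F) :
    FreeAlgebra R (Ix n S) →ₐ[R] Module.End R (Pt F n → W) :=
  FreeAlgebra.lift R fun q => hk R 𝔪 q.1.1 q.1.2 (a q.1.1)

/-- the eigensystem `lam` is in the support of `H⁰(Y(K_f), W)`: there is a class `φ` whose
annihilator in the Hecke algebra is contained in the kernel of `lam` -/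
def Supp0 {𝔪 : Ideal (𝓞 F)} {S : Set (HeightOneSpectrum (𝓞 F))} {R W k : Type} [CommRing R]
    [AddCommGroup W] [Module R W] [Field k] [Algebra R k] (a : HeightOneSpectrum (𝓞 F) → 𝓞 F)
    {H : Subgroup (GL (Fin n) (𝓞 F ⧸ 𝔪))} (ρW : Representation R H W)
    (lam : FreeAlgebra R (Ix n S) →ₐ[R] k) : Prop :=
  ∃ φ : Pt F n → W, Aut ρW φ ∧ (∀ g, tr g φ = φ) ∧ ∀ t, act R 𝔪 S a t φ = 0 → lam t = 0

/-- the eigensystem `lam` is in the support of `H¹(Y(K_f), W)`: there is a class, given by a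
cocycle `z`, whose annihilator in the Hecke algebra is contained in the kernel of `lam` -/
def Supp1 {𝔪 : Ideal (𝓞 F)} {S : Set (HeightOneSpectrum (𝓞 F))} {R W k : Type} [CommRing R]
    [AddCommGroup W] [Module R W] [Field k] [Algebra R k] (a : HeightOneSpectrum (𝓞 F) → 𝓞 F)
    {H : Subgroup (GL (Fin n) (𝓞 F ⧸ 𝔪))} (ρW : Representation R H W)
    (lam : FreeAlgebra R (Ix n S) →ₐ[R] k) : Prop :=
  ∃ z : GL (Fin n) F → Pt F n → W, (∀ g, Aut ρW (z g)) ∧ (∀ g h, z (g * h) = z g + tr g (z h)) ∧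
    ∀ t, (∃ φ : Pt F n → W, Aut ρW φ ∧ ∀ g, act R 𝔪 S a t (z g) = tr g φ - φ) → lam t = 0

end pts

section gal

variable {F : Type} [Field F] [NumberField F] {n : ℕ} {S : Set (HeightOneSpectrum (𝓞 F))}
  {R k : Type} [CommRing R] [Field k] [Algebra R k]

/-- the eigenvalue of `T_{v,j}` for `v ∉ S` and `1 ≤ j ≤ n` (and `1` otherwise, so for `j = 0`) -/
def ev (lam : FreeAlgebra R (Ix n S) →ₐ[R] k) (v : HeightOneSpectrum (𝓞 F)) (j : ℕ) : k :=
  open Classical in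
    if h : v ∉ S ∧ 1 ≤ j ∧ j ≤ n then lam (FreeAlgebra.ι R ⟨(v, j), h⟩) else 1

/-- the polynomial `∑_j (-1)^j N(v)^{j(j-1)/2} λ(T_{v,j}) X^{n-j}` -/
def satake (lam : FreeAlgebra R (Ix n S) →ₐ[R] k) (v : HeightOneSpectrum (𝓞 F)) : k[X] :=
  ∑ j ∈ Finset.range (n + 1),
    C ((-1) ^ j * (Ideal.absNorm v.asIdeal : k) ^ (j * (j - 1) / 2) * ev lam v j) * X ^ (n - j)

/-- `g` is a Frobenius element at the prime `ker φ` of `L` above `v`: `φ (g x) = φ (x) ^ N(v)` for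
a homomorphism `φ : 𝓞_L → F̄_ℓ` with `𝓞_F ∩ ker φ = v` -/
def IsFrob (v : HeightOneSpectrum (𝓞 F)) {L : Type} [Field L] [NumberField L] [Algebra F L]
    {ℓ : ℕ} [Fact ℓ.Prime] (φ : 𝓞 L →+* AlgebraicClosure (ZMod ℓ)) (g : Gal(L/F)) : Prop :=
  (∀ x : 𝓞 F, x ∈ v.asIdeal ↔ φ (algebraMap (𝓞 F) (𝓞 L) x) = 0) ∧
    ∀ x y : 𝓞 L, (y : L) = g x → φ y = φ x ^ Ideal.absNorm v.asIdeal

/-- `ρ` is attached to the eigensystem `lam`: for all `v ∉ S` and all Frobenius elements `g` at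
`v` the characteristic polynomial of `ρ (g)` is `satake lam v`; or the same holds for the inverses
`g⁻¹` (geometric Frobenius elements) -/
def Attached (lam : FreeAlgebra R (Ix n S) →ₐ[R] k) (L : Type) [Field L] [NumberField L]
    [Algebra F L] (ρ : Gal(L/F) →* GL (Fin n) k) : Prop :=
  (∀ v ∉ S, ∀ (ℓ : ℕ) [Fact ℓ.Prime] (φ : 𝓞 L →+* AlgebraicClosure (ZMod ℓ)) (g : Gal(L/F)),
    IsFrob v φ g → (ρ g).1.charpoly = satake lam v) ∨
  (∀ v ∉ S, ∀ (ℓ : ℕ) [Fact ℓ.Prime] (φ : 𝓞 L →+* AlgebraicClosure (ZMod ℓ)) (g : Gal(L/F)),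
    IsFrob v φ g → (ρ g⁻¹).1.charpoly = satake lam v)

end gal

end Pool.Agent.T2h61.CG
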