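import Pool.Agent.T2h61.CG.Bas2
import Pool.Agent.T2h62.CG.Bas

/-!
# Calegari–Geraghty for `GL_n` over number fields: assembly
-/

set_option autoImplicit false

open NumberField IsDedekindDomain Matrix Polynomial

noncomputable section

namespace Pool.Agent.T2h61.CG

section

variable {F : Type} [Field F] [NumberField F] {n : ℕ}

theorem isLat_stdL (F : Type) [Field F] [NumberField F] (n : ℕ) : IsLat (stdL F n) := by
  refine ⟨Submodule.fg_span (Set.finite_range _), ?_⟩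
  rw [eq_top_iff]
  intro y _
  have h : y = ∑ i, y i • (Pi.single i 1 : Fin n → F) := by
    funext k
    simp [Finset.sum_apply, Pi.single_apply]
  rw [h]
  exact Submodule.sum_mem _ fun i _ => Submodule.smul_mem _ _
    (Submodule.subset_span (Submodule.subset_span ⟨i, rfl⟩))

theorem deg_self (hG : S_GRS) (v : HeightOneSpectrum (𝓞 F)) : deg n v n = 1 := by
  have hmax : v.asIdeal.IsMaximal := v.isMaximal
  let fld : Field (𝓞 F ⧸ v.asIdeal) := Ideal.Quotient.field v.asIdeal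
  rw [deg, (hG F n _ (isLat_stdL F n) v n).2, Nat.card_eq_one_iff_unique]
  refine ⟨⟨fun U U' => ?_⟩, ⟨⟨⊥, by rw [finrank_bot, zero_add]⟩⟩⟩
  have key : ∀ U : {U : Submodule (𝓞 F ⧸ v.asIdeal) (Fin n → 𝓞 F ⧸ v.asIdeal) //
      Module.finrank (𝓞 F ⧸ v.asIdeal) U + n = n}, U.1 = ⊥ := by
    intro U
    have h1 := U.2
    exact (Submodule.finrank_eq_zero (R := 𝓞 F ⧸ v.asIdeal)).1 (by omega)
  exact Subtype.ext ((key U).trans (key U').symm)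

variable {S : Set (HeightOneSpectrum (𝓞 F))} {R W : Type} [CommRing R] [AddCommGroup W] [Module R W]

/-- the inclusion of the Hecke algebra at `v` -/
def inc (R : Type) [CommRing R] {v : HeightOneSpectrum (𝓞 F)} (hv : v ∉ S) :
    FreeAlgebra R (Fin n) →ₐ[R] FreeAlgebra R (Ix n S) :=
  FreeAlgebra.lift R fun j => FreeAlgebra.ι R ⟨(v, j.1 + 1), hv, by omega, by omega⟩

theorem act_inc (𝔪 : Ideal (𝓞 F)) (a : HeightOneSpectrum (𝓞 F) → 𝓞 F)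
    {v : HeightOneSpectrum (𝓞 F)} (hv : v ∉ S) (t : FreeAlgebra R (Fin n)) :
    act (W := W) R 𝔪 S a (inc R hv t) = act1 R 𝔪 v (a v) t := by
  have h : (act (W := W) (n := n) R 𝔪 S a).comp (inc R hv) = act1 R 𝔪 v (a v) := by
    apply FreeAlgebra.hom_ext
    funext j
    simp only [AlgHom.coe_comp, Function.comp_apply, inc, act, act1, FreeAlgebra.lift_ι_apply]
  exact congrArg (fun f => f t) h

theorem act_tr (h : S_HKG) (𝔪 : Ideal (𝓞 F)) (a : HeightOneSpectrum (𝓞 F) → 𝓞 F)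
    (t : FreeAlgebra R (Ix n S)) (g : GL (Fin n) F) (φ : Pt F n → W) :
    act R 𝔪 S a t (tr g φ) = tr g (act R 𝔪 S a t φ) := by
  let T : (Pt F n → W) →ₗ[R] (Pt F n → W) :=
    { toFun := tr g
      map_add' := fun _ _ => rfl
      map_smul' := fun _ _ => rfl }
  have h1 := Pool.Agent.T2h62.CG.lift_comm (R := R)
    (fun q : Ix n S => hk (n := n) (W := W) R 𝔪 q.1.1 q.1.2 (a q.1.1))
    (fun q : Ix n S => hk (n := n) (W := W) R 𝔪 q.1.1 q.1.2 (a q.1.1)) T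
    (fun q φ => (h F n R W 𝔪 q.1.1 q.1.2 (a q.1.1) g φ).symm) t φ
  exact h1.symm

theorem aut_add {𝔪 : Ideal (𝓞 F)} {H : Subgroup (GL (Fin n) (𝓞 F ⧸ 𝔪))}
    {ρW : Representation R H W} {φ ψ : Pt F n → W} (h : Aut ρW φ) (h' : Aut ρW ψ) :
    Aut ρW (φ + ψ) := by
  refine ⟨⟨fun x hx => ?_, fun x y hx hy he => ?_⟩, fun A g hA x hx => ?_⟩
  · rw [Pi.add_apply, h.1.1 x hx, h'.1.1 x hx, add_zero]
  · rw [Pi.add_apply, Pi.add_apply, h.1.2 x y hx hy he, h'.1.2 x y hx hy he]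
  · rw [Pi.add_apply, Pi.add_apply, h.2 A g hA x hx, h'.2 A g hA x hx, map_add]

theorem aut_zero {𝔪 : Ideal (𝓞 F)} {H : Subgroup (GL (Fin n) (𝓞 F ⧸ 𝔪))}
    {ρW : Representation R H W} : Aut ρW (0 : Pt F n → W) :=
  ⟨⟨fun _ _ => rfl, fun _ _ _ _ _ => rfl⟩, fun _ _ _ _ _ => (map_zero _).symm⟩

theorem aut_smul {𝔪 : Ideal (𝓞 F)} {H : Subgroup (GL (Fin n) (𝓞 F ⧸ 𝔪))}
    {ρW : Representation R H W} {φ : Pt F n → W} (r : R) (h : Aut ρW φ) : Aut ρW (r • φ) := by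
  refine ⟨⟨fun x hx => ?_, fun x y hx hy he => ?_⟩, fun A g hA x hx => ?_⟩
  · rw [Pi.smul_apply, h.1.1 x hx, smul_zero]
  · rw [Pi.smul_apply, Pi.smul_apply, h.1.2 x y hx hy he]
  · rw [Pi.smul_apply, Pi.smul_apply, h.2 A g hA x hx, map_smul]

theorem act_aut (h : S_HKA) {𝔪 : Ideal (𝓞 F)} {H : Subgroup (GL (Fin n) (𝓞 F ⧸ 𝔪))}
    (ρW : Representation R H W) (hS : ∀ v, 𝔪 ≤ v.asIdeal → v ∈ S)
    (a : HeightOneSpectrum (𝓞 F) → 𝓞 F) (ha : ∀ v ∉ S, a v ∈ v.asIdeal ∧ a v - 1 ∈ 𝔪)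
    (t : FreeAlgebra R (Ix n S)) {φ : Pt F n → W} (hφ : Aut ρW φ) :
    Aut ρW (act R 𝔪 S a t φ) := by
  let U : Submodule R (Pt F n → W) :=
    { carrier := {φ | Aut ρW φ}
      add_mem' := fun ha hb => aut_add ha hb
      zero_mem' := aut_zero
      smul_mem' := fun r _ ha => aut_smul r ha }
  exact Pool.Agent.T2h62.CG.lift_mem (R := R)
    (fun q : Ix n S => hk (n := n) (W := W) R 𝔪 q.1.1 q.1.2 (a q.1.1)) U
    (fun q φ hφ => h F n R W 𝔪 q.1.1 q.1.2 (a q.1.1) H ρW (fun h' => q.2.1 (hS _ h'))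
      (ha _ q.2.1).1 (ha _ q.2.1).2 φ hφ) t φ hφ

variable {k : Type} [Field k] [IsAlgClosed k] [Algebra R k]

/-- an eigensystem which kills the kernel of `Th` at `v` -/
theorem ext_v (hE : S_EXT) (hG : S_GRS) (hn : 2 ≤ n) (lam : FreeAlgebra R (Ix n S) →ₐ[R] k)
    {v : HeightOneSpectrum (𝓞 F)} (hv : v ∉ S)
    (h : ∀ t : FreeAlgebra R (Fin n), Th R n v t = 0 → lam (inc R hv t) = 0) :
    ∃ c : k, ∀ j, 1 ≤ j → j ≤ n → ev lam v j = deg n v j * c ^ j := by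
  have hi : n - 1 < n := by omega
  obtain ⟨c, hc⟩ := hE R k n (fun j => deg n v (j.1 + 1)) ⟨n - 1, hi⟩
    (by
      show deg n v (n - 1 + 1) = 1
      rw [show n - 1 + 1 = n by omega]
      exact deg_self hG v) (lam.comp (inc R hv)) h
  refine ⟨c, fun j h1 h2 => ?_⟩
  have h3 := hc ⟨j - 1, by omega⟩
  simp only [AlgHom.coe_comp, Function.comp_apply, inc, FreeAlgebra.lift_ι_apply] at h3
  have e : j - 1 + 1 = j := by omega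
  have hcond : v ∉ S ∧ 1 ≤ j ∧ j ≤ n := ⟨hv, h1, h2⟩
  rw [ev, dif_pos hcond]
  have e2 : (⟨(v, j - 1 + 1), hv, by omega, by omega⟩ : Ix n S) = ⟨(v, j), hcond⟩ := by
    apply Subtype.ext
    exact Prod.ext rfl e
  rw [e2, e] at h3
  exact h3

theorem fin0 (hT : S_THE) (hE : S_EXT) (hG : S_GRS) (hn : 2 ≤ n) {𝔪 : Ideal (𝓞 F)} (h𝔪 : 𝔪 ≠ ⊥)
    (hS : ∀ v, 𝔪 ≤ v.asIdeal → v ∈ S) (a : HeightOneSpectrum (𝓞 F) → 𝓞 F)
    (ha : ∀ v ∉ S, a v ∈ v.asIdeal ∧ a v - 1 ∈ 𝔪) {H : Subgroup (GL (Fin n) (𝓞 F ⧸ 𝔪))}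
    (ρW : Representation R H W) (lam : FreeAlgebra R (Ix n S) →ₐ[R] k) (hl : Supp0 a ρW lam) :
    ∀ v ∉ S, ∃ c : k, ∀ j, 1 ≤ j → j ≤ n → ev lam v j = deg n v j * c ^ j := by
  intro v hv
  obtain ⟨φ, h1, h2, h3⟩ := hl
  refine ext_v hE hG hn lam hv fun t ht => h3 _ ?_
  rw [act_inc]
  refine hT F n hn R W 𝔪 v (a v) h𝔪 (fun h' => hv (hS v h')) (ha v hv).1 (ha v hv).2 φ h1.1 ?_ t ht
  intro g _ x
  have h4 := congrFun (h2 g⁻¹) x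
  rw [tr_apply, inv_inv] at h4
  exact h4

theorem fin1 (hT : S_THE) (hE : S_EXT) (hG : S_GRS) (hHG : S_HKG) (hHA : S_HKA) (hV : S_VAN)
    (hC : S_COB) (hD : S_DSC) (hn : 2 ≤ n) (hGT : GT F n) {𝔪 : Ideal (𝓞 F)} (h𝔪 : 𝔪 ≠ ⊥)
    (hSf : S.Finite) (hS : ∀ v, 𝔪 ≤ v.asIdeal → v ∈ S) (a : HeightOneSpectrum (𝓞 F) → 𝓞 F)
    (ha : ∀ v ∉ S, a v ∈ v.asIdeal ∧ a v - 1 ∈ 𝔪) {H : Subgroup (GL (Fin n) (𝓞 F ⧸ 𝔪))}
    (ρW : Representation R H W) (lam : FreeAlgebra R (Ix n S) →ₐ[R] k) (hl : Supp1 a ρW lam) :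
    ∃ S' : Set (HeightOneSpectrum (𝓞 F)), S ⊆ S' ∧ S'.Finite ∧
      ∀ v ∉ S', ∃ c : k, ∀ j, 1 ≤ j → j ≤ n → ev lam v j = deg n v j * c ^ j := by
  obtain ⟨z, hz1, hz2, hz3⟩ := hl
  by_cases hcase : ∀ v, ∀ hv : v ∉ S, ∀ t : FreeAlgebra R (Fin n), Th R n v t = 0 →
      lam (inc R hv t) = 0
  · exact ⟨S, subset_rfl, hSf, fun v hv => ext_v hE hG hn lam hv (hcase v hv)⟩
  push Not at hcase
  obtain ⟨v₁, hv₁, t₁, ht₁, hlt⟩ := hcase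
  set z' : GL (Fin n) F → Pt F n → W := fun g => act1 R 𝔪 v₁ (a v₁) t₁ (z g) with hz'
  have hz'1 : ∀ g, Aut ρW (z' g) := by
    intro g
    rw [hz']
    show Aut ρW (act1 R 𝔪 v₁ (a v₁) t₁ (z g))
    rw [← act_inc 𝔪 a hv₁ t₁]
    exact act_aut hHA ρW hS a ha _ (hz1 g)
  have hz'2 : ∀ g h, z' (g * h) = z' g + tr g (z' h) := by
    intro g h
    show act1 R 𝔪 v₁ (a v₁) t₁ (z (g * h)) = act1 R 𝔪 v₁ (a v₁) t₁ (z g) +
      tr g (act1 R 𝔪 v₁ (a v₁) t₁ (z h))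
    rw [← act_inc 𝔪 a hv₁ t₁, hz2, map_add, act_tr hHG]
  have hvan := hV F n hn hGT R W 𝔪 v₁ (a v₁) h𝔪 (fun h' => hv₁ (hS _ h')) (ha _ hv₁).1
    (ha _ hv₁).2 z (fun g => (hz1 g).1) hz2 t₁ ht₁
  obtain ⟨𝔪₁, hm1, hm1', u, hu1, hu2⟩ := hC F n W 𝔪 h𝔪 z' (fun g => (hz'1 g).1) hz'2
    (fun x _ => hvan x)
  refine ⟨S ∪ {v | 𝔪₁ ≤ v.asIdeal}, Set.subset_union_left, hSf.union ?_, ?_⟩
  · have h1 := Ideal.finite_factors hm1'
    refine h1.subset fun v hv => ?_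
    exact Ideal.dvd_iff_le.2 hv
  · intro v hv
    have hvS : v ∉ S := fun h' => hv (Or.inl h')
    have hvm : ¬ 𝔪₁ ≤ v.asIdeal := fun h' => hv (Or.inr h')
    refine ext_v hE hG hn lam hvS fun t ht => ?_
    obtain ⟨φ, hφ1, hφ2⟩ := hD F n hn R W 𝔪 𝔪₁ hm1 hm1' H ρW z' hz'1 u hu1 hu2 v (a v) hvm
      (ha v hvS).1 (ha v hvS).2 t ht
    have h5 : lam (inc R hvS t * inc R hv₁ t₁) = 0 := by
      refine hz3 _ ⟨φ, hφ1, fun g => ?_⟩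
      rw [map_mul, Module.End.mul_apply, act_inc, act_inc]
      exact hφ2 g
    rw [map_mul] at h5
    exact (mul_eq_zero.1 h5).resolve_right hlt

end

theorem main (hT : S_THE) (hE : S_EXT) (hG : S_GRS) (hHG : S_HKG) (hHA : S_HKA) (hV : S_VAN)
    (hC : S_COB) (hD : S_DSC) (hGT2 : S_GT2) (hGT3 : S_GT3) (hGRP : S_GRP) (hFRB : S_FRB)
    (hSAT : S_SAT) (F : Type) [Field F] [NumberField F] (n : ℕ) (hn : 2 ≤ n)
    (𝔪 : Ideal (𝓞 F)) (h𝔪 : 𝔪 ≠ ⊥) (S : Set (HeightOneSpectrum (𝓞 F))) (hSf : S.Finite)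
    (hS : ∀ v, 𝔪 ≤ v.asIdeal → v ∈ S) (a : HeightOneSpectrum (𝓞 F) → 𝓞 F)
    (ha : ∀ v ∉ S, a v ∈ v.asIdeal ∧ a v - 1 ∈ 𝔪) (R W k : Type) [CommRing R] [AddCommGroup W]
    [Module R W] [Field k] [IsAlgClosed k] [Algebra R k] (H : Subgroup (GL (Fin n) (𝓞 F ⧸ 𝔪)))
    (ρW : Representation R H W) (lam : FreeAlgebra R (Ix n S) →ₐ[R] k)
    (hl : Supp0 a ρW lam ∨ (3 ≤ n ∨ Infinite (𝓞 F)ˣ) ∧ Supp1 a ρW lam) :
    (∃ S' : Set (HeightOneSpectrum (𝓞 F)), S ⊆ S' ∧ S'.Finite ∧ ∃ c : HeightOneSpectrum (𝓞 F) → k,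
      ∀ v ∉ S', ∀ j, 1 ≤ j → j ≤ n → ev lam v j = deg n v j * c v ^ j) ∧
    ∀ p : ℕ, p.Prime → CharP k p → ∀ (L : Type) [Field L] [NumberField L] [Algebra F L]
      [IsGalois F L] (ρ : Gal(L/F) →* GL (Fin n) k), Attached lam L ρ →
      ∃ w : Fin n → k, w ≠ 0 ∧ ∀ g, ∃ b : k, (ρ g).1.mulVec w = b • w := by
  have h1 : ∃ S' : Set (HeightOneSpectrum (𝓞 F)), S ⊆ S' ∧ S'.Finite ∧
      ∀ v ∉ S', ∃ c : k, ∀ j, 1 ≤ j → j ≤ n → ev lam v j = deg n v j * c ^ j := by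
    rcases hl with hl | ⟨hc, hl⟩
    · exact ⟨S, subset_rfl, hSf, fin0 hT hE hG hn h𝔪 hS a ha ρW lam hl⟩
    · have hgt : GT F n := by
        by_cases h3 : 3 ≤ n
        · exact hGT3 F n h3
        · have h2 : n = 2 := by omega
          subst h2
          exact hGT2 F (hc.resolve_left h3)
      exact fin1 hT hE hG hHG hHA hV hC hD hn hgt h𝔪 hSf hS a ha ρW lam hl
  obtain ⟨S', hSS', hS'f, h2⟩ := h1
  classical
  refine ⟨⟨S', hSS', hS'f, fun v => if h : v ∉ S' then (h2 v h).choose else 0, fun v hv => ?_⟩, ?_⟩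
  · show ∀ j, 1 ≤ j → j ≤ n → ev lam v j = deg n v j * (dite _ _ _) ^ j
    rw [dif_pos hv]
    exact (h2 v hv).choose_spec
  intro p hp hk L _ _ _ _ ρ hρ
  obtain ⟨G', hG'1, hG'2, hG'3⟩ := hFRB F L p hp S' hS'f
  refine hGRP Gal(L/F) k p hp hk n (by omega) ρ G' hG'1 hG'2 fun g hg => ?_
  obtain ⟨v, hv1, hv2, ℓ, hℓ, φ, hF⟩ := hG'3 g hg
  obtain ⟨c, hc⟩ := h2 v hv1
  have hsat := hSAT F n S R k lam p hp hk v hv2 c hc
  refine ⟨c, ?_⟩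
  rcases hρ with h3 | h3
  · exact Or.inl ((h3 v (fun h' => hv1 (hSS' h')) ℓ φ g hF).trans hsat)
  · exact Or.inr ((h3 v (fun h' => hv1 (hSS' h')) ℓ φ g hF).trans hsat)

end Pool.Agent.T2h61.CG
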