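import Pool.Agent.T2h61.CG.Stm

/-!
# Calegari–Geraghty for `GL_n` over number fields: lemmas on matrices and additive functions
-/

set_option autoImplicit false
set_option linter.unusedSectionVars false

open NumberField IsDedekindDomain Matrix

noncomputable section

namespace Pool.Agent.T2h61.CG.Mx

variable {F : Type} [Field F] [NumberField F] {n : ℕ}

/-! ## additive functions -/

/-- `c` is additive on the congruence subgroup of level `N` -/
def AdN {W : Type} [AddCommGroup W] (N : ℕ) (c : GL (Fin n) F → W) : Prop :=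
  ∀ γ δ, Cg N γ → Cg N δ → c (γ * δ) = c γ + c δ

section ad

variable {W : Type} [AddCommGroup W] {N : ℕ} {c : GL (Fin n) F → W}

theorem AdN.one (h : AdN N c) : c 1 = 0 := by
  have := h 1 1 (cg_one N) (cg_one N)
  rw [mul_one] at this
  exact left_eq_add.1 this

theorem AdN.inv (h : AdN N c) {γ : GL (Fin n) F} (hγ : Cg N γ) : c γ⁻¹ = -c γ := by
  have := h γ γ⁻¹ hγ (cg_inv hγ)
  rw [mul_inv_cancel, h.one] at this
  exact (neg_eq_of_add_eq_zero_right this.symm).symm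

theorem AdN.conj (h : AdN N c) {γ δ : GL (Fin n) F} (hγ : Cg N γ) (hδ : Cg N δ) :
    c (γ * δ * γ⁻¹) = c δ := by
  rw [h _ _ (cg_mul hγ hδ) (cg_inv hγ), h _ _ hγ hδ, h.inv hγ]
  abel

theorem AdN.comm (h : AdN N c) {γ δ : GL (Fin n) F} (hγ : Cg N γ) (hδ : Cg N δ) :
    c (γ * δ * γ⁻¹ * δ⁻¹) = 0 := by
  rw [h _ _ (cg_mul (cg_mul hγ hδ) (cg_inv hγ)) (cg_inv hδ), h.conj hγ hδ, h.inv hδ]
  abel

theorem AdN.mono (h : AdN N c) {N' : ℕ} (hN : N ∣ N') : AdN N' c :=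
  fun γ δ hγ hδ => h γ δ (cg_mono hN hγ) (cg_mono hN hδ)

theorem AdN.list (h : AdN N c) (l : List (GL (Fin n) F)) (hl : ∀ γ ∈ l, Cg N γ)
    (h0 : ∀ γ ∈ l, c γ = 0) : Cg N l.prod ∧ c l.prod = 0 := by
  induction l with
  | nil => exact ⟨by rw [List.prod_nil]; exact cg_one N, by rw [List.prod_nil]; exact h.one⟩
  | cons a l ih =>
    obtain ⟨h1, h2⟩ := ih (fun γ hγ => hl γ (List.mem_cons_of_mem _ hγ))
      (fun γ hγ => h0 γ (List.mem_cons_of_mem _ hγ))
    have ha := hl a List.mem_cons_self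
    refine ⟨by rw [List.prod_cons]; exact cg_mul ha h1, ?_⟩
    rw [List.prod_cons, h _ _ ha h1, h2, h0 a List.mem_cons_self, add_zero]

theorem Adl.conj {c : GL (Fin n) F → W} (h : Adl c) (g : GL (Fin n) F) :
    Adl fun γ => c (g * γ * g⁻¹) := by
  obtain ⟨N, hN, hc⟩ := h
  obtain ⟨N', hN', hg⟩ := cg_conj g hN
  refine ⟨N', hN', fun γ δ hγ hδ => ?_⟩
  show c (g * (γ * δ) * g⁻¹) = c (g * γ * g⁻¹) + c (g * δ * g⁻¹)
  rw [← hc _ _ (hg γ hγ) (hg δ hδ)]
  congr 1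
  group

end ad

/-! ## matrices -/

theorem gl_ext {g h : GL (Fin n) F} (e : g.1 = h.1) : g = h := Units.ext e

theorem cg_of_mat {N : ℕ} {γ : GL (Fin n) F} (A : Matrix (Fin n) (Fin n) (𝓞 F))
    (hA : γ.1 = A.map (algebraMap (𝓞 F) F)) (hd : A.det = 1)
    (h : ∀ i j, (N : 𝓞 F) ∣ A i j - (1 : Matrix (Fin n) (Fin n) (𝓞 F)) i j) : Cg N γ := by
  refine ⟨⟨Matrix.GeneralLinearGroup.mk'' A (by rw [hd]; exact isUnit_one), ?_, h⟩, fun w => ?_⟩
  · apply gl_ext
    rw [hA]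
    rfl
  · have h1 : γ.1.det = 1 := by
      rw [hA]
      have := (RingHom.map_det (algebraMap (𝓞 F) F) A).symm
      rw [hd, map_one] at this
      exact this
    rw [h1, sg_one]

theorem tv_val (i j : Fin n) (hij : i ≠ j) (x : F) :
    (tv i j hij x).1 = Matrix.transvection i j x := rfl

theorem tv_det (i j : Fin n) (hij : i ≠ j) (x : F) : (tv i j hij x).1.det = 1 := by
  rw [tv_val, Matrix.det_transvection_of_ne i j hij]

theorem tv_mul (i j : Fin n) (hij : i ≠ j) (x y : F) :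
    tv i j hij x * tv i j hij y = tv i j hij (x + y) := by
  apply gl_ext
  rw [Units.val_mul, tv_val, tv_val, tv_val, Matrix.transvection_mul_transvection_same i j hij]

theorem tv_zero (i j : Fin n) (hij : i ≠ j) : tv i j hij (0 : F) = 1 := by
  apply gl_ext
  rw [tv_val, Matrix.transvection_zero]
  rfl

theorem tv_inv (i j : Fin n) (hij : i ≠ j) (x : F) : (tv i j hij x)⁻¹ = tv i j hij (-x) := by
  rw [inv_eq_iff_mul_eq_one, tv_mul, add_neg_cancel, tv_zero]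

theorem tv_comm {i j k : Fin n} (hij : i ≠ j) (hik : i ≠ k) (hkj : k ≠ j) (x y : F) :
    tv i k hik x * tv k j hkj y * (tv i k hik x)⁻¹ * (tv k j hkj y)⁻¹ = tv i j hij (x * y) := by
  rw [mul_inv_eq_iff_eq_mul, mul_inv_eq_iff_eq_mul]
  apply gl_ext
  simp only [Units.val_mul, tv_val, Matrix.transvection]
  simp only [add_mul, mul_add, one_mul, mul_one, Matrix.single_mul_single_same]
  rw [Matrix.single_mul_single_of_ne _ _ _ _ hij.symm, Matrix.single_mul_single_of_ne _ _ _ _ hkj.symm,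
    Matrix.single_mul_single_of_ne _ _ _ _ hij.symm]
  simp only [zero_mul, add_zero]
  abel

theorem cg_tv {N : ℕ} {i j : Fin n} (hij : i ≠ j) {x : F} (y : 𝓞 F) (hx : x = (N : F) * y) :
    Cg N (tv i j hij x) := by
  refine cg_of_mat (Matrix.transvection i j ((N : 𝓞 F) * y)) ?_
    (Matrix.det_transvection_of_ne i j hij _) fun a b => ?_
  · rw [tv_val, hx]
    ext a b
    rw [Matrix.map_apply, Matrix.transvection, Matrix.transvection, Matrix.add_apply,
      Matrix.add_apply, map_add, Matrix.one_apply, Matrix.one_apply, Matrix.single_apply,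
      Matrix.single_apply]
    congr 1
    · split_ifs <;> simp
    · split_ifs
      · simp
      · simp
  · rw [Matrix.transvection, Matrix.add_apply, add_sub_cancel_left, Matrix.single_apply]
    split_ifs
    · exact dvd_mul_right _ _
    · exact dvd_zero _

/-! ## `Du` -/

theorem Du_val (u : Fˣ) : (Du u).1 = !![(u : F), 0; 0, 1] := rfl

theorem Du_mul (u v : Fˣ) : Du (u * v) = Du u * Du v := by
  apply gl_ext
  rw [Units.val_mul, Du_val, Du_val, Du_val, Matrix.mul_fin_two]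
  simp

theorem Du_one : Du (1 : Fˣ) = 1 := by
  apply gl_ext
  rw [Du_val, Units.val_one, Units.val_one, Matrix.one_fin_two]

/-- the homomorphism `Du` -/
def DuH : Fˣ →* GL (Fin 2) F where
  toFun := Du
  map_one' := Du_one
  map_mul' := Du_mul

theorem Du_inv (u : Fˣ) : (Du u)⁻¹ = Du u⁻¹ := (map_inv (DuH (F := F)) u).symm

theorem Du_zpow (u : Fˣ) (k : ℤ) : Du (u ^ k) = Du u ^ k := map_zpow (DuH (F := F)) u k

theorem Du_pow (u : Fˣ) (k : ℕ) : Du (u ^ k) = Du u ^ k := map_pow (DuH (F := F)) u k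

theorem Dv_mul (u v : (𝓞 F)ˣ) : Dv (u * v) = Dv u * Dv v := by
  rw [Dv, map_mul, Du_mul]; rfl

theorem Dv_one : Dv (1 : (𝓞 F)ˣ) = 1 := by
  rw [Dv, map_one, Du_one]

/-- the homomorphism `Dv` -/
def DvH : (𝓞 F)ˣ →* GL (Fin 2) F where
  toFun := Dv
  map_one' := Dv_one
  map_mul' := Dv_mul

theorem Dv_inv (u : (𝓞 F)ˣ) : (Dv u)⁻¹ = Dv u⁻¹ := (map_inv (DvH (F := F)) u).symm

theorem Dv_zpow (u : (𝓞 F)ˣ) (k : ℤ) : Dv (u ^ k) = Dv u ^ k := map_zpow (DvH (F := F)) u k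

theorem Dv_pow (u : (𝓞 F)ˣ) (k : ℕ) : Dv (u ^ k) = Dv u ^ k := map_pow (DvH (F := F)) u k

theorem Du_conj01 (u : Fˣ) (x : F) :
    Du u * tv 0 1 (by decide) x * (Du u)⁻¹ = tv 0 1 (by decide) (u * x) := by
  rw [mul_inv_eq_iff_eq_mul]
  apply gl_ext
  rw [Units.val_mul, Units.val_mul, tv_val, tv_val, Du_val]
  ext i j
  fin_cases i <;> fin_cases j <;>
    simp [Matrix.mul_apply, Fin.sum_univ_two, Matrix.transvection, Matrix.single_apply]

theorem Du_conj10 (u : Fˣ) (x : F) :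
    Du u * tv 1 0 (by decide) x * (Du u)⁻¹ = tv 1 0 (by decide) (u⁻¹ * x) := by
  rw [mul_inv_eq_iff_eq_mul]
  apply gl_ext
  rw [Units.val_mul, Units.val_mul, tv_val, tv_val, Du_val]
  ext i j
  fin_cases i <;> fin_cases j <;>
    simp [Matrix.mul_apply, Fin.sum_univ_two, Matrix.transvection, Matrix.single_apply, mul_comm]

/-! ## conjugation by integral matrices -/

theorem cg_conj_int {N : ℕ} {γ : GL (Fin n) F} (hγ : Cg N γ) (B : GL (Fin n) (𝓞 F)) :
    Cg N (Matrix.GeneralLinearGroup.map (algebraMap (𝓞 F) F) B * γ *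
      (Matrix.GeneralLinearGroup.map (algebraMap (𝓞 F) F) B)⁻¹) := by
  obtain ⟨⟨A, h1, h2⟩, h3⟩ := hγ
  refine ⟨⟨B * A * B⁻¹, by rw [map_mul, map_mul, map_inv, h1], fun i j => ?_⟩, fun w => ?_⟩
  · have e : (B * A * B⁻¹).1 - 1 = B.1 * (A.1 - 1) * B⁻¹.1 := by
      rw [Units.val_mul, Units.val_mul, mul_sub, mul_one, sub_mul, ← Units.val_mul B B⁻¹,
        mul_inv_cancel, Units.val_one]
    have e' := congrFun (congrFun e i) j
    rw [Matrix.sub_apply] at e'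
    rw [e', Matrix.mul_apply]
    refine Finset.dvd_sum fun k _ => Dvd.dvd.mul_right ?_ _
    rw [Matrix.mul_apply]
    exact Finset.dvd_sum fun l _ => Dvd.dvd.mul_left (h2 l k) _
  · rw [sg_det_mul, sg_det_mul, sg_det_inv, h3 w, mul_one]
    exact Int.units_mul_self _

/-- `diag(u, 1)` over `𝓞` -/
def DI (u : (𝓞 F)ˣ) : GL (Fin 2) (𝓞 F) :=
  Matrix.GeneralLinearGroup.mk'' !![(u : 𝓞 F), 0; 0, 1]
    (by rw [Matrix.det_fin_two_of, mul_one, mul_zero, sub_zero]; exact u.isUnit)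

theorem map_DI (u : (𝓞 F)ˣ) :
    Matrix.GeneralLinearGroup.map (algebraMap (𝓞 F) F) (DI u) = Dv u := by
  apply gl_ext
  ext i j
  fin_cases i <;> fin_cases j
  · rfl
  · exact map_zero (algebraMap (𝓞 F) F)
  · exact map_zero (algebraMap (𝓞 F) F)
  · exact map_one (algebraMap (𝓞 F) F)

theorem cg_conj_Dv {N : ℕ} {γ : GL (Fin 2) F} (hγ : Cg N γ) (u : (𝓞 F)ˣ) :
    Cg N (Dv u * γ * (Dv u)⁻¹) := by
  rw [← map_DI]
  exact cg_conj_int hγ _

theorem gl_det_conj (g γ : GL (Fin n) F) : (g * γ * g⁻¹).1.det = γ.1.det := by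
  rw [Units.val_mul, Units.val_mul, Matrix.det_mul, Matrix.det_mul, mul_comm g.1.det, mul_assoc,
    ← Matrix.det_mul, ← Units.val_mul, mul_inv_cancel, Units.val_one, Matrix.det_one, mul_one]

theorem diag_conj (a b : F) (h : a * b = 1) (M : Matrix (Fin 2) (Fin 2) F) :
    !![a, 0; 0, 1] * M * !![b, 0; 0, 1] = !![M 0 0, a * M 0 1; b * M 1 0, M 1 1] := by
  have hM := Matrix.eta_fin_two M
  generalize M 0 0 = x at *
  generalize M 0 1 = y at *
  generalize M 1 0 = z at *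
  generalize M 1 1 = t at *
  rw [hM, Matrix.mul_fin_two, Matrix.mul_fin_two]
  have e1 : (a * x + 0 * z) * b + (a * y + 0 * t) * 0 = x := by linear_combination x * h
  have e2 : (a * x + 0 * z) * 0 + (a * y + 0 * t) * 1 = a * y := by ring
  have e3 : (0 * x + 1 * z) * b + (0 * y + 1 * t) * 0 = b * z := by ring
  have e4 : (0 * x + 1 * z) * 0 + (0 * y + 1 * t) * 1 = t := by ring
  rw [e1, e2, e3, e4]

theorem Dv_conj_val (u : (𝓞 F)ˣ) (γ : GL (Fin 2) F) : (Dv u * γ * (Dv u)⁻¹).1 =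
    !![γ.1 0 0, ((u : 𝓞 F) : F) * γ.1 0 1; (((u⁻¹ : (𝓞 F)ˣ) : 𝓞 F) : F) * γ.1 1 0, γ.1 1 1] := by
  rw [Dv_inv]
  have h1 : (Dv u).1 = !![((u : 𝓞 F) : F), 0; 0, 1] := rfl
  have h2 : (Dv u⁻¹).1 = !![(((u⁻¹ : (𝓞 F)ˣ) : 𝓞 F) : F), 0; 0, 1] := rfl
  have h3 : ((u : 𝓞 F) : F) * (((u⁻¹ : (𝓞 F)ˣ) : 𝓞 F) : F) = 1 := by
    have := congrArg (algebraMap (𝓞 F) F) u.mul_inv
    rw [map_mul, map_one] at this
    exact this
  rw [Units.val_mul, Units.val_mul, h1, h2, diag_conj _ _ h3]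

end Pool.Agent.T2h61.CG.Mx
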