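import Pool.Agent.T2h61.CG.Bas

/-!
# Calegari–Geraghty for `GL_n` over number fields: statements of the parts
-/

set_option autoImplicit false

open NumberField IsDedekindDomain Matrix Polynomial

noncomputable section

namespace Pool.Agent.T2h61.CG

section grp

variable {F : Type} [Field F] [NumberField F] {n : ℕ}

/-- the elementary matrix `1 + x E_{ij}` -/
def tv (i j : Fin n) (hij : i ≠ j) (x : F) : GL (Fin n) F :=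
  Matrix.GeneralLinearGroup.mkOfDetNeZero (Matrix.transvection i j x)
    (by rw [Matrix.det_transvection_of_ne i j hij]; exact one_ne_zero)

/-- `diag(u, 1)` -/
def Du (u : Fˣ) : GL (Fin 2) F :=
  Matrix.GeneralLinearGroup.mkOfDetNeZero !![(u : F), 0; 0, 1]
    (by rw [Matrix.det_fin_two]; simp)

/-- `diag(u, 1)` for a unit `u` of `𝓞` -/
def Dv (u : (𝓞 F)ˣ) : GL (Fin 2) F := Du (Units.map (algebraMap (𝓞 F) F).toMonoidHom u)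

/-- `1 + u ρᵀ` for vectors `u`, `ρ` with `ρ · u = 0` -/
def tw (u ρ : Fin n → F) (h : ρ ⬝ᵥ u = 0) : GL (Fin n) F where
  val := 1 + Matrix.vecMulVec u ρ
  inv := 1 - Matrix.vecMulVec u ρ
  val_inv := by
    have e : Matrix.vecMulVec u ρ * Matrix.vecMulVec u ρ = 0 := by
      rw [Matrix.vecMulVec_mul_vecMulVec, h, zero_smul, Matrix.vecMulVec_zero]
    rw [add_mul, one_mul, mul_sub, mul_one, e]; abel
  inv_val := by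
    have e : Matrix.vecMulVec u ρ * Matrix.vecMulVec u ρ = 0 := by
      rw [Matrix.vecMulVec_mul_vecMulVec, h, zero_smul, Matrix.vecMulVec_zero]
    rw [sub_mul, one_mul, mul_add, mul_one, e]; abel

/-- `c` is additive on a congruence subgroup -/
def Adl {W : Type} [AddCommGroup W] (c : GL (Fin n) F → W) : Prop :=
  ∃ N : ℕ, N ≠ 0 ∧ ∀ γ δ, Cg N γ → Cg N δ → c (γ * δ) = c γ + c δ

end grp

/-- locally additive functions vanish on the elementary matrices of some level -/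
def KU (F : Type) [Field F] [NumberField F] (n : ℕ) : Prop :=
  ∀ (W : Type) [AddCommGroup W] (c : GL (Fin n) F → W), Adl c → ∃ N : ℕ, N ≠ 0 ∧
    ∀ (i j : Fin n) (hij : i ≠ j) (y : 𝓞 F), c (tv i j hij ((N : F) * y)) = 0

/-- the germs of locally additive functions are invariant under `SL_n(F)` -/
def GT (F : Type) [Field F] [NumberField F] (n : ℕ) : Prop :=
  ∀ (W : Type) [AddCommGroup W] (c : GL (Fin n) F → W), Adl c → ∀ g : GL (Fin n) F, g.1.det = 1 →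
    ∃ N : ℕ, N ≠ 0 ∧ ∀ γ, Cg N γ → c (g * γ * g⁻¹) = c γ

/-! ## A. Number theory -/

/-- A1 -/
def S_RAY : Prop := ∀ (K : Type) [Field K] [NumberField K] (𝔪 : Ideal (𝓞 K)),
  𝔪 ≠ ⊥ → 𝔪 ≠ ⊤ → ∀ 𝔟 : Ideal (𝓞 K), IsCoprime 𝔟 𝔪 → ∀ B : ℕ, ∃ v : HeightOneSpectrum (𝓞 K),
    B < Ideal.absNorm v.asIdeal ∧ ∃ a b : 𝓞 K, a ≠ 0 ∧ b ≠ 0 ∧ a - 1 ∈ 𝔪 ∧ b - 1 ∈ 𝔪 ∧
      Ideal.span {a} * v.asIdeal = Ideal.span {b} * 𝔟

/-- A2: prime elements in residue classes -/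
def S_DIR : Prop := ∀ (F : Type) [Field F] [NumberField F] (𝔪 : Ideal (𝓞 F)), 𝔪 ≠ ⊥ →
  ∀ x : 𝓞 F, IsCoprime (Ideal.span {x}) 𝔪 → ∀ B : ℕ, ∃ π : 𝓞 F, Prime π ∧ π - x ∈ 𝔪 ∧
    B < Ideal.absNorm (Ideal.span {π})

/-- A3 -/
def S_EXP : Prop := ∀ (F : Type) [Field F] [NumberField F], ∃ m : ℕ, m ≠ 0 ∧
  ∀ (a b : 𝓞 F) (N : ℕ), b ≠ 0 → N ≠ 0 → IsCoprime a (b * N) → ∀ ℓ : ℕ, ℓ.Prime →
    ∃ (s : 𝓞 F) (k : ℕ), k ≠ 0 ∧ (∀ u : (𝓞 F)ˣ, a + b * N * s ∣ (u : 𝓞 F) ^ k - 1) ∧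
      ¬ ℓ ^ (m.factorization ℓ + 1) ∣ k

/-! ## B. Invariance of germs -/

/-- B1 -/
def S_KU2 : Prop := ∀ (F : Type) [Field F] [NumberField F], Infinite (𝓞 F)ˣ → KU F 2

/-- B2 -/
def S_KU3 : Prop := ∀ (F : Type) [Field F] [NumberField F] (n : ℕ), 3 ≤ n → KU F n

/-- B3 -/
def S_MEN : Prop := ∀ (F : Type) [Field F] [NumberField F] (W : Type) [AddCommGroup W]
  (c : GL (Fin 2) F → W) (N : ℕ), N ≠ 0 → (∀ γ δ, Cg N γ → Cg N δ → c (γ * δ) = c γ + c δ) →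
  (∀ (i j : Fin 2) (hij : i ≠ j) (y : 𝓞 F), c (tv i j hij ((N : F) * y)) = 0) →
  ∀ A : GL (Fin 2) (𝓞 F), A.1.det = 1 →
    Cg N (Matrix.GeneralLinearGroup.map (algebraMap (𝓞 F) F) A) →
    ∀ (u : (𝓞 F)ˣ) (s : 𝓞 F), A.1 0 0 + A.1 0 1 * N * s ∣ (u : 𝓞 F) - 1 →
      c (Dv u * Matrix.GeneralLinearGroup.map (algebraMap (𝓞 F) F) A * (Dv u)⁻¹) =
        c (Matrix.GeneralLinearGroup.map (algebraMap (𝓞 F) F) A)

/-- B4 -/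
def S_INV2 : Prop := ∀ (F : Type) [Field F] [NumberField F], Infinite (𝓞 F)ˣ →
  ∃ t : (𝓞 F)ˣ, t ≠ 1 ∧ ∀ (W : Type) [AddCommGroup W] (c : GL (Fin 2) F → W), Adl c →
    ∃ N : ℕ, N ≠ 0 ∧ ∀ γ, Cg N γ → γ.1.det = 1 → c (Dv t * γ * (Dv t)⁻¹) = c γ

/-- B5: `SL_n(F)` is generated by the elementary matrices -/
def S_SLG : Prop := ∀ (F : Type) [Field F] [NumberField F] (n : ℕ) (g : GL (Fin n) F),
  g.1.det = 1 → g ∈ Subgroup.closure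
    {h : GL (Fin n) F | ∃ (i j : Fin n) (hij : i ≠ j) (x : F), h = tv i j hij x}

/-- B6 -/
def S_GT2 : Prop := ∀ (F : Type) [Field F] [NumberField F], Infinite (𝓞 F)ˣ → GT F 2

/-- `u_l e_k - u_k e_l` -/
def al {F : Type} [Field F] {n : ℕ} (k l : Fin n) (u : Fin n → F) : Fin n → F :=
  fun i => (if i = k then u l else 0) - (if i = l then u k else 0)

theorem al_dot {F : Type} [Field F] {n : ℕ} (k l : Fin n) (t : F) (u : Fin n → F) :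
    al k l u ⬝ᵥ (t • u) = 0 := by
  unfold al
  simp only [dotProduct, sub_mul, ite_mul, zero_mul, Finset.sum_sub_distrib, Finset.sum_ite_eq',
    Finset.mem_univ, if_true, Pi.smul_apply, smul_eq_mul]
  ring

/-- `1 + t u (u_l e_k - u_k e_l)ᵀ` -/
def tk {F : Type} [Field F] [NumberField F] {n : ℕ} (k l : Fin n) (t : F) (u : Fin n → F) :
    GL (Fin n) F :=
  tw (t • u) (al k l u) (al_dot k l t u)

/-- B7 -/
def S_SML : Prop := ∀ (F : Type) [Field F] [NumberField F] (n : ℕ), 3 ≤ n →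
  ∀ (W : Type) [AddCommGroup W] (c : GL (Fin n) F → W), Adl c → ∃ N : ℕ, N ≠ 0 ∧
    ∀ (u : Fin n → 𝓞 F) (k l : Fin n) (τ : 𝓞 F),
      c (tk k l ((N : F) * τ) (fun i => (u i : F))) = 0

/-- B8 -/
def S_BIG : Prop := ∀ (F : Type) [Field F] [NumberField F] (n : ℕ), 3 ≤ n →
  ∀ (W : Type) [AddCommGroup W] (c : GL (Fin n) F → W), Adl c →
  ∀ (i j : Fin n) (hij : i ≠ j) (t : F), ∃ N : ℕ, N ≠ 0 ∧
    ∀ u : Fin n → 𝓞 F, (∀ k, (N : 𝓞 F) ∣ u k - (Pi.single i 1 : Fin n → 𝓞 F) k) →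
      c (tv i j hij t * tk j i (-t) (fun k => (u k : F))) = 0

/-- B9 -/
def S_GT3 : Prop := ∀ (F : Type) [Field F] [NumberField F] (n : ℕ), 3 ≤ n → GT F n

/-! ## C. Lattices -/

/-- C1: level structures exist -/
def S_LVL : Prop := ∀ (F : Type) [Field F] [NumberField F] (n : ℕ)
  (L : Submodule (𝓞 F) (Fin n → F)), IsLat L → ∀ 𝔪 : Ideal (𝓞 F), 𝔪 ≠ ⊥ →
  ∃ e : Fin n → Fin n → F, (∀ i, e i ∈ L) ∧
    L ≤ Submodule.span (𝓞 F) (Set.range e) ⊔ 𝔪 • L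

/-- C2: level structures are bases -/
def S_IND : Prop := ∀ (F : Type) [Field F] [NumberField F] (n : ℕ)
  (L : Submodule (𝓞 F) (Fin n → F)), IsLat L → ∀ 𝔪 : Ideal (𝓞 F), 𝔪 ≠ ⊥ →
  ∀ e : Fin n → Fin n → F, (∀ i, e i ∈ L) → L ≤ Submodule.span (𝓞 F) (Set.range e) ⊔ 𝔪 • L →
  ∀ c : Fin n → 𝓞 F, ∑ i, c i • e i ∈ 𝔪 • L → ∀ i, c i ∈ 𝔪

/-- C3: the sublattices between `v L` and `L` are the subspaces of `(𝓞/v)^n` -/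
def S_GRS : Prop := ∀ (F : Type) [Field F] [NumberField F] (n : ℕ)
  (L : Submodule (𝓞 F) (Fin n → F)), IsLat L → ∀ (v : HeightOneSpectrum (𝓞 F)) (j : ℕ),
  (Sub v j L).Finite ∧ Nat.card (Sub v j L) =
    Nat.card {U : Submodule (𝓞 F ⧸ v.asIdeal) (Fin n → 𝓞 F ⧸ v.asIdeal) //
      Module.finrank (𝓞 F ⧸ v.asIdeal) U + j = n}

/-- C4: the number of subspaces modulo `p` -/
def S_CNP : Prop := ∀ (K : Type) [Field K] [Finite K] (n p : ℕ), p.Prime → p ∣ Nat.card K - 1 →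
  ∀ d : ℕ, Nat.card {U : Submodule K (Fin n → K) // Module.finrank K U = d} ≡ n.choose d [MOD p]

/-- C5: chains -/
def S_CHN : Prop := ∀ (F : Type) [Field F] [NumberField F] (n : ℕ)
  (L : Submodule (𝓞 F) (Fin n → F)), IsLat L → ∀ (v : HeightOneSpectrum (𝓞 F)) (j : ℕ),
  ∀ L' ∈ Sub v (j + 1) L, ∃ L'' ∈ Sub v 1 L, L' ∈ Sub v j L''

/-- C6: transitivity on the sublattices of index `N(v)` -/
def S_HYP : Prop := ∀ (F : Type) [Field F] [NumberField F] (n : ℕ), 2 ≤ n →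
  ∀ (L : Submodule (𝓞 F) (Fin n → F)), IsLat L → ∀ (v : HeightOneSpectrum (𝓞 F))
  (𝔪 : Ideal (𝓞 F)), ¬ 𝔪 ≤ v.asIdeal → ∀ L₁ ∈ Sub v 1 L, ∀ L₂ ∈ Sub v 1 L,
  ∃ g : GL (Fin n) F, g.1.det = 1 ∧ gm g L = L ∧ gm g L₁ = L₂ ∧
    ∀ y ∈ L, g.1.mulVec y - y ∈ 𝔪 • L

/-- C7: level structures lift -/
def S_LIF : Prop := ∀ (F : Type) [Field F] [NumberField F] (n : ℕ) (𝔪 𝔪₁ : Ideal (𝓞 F)),
  𝔪₁ ≤ 𝔪 → 𝔪₁ ≠ ⊥ → ∀ x : Pt F n, Ok 𝔪 x → ∃ y, Ok 𝔪₁ y ∧ Eqv 𝔪 x y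

/-- C8: transitivity on the level structures -/
def S_TRA : Prop := ∀ (F : Type) [Field F] [NumberField F] (n : ℕ) (𝔪 𝔪₁ : Ideal (𝓞 F)),
  𝔪₁ ≤ 𝔪 → 𝔪₁ ≠ ⊥ → ∀ (x y : Pt F n) (A : Matrix (Fin n) (Fin n) (𝓞 F)), Ok 𝔪₁ x → Ok 𝔪₁ y →
  Eqv 𝔪 y (rt A x) → ∃ A' : Matrix (Fin n) (Fin n) (𝓞 F), (∀ i j, A' i j - A i j ∈ 𝔪) ∧
    IsUnit (A'.map (Ideal.Quotient.mk 𝔪₁)) ∧ Eqv 𝔪₁ y (rt A' x)

/-- C9: there are finitely many lattices up to isomorphism -/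
def S_CLS : Prop := ∀ (F : Type) [Field F] [NumberField F] (n : ℕ),
  ∃ X : Set (Submodule (𝓞 F) (Fin n → F)), X.Finite ∧ (∀ L ∈ X, IsLat L) ∧
    ∀ L, IsLat L → ∃ L₀ ∈ X, ∃ g : GL (Fin n) F, L = gm g L₀

/-- C10: there are finitely many `GL_n(F)`-orbits of level structures -/
def S_ORB : Prop := ∀ (F : Type) [Field F] [NumberField F] (n : ℕ) (𝔪 : Ideal (𝓞 F)), 𝔪 ≠ ⊥ →
  ∃ X : Set (Pt F n), X.Finite ∧ (∀ x ∈ X, Ok 𝔪 x) ∧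
    ∀ x, Ok 𝔪 x → ∃ x₀ ∈ X, ∃ g : GL (Fin n) F, Eqv 𝔪 x (ga g x₀)

/-- C11: congruence subgroups act trivially modulo `𝔪` -/
def S_STA : Prop := ∀ (F : Type) [Field F] [NumberField F] (n : ℕ)
  (L : Submodule (𝓞 F) (Fin n → F)), IsLat L → ∀ 𝔪 : Ideal (𝓞 F), 𝔪 ≠ ⊥ →
  ∃ N : ℕ, N ≠ 0 ∧ ∀ γ : GL (Fin n) F, Cg N γ → gm γ L = L ∧ ∀ y ∈ L, γ.1.mulVec y - y ∈ 𝔪 • L

/-- C12: the stabilisers are small -/
def S_STB : Prop := ∀ (F : Type) [Field F] [NumberField F] (n : ℕ)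
  (L : Submodule (𝓞 F) (Fin n → F)), IsLat L → ∀ N : ℕ, N ≠ 0 →
  ∃ M : ℕ, M ≠ 0 ∧ ∀ γ : GL (Fin n) F, gm γ L = L →
    (∀ y ∈ L, γ.1.mulVec y - y ∈ Ideal.span {(M : 𝓞 F)} • L) → (∀ w, sg γ.1.det w = 1) → Cg N γ

/-! ## D. Hecke operators -/

/-- D1: Hecke operators commute with left translations -/
def S_HKG : Prop := ∀ (F : Type) [Field F] [NumberField F] (n : ℕ) (R W : Type) [CommRing R]
  [AddCommGroup W] [Module R W] (𝔪 : Ideal (𝓞 F)) (v : HeightOneSpectrum (𝓞 F)) (j : ℕ) (a : 𝓞 F)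
  (g : GL (Fin n) F) (φ : Pt F n → W), hk R 𝔪 v j a (tr g φ) = tr g (hk R 𝔪 v j a φ)

/-- D2: Hecke operators commute with right translations -/
def S_HKR : Prop := ∀ (F : Type) [Field F] [NumberField F] (n : ℕ) (R W : Type) [CommRing R]
  [AddCommGroup W] [Module R W] (𝔪 : Ideal (𝓞 F)) (v : HeightOneSpectrum (𝓞 F)) (j : ℕ) (a : 𝓞 F)
  (A : Matrix (Fin n) (Fin n) (𝓞 F)) (φ : Pt F n → W) (x : Pt F n), Ok 𝔪 x → Ok 𝔪 (rt A x) →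
  hk R 𝔪 v j a φ (rt A x) = hk R 𝔪 v j a (fun y => φ (rt A y)) x

/-- D3: Hecke operators preserve the level -/
def S_HKL : Prop := ∀ (F : Type) [Field F] [NumberField F] (n : ℕ) (R W : Type) [CommRing R]
  [AddCommGroup W] [Module R W] (𝔪 : Ideal (𝓞 F)) (v : HeightOneSpectrum (𝓞 F)) (j : ℕ) (a : 𝓞 F),
  ¬ 𝔪 ≤ v.asIdeal → a ∈ v.asIdeal → a - 1 ∈ 𝔪 → ∀ φ : Pt F n → W, Lev 𝔪 φ →
  Lev 𝔪 (hk R 𝔪 v j a φ)

/-- D4: Hecke operators preserve the automorphic functions -/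
def S_HKA : Prop := ∀ (F : Type) [Field F] [NumberField F] (n : ℕ) (R W : Type) [CommRing R]
  [AddCommGroup W] [Module R W] (𝔪 : Ideal (𝓞 F)) (v : HeightOneSpectrum (𝓞 F)) (j : ℕ) (a : 𝓞 F)
  (H : Subgroup (GL (Fin n) (𝓞 F ⧸ 𝔪))) (ρW : Representation R H W),
  ¬ 𝔪 ≤ v.asIdeal → a ∈ v.asIdeal → a - 1 ∈ 𝔪 → ∀ φ : Pt F n → W, Aut ρW φ →
  Aut ρW (hk R 𝔪 v j a φ)

open scoped Classical in
/-- the restriction of a function to the points of level `𝔪` -/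
def rs {F : Type} [Field F] [NumberField F] {n : ℕ} {W : Type} [Zero W] (𝔪 : Ideal (𝓞 F))
    (φ : Pt F n → W) : Pt F n → W := fun x => if Ok 𝔪 x then φ x else 0

/-- D5: change of level -/
def S_HKC : Prop := ∀ (F : Type) [Field F] [NumberField F] (n : ℕ) (R W : Type) [CommRing R]
  [AddCommGroup W] [Module R W] (𝔪 𝔪₁ : Ideal (𝓞 F)) (v : HeightOneSpectrum (𝓞 F)) (j : ℕ)
  (a a₁ : 𝓞 F), 𝔪₁ ≤ 𝔪 → ¬ 𝔪₁ ≤ v.asIdeal → a ∈ v.asIdeal → a - 1 ∈ 𝔪 → a₁ ∈ v.asIdeal →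
  a₁ - 1 ∈ 𝔪₁ → ∀ φ : Pt F n → W, Lev 𝔪 φ →
  hk R 𝔪₁ v j a₁ (rs 𝔪₁ φ) = rs 𝔪₁ (hk R 𝔪 v j a φ)

/-- the action of the Hecke algebra at `v` -/
def act1 (R : Type) {F W : Type} [Field F] [NumberField F] {n : ℕ} [CommRing R] [AddCommGroup W]
    [Module R W] (𝔪 : Ideal (𝓞 F)) (v : HeightOneSpectrum (𝓞 F)) (a : 𝓞 F) :
    FreeAlgebra R (Fin n) →ₐ[R] Module.End R (Pt F n → W) :=
  FreeAlgebra.lift R fun j => hk R 𝔪 v (j.1 + 1) a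

/-- the expected action: `T_j ↦ N_j X^(j+1)` -/
def ThN (R : Type) [CommRing R] {n : ℕ} (N : Fin n → ℕ) : FreeAlgebra R (Fin n) →ₐ[R] R[X] :=
  FreeAlgebra.lift R fun j => C (N j : R) * X ^ (j.1 + 1)

/-- the expected action at `v` -/
def Th (R : Type) [CommRing R] {F : Type} [Field F] [NumberField F] (n : ℕ)
    (v : HeightOneSpectrum (𝓞 F)) : FreeAlgebra R (Fin n) →ₐ[R] R[X] :=
  ThN R fun j : Fin n => deg n v (j.1 + 1)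

/-- `f` is invariant under `SL_n(F)` -/
def Inv {F W : Type} [Field F] [NumberField F] {n : ℕ} (f : Pt F n → W) : Prop :=
  ∀ g : GL (Fin n) F, g.1.det = 1 → ∀ x, f (ga g x) = f x

/-- D6: the Hecke operators on the `SL_n(F)`-invariant functions -/
def S_THE : Prop := ∀ (F : Type) [Field F] [NumberField F] (n : ℕ), 2 ≤ n → ∀ (R W : Type)
  [CommRing R] [AddCommGroup W] [Module R W] (𝔪 : Ideal (𝓞 F)) (v : HeightOneSpectrum (𝓞 F))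
  (a : 𝓞 F), 𝔪 ≠ ⊥ → ¬ 𝔪 ≤ v.asIdeal → a ∈ v.asIdeal → a - 1 ∈ 𝔪 → ∀ f : Pt F n → W, Lev 𝔪 f →
  Inv f → ∀ t : FreeAlgebra R (Fin n), Th R n v t = 0 → act1 R 𝔪 v a t f = 0

/-- D7: eigensystems which kill the kernel of `ThN` -/
def S_EXT : Prop := ∀ (R k : Type) [CommRing R] [Field k] [IsAlgClosed k] [Algebra R k] (n : ℕ)
  (N : Fin n → ℕ) (i : Fin n), N i = 1 → ∀ lam : FreeAlgebra R (Fin n) →ₐ[R] k,
  (∀ t, ThN R N t = 0 → lam t = 0) → ∃ c : k, ∀ j, lam (FreeAlgebra.ι R j) = N j * c ^ (j.1 + 1)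

/-! ## E. Cocycles -/

/-- E1: the germs of a cocycle are invariant under `SL_n(F)` -/
def S_KAP : Prop := ∀ (F : Type) [Field F] [NumberField F] (n : ℕ), GT F n → ∀ (W : Type)
  [AddCommGroup W] (𝔪 : Ideal (𝓞 F)), 𝔪 ≠ ⊥ → ∀ z : GL (Fin n) F → Pt F n → W,
  (∀ g, Lev 𝔪 (z g)) → (∀ g h, z (g * h) = z g + tr g (z h)) →
  ∀ g : GL (Fin n) F, g.1.det = 1 → ∀ x, ∃ N : ℕ, N ≠ 0 ∧ ∀ γ, Cg N γ → z γ (ga g x) = z γ x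

/-- E2: the germs of `t z` vanish if `Th t = 0` -/
def S_VAN : Prop := ∀ (F : Type) [Field F] [NumberField F] (n : ℕ), 2 ≤ n → GT F n → ∀ (R W : Type)
  [CommRing R] [AddCommGroup W] [Module R W] (𝔪 : Ideal (𝓞 F)) (v : HeightOneSpectrum (𝓞 F))
  (a : 𝓞 F), 𝔪 ≠ ⊥ → ¬ 𝔪 ≤ v.asIdeal → a ∈ v.asIdeal → a - 1 ∈ 𝔪 →
  ∀ z : GL (Fin n) F → Pt F n → W, (∀ g, Lev 𝔪 (z g)) → (∀ g h, z (g * h) = z g + tr g (z h)) →
  ∀ t : FreeAlgebra R (Fin n), Th R n v t = 0 →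
    ∀ x, ∃ N : ℕ, N ≠ 0 ∧ ∀ γ, Cg N γ → act1 R 𝔪 v a t (z γ) x = 0

/-- E3: cocycles with vanishing germs are coboundaries in a deeper level -/
def S_COB : Prop := ∀ (F : Type) [Field F] [NumberField F] (n : ℕ) (W : Type) [AddCommGroup W]
  (𝔪 : Ideal (𝓞 F)), 𝔪 ≠ ⊥ → ∀ z : GL (Fin n) F → Pt F n → W, (∀ g, Lev 𝔪 (z g)) →
  (∀ g h, z (g * h) = z g + tr g (z h)) →
  (∀ x, Ok 𝔪 x → ∃ N : ℕ, N ≠ 0 ∧ ∀ γ, Cg N γ → z γ x = 0) →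
  ∃ 𝔪₁ : Ideal (𝓞 F), 𝔪₁ ≤ 𝔪 ∧ 𝔪₁ ≠ ⊥ ∧ ∃ u : Pt F n → W, Lev 𝔪₁ u ∧
    ∀ g x, Ok 𝔪₁ x → z g x = u (ga g⁻¹ x) - u x

/-- E4: descent -/
def S_DSC : Prop := ∀ (F : Type) [Field F] [NumberField F] (n : ℕ), 2 ≤ n → ∀ (R W : Type)
  [CommRing R] [AddCommGroup W] [Module R W] (𝔪 𝔪₁ : Ideal (𝓞 F)), 𝔪₁ ≤ 𝔪 → 𝔪₁ ≠ ⊥ →
  ∀ (H : Subgroup (GL (Fin n) (𝓞 F ⧸ 𝔪))) (ρW : Representation R H W)
  (z : GL (Fin n) F → Pt F n → W), (∀ g, Aut ρW (z g)) → ∀ u : Pt F n → W, Lev 𝔪₁ u →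
  (∀ g x, Ok 𝔪₁ x → z g x = u (ga g⁻¹ x) - u x) →
  ∀ (v : HeightOneSpectrum (𝓞 F)) (a : 𝓞 F), ¬ 𝔪₁ ≤ v.asIdeal → a ∈ v.asIdeal → a - 1 ∈ 𝔪 →
  ∀ t : FreeAlgebra R (Fin n), Th R n v t = 0 →
    ∃ φ : Pt F n → W, Aut ρW φ ∧ ∀ g, act1 R 𝔪 v a t (z g) = tr g φ - φ

/-! ## F. Galois representations -/

/-- F1: group theory -/
def S_GRP : Prop := ∀ (G k : Type) [Group G] [Finite G] [Field k] [IsAlgClosed k] (p : ℕ),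
  p.Prime → CharP k p → ∀ (n : ℕ), n ≠ 0 → ∀ (ρ : G →* GL (Fin n) k) (G' : Subgroup G), G'.Normal →
  (∃ g₀ : G, ∀ g, ∃ i : ℤ, g * g₀ ^ i ∈ G') →
  (∀ g ∈ G', ∃ c : k, (ρ g).1.charpoly = (X - C c) ^ n ∨ (ρ g⁻¹).1.charpoly = (X - C c) ^ n) →
  ∃ v : Fin n → k, v ≠ 0 ∧ ∀ g, ∃ a : k, (ρ g).1.mulVec v = a • v

/-- F2: Chebotarev -/
def S_FRB : Prop := ∀ (F L : Type) [Field F] [NumberField F] [Field L] [NumberField L]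
  [Algebra F L] [IsGalois F L] (p : ℕ), p.Prime → ∀ S : Set (HeightOneSpectrum (𝓞 F)), S.Finite →
  ∃ G' : Subgroup Gal(L/F), G'.Normal ∧ (∃ g₀ : Gal(L/F), ∀ g, ∃ i : ℤ, g * g₀ ^ i ∈ G') ∧
    ∀ g ∈ G', ∃ v : HeightOneSpectrum (𝓞 F), v ∉ S ∧ p ∣ Ideal.absNorm v.asIdeal - 1 ∧
      ∃ (ℓ : ℕ) (_ : Fact ℓ.Prime) (φ : 𝓞 L →+* AlgebraicClosure (ZMod ℓ)), IsFrob v φ g

/-- F3: the polynomial of an eigensystem `N_{v,j} c^j` if `N(v)` is `1` modulo `p` -/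
def S_SAT : Prop := ∀ (F : Type) [Field F] [NumberField F] (n : ℕ)
  (S : Set (HeightOneSpectrum (𝓞 F))) (R k : Type) [CommRing R] [Field k] [Algebra R k]
  (lam : FreeAlgebra R (Ix n S) →ₐ[R] k) (p : ℕ), p.Prime → CharP k p →
  ∀ v : HeightOneSpectrum (𝓞 F), p ∣ Ideal.absNorm v.asIdeal - 1 → ∀ c : k,
  (∀ j, 1 ≤ j → j ≤ n → ev lam v j = deg n v j * c ^ j) → satake lam v = (X - C c) ^ n

end Pool.Agent.T2h61.CG
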