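import Pool.Agent.T2h61.CG.T_BIG

/-!
# B9: the germs are invariant under `SL_n(F)`, `n ≥ 3`
-/

set_option autoImplicit false

open NumberField IsDedekindDomain Matrix Polynomial

noncomputable section

namespace Pool.Agent.T2h61.CG.TGT3

section

variable {F : Type} [Field F] [NumberField F] {n : ℕ}

theorem conj_tw (γ : GL (Fin n) F) (x y : Fin n → F) (h : y ⬝ᵥ x = 0)
    (h' : (y ᵥ* γ⁻¹.1) ⬝ᵥ (γ.1 *ᵥ x) = 0) :
    γ * tw x y h * γ⁻¹ = tw (γ.1 *ᵥ x) (y ᵥ* γ⁻¹.1) h' := by
  apply Units.ext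
  rw [Units.val_mul, Units.val_mul, tw_val, tw_val, mul_add, mul_one, add_mul, ← Units.val_mul,
    mul_inv_cancel, Units.val_one, Matrix.mul_vecMulVec, Matrix.vecMulVec_mul]

theorem main (hSML : S_SML) (hBIG : S_BIG) (hn : 3 ≤ n) (i j : Fin n) (hij : i ≠ j) (t : F)
    (W : Type) [AddCommGroup W] (c : GL (Fin n) F → W) (hc : Adl c) :
    ∃ N : ℕ, N ≠ 0 ∧ ∀ γ, Cg N γ → c (tv i j hij t * γ * (tv i j hij t)⁻¹) = c γ := by
  obtain ⟨N0, h0, hadd⟩ := id hc
  obtain ⟨NS, hNS, hS⟩ := hSML F n hn W c hc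
  obtain ⟨NB, hNB, hB⟩ := hBIG F n hn W c hc i j hij t
  obtain ⟨NC, hNC, hC⟩ := cg_conj (tv i j hij t) h0
  obtain ⟨d, hd, y, hy⟩ := TBIG.exists_den t
  obtain ⟨N, hN⟩ : ∃ N : ℕ, N = NS * N0 * d * (NB * NC) := ⟨_, rfl⟩
  have hNne : N ≠ 0 := by
    rw [hN]; exact mul_ne_zero (mul_ne_zero (mul_ne_zero hNS h0) hd) (mul_ne_zero hNB hNC)
  refine ⟨N, hNne, fun γ hγ => ?_⟩
  have dB : NB ∣ N := by rw [hN]; exact Dvd.dvd.mul_left (dvd_mul_right _ _) _
  have dC : NC ∣ N := by rw [hN]; exact Dvd.dvd.mul_left (dvd_mul_left _ _) _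
  have dS : NS * N0 * d ∣ N := by rw [hN]; exact dvd_mul_right _ _
  have d0 : N0 ∣ N := ((Dvd.dvd.mul_left dvd_rfl NS).mul_right d).trans dS
  have hγ0 : Cg N0 γ := cg_mono d0 hγ
  have hwhole : Cg N0 (tv i j hij t * γ * (tv i j hij t)⁻¹ * γ⁻¹) :=
    cg_mul (hC γ (cg_mono dC hγ)) (cg_inv hγ0)
  have hgoal : c (tv i j hij t * γ * (tv i j hij t)⁻¹ * γ⁻¹) = 0 := by
    obtain ⟨⟨A, hA, hAd⟩, -⟩ := id hγ
    obtain ⟨⟨A', hA', hAd'⟩, -⟩ := cg_inv hγ
    have eA : ∀ a b, γ.1 a b = ((A.1 a b : 𝓞 F) : F) := fun a b => by rw [hA]; rfl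
    have eA' : ∀ a b, γ⁻¹.1 a b = ((A'.1 a b : 𝓞 F) : F) := fun a b => by rw [hA']; rfl
    obtain ⟨u, hu⟩ : ∃ u : Fin n → 𝓞 F, u = fun k => A.1 k i := ⟨_, rfl⟩
    obtain ⟨U, hU⟩ : ∃ U : Fin n → F, U = fun k => (u k : F) := ⟨_, rfl⟩
    obtain ⟨v, hv⟩ : ∃ v : Fin n → F, v = fun k => γ⁻¹.1 j k := ⟨_, rfl⟩
    obtain ⟨w, hw⟩ : ∃ w : Fin n → F, w = fun k => γ⁻¹.1 i k := ⟨_, rfl⟩
    have hUk : ∀ k, U k = γ.1 k i := fun k => by rw [hU, hu, eA]
    have hvk : ∀ k, v k = ((A'.1 j k : 𝓞 F) : F) := fun k => by rw [← eA', hv]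
    have hwk : ∀ k, w k = ((A'.1 i k : 𝓞 F) : F) := fun k => by rw [← eA', hw]
    have hvU : v ⬝ᵥ U = 0 := by
      have h1 : (γ⁻¹.1 * γ.1) j i = 0 := by
        rw [← Units.val_mul, inv_mul_cancel, Units.val_one, Matrix.one_apply_ne hij.symm]
      rw [Matrix.mul_apply] at h1
      rw [← h1, hv]
      exact Finset.sum_congr rfl fun k _ => by rw [hUk]
    have hwU : w ⬝ᵥ U = 1 := by
      have h1 : (γ⁻¹.1 * γ.1) i i = 1 := by
        rw [← Units.val_mul, inv_mul_cancel, Units.val_one, Matrix.one_apply_eq]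
      rw [Matrix.mul_apply] at h1
      rw [← h1, hw]
      exact Finset.sum_congr rfl fun k _ => by rw [hUk]
    have hvU' : ∀ s : F, v ⬝ᵥ (s • U) = 0 := fun s => by rw [dotProduct_smul, hvU, smul_zero]
    have halU : ∀ (k l : Fin n) (s : F), al k l U ⬝ᵥ (s • U) = 0 := fun k l s => al_dot k l s U
    -- the conjugate
    have e1 : tv i j hij t * γ * (tv i j hij t)⁻¹ * γ⁻¹ = tv i j hij t * tw ((-t) • U) v (hvU' _) := by
      rw [mul_assoc, mul_assoc, ← mul_assoc γ]
      congr 1
      rw [tv_inv, tv_eq]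
      have a1 : γ.1 *ᵥ (Pi.single i (-t)) = (-t) • U := by
        funext k
        rw [Matrix.mulVec_single, Pi.smul_apply, Pi.smul_apply, hUk]
        simp [Matrix.col, mul_comm]
      have a2 : (Pi.single j (1 : F)) ᵥ* γ⁻¹.1 = v := by
        rw [Matrix.single_vecMul, hv, one_smul]
        rfl
      rw [conj_tw γ _ _ _ (by rw [a1, a2]; exact hvU' _)]
      exact tw_congr a1 a2
    -- the decomposition of `v`
    obtain ⟨x, hx⟩ : ∃ x : Fin n × Fin n → F, x = fun p => v p.1 * w p.2 -
      (if p = (j, i) then 1 else 0) := ⟨_, rfl⟩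
    have hvdec : v = al j i U + ∑ p : Fin n × Fin n, x p • al p.1 p.2 U := by
      have b1 : ∑ p : Fin n × Fin n, (v p.1 * w p.2) • al p.1 p.2 U = v := by
        funext a
        rw [Finset.sum_apply, Fintype.sum_prod_type]
        simp only [Pi.smul_apply, smul_eq_mul]
        have b2 : ∀ k l : Fin n, v k * w l * al k l U a =
            (if a = k then v k * (w l * U l) else 0) - (if a = l then v k * U k * w l else 0) := by
          intro k l
          unfold al
          by_cases h1 : a = k <;> by_cases h2 : a = l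
          · rw [if_pos h1, if_pos h2, if_pos h1, if_pos h2]; ring
          · rw [if_pos h1, if_neg h2, if_pos h1, if_neg h2]; ring
          · rw [if_neg h1, if_pos h2, if_neg h1, if_pos h2]; ring
          · rw [if_neg h1, if_neg h2, if_neg h1, if_neg h2]; ring
        simp only [b2, Finset.sum_sub_distrib]
        have b3 : ∑ k, ∑ l, (if a = k then v k * (w l * U l) else 0) = v a := by
          rw [Finset.sum_eq_single a]
          · simp only [if_true]
            rw [← Finset.mul_sum]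
            have : ∑ l, w l * U l = 1 := hwU
            rw [this, mul_one]
          · intro b _ hb
            exact Finset.sum_eq_zero fun l _ => if_neg (Ne.symm hb)
          · intro h; exact absurd (Finset.mem_univ _) h
        have b4 : ∑ k, ∑ l, (if a = l then v k * U k * w l else 0) = 0 := by
          simp only [Finset.sum_ite_eq, Finset.mem_univ, if_true]
          rw [← Finset.sum_mul]
          have : ∑ l, v l * U l = 0 := hvU
          rw [this, zero_mul]
        rw [b3, b4, sub_zero]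
      have b5 : ∑ p : Fin n × Fin n, (if p = (j, i) then (1 : F) else 0) • al p.1 p.2 U = al j i U := by
        rw [Finset.sum_eq_single (j, i)]
        · rw [if_pos rfl, one_smul]
        · intro b _ hb; rw [if_neg hb, zero_smul]
        · intro h; exact absurd (Finset.mem_univ _) h
      rw [hx]
      simp only [sub_smul, Finset.sum_sub_distrib]
      rw [b1, b5]
      abel
    -- the coefficients are small
    have hint : ∀ p : Fin n × Fin n, ∃ z : 𝓞 F, x p = (N : F) * z := by
      rintro ⟨k, l⟩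
      obtain ⟨z1, hz1⟩ := hAd' j k
      obtain ⟨z2, hz2⟩ := hAd' i l
      have c1 : v k = (1 : Matrix (Fin n) (Fin n) F) j k + (N : F) * (z1 : F) := by
        have := congrArg (algebraMap (𝓞 F) F) hz1
        rw [map_sub, map_mul, map_natCast] at this
        have e : (algebraMap (𝓞 F) F) ((1 : Matrix (Fin n) (Fin n) (𝓞 F)) j k) =
            (1 : Matrix (Fin n) (Fin n) F) j k := by
          rw [Matrix.one_apply, Matrix.one_apply]; split_ifs <;> simp
        rw [e, sub_eq_iff_eq_add] at this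
        rw [hvk, add_comm]
        exact this
      have c2 : w l = (1 : Matrix (Fin n) (Fin n) F) i l + (N : F) * (z2 : F) := by
        have := congrArg (algebraMap (𝓞 F) F) hz2
        rw [map_sub, map_mul, map_natCast] at this
        have e : (algebraMap (𝓞 F) F) ((1 : Matrix (Fin n) (Fin n) (𝓞 F)) i l) =
            (1 : Matrix (Fin n) (Fin n) F) i l := by
          rw [Matrix.one_apply, Matrix.one_apply]; split_ifs <;> simp
        rw [e, sub_eq_iff_eq_add] at this
        rw [hwk, add_comm]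
        exact this
      have c3 : (if (k, l) = (j, i) then (1 : F) else 0) =
          (1 : Matrix (Fin n) (Fin n) F) j k * (1 : Matrix (Fin n) (Fin n) F) i l := by
        rw [Matrix.one_apply, Matrix.one_apply]
        by_cases h1 : j = k <;> by_cases h2 : i = l
        · rw [if_pos h1, if_pos h2, if_pos (by rw [h1, h2]), mul_one]
        · rw [if_pos h1, if_neg h2, if_neg (fun h => h2 (Prod.mk.inj h).2.symm), mul_zero]
        · rw [if_neg h1, if_neg (fun h => h1 (Prod.mk.inj h).1.symm), zero_mul]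
        · rw [if_neg h1, if_neg (fun h => h1 (Prod.mk.inj h).1.symm), zero_mul]
      have c4 : ∃ o : 𝓞 F, (o : F) = (1 : Matrix (Fin n) (Fin n) F) j k := by
        rw [Matrix.one_apply]; split_ifs
        · exact ⟨1, map_one _⟩
        · exact ⟨0, map_zero _⟩
      obtain ⟨o, ho⟩ := c4
      refine ⟨o * z2 + z1 * A'.1 i l, ?_⟩
      rw [hx]
      simp only
      rw [c3]
      have e2 : ((o * z2 + z1 * A'.1 i l : 𝓞 F) : F) = (o : F) * z2 + z1 * w l := by
        rw [hwk]
        exact map_add (algebraMap (𝓞 F) F) _ _ |>.trans (by rw [map_mul, map_mul])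
      rw [e2, ho, c1]
      have e3 : w l - (1 : Matrix (Fin n) (Fin n) F) i l = (N : F) * (z2 : F) := by rw [c2]; ring
      linear_combination (1 : Matrix (Fin n) (Fin n) F) j k * e3
    obtain ⟨q, hq⟩ := dS
    have hcoef : ∀ p : Fin n × Fin n, ∃ τ : 𝓞 F, (-t) * x p = (NS : F) * τ ∧ (N0 : 𝓞 F) ∣ τ := by
      intro p
      obtain ⟨z, hz⟩ := hint p
      refine ⟨(N0 : 𝓞 F) * (-(y * q * z)), ?_, dvd_mul_right _ _⟩
      have e2 : (((N0 : 𝓞 F) * (-(y * q * z)) : 𝓞 F) : F) = (N0 : F) * (-((y : F) * q * z)) := by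
        have h1 := map_neg (algebraMap (𝓞 F) F) (y * q * z)
        rw [map_mul, map_mul, map_natCast] at h1
        rw [TBIG.coe_mul', TBIG.coe_nat']
        exact congrArg (fun r => (N0 : F) * r) h1
      rw [hz, e2, ← hy, hq]
      push_cast
      ring
    -- the small part
    have hsmall : ∀ s : Finset (Fin n × Fin n), ∃ hd : (∑ p ∈ s, x p • al p.1 p.2 U) ⬝ᵥ ((-t) • U) = 0,
        Cg N0 (tw ((-t) • U) (∑ p ∈ s, x p • al p.1 p.2 U) hd) ∧
          c (tw ((-t) • U) (∑ p ∈ s, x p • al p.1 p.2 U) hd) = 0 := by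
      intro s
      induction s using Finset.induction_on with
      | empty =>
        refine ⟨by rw [Finset.sum_empty, zero_dotProduct], ?_⟩
        have e2 : ∀ h, tw ((-t) • U) (∑ p ∈ (∅ : Finset (Fin n × Fin n)), x p • al p.1 p.2 U) h = 1 := by
          intro h
          apply Units.ext
          rw [tw_val, Finset.sum_empty, Matrix.vecMulVec_zero, add_zero, Units.val_one]
        rw [e2]
        exact ⟨cg_one N0, adl_one hadd⟩
      | insert p s hp ih =>
        obtain ⟨hd', h1, h2⟩ := ih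
        have hdp : (x p • al p.1 p.2 U) ⬝ᵥ ((-t) • U) = 0 := by
          rw [smul_dotProduct, halU, smul_zero]
        refine ⟨by rw [Finset.sum_insert hp, add_dotProduct, hdp, hd', add_zero], ?_⟩
        obtain ⟨τ, hτ, hτ0⟩ := hcoef p
        have e2 : tw ((-t) • U) (x p • al p.1 p.2 U) hdp =
            tk p.1 p.2 ((NS : F) * τ) (fun a => (u a : F)) := by
          rw [← hU]
          unfold tk
          apply Units.ext
          rw [tw_val, tw_val, ← hτ, Matrix.vecMulVec_smul, ← Matrix.smul_vecMulVec, smul_smul,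
            mul_comm]
        have h3 : c (tw ((-t) • U) (x p • al p.1 p.2 U) hdp) = 0 := by
          rw [e2]; exact hS u p.1 p.2 τ
        have h4 : Cg N0 (tw ((-t) • U) (x p • al p.1 p.2 U) hdp) := by
          rw [e2]
          unfold tk
          refine cg_tw (X := fun a => (NS : 𝓞 F) * τ * u a)
            (Y := fun a => (if a = p.1 then u p.2 else 0) - (if a = p.2 then u p.1 else 0)) ?_ ?_ ?_ _
          · intro a b
            exact ((hτ0.mul_left _).mul_right _).mul_right _
          · funext a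
            rw [Pi.smul_apply, smul_eq_mul, TBIG.coe_mul', TBIG.coe_mul', TBIG.coe_nat']
          · funext a
            unfold al
            rw [TBIG.coe_sub']
            congr 1 <;> split_ifs <;> first | rfl | exact (map_zero (algebraMap (𝓞 F) F)).symm
        have e3 : ∀ h, tw ((-t) • U) (∑ p ∈ insert p s, x p • al p.1 p.2 U) h =
            tw ((-t) • U) (x p • al p.1 p.2 U) hdp * tw ((-t) • U) (∑ p ∈ s, x p • al p.1 p.2 U) hd' := by
          intro h
          rw [tw_mul_right]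
          exact tw_congr rfl (Finset.sum_insert hp)
        rw [e3]
        exact ⟨cg_mul h4 h1, by rw [hadd _ _ h4 h1, h2, h3, add_zero]⟩
    obtain ⟨hd', h1, h2⟩ := hsmall Finset.univ
    have e4 : tw ((-t) • U) v (hvU' _) = tk j i (-t) (fun a => (u a : F)) *
        tw ((-t) • U) (∑ p ∈ Finset.univ, x p • al p.1 p.2 U) hd' := by
      rw [← hU]
      unfold tk
      rw [tw_mul_right]
      exact tw_congr rfl hvdec
    rw [e1, e4, ← mul_assoc] at hwhole ⊢
    have h5 : Cg N0 (tv i j hij t * tk j i (-t) (fun a => (u a : F))) := by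
      have := cg_mul hwhole (cg_inv h1)
      rwa [mul_inv_cancel_right] at this
    rw [hadd _ _ h5 h1, h2, add_zero]
    apply hB
    intro k
    have h6 := hAd k i
    have h7 : (1 : Matrix (Fin n) (Fin n) (𝓞 F)) k i = (Pi.single i 1 : Fin n → 𝓞 F) k := by
      by_cases h : k = i
      · subst h; rw [Matrix.one_apply_eq, Pi.single_eq_same]
      · rw [Matrix.one_apply_ne h, Pi.single_eq_of_ne h]
    rw [h7] at h6
    rw [hu]
    exact (by exact_mod_cast Nat.cast_dvd_cast dB : (NB : 𝓞 F) ∣ N).trans h6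
  have h8 := hadd _ _ hwhole hγ0
  rw [hgoal, zero_add] at h8
  rw [← h8, inv_mul_cancel_right]

/-- the elements which leave all germs invariant -/
def Sg (F : Type) [Field F] [NumberField F] (n : ℕ) : Subgroup (GL (Fin n) F) where
  carrier := {g | ∀ (W : Type) [AddCommGroup W] (c : GL (Fin n) F → W), Adl c →
    ∃ N : ℕ, N ≠ 0 ∧ ∀ γ, Cg N γ → c (g * γ * g⁻¹) = c γ}
  one_mem' := fun W _ c _ => ⟨1, one_ne_zero, fun γ _ => by rw [one_mul, inv_one, mul_one]⟩
  mul_mem' := by
    intro g h hg hh W _ c hc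
    obtain ⟨N, hN, h1⟩ := hg W c hc
    obtain ⟨N', hN', h2⟩ := hh W _ (adl_conj hc g)
    refine ⟨N * N', mul_ne_zero hN hN', fun γ hγ => ?_⟩
    have h3 := h2 γ (cg_mono (dvd_mul_left _ _) hγ)
    have h4 := h1 γ (cg_mono (dvd_mul_right _ _) hγ)
    rw [h4] at h3
    rw [← h3]
    congr 1
    group
  inv_mem' := by
    intro g hg W _ c hc
    obtain ⟨N, hN, h1⟩ := hg W _ (adl_conj hc g⁻¹)
    refine ⟨N, hN, fun γ hγ => ?_⟩
    have h3 := h1 γ hγ
    rw [← h3]
    congr 1
    group

end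

theorem t_GT3 (hSML : S_SML) (hBIG : S_BIG) (hSLG : S_SLG) : S_GT3 := by
  intro F _ _ n hn W _ c hc g hg
  have h1 : g ∈ Sg F n := by
    refine (Subgroup.closure_le (Sg F n)).2 ?_ (hSLG F n g hg)
    rintro _ ⟨i, j, hij, x, rfl⟩ W _ c hc
    exact main hSML hBIG hn i j hij x W c hc
  exact h1 W c hc

end Pool.Agent.T2h61.CG.TGT3
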