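import Pool.Agent.T2h61.CG.Stm

/-!
# F3: the Satake polynomial of an eigensystem `N_{v,j} c^j` modulo `p`, `N(v) = 1` modulo `p`
-/

set_option autoImplicit false

open NumberField IsDedekindDomain Matrix Polynomial

noncomputable section

namespace Pool.Agent.T2h61.CG.TSAT

theorem isLat_std (F : Type) [Field F] [NumberField F] (n : ℕ) : IsLat (stdL F n) := by
  refine ⟨Submodule.fg_span (Set.finite_range _), ?_⟩
  rw [eq_top_iff, ← (Pi.basisFun F (Fin n)).span_eq]
  refine Submodule.span_mono ?_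
  rintro _ ⟨i, rfl⟩
  rw [Pi.basisFun_apply]
  exact Submodule.subset_span ⟨i, rfl⟩

theorem card_quot {F : Type} [Field F] [NumberField F] (v : HeightOneSpectrum (𝓞 F)) :
    Nat.card (𝓞 F ⧸ v.asIdeal) = Ideal.absNorm v.asIdeal := rfl

theorem deg_mod (h1 : S_GRS) (h2 : S_CNP) {F : Type} [Field F] [NumberField F] (n : ℕ) {p : ℕ}
    (hp : p.Prime) (v : HeightOneSpectrum (𝓞 F)) (hv : p ∣ Ideal.absNorm v.asIdeal - 1) {j : ℕ}
    (hj : j ≤ n) : deg n v j ≡ n.choose j [MOD p] := by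
  have hm : v.asIdeal.IsMaximal := v.isMaximal
  have hfin : Finite (𝓞 F ⧸ v.asIdeal) := Ideal.finiteQuotientOfFreeOfNeBot v.asIdeal v.ne_bot
  have e1 : deg n v j = Nat.card {U : Submodule (𝓞 F ⧸ v.asIdeal) (Fin n → 𝓞 F ⧸ v.asIdeal) //
      Module.finrank (𝓞 F ⧸ v.asIdeal) U = n - j} := by
    unfold deg
    rw [(h1 F n _ (isLat_std F n) v j).2]
    exact Nat.card_congr (Equiv.subtypeEquivRight fun U => by omega)
  rw [e1, ← Nat.choose_symm hj]
  letI : Field (𝓞 F ⧸ v.asIdeal) := Ideal.Quotient.field v.asIdeal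
  exact h2 (𝓞 F ⧸ v.asIdeal) n p hp hv (n - j)

theorem t_SAT (h1 : S_GRS) (h2 : S_CNP) : S_SAT := by
  intro F _ _ n S R k _ _ _ lam p hp hc v hv c hev
  have hN0 : Ideal.absNorm v.asIdeal ≠ 0 := by
    rw [Ne, Ideal.absNorm_eq_zero_iff]; exact v.ne_bot
  have hN : (Ideal.absNorm v.asIdeal : k) = 1 := by
    obtain ⟨m, hm⟩ := hv
    have : Ideal.absNorm v.asIdeal = p * m + 1 := by omega
    rw [this]; push_cast
    rw [CharP.cast_eq_zero k p]; ring
  have e5 : ∀ j ∈ Finset.range (n + 1), ev lam v j = (n.choose j : k) * c ^ j := by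
    intro j hj
    have hjn : j ≤ n := Nat.lt_succ_iff.1 (Finset.mem_range.1 hj)
    rcases Nat.eq_zero_or_pos j with h0 | h0
    · subst h0
      unfold ev
      rw [dif_neg (fun hc => by omega), Nat.choose_zero_right, Nat.cast_one, pow_zero, mul_one]
    · rw [hev j h0 hjn, CharP.natCast_eq_natCast' k p (deg_mod h1 h2 n hp v hv hjn)]
  rw [sub_eq_neg_add, add_pow]
  unfold satake
  refine Finset.sum_congr rfl fun j hj => ?_
  rw [e5 j hj, hN, one_pow, mul_one, neg_pow]
  simp only [map_mul, map_pow, map_neg, map_one, map_natCast]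
  ring

end Pool.Agent.T2h61.CG.TSAT
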