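import Pool.Agent.T2h61.CG.Stm

/-!
# Lemmas on the matrices `1 + u ρᵀ`
-/

set_option autoImplicit false

open NumberField IsDedekindDomain Matrix Polynomial

noncomputable section

namespace Pool.Agent.T2h61.CG

section

variable {F : Type} [Field F] [NumberField F] {n : ℕ}

theorem tw_val (x y : Fin n → F) (h : y ⬝ᵥ x = 0) : (tw x y h).1 = 1 + Matrix.vecMulVec x y := rfl

theorem tw_inv_val (x y : Fin n → F) (h : y ⬝ᵥ x = 0) :
    (tw x y h)⁻¹.1 = 1 - Matrix.vecMulVec x y := rfl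

theorem tw_inv (x y : Fin n → F) (h : y ⬝ᵥ x = 0) :
    (tw x y h)⁻¹ = tw (-x) y (by rw [dotProduct_neg, h, neg_zero]) := by
  apply Units.ext
  rw [tw_inv_val, tw_val, Matrix.neg_vecMulVec, sub_eq_add_neg]

theorem tw_mul_right (x y y' : Fin n → F) (h : y ⬝ᵥ x = 0) (h' : y' ⬝ᵥ x = 0) :
    tw x y h * tw x y' h' = tw x (y + y') (by rw [add_dotProduct, h, h', add_zero]) := by
  apply Units.ext
  rw [Units.val_mul, tw_val, tw_val, tw_val, mul_add, mul_one, add_mul, one_mul,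
    Matrix.vecMulVec_mul_vecMulVec, h, zero_smul, Matrix.vecMulVec_zero, add_zero,
    Matrix.vecMulVec_add, add_assoc]

theorem tw_mul_left (x x' y : Fin n → F) (h : y ⬝ᵥ x = 0) (h' : y ⬝ᵥ x' = 0) :
    tw x y h * tw x' y h' = tw (x + x') y (by rw [dotProduct_add, h, h', add_zero]) := by
  apply Units.ext
  rw [Units.val_mul, tw_val, tw_val, tw_val, mul_add, mul_one, add_mul, one_mul,
    Matrix.vecMulVec_mul_vecMulVec, h', zero_smul, Matrix.vecMulVec_zero, add_zero,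
    Matrix.add_vecMulVec, add_assoc]

theorem tw_congr {x x' y y' : Fin n → F} {h : y ⬝ᵥ x = 0} {h' : y' ⬝ᵥ x' = 0} (hx : x = x')
    (hy : y = y') : tw x y h = tw x' y' h' := by
  subst hx; subst hy; rfl

theorem tw_zero_left (y : Fin n → F) (h : y ⬝ᵥ (0 : Fin n → F) = 0) : tw 0 y h = 1 := by
  apply Units.ext
  rw [tw_val, Matrix.zero_vecMulVec, add_zero, Units.val_one]

theorem tw_zero_right (x : Fin n → F) (h : (0 : Fin n → F) ⬝ᵥ x = 0) : tw x 0 h = 1 := by
  apply Units.ext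
  rw [tw_val, Matrix.vecMulVec_zero, add_zero, Units.val_one]

/-- a commutator -/
theorem tw_comm {x e f y : Fin n → F} (h1 : e ⬝ᵥ x = 0) (h2 : y ⬝ᵥ f = 0) (h3 : e ⬝ᵥ f = 1)
    (h4 : y ⬝ᵥ x = 0) :
    tw x e h1 * tw f y h2 * (tw x e h1)⁻¹ * (tw f y h2)⁻¹ = tw x y h4 := by
  apply Units.ext
  rw [Units.val_mul, Units.val_mul, Units.val_mul, tw_val, tw_val, tw_val, tw_inv_val, tw_inv_val]
  have p1 : Matrix.vecMulVec x e * Matrix.vecMulVec x e = 0 := by
    rw [Matrix.vecMulVec_mul_vecMulVec, h1, zero_smul, Matrix.vecMulVec_zero]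
  have p2 : Matrix.vecMulVec f y * Matrix.vecMulVec f y = 0 := by
    rw [Matrix.vecMulVec_mul_vecMulVec, h2, zero_smul, Matrix.vecMulVec_zero]
  have p3 : Matrix.vecMulVec x e * Matrix.vecMulVec f y = Matrix.vecMulVec x y := by
    rw [Matrix.vecMulVec_mul_vecMulVec, h3, one_smul]
  have p4 : Matrix.vecMulVec f y * Matrix.vecMulVec x e = 0 := by
    rw [Matrix.vecMulVec_mul_vecMulVec, h4, zero_smul, Matrix.vecMulVec_zero]
  have p5 : Matrix.vecMulVec x y * Matrix.vecMulVec x e = 0 := by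
    rw [Matrix.vecMulVec_mul_vecMulVec, h4, zero_smul, Matrix.vecMulVec_zero]
  have p6 : Matrix.vecMulVec x y * Matrix.vecMulVec f y = 0 := by
    rw [Matrix.vecMulVec_mul_vecMulVec, h2, zero_smul, Matrix.vecMulVec_zero]
  simp only [mul_add, add_mul, mul_sub, sub_mul, mul_one, one_mul, p1, p2, p3, p4, p5, p6, zero_mul,
    mul_zero]
  abel

theorem tv_eq (i j : Fin n) (hij : i ≠ j) (x : F) :
    tv i j hij x = tw (Pi.single i x) (Pi.single j 1)
      (by rw [single_dotProduct, one_mul, Pi.single_eq_of_ne hij.symm]) := by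
  apply Units.ext
  rw [tw_val]
  change Matrix.transvection i j x = _
  unfold Matrix.transvection
  congr 1
  ext a b
  rw [Matrix.vecMulVec_apply, Matrix.single_apply]
  by_cases ha : a = i
  · subst ha
    rw [Pi.single_eq_same]
    by_cases hb : b = j
    · subst hb
      rw [Pi.single_eq_same, if_pos ⟨rfl, rfl⟩, mul_one]
    · rw [Pi.single_eq_of_ne hb, if_neg (fun h => hb h.2.symm), mul_zero]
  · rw [Pi.single_eq_of_ne ha, if_neg (fun h => ha h.1.symm), zero_mul]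

theorem tv_mul (i j : Fin n) (hij : i ≠ j) (x y : F) :
    tv i j hij x * tv i j hij y = tv i j hij (x + y) := by
  rw [tv_eq, tv_eq, tw_mul_left, tv_eq]
  exact tw_congr (Pi.single_add _ _ _).symm rfl

theorem tv_inv (i j : Fin n) (hij : i ≠ j) (x : F) : (tv i j hij x)⁻¹ = tv i j hij (-x) := by
  rw [tv_eq, tw_inv, tv_eq]
  exact tw_congr (Pi.single_neg _ _).symm rfl

theorem det_tw (x y : Fin n → F) (h : y ⬝ᵥ x = 0) : (tw x y h).1.det = 1 := by
  rw [tw_val, Matrix.vecMulVec_eq Unit, Matrix.det_one_add_replicateCol_mul_replicateRow, h,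
    add_zero]

theorem cg_tw {N : ℕ} {X Y : Fin n → 𝓞 F} (hXY : ∀ i j, (N : 𝓞 F) ∣ X i * Y j) {x y : Fin n → F}
    (hx : x = fun i => (X i : F)) (hy : y = fun i => (Y i : F)) (h : y ⬝ᵥ x = 0) :
    Cg N (tw x y h) := by
  subst hx; subst hy
  have h0 : Y ⬝ᵥ X = 0 := by
    apply RingOfIntegers.coe_injective
    have h1 := RingHom.map_dotProduct (algebraMap (𝓞 F) F) Y X
    rw [map_zero]
    exact h1.trans h
  have hm : ∀ M : Matrix (Fin n) (Fin n) (𝓞 F), M = Matrix.vecMulVec X Y →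
      M.map (algebraMap (𝓞 F) F) = Matrix.vecMulVec (fun i => (X i : F)) (fun i => (Y i : F)) := by
    rintro M rfl
    ext i j
    rw [Matrix.map_apply, Matrix.vecMulVec_apply, Matrix.vecMulVec_apply, map_mul]
  have e : Matrix.vecMulVec X Y * Matrix.vecMulVec X Y = 0 := by
    rw [Matrix.vecMulVec_mul_vecMulVec, h0, zero_smul, Matrix.vecMulVec_zero]
  refine ⟨⟨⟨1 + Matrix.vecMulVec X Y, 1 - Matrix.vecMulVec X Y, ?_, ?_⟩, ?_, ?_⟩, ?_⟩
  · rw [add_mul, one_mul, mul_sub, mul_one, e]; abel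
  · rw [sub_mul, one_mul, mul_add, mul_one, e]; abel
  · apply Units.ext
    rw [tw_val, ← hm _ rfl]
    ext i j
    change _ = algebraMap (𝓞 F) F ((1 + Matrix.vecMulVec X Y : Matrix (Fin n) (Fin n) (𝓞 F)) i j)
    rw [Matrix.add_apply, Matrix.add_apply, map_add, Matrix.map_apply]
    congr 1
    rw [Matrix.one_apply, Matrix.one_apply]; split_ifs <;> simp
  · intro i j
    change (N : 𝓞 F) ∣ (1 + Matrix.vecMulVec X Y : Matrix (Fin n) (Fin n) (𝓞 F)) i j - _
    rw [Matrix.add_apply, add_sub_cancel_left, Matrix.vecMulVec_apply]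
    exact hXY i j
  · intro w
    rw [det_tw, sg_one]

theorem cg_tv {N : ℕ} (i j : Fin n) (hij : i ≠ j) (y : 𝓞 F) : Cg N (tv i j hij ((N : F) * y)) := by
  rw [tv_eq]
  refine cg_tw (X := Pi.single i ((N : 𝓞 F) * y)) (Y := Pi.single j 1) ?_ ?_ ?_ _
  · intro a b
    refine Dvd.dvd.mul_right ?_ _
    by_cases h : a = i
    · subst h; rw [Pi.single_eq_same]; exact dvd_mul_right _ _
    · rw [Pi.single_eq_of_ne h]; exact dvd_zero _
  · funext a
    by_cases h : a = i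
    · subst h; rw [Pi.single_eq_same, Pi.single_eq_same]; push_cast; rfl
    · rw [Pi.single_eq_of_ne h, Pi.single_eq_of_ne h]; rfl
  · funext a
    by_cases h : a = j
    · subst h; rw [Pi.single_eq_same, Pi.single_eq_same]; rfl
    · rw [Pi.single_eq_of_ne h, Pi.single_eq_of_ne h]; rfl

/-- consequences of additivity -/
theorem adl_one {W : Type} [AddCommGroup W] {c : GL (Fin n) F → W} {N : ℕ}
    (h : ∀ γ δ, Cg N γ → Cg N δ → c (γ * δ) = c γ + c δ) : c 1 = 0 := by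
  have := h 1 1 (cg_one N) (cg_one N)
  rw [mul_one] at this
  exact left_eq_add.1 this

theorem adl_inv {W : Type} [AddCommGroup W] {c : GL (Fin n) F → W} {N : ℕ}
    (h : ∀ γ δ, Cg N γ → Cg N δ → c (γ * δ) = c γ + c δ) {γ : GL (Fin n) F} (hγ : Cg N γ) :
    c γ⁻¹ = -c γ := by
  have := h γ⁻¹ γ (cg_inv hγ) hγ
  rw [inv_mul_cancel, adl_one h] at this
  exact eq_neg_of_add_eq_zero_left this.symm

theorem adl_mono {W : Type} [AddCommGroup W] {c : GL (Fin n) F → W} {N N' : ℕ} (hN : N ∣ N')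
    (h : ∀ γ δ, Cg N γ → Cg N δ → c (γ * δ) = c γ + c δ) :
    ∀ γ δ, Cg N' γ → Cg N' δ → c (γ * δ) = c γ + c δ :=
  fun γ δ hγ hδ => h γ δ (cg_mono hN hγ) (cg_mono hN hδ)

theorem adl_conj {W : Type} [AddCommGroup W] {c : GL (Fin n) F → W} (h : Adl c)
    (g : GL (Fin n) F) : Adl (fun γ => c (g * γ * g⁻¹)) := by
  obtain ⟨N, hN, h⟩ := h
  obtain ⟨N', hN', h'⟩ := cg_conj g hN
  refine ⟨N', hN', fun γ δ hγ hδ => ?_⟩
  have := h _ _ (h' γ hγ) (h' δ hδ)
  rw [← this]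
  congr 1
  group

end

end Pool.Agent.T2h61.CG
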